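import Pool.Agent.Helper566.Map2

open MeasureTheory Set Filter Topology Metric
open scoped RealInnerProductSpace ContDiff

namespace Pool.Agent.Helper566.Map
open Pool.Agent.Helper566.Profile

variable {n : ℕ}

/-! ### Pointwise bounds on the punctured ball -/

/-- the weight `w = |x|⁻¹ t^{-1/2}` -/
noncomputable def w (x : E n) : ℝ := ‖x‖⁻¹ * s (tt x)

lemma abs_coord_le (x : E n) (i : Fin n) : |x i| ≤ ‖x‖ := by
  simpa using PiLp.norm_apply_le x i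

lemma t_mul_s {t : ℝ} (ht : 0 < t) : t * s t = Real.sqrt t := by
  rw [s]
  have h := Real.sqrt_pos.2 ht
  field_simp
  exact (Real.sq_sqrt ht.le).symm

lemma sqrt_le_w {x : E n} (hx : x ∈ PB n) : Real.sqrt (tt x) ≤ w x := by
  have ht := tt_pos hx
  rw [← t_mul_s ht, w]
  exact mul_le_mul_of_nonneg_right (tt_mul_norm_le hx) (s_pos ht).le

lemma one_le_w {x : E n} (hx : x ∈ PB n) : 1 ≤ w x :=
  (Real.one_le_sqrt.2 (one_le_tt hx)).trans (sqrt_le_w hx)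

lemma w_pos {x : E n} (hx : x ∈ PB n) : 0 < w x := lt_of_lt_of_le one_pos (one_le_w hx)

lemma abs_coord_mul_le {x : E n} (hx : x ∈ PB n) (j : Fin n) : ‖x‖⁻¹ * |x j| ≤ 1 := by
  have hp := norm_pos_of_PB hx
  rw [inv_mul_le_iff₀ hp, mul_one]
  exact abs_coord_le x j

lemma abs_u_le {x : E n} (hx : x ∈ PB n) (i : Fin (n + 1)) : |u x i| ≤ 2 * w x := by
  have ht := tt_pos hx
  have ht1 := one_le_tt hx
  refine Fin.cases ?_ (fun j => ?_) i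
  · simp only [u, Fin.cases_zero]
    rw [abs_of_nonneg (Real.log_nonneg ht1)]
    have h1 : Real.log (tt x) = 2 * Real.log (Real.sqrt (tt x)) := by
      rw [Real.log_sqrt ht.le]; ring
    have h2 := Real.log_le_sub_one_of_pos (Real.sqrt_pos.2 ht)
    have h3 := sqrt_le_w hx
    linarith
  · simp only [u, Fin.cases_succ]
    rw [abs_mul, abs_mul, abs_of_pos (pow_pos (s_pos ht) 3), abs_of_pos (inv_pos.2 (norm_pos_of_PB hx))]
    have h1 := abs_coord_mul_le hx j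
    have h2 : s (tt x) ^ 3 ≤ 1 := pow_le_one₀ (s_pos ht).le (s_le_one ht1)
    have h3 := one_le_w hx
    calc s (tt x) ^ 3 * ‖x‖⁻¹ * |x j| = s (tt x) ^ 3 * (‖x‖⁻¹ * |x j|) := by ring
      _ ≤ 1 * 1 := by gcongr
      _ ≤ 2 * w x := by linarith

lemma abs_u_le' {x : E n} (hx : x ∈ PB n) (i : Fin (n + 1)) : |u x i| ≤ ‖x‖⁻¹ := by
  have ht := tt_pos hx
  have ht1 := one_le_tt hx
  have h0 := tt_mul_norm_le hx
  refine Fin.cases ?_ (fun j => ?_) i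
  · simp only [u, Fin.cases_zero]
    rw [abs_of_nonneg (Real.log_nonneg ht1)]
    have h2 := Real.log_le_sub_one_of_pos ht
    linarith
  · simp only [u, Fin.cases_succ]
    rw [abs_mul, abs_mul, abs_of_pos (pow_pos (s_pos ht) 3), abs_of_pos (inv_pos.2 (norm_pos_of_PB hx))]
    have h1 := abs_coord_mul_le hx j
    have h2 : s (tt x) ^ 3 ≤ 1 := pow_le_one₀ (s_pos ht).le (s_le_one ht1)
    calc s (tt x) ^ 3 * ‖x‖⁻¹ * |x j| = s (tt x) ^ 3 * (‖x‖⁻¹ * |x j|) := by ring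
      _ ≤ 1 * 1 := by gcongr
      _ ≤ ‖x‖⁻¹ := by linarith

lemma abs_e_le (j α : Fin n) : |(e j α : ℝ)| ≤ 1 := by
  rw [e_apply]; split_ifs <;> simp

lemma abs_Du_le {x : E n} (hx : x ∈ PB n) (i : Fin (n + 1)) (α : Fin n) :
    |Du x i α| ≤ 4 * (s (tt x) ^ 2 * ‖x‖⁻¹) := by
  have ht := tt_pos hx
  have ht1 := one_le_tt hx
  have hs := s_pos ht
  have hs1 := s_le_one ht1
  have hr := inv_pos.2 (norm_pos_of_PB hx)
  refine Fin.cases ?_ (fun j => ?_) i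
  · simp only [Du, Fin.cases_zero]
    rw [abs_neg, abs_mul, abs_of_pos (by positivity : 0 < s (tt x) ^ 2 * ‖x‖⁻¹ ^ 2)]
    have h1 := abs_coord_mul_le hx α
    calc s (tt x) ^ 2 * ‖x‖⁻¹ ^ 2 * |x α| = s (tt x) ^ 2 * ‖x‖⁻¹ * (‖x‖⁻¹ * |x α|) := by ring
      _ ≤ s (tt x) ^ 2 * ‖x‖⁻¹ * 1 := by gcongr
      _ ≤ 4 * (s (tt x) ^ 2 * ‖x‖⁻¹) := by
          have : 0 < s (tt x) ^ 2 * ‖x‖⁻¹ := by positivity
          linarith
  · simp only [Du, Fin.cases_succ]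
    have h1 := abs_coord_mul_le hx α
    have h2 := abs_coord_mul_le hx j
    have h3 : |3 / 2 * s (tt x) ^ 5 - s (tt x) ^ 3| ≤ 5 / 2 * s (tt x) ^ 2 := by
      have e1 : s (tt x) ^ 5 ≤ s (tt x) ^ 2 := pow_le_pow_of_le_one hs.le hs1 (by norm_num)
      have e2 : s (tt x) ^ 3 ≤ s (tt x) ^ 2 := pow_le_pow_of_le_one hs.le hs1 (by norm_num)
      have e3 : 0 < s (tt x) ^ 5 := by positivity
      have e4 : 0 < s (tt x) ^ 3 := by positivity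
      rw [abs_le]; constructor <;> linarith
    have h4 : s (tt x) ^ 3 ≤ s (tt x) ^ 2 := pow_le_pow_of_le_one hs.le hs1 (by norm_num)
    have h5 : |(3 / 2 * s (tt x) ^ 5 - s (tt x) ^ 3) * ‖x‖⁻¹ ^ 3 * (x j * x α)|
        ≤ 5 / 2 * (s (tt x) ^ 2 * ‖x‖⁻¹) := by
      rw [abs_mul, abs_mul, abs_mul, abs_of_pos (by positivity : 0 < ‖x‖⁻¹ ^ 3)]
      calc |3 / 2 * s (tt x) ^ 5 - s (tt x) ^ 3| * ‖x‖⁻¹ ^ 3 * (|x j| * |x α|)
          = |3 / 2 * s (tt x) ^ 5 - s (tt x) ^ 3| * ‖x‖⁻¹ * ((‖x‖⁻¹ * |x j|) * (‖x‖⁻¹ * |x α|)) := by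
            ring
        _ ≤ (5 / 2 * s (tt x) ^ 2) * ‖x‖⁻¹ * (1 * 1) := by gcongr
        _ = 5 / 2 * (s (tt x) ^ 2 * ‖x‖⁻¹) := by ring
    have h6 : |s (tt x) ^ 3 * ‖x‖⁻¹ * e j α| ≤ s (tt x) ^ 2 * ‖x‖⁻¹ := by
      rw [abs_mul, abs_of_pos (by positivity : 0 < s (tt x) ^ 3 * ‖x‖⁻¹)]
      calc s (tt x) ^ 3 * ‖x‖⁻¹ * |(e j α : ℝ)| ≤ s (tt x) ^ 2 * ‖x‖⁻¹ * 1 := by
            gcongr
            exact abs_e_le j α
        _ = s (tt x) ^ 2 * ‖x‖⁻¹ := mul_one _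
    have h7 : 0 < s (tt x) ^ 2 * ‖x‖⁻¹ := by positivity
    refine (abs_add_le _ _).trans ?_
    linarith

lemma abs_Du_le_w {x : E n} (hx : x ∈ PB n) (i : Fin (n + 1)) (α : Fin n) :
    |Du x i α| ≤ 4 * w x := by
  refine (abs_Du_le hx i α).trans ?_
  have ht := tt_pos hx
  have hs := s_pos ht
  have hs1 := s_le_one (one_le_tt hx)
  have hr := inv_pos.2 (norm_pos_of_PB hx)
  rw [w]
  have : s (tt x) ^ 2 * ‖x‖⁻¹ ≤ ‖x‖⁻¹ * s (tt x) := by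
    calc s (tt x) ^ 2 * ‖x‖⁻¹ = s (tt x) * (‖x‖⁻¹ * s (tt x)) := by ring
      _ ≤ 1 * (‖x‖⁻¹ * s (tt x)) := by gcongr
      _ = ‖x‖⁻¹ * s (tt x) := one_mul _
  linarith

lemma abs_om_le (hn : 3 ≤ n) {x : E n} (hx : x ∈ PB n) (k α : Fin n) :
    |om k α x| ≤ 27 * n * w x := by
  have ht := tt_pos hx
  have ht1 := one_le_tt hx
  have hs := s_pos ht
  have hs1 := s_le_one ht1
  have hr := inv_pos.2 (norm_pos_of_PB hx)
  have hp := abs_p_le hn ht1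
  have hq := abs_q_le hn ht1
  have h1 := abs_coord_mul_le hx α
  have h2 := abs_coord_mul_le hx k
  rw [om]
  have h3 : |p n (tt x) - q n (tt x)| ≤ 16 * n * s (tt x) := by
    refine (abs_sub _ _).trans ?_
    linarith
  have h5 : |(p n (tt x) - q n (tt x)) * ‖x‖⁻¹ ^ 3 * (x k * x α)|
      ≤ 16 * n * w x := by
    rw [abs_mul, abs_mul, abs_mul, abs_of_pos (by positivity : 0 < ‖x‖⁻¹ ^ 3)]
    calc |p n (tt x) - q n (tt x)| * ‖x‖⁻¹ ^ 3 * (|x k| * |x α|)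
        = |p n (tt x) - q n (tt x)| * ‖x‖⁻¹ * ((‖x‖⁻¹ * |x k|) * (‖x‖⁻¹ * |x α|)) := by
          ring
      _ ≤ (16 * n * s (tt x)) * ‖x‖⁻¹ * (1 * 1) := by gcongr
      _ = 16 * n * w x := by rw [w]; ring
  have h6 : |q n (tt x) * ‖x‖⁻¹ * e k α| ≤ 11 * n * w x := by
    rw [abs_mul, abs_mul, abs_of_pos hr]
    calc |q n (tt x)| * ‖x‖⁻¹ * |(e k α : ℝ)| ≤ (11 * n * s (tt x)) * ‖x‖⁻¹ * 1 := by
          gcongr
          exact abs_e_le k α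
      _ = 11 * n * w x := by rw [w]; ring
  refine (abs_add_le _ _).trans ?_
  linarith

lemma abs_Om_le (hn : 3 ≤ n) {x : E n} (hx : x ∈ PB n) (i j : Fin (n + 1)) (α : Fin n) :
    |Om i j α x| ≤ 27 * n * w x := by
  have hw := w_pos hx
  have h0 : (0:ℝ) ≤ 27 * n * w x := by positivity
  refine Fin.cases ?_ (fun k => ?_) i <;> refine Fin.cases ?_ (fun l => ?_) j
  · simpa [Om] using h0
  · simpa [Om] using abs_om_le hn hx l α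
  · simpa [Om] using abs_om_le hn hx k α
  · simpa [Om] using h0

lemma abs_Fl_le (hn : 3 ≤ n) {x : E n} (hx : x ∈ PB n) (i : Fin (n + 1)) (α : Fin n) :
    |Fl i α x| ≤ 4 * (n + 2) ^ (n - 2) * (s (tt x) ^ 2 * ‖x‖⁻¹) ^ (n - 1) := by
  have ht := tt_pos hx
  have ht1 := one_le_tt hx
  have hs := s_pos ht
  have hr := inv_pos.2 (norm_pos_of_PB hx)
  have h1 := abs_Du_le hx i α
  have h2 := sqrt_G_le hn ht1
  rw [Fl, abs_mul, gradNorm_eq hn hx, abs_of_nonneg (by positivity)]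
  have e1 : n - 1 = (n - 2) + 1 := by omega
  calc (Real.sqrt (G n (tt x)) * ‖x‖⁻¹) ^ (n - 2) * |Du x i α|
      ≤ ((n + 2) * s (tt x) ^ 2 * ‖x‖⁻¹) ^ (n - 2) * (4 * (s (tt x) ^ 2 * ‖x‖⁻¹)) := by
        gcongr
    _ = 4 * (n + 2) ^ (n - 2) * (s (tt x) ^ 2 * ‖x‖⁻¹) ^ (n - 1) := by
        rw [e1, pow_succ, mul_assoc (n + 2 : ℝ), mul_pow]
        ring

lemma w_pow_bound (hn : 3 ≤ n) {x : E n} (hx : x ∈ PB n) :
    ‖x‖⁻¹ * (s (tt x) ^ 2 * ‖x‖⁻¹) ^ (n - 1) ≤ w x ^ n := by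
  have ht := tt_pos hx
  have ht1 := one_le_tt hx
  have hs := s_pos ht
  have hr := inv_pos.2 (norm_pos_of_PB hx)
  obtain ⟨m, rfl⟩ : ∃ m, n = m + 3 := ⟨n - 3, by omega⟩
  have e2 : m + 3 - 1 = m + 2 := by omega
  rw [e2, w]
  calc ‖x‖⁻¹ * (s (tt x) ^ 2 * ‖x‖⁻¹) ^ (m + 2)
      = s (tt x) ^ (m + 1) * (‖x‖⁻¹ * s (tt x)) ^ (m + 3) := by ring
    _ ≤ 1 * (‖x‖⁻¹ * s (tt x)) ^ (m + 3) := by
        gcongr
        exact pow_le_one₀ hs.le (s_le_one ht1)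
    _ = (‖x‖⁻¹ * s (tt x)) ^ (m + 3) := one_mul _

lemma abs_inv_Fl_le (hn : 3 ≤ n) {x : E n} (hx : x ∈ PB n) (i : Fin (n + 1)) (α : Fin n) :
    |‖x‖⁻¹ * Fl i α x| ≤ 4 * (n + 2) ^ (n - 2) * w x ^ n := by
  have hr := inv_pos.2 (norm_pos_of_PB hx)
  rw [abs_mul, abs_of_pos hr]
  have h1 := abs_Fl_le hn hx i α
  have h2 := w_pow_bound hn hx
  calc ‖x‖⁻¹ * |Fl i α x|
      ≤ ‖x‖⁻¹ * (4 * (n + 2) ^ (n - 2) * (s (tt x) ^ 2 * ‖x‖⁻¹) ^ (n - 1)) := by gcongr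
    _ = 4 * (n + 2) ^ (n - 2) * (‖x‖⁻¹ * (s (tt x) ^ 2 * ‖x‖⁻¹) ^ (n - 1)) := by ring
    _ ≤ 4 * (n + 2) ^ (n - 2) * w x ^ n := by gcongr

lemma abs_Om_Fl_le (hn : 3 ≤ n) {x : E n} (hx : x ∈ PB n) (i j : Fin (n + 1)) (α : Fin n) :
    |Om i j α x * Fl j α x| ≤ 27 * n * (4 * (n + 2) ^ (n - 2)) * w x ^ n := by
  have ht := tt_pos hx
  have hs := s_pos ht
  have hr := inv_pos.2 (norm_pos_of_PB hx)
  have h1 := abs_inv_Fl_le hn hx j α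
  have h2 := abs_Om_le hn hx i j α
  have hs1 := s_le_one (one_le_tt hx)
  rw [abs_mul, abs_of_pos hr] at h1
  rw [abs_mul]
  calc |Om i j α x| * |Fl j α x| ≤ 27 * n * w x * |Fl j α x| := by gcongr
    _ = 27 * n * s (tt x) * (‖x‖⁻¹ * |Fl j α x|) := by rw [w]; ring
    _ ≤ 27 * n * 1 * (4 * (n + 2) ^ (n - 2) * w x ^ n) := by gcongr
    _ = 27 * n * (4 * (n + 2) ^ (n - 2)) * w x ^ n := by ring

lemma abs_ff_le (hn : 3 ≤ n) {x : E n} (hx : x ∈ PB n) (i : Fin (n + 1)) :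
    |ff i x| ≤ (n + 1) * (n * (27 * n * (4 * (n + 2) ^ (n - 2)))) * w x ^ n := by
  have h := sum_Om_Fl hn hx i
  have h1 : |ff i x| = |∑ j, ∑ α, Om i j α x * Fl j α x| := by rw [h, abs_neg]
  rw [h1]
  calc |∑ j, ∑ α, Om i j α x * Fl j α x| ≤ ∑ j, ∑ α, |Om i j α x * Fl j α x| :=
        (Finset.abs_sum_le_sum_abs _ _).trans
          (Finset.sum_le_sum fun j _ => Finset.abs_sum_le_sum_abs _ _)
    _ ≤ ∑ _j : Fin (n + 1), ∑ _α : Fin n, 27 * n * (4 * (n + 2) ^ (n - 2)) * w x ^ n :=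
        Finset.sum_le_sum fun j _ => Finset.sum_le_sum fun α _ => abs_Om_Fl_le hn hx i j α
    _ = (n + 1) * (n * (27 * n * (4 * (n + 2) ^ (n - 2)))) * w x ^ n := by
        simp; ring

end Pool.Agent.Helper566.Map
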