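import Mathlib

open MeasureTheory Set Filter Topology Metric
open scoped RealInnerProductSpace ContDiff

namespace Pool.Agent.Helper566.Cutoff

/-! ### Products with compactly supported functions -/

lemma continuous_mul_aux {E : Type*} [TopologicalSpace E] {u g : E → ℝ} {U : Set E}
    (hU : IsOpen U) (hu : ContinuousOn u U) (hg : Continuous g) (hs : tsupport g ⊆ U) :
    Continuous fun x => u x * g x := by
  rw [continuous_iff_continuousAt]
  intro x
  by_cases hx : x ∈ tsupport g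
  · exact (hu.continuousAt (hU.mem_nhds (hs hx))).mul hg.continuousAt
  · have h0 : (fun x => u x * g x) =ᶠ[𝓝 x] fun _ => 0 := by
      have := (isClosed_tsupport g).isOpen_compl.mem_nhds hx
      filter_upwards [this] with y hy
      rw [image_eq_zero_of_notMem_tsupport hy, mul_zero]
    exact h0.continuousAt

lemma integrable_mul_aux {E : Type*} [TopologicalSpace E] [MeasurableSpace E]
    [OpensMeasurableSpace E] {μ : Measure E} [IsFiniteMeasureOnCompacts μ]
    {u g : E → ℝ} {U : Set E}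
    (hU : IsOpen U) (hu : ContinuousOn u U) (hg : Continuous g) (hc : HasCompactSupport g)
    (hs : tsupport g ⊆ U) : Integrable (fun x => u x * g x) μ :=
  (continuous_mul_aux hU hu hg hs).integrable_of_hasCompactSupport hc.mul_left

lemma tsupport_fderiv_apply_subset' {E : Type*} [NormedAddCommGroup E] [NormedSpace ℝ E]
    {φ : E → ℝ} (w : E) :
    tsupport (fun x => fderiv ℝ φ x w) ⊆ tsupport φ := by
  refine closure_minimal ?_ (isClosed_tsupport _)
  intro x hx
  by_contra h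
  apply hx
  have := (isClosed_tsupport φ).isOpen_compl.mem_nhds h
  have h0 : φ =ᶠ[𝓝 x] fun _ => 0 := by
    filter_upwards [this] with y hy
    exact image_eq_zero_of_notMem_tsupport hy
  simp [h0.fderiv_eq]

section
variable {E : Type*} [NormedAddCommGroup E] [NormedSpace ℝ E] [FiniteDimensional ℝ E]
  [MeasurableSpace E] [BorelSpace E] {μ : Measure E} [μ.IsAddHaarMeasure]

lemma ibp_const {u φ : E → ℝ} {U : Set E} (w : E) (hU : IsOpen U) (hu : ContDiffOn ℝ 1 u U)
    (hφ : ContDiff ℝ 1 φ) (hc : HasCompactSupport φ) (hs : tsupport φ ⊆ U) :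
    ∫ x, u x * fderiv ℝ φ x w ∂μ = - ∫ x, fderiv ℝ u x w * φ x ∂μ := by
  have hcw : HasCompactSupport (fun x => fderiv ℝ φ x w) :=
    hc.of_isClosed_subset (isClosed_tsupport _) (tsupport_fderiv_apply_subset' w)
  have hu' : ContinuousOn (fun x => fderiv ℝ u x w) U :=
    (hu.continuousOn_fderiv_of_isOpen hU le_rfl).clm_apply continuousOn_const
  have hφ' : Continuous (fun x => fderiv ℝ φ x w) :=
    (hφ.continuous_fderiv one_ne_zero).clm_apply continuous_const
  apply integral_mul_fderiv_eq_neg_fderiv_mul_of_integrable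
  · exact integrable_mul_aux hU hu' hφ.continuous hc hs
  · exact integrable_mul_aux hU hu.continuousOn hφ' hcw
      ((tsupport_fderiv_apply_subset' w).trans hs)
  · exact integrable_mul_aux hU hu.continuousOn hφ.continuous hc hs
  · intro x hx
    exact (hu.differentiableOn one_ne_zero).differentiableAt (hU.mem_nhds (hs hx))
  · intro x _
    exact hφ.differentiable one_ne_zero x
end

set_option linter.unusedSectionVars false

/-! ### The cutoff -/

lemma exists_bound_deriv_smoothTransition :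
    ∃ C : ℝ, 0 ≤ C ∧ (∀ y : ℝ, |deriv Real.smoothTransition y| ≤ C) := by
  have hcont : Continuous (deriv Real.smoothTransition) :=
    (Real.smoothTransition.contDiff (n := 1)).continuous_deriv le_rfl
  obtain ⟨C, hC⟩ := (isCompact_Icc (a := (0:ℝ)) (b := 1)).exists_bound_of_continuousOn
    hcont.continuousOn
  refine ⟨C, (norm_nonneg _).trans (hC 0 ⟨le_rfl, zero_le_one⟩), fun y => ?_⟩
  by_cases hy : y ∈ Icc (0:ℝ) 1
  · exact hC y hy
  · have h0 : deriv Real.smoothTransition y = 0 := by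
      rw [mem_Icc, not_and_or, not_le, not_le] at hy
      rcases hy with hy | hy
      · have : Real.smoothTransition =ᶠ[𝓝 y] fun _ => 0 := by
          filter_upwards [Iio_mem_nhds hy] with z hz
          exact Real.smoothTransition.zero_of_nonpos (le_of_lt hz)
        rw [this.deriv_eq]; simp
      · have : Real.smoothTransition =ᶠ[𝓝 y] fun _ => 1 := by
          filter_upwards [Ioi_mem_nhds hy] with z hz
          exact Real.smoothTransition.one_of_one_le (le_of_lt hz)
        rw [this.deriv_eq]; simp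
    rw [h0, abs_zero]
    exact (norm_nonneg _).trans (hC 0 ⟨le_rfl, zero_le_one⟩)

lemma deriv_smoothTransition_zero {y : ℝ} (hy : y < 0 ∨ 1 < y) :
    deriv Real.smoothTransition y = 0 := by
  rcases hy with hy | hy
  · have : Real.smoothTransition =ᶠ[𝓝 y] fun _ => 0 := by
      filter_upwards [Iio_mem_nhds hy] with z hz
      exact Real.smoothTransition.zero_of_nonpos (le_of_lt hz)
    rw [this.deriv_eq]; simp
  · have : Real.smoothTransition =ᶠ[𝓝 y] fun _ => 1 := by
      filter_upwards [Ioi_mem_nhds hy] with z hz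
      exact Real.smoothTransition.one_of_one_le (le_of_lt hz)
    rw [this.deriv_eq]; simp

variable {E : Type*} [NormedAddCommGroup E] [InnerProductSpace ℝ E]

/-- radial cutoff vanishing near the origin -/
noncomputable def eta (k : ℕ) (x : E) : ℝ :=
  Real.smoothTransition (((k : ℝ) + 1) ^ 2 * ‖x‖ ^ 2 - 1)

lemma contDiff_eta (k : ℕ) : ContDiff ℝ ∞ (eta k : E → ℝ) := by
  unfold eta
  exact (Real.smoothTransition.contDiff (n := ⊤)).comp
    ((contDiff_const.mul (contDiff_norm_sq ℝ)).sub contDiff_const)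

lemma eta_nonneg (k : ℕ) (x : E) : 0 ≤ eta k x := Real.smoothTransition.nonneg _
lemma eta_le_one (k : ℕ) (x : E) : eta k x ≤ 1 := Real.smoothTransition.le_one _

lemma fderiv_eta (k : ℕ) (x v : E) :
    fderiv ℝ (eta k) x v = deriv Real.smoothTransition (((k : ℝ) + 1) ^ 2 * ‖x‖ ^ 2 - 1) *
      (((k : ℝ) + 1) ^ 2 * (2 * ⟪x, v⟫)) := by
  have h1 : HasFDerivAt (fun x : E => ‖x‖ ^ 2) (2 • (innerSL ℝ x)) x :=
    (hasStrictFDerivAt_norm_sq x).hasFDerivAt
  have h2 := (h1.const_mul (((k : ℝ) + 1) ^ 2)).sub_const 1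
  have h3 : HasDerivAt Real.smoothTransition
      (deriv Real.smoothTransition (((k : ℝ) + 1) ^ 2 * ‖x‖ ^ 2 - 1))
      (((k : ℝ) + 1) ^ 2 * ‖x‖ ^ 2 - 1) :=
    ((Real.smoothTransition.contDiff (n := 1)).differentiable one_ne_zero _).hasDerivAt
  have h4 := h3.comp_hasFDerivAt x h2
  have h5 : fderiv ℝ (eta k : E → ℝ) x = _ := h4.fderiv
  rw [h5]
  simp

lemma abs_fderiv_eta_le {C : ℝ} (hC0 : 0 ≤ C) (hC : ∀ y : ℝ, |deriv Real.smoothTransition y| ≤ C)
    (k : ℕ) (x v : E) : |fderiv ℝ (eta k) x v| ≤ 4 * C * ‖v‖ * ‖x‖⁻¹ := by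
  rw [fderiv_eta]
  have hk : 0 < ((k : ℝ) + 1) ^ 2 := by positivity
  by_cases h : 1 < ((k : ℝ) + 1) ^ 2 * ‖x‖ ^ 2 - 1
  · rw [deriv_smoothTransition_zero (Or.inr h), zero_mul, abs_zero]
    positivity
  · rw [not_lt] at h
    by_cases hx : x = 0
    · subst hx; simp
    have hxp : 0 < ‖x‖ := norm_pos_iff.2 hx
    have h1 : ((k : ℝ) + 1) ^ 2 * ‖x‖ ≤ 2 * ‖x‖⁻¹ := by
      rw [← div_eq_mul_inv, le_div_iff₀ hxp]
      nlinarith
    rw [abs_mul, abs_mul, abs_mul, abs_of_pos hk, abs_two]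
    have h2 : |⟪x, v⟫| ≤ ‖x‖ * ‖v‖ := abs_real_inner_le_norm _ _
    calc |deriv Real.smoothTransition (((k : ℝ) + 1) ^ 2 * ‖x‖ ^ 2 - 1)| *
          (((k : ℝ) + 1) ^ 2 * (2 * |⟪x, v⟫|))
        ≤ C * (((k : ℝ) + 1) ^ 2 * (2 * (‖x‖ * ‖v‖))) := by
          apply mul_le_mul (hC _) _ (by positivity) hC0
          gcongr
      _ = C * (2 * ‖v‖) * (((k : ℝ) + 1) ^ 2 * ‖x‖) := by ring
      _ ≤ C * (2 * ‖v‖) * (2 * ‖x‖⁻¹) := by gcongr
      _ = 4 * C * ‖v‖ * ‖x‖⁻¹ := by ring

/-- for `x ≠ 0`, eventually `2 < (k+1)^2 ‖x‖^2` -/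
lemma eventually_large {x : E} (hx : x ≠ 0) :
    ∀ᶠ k : ℕ in atTop, 1 < ((k : ℝ) + 1) ^ 2 * ‖x‖ ^ 2 - 1 := by
  have hxp : 0 < ‖x‖ ^ 2 := by positivity
  obtain ⟨N, hN⟩ := exists_nat_gt (2 / ‖x‖ ^ 2)
  filter_upwards [eventually_ge_atTop N] with k hk
  have h1 : 2 / ‖x‖ ^ 2 < (k : ℝ) + 1 := by
    have : (N : ℝ) ≤ k := by exact_mod_cast hk
    linarith
  rw [div_lt_iff₀ hxp] at h1
  have h2 : ((k : ℝ) + 1) ≤ ((k : ℝ) + 1) ^ 2 := by
    have : (0 : ℝ) ≤ k := by positivity
    nlinarith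
  nlinarith

lemma tendsto_eta {x : E} (hx : x ≠ 0) : Tendsto (fun k : ℕ => eta k x) atTop (𝓝 1) := by
  apply tendsto_const_nhds.congr'
  filter_upwards [eventually_large hx] with k hk
  exact (Real.smoothTransition.one_of_one_le (le_of_lt hk)).symm

lemma tendsto_fderiv_eta {x : E} (hx : x ≠ 0) (v : E) :
    Tendsto (fun k : ℕ => fderiv ℝ (eta k) x v) atTop (𝓝 0) := by
  apply tendsto_const_nhds.congr'
  filter_upwards [eventually_large hx] with k hk
  rw [fderiv_eta, deriv_smoothTransition_zero (Or.inr hk), zero_mul]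

lemma eta_eq_zero_near (k : ℕ) : ∀ x : E, ‖x‖ < ((k : ℝ) + 1)⁻¹ → eta k x = 0 := by
  intro x hx
  apply Real.smoothTransition.zero_of_nonpos
  have hk : 0 < (k : ℝ) + 1 := by positivity
  have h1 : ((k : ℝ) + 1) * ‖x‖ < 1 := by
    rw [mul_comm]
    calc ‖x‖ * ((k : ℝ) + 1) < ((k : ℝ) + 1)⁻¹ * ((k : ℝ) + 1) := by gcongr
      _ = 1 := inv_mul_cancel₀ hk.ne'
  have h2 : 0 ≤ ((k : ℝ) + 1) * ‖x‖ := by positivity
  nlinarith

end Pool.Agent.Helper566.Cutoff
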