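import Pool.Agent.Helper566.Bounds

open MeasureTheory Set Filter Topology Metric
open scoped RealInnerProductSpace ContDiff

namespace Pool.Agent.Helper566.Map
open Pool.Agent.Helper566.Profile

variable {n : ℕ}

/-! ### Measurability -/

lemma measurable_s : Measurable s := by
  unfold s
  exact (Real.continuous_sqrt.measurable).inv

lemma measurable_tt : Measurable (tt : E n → ℝ) := by
  unfold tt
  exact measurable_const.sub (Real.measurable_log.comp measurable_norm)

lemma measurable_stt : Measurable (fun x : E n => s (tt x)) := measurable_s.comp measurable_tt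

lemma measurable_coord (j : Fin n) : Measurable (fun x : E n => x j) := by
  have : Continuous (fun x : E n => x j) := by fun_prop
  exact this.measurable

lemma measurable_rinv : Measurable (fun x : E n => ‖x‖⁻¹) := measurable_norm.inv

lemma measurable_w : Measurable (w : E n → ℝ) := measurable_rinv.mul measurable_stt

lemma measurable_u (i : Fin (n + 1)) : Measurable (fun x : E n => u x i) := by
  refine Fin.cases ?_ (fun j => ?_) i
  · simp only [u, Fin.cases_zero]
    exact Real.measurable_log.comp measurable_tt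
  · simp only [u, Fin.cases_succ]
    exact ((measurable_stt.pow_const 3).mul measurable_rinv).mul (measurable_coord j)

lemma measurable_Du (i : Fin (n + 1)) (α : Fin n) : Measurable (fun x : E n => Du x i α) := by
  have hs := measurable_stt (n := n)
  have hr := measurable_rinv (n := n)
  refine Fin.cases ?_ (fun j => ?_) i
  · simp only [Du, Fin.cases_zero]
    exact (((hs.pow_const 2).mul (hr.pow_const 2)).mul (measurable_coord α)).neg
  · simp only [Du, Fin.cases_succ]
    exact ((((hs.pow_const 5).const_mul _).sub (hs.pow_const 3)).mul (hr.pow_const 3)).mul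
      ((measurable_coord j).mul (measurable_coord α)) |>.add
      (((hs.pow_const 3).mul hr).mul measurable_const)

lemma measurable_L : Measurable (L n) := by
  have hs := measurable_s
  unfold L dG G
  exact ((((hs.pow_const 6).const_mul _).add ((hs.pow_const 12).const_mul _)).add
    ((hs.pow_const 8).const_mul _)).neg.div
    ((((hs.pow_const 4)).add ((hs.pow_const 10).const_mul _)).add ((hs.pow_const 6).const_mul _))

lemma measurable_p : Measurable (p n) := by
  have hs := measurable_s
  have hL := measurable_L (n := n)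
  unfold p
  exact ((hs.const_mul _).add ((hL.const_mul _).mul (hs.pow_const 3))).sub
    ((hs.pow_const 5).const_mul _)

lemma measurable_q : Measurable (q n) := by
  have hs := measurable_s
  have hL := measurable_L (n := n)
  have hp := measurable_p (n := n)
  unfold q
  exact ((hs.sub ((hL.const_mul _).div hs)).sub ((hp.const_mul _).mul (hs.pow_const 2))).div_const _

lemma measurable_om (k α : Fin n) : Measurable (fun x : E n => om k α x) := by
  have hr := measurable_rinv (n := n)
  have hp := (measurable_p (n := n)).comp (measurable_tt (n := n))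
  have hq := (measurable_q (n := n)).comp (measurable_tt (n := n))
  unfold om
  exact (((hp.sub hq).mul (hr.pow_const 3)).mul ((measurable_coord k).mul (measurable_coord α))).add
    ((hq.mul hr).mul measurable_const)

lemma measurable_Om (i j : Fin (n + 1)) (α : Fin n) : Measurable (fun x : E n => Om i j α x) := by
  refine Fin.cases ?_ (fun k => ?_) i <;> refine Fin.cases ?_ (fun l => ?_) j
  · simp only [Om, Fin.cases_zero]; exact measurable_const
  · simp only [Om, Fin.cases_zero, Fin.cases_succ]; exact measurable_om l α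
  · simp only [Om, Fin.cases_zero, Fin.cases_succ]; exact (measurable_om k α).neg
  · simp only [Om, Fin.cases_succ]; exact measurable_const

lemma measurable_gradNorm : Measurable (gradNorm : E n → ℝ) := by
  unfold gradNorm
  exact Real.continuous_sqrt.measurable.comp
    (Finset.measurable_fun_sum _ fun i _ => Finset.measurable_fun_sum _ fun α _ =>
      (measurable_Du i α).pow_const 2)

lemma measurable_Fl (i : Fin (n + 1)) (α : Fin n) : Measurable (fun x : E n => Fl i α x) := by
  unfold Fl
  exact (measurable_gradNorm.pow_const _).mul (measurable_Du i α)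

/-! ### Integrability of the weight -/

lemma tendsto_s_zero : Tendsto (fun y : ℝ => 2 * s (1 - Real.log y)) (𝓝[>] 0) (𝓝 0) := by
  have h1 : Tendsto (fun y : ℝ => 1 - Real.log y) (𝓝[>] 0) atTop := by
    have := Real.tendsto_log_nhdsGT_zero
    exact tendsto_atTop_add_const_left _ 1 (tendsto_neg_atBot_atTop.comp this)
  have h2 : Tendsto (fun y : ℝ => s (1 - Real.log y)) (𝓝[>] 0) (𝓝 0) := by
    unfold s
    exact tendsto_inv_atTop_zero.comp (Real.tendsto_sqrt_atTop.comp h1)
  simpa using h2.const_mul 2

lemma integrableOn_base :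
    IntegrableOn (fun y : ℝ => y⁻¹ * s (1 - Real.log y) ^ 3) (Ioo 0 1) := by
  set g : ℝ → ℝ := fun y => if y ≤ 0 then 0 else 2 * s (1 - Real.log y) with hg
  have hder : ∀ y ∈ Ioo (0:ℝ) 1, HasDerivAt g (y⁻¹ * s (1 - Real.log y) ^ 3) y := by
    intro y hy
    have hlog : Real.log y ≤ 0 := Real.log_nonpos hy.1.le hy.2.le
    have ht : 0 < 1 - Real.log y := by linarith
    have h1 : HasDerivAt (fun y : ℝ => 1 - Real.log y) (-y⁻¹) y := by
      simpa using (Real.hasDerivAt_log hy.1.ne').const_sub 1
    have h2 := (HasDerivAt.comp (h₂ := s) (h := fun y : ℝ => 1 - Real.log y) y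
      (hasDerivAt_s ht) h1).const_mul 2
    have h3 : g =ᶠ[𝓝 y] fun y => 2 * (s ∘ fun y : ℝ => 1 - Real.log y) y := by
      filter_upwards [Ioi_mem_nhds hy.1] with z hz
      simp only [hg, if_neg (not_le.2 (mem_Ioi.1 hz)), Function.comp]
    refine (h2.congr_of_eventuallyEq h3).congr_deriv ?_
    ring
  have hcont : ContinuousOn g (Icc 0 1) := by
    intro y hy
    rcases eq_or_lt_of_le hy.1 with h0 | h0
    · subst h0
      have h1 : ContinuousWithinAt g (Ioi 0) 0 := by
        have h2 : Tendsto g (𝓝[>] 0) (𝓝 0) := by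
          refine tendsto_s_zero.congr' ?_
          filter_upwards [self_mem_nhdsWithin] with z hz
          simp only [hg, if_neg (not_le.2 (mem_Ioi.1 hz))]
        have h3 : g 0 = 0 := by simp [hg]
        rw [ContinuousWithinAt, h3]
        exact h2
      rw [continuousWithinAt_Ioi_iff_Ici] at h1
      exact h1.mono Icc_subset_Ici_self
    · have hlog : Real.log y ≤ 0 := Real.log_nonpos hy.1 hy.2
      have ht : 0 < 1 - Real.log y := by linarith
      have h1 : HasDerivAt (fun y : ℝ => 1 - Real.log y) (-y⁻¹) y := by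
        simpa using (Real.hasDerivAt_log h0.ne').const_sub 1
      have h2 := (HasDerivAt.comp (h₂ := s) (h := fun y : ℝ => 1 - Real.log y) y
        (hasDerivAt_s ht) h1).const_mul 2
      have h3 : g =ᶠ[𝓝 y] fun y => 2 * (s ∘ fun y : ℝ => 1 - Real.log y) y := by
        filter_upwards [Ioi_mem_nhds h0] with z hz
        simp only [hg, if_neg (not_le.2 (mem_Ioi.1 hz)), Function.comp]
      exact (h2.congr_of_eventuallyEq h3).continuousAt.continuousWithinAt
  have hpos : ∀ y ∈ Ioo (0:ℝ) 1, 0 ≤ y⁻¹ * s (1 - Real.log y) ^ 3 := by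
    intro y hy
    have hlog : Real.log y ≤ 0 := Real.log_nonpos hy.1.le hy.2.le
    have ht : 0 < 1 - Real.log y := by linarith
    have := s_pos ht
    have := hy.1
    positivity
  exact (intervalIntegral.integrableOn_deriv_of_nonneg hcont hder hpos).mono_set
    Ioo_subset_Ioc_self

lemma integrableOn_w_pow (hn : 3 ≤ n) : IntegrableOn (fun x : E n => w x ^ n) (ball 0 1) := by
  have : Nontrivial (E n) := by
    have : Nonempty (Fin n) := ⟨⟨0, by omega⟩⟩
    infer_instance
  have h := integrableOn_fun_norm_addHaar (E := E n) (F := ℝ) (volume : Measure (E n))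
    (f := fun r : ℝ => (r⁻¹ * s (1 - Real.log r)) ^ n) (r := 1)
  have h2 : IntegrableOn (fun y : ℝ => y ^ (Module.finrank ℝ (E n) - 1) •
      (y⁻¹ * s (1 - Real.log y)) ^ n) (Ioo 0 1) := by
    rw [finrank_euclideanSpace_fin]
    refine Integrable.mono integrableOn_base ?_ ?_
    · apply Measurable.aestronglyMeasurable
      exact (measurable_id.pow_const _).smul ((measurable_id.inv.mul
        (measurable_s.comp (measurable_const.sub Real.measurable_log))).pow_const _)
    · filter_upwards [ae_restrict_mem measurableSet_Ioo] with y hy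
      have hlog : Real.log y ≤ 0 := Real.log_nonpos hy.1.le hy.2.le
      have ht : 0 < 1 - Real.log y := by linarith
      have hs := s_pos ht
      have hs1 : s (1 - Real.log y) ≤ 1 := s_le_one (by linarith)
      have hy0 := hy.1
      obtain ⟨m, rfl⟩ : ∃ m, n = m + 3 := ⟨n - 3, by omega⟩
      have e2 : m + 3 - 1 = m + 2 := by omega
      rw [e2, smul_eq_mul, Real.norm_of_nonneg (by positivity), Real.norm_of_nonneg (by positivity)]
      calc y ^ (m + 2) * (y⁻¹ * s (1 - Real.log y)) ^ (m + 3)
          = y⁻¹ * s (1 - Real.log y) ^ 3 * s (1 - Real.log y) ^ m := by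
            rw [mul_pow, inv_pow]
            field_simp
            ring
        _ ≤ y⁻¹ * s (1 - Real.log y) ^ 3 * 1 := by
            gcongr
            exact pow_le_one₀ hs.le hs1
        _ = y⁻¹ * s (1 - Real.log y) ^ 3 := mul_one _
  exact h.2 h2

lemma integrableOn_rinv_sq (hn : 3 ≤ n) :
    IntegrableOn (fun x : E n => (‖x‖⁻¹) ^ 2) (ball 0 1) := by
  have : Nontrivial (E n) := by
    have : Nonempty (Fin n) := ⟨⟨0, by omega⟩⟩
    infer_instance
  have h := integrableOn_fun_norm_addHaar (E := E n) (F := ℝ) (volume : Measure (E n))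
    (f := fun r : ℝ => (r⁻¹) ^ 2) (r := 1)
  have h2 : IntegrableOn (fun y : ℝ => y ^ (Module.finrank ℝ (E n) - 1) •
      (y⁻¹) ^ 2) (Ioo 0 1) := by
    rw [finrank_euclideanSpace_fin]
    have hfin : volume (Ioo (0:ℝ) 1) ≠ ⊤ := by
      rw [Real.volume_Ioo]; exact ENNReal.ofReal_ne_top
    have hcfin : ‖(1:ℝ)‖ₑ ≠ ⊤ := enorm_ne_top
    have hc : IntegrableOn (fun _ : ℝ => (1:ℝ)) (Ioo 0 1) := integrableOn_const hfin hcfin
    refine Integrable.mono hc ?_ ?_
    · apply Measurable.aestronglyMeasurable
      exact (measurable_id.pow_const _).smul (measurable_id.inv.pow_const _)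
    · filter_upwards [ae_restrict_mem measurableSet_Ioo] with y hy
      have hy0 := hy.1
      obtain ⟨m, rfl⟩ : ∃ m, n = m + 3 := ⟨n - 3, by omega⟩
      have e2 : m + 3 - 1 = m + 2 := by omega
      rw [e2, smul_eq_mul, Real.norm_of_nonneg (by positivity), norm_one]
      have : y ^ (m + 2) * y⁻¹ ^ 2 = y ^ m := by
        rw [inv_pow]; field_simp; ring
      rw [this]
      exact pow_le_one₀ hy0.le hy.2.le
  exact h.2 h2

lemma ae_PB (hn : 3 ≤ n) : ∀ᵐ x ∂(volume.restrict (ball (0 : E n) 1)), x ∈ PB n := by
  have : Nontrivial (E n) := by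
    have : Nonempty (Fin n) := ⟨⟨0, by omega⟩⟩
    infer_instance
  have h0 : volume ({(0 : E n)} : Set (E n)) = 0 := measure_singleton 0
  filter_upwards [ae_restrict_mem measurableSet_ball,
    ae_restrict_of_ae (compl_mem_ae_iff.2 h0)] with x hx hx0
  exact ⟨hx, hx0⟩

lemma memLp_w (hn : 3 ≤ n) : MemLp (w : E n → ℝ) n (volume.restrict (ball 0 1)) := by
  have h0 : (n : ENNReal) ≠ 0 := by
    simp; omega
  rw [← integrable_norm_rpow_iff measurable_w.aestronglyMeasurable h0 (by simp)]
  refine (integrableOn_w_pow hn).congr ?_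
  filter_upwards [ae_PB hn] with x hx
  rw [Real.norm_of_nonneg (w_pos hx).le]
  simp

lemma memLp_of_bound (hn : 3 ≤ n) {f : E n → ℝ} (hf : Measurable f) {C : ℝ}
    (h : ∀ x ∈ PB n, |f x| ≤ C * w x) : MemLp f n (volume.restrict (ball 0 1)) := by
  refine MemLp.of_le_mul (memLp_w hn) hf.aestronglyMeasurable (c := C) ?_
  filter_upwards [ae_PB hn] with x hx
  rw [Real.norm_of_nonneg (w_pos hx).le]
  exact h x hx

lemma memLp_u (hn : 3 ≤ n) (i : Fin (n + 1)) :
    MemLp (fun x : E n => u x i) n (volume.restrict (ball 0 1)) :=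
  memLp_of_bound hn (measurable_u i) fun _ hx => abs_u_le hx i

lemma memLp_Du (hn : 3 ≤ n) (i : Fin (n + 1)) (α : Fin n) :
    MemLp (fun x : E n => Du x i α) n (volume.restrict (ball 0 1)) :=
  memLp_of_bound hn (measurable_Du i α) fun _ hx => abs_Du_le_w hx i α

lemma memLp_Om (hn : 3 ≤ n) (i j : Fin (n + 1)) (α : Fin n) :
    MemLp (fun x : E n => Om i j α x) n (volume.restrict (ball 0 1)) :=
  memLp_of_bound hn (measurable_Om i j α) fun _ hx => abs_Om_le hn hx i j α

lemma integrableOn_of_bound (hn : 3 ≤ n) {f : E n → ℝ}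
    (hf : AEStronglyMeasurable f (volume.restrict (ball 0 1))) {C : ℝ} {b : E n → ℝ}
    (hb : IntegrableOn b (ball 0 1))
    (h : ∀ x ∈ PB n, |f x| ≤ C * b x) : IntegrableOn f (ball 0 1) := by
  refine Integrable.mono' (hb.const_mul C) hf ?_
  filter_upwards [ae_PB hn] with x hx
  exact h x hx

/-! ### The weak identities -/

lemma weak_gradient (hn : 3 ≤ n) (i : Fin (n + 1)) (α : Fin n) {φ : E n → ℝ}
    (hφ : ContDiff ℝ ∞ φ) (hc : HasCompactSupport φ) (hs : tsupport φ ⊆ ball 0 1) :
    ∫ x in ball 0 1, u x i * fderiv ℝ φ x (e α) = - ∫ x in ball 0 1, Du x i α * φ x := by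
  have : Nontrivial (E n) := by
    have : Nonempty (Fin n) := ⟨⟨0, by omega⟩⟩
    infer_instance
  have h := Removable.removable (ι := Unit) (fun _ => (e α : E n)) (F := fun _ x => u x i)
    (f := fun x => Du x i α) ?_ ?_ ?_ ?_ hφ hc hs
  · simpa using h
  · intro _ x hx
    exact ((contDiffAt_u hx i).of_le (by simp)).contDiffWithinAt
  · intro _
    refine integrableOn_of_bound hn (C := 1)
      (measurable_rinv.mul (measurable_u i)).aestronglyMeasurable (integrableOn_rinv_sq hn) ?_
    intro x hx
    have hr := inv_pos.2 (norm_pos_of_PB hx)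
    rw [abs_mul, abs_of_pos hr, one_mul, sq]
    exact mul_le_mul_of_nonneg_left (abs_u_le' hx i) hr.le
  · refine integrableOn_of_bound hn (C := 4) (measurable_Du i α).aestronglyMeasurable
      (integrableOn_w_pow hn) ?_
    intro x hx
    have h1 := abs_Du_le_w hx i α
    have h2 := one_le_w hx
    have h3 : w x ≤ w x ^ n := le_self_pow₀ h2 (by omega)
    linarith
  · intro x hx
    simp only [Finset.univ_unique, Finset.sum_const, Finset.card_singleton, one_smul]
    exact fderiv_u hx i α

lemma weak_equation (hn : 3 ≤ n) (i : Fin (n + 1)) {φ : E n → ℝ}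
    (hφ : ContDiff ℝ ∞ φ) (hc : HasCompactSupport φ) (hs : tsupport φ ⊆ ball 0 1) :
    ∫ x in ball 0 1, ∑ α, gradNorm x ^ (n - 2) * Du x i α * fderiv ℝ φ x (e α)
      = ∫ x in ball 0 1, (∑ j, ∑ α, Om i j α x * (gradNorm x ^ (n - 2) * Du x j α)) * φ x := by
  have : Nontrivial (E n) := by
    have : Nonempty (Fin n) := ⟨⟨0, by omega⟩⟩
    infer_instance
  have hFc : ∀ α, (fun x : E n => Fl i α x) =ᵐ[volume.restrict (ball 0 1)] Fc i α := by
    intro α
    filter_upwards [ae_PB hn] with x hx
    exact Fl_eq hn hx i α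
  have h := Removable.removable (fun α => (e α : E n)) (F := fun α => (Fc i α : E n → ℝ))
    (f := fun x => ff i x) ?_ ?_ ?_ ?_ hφ hc hs
  · have h1 : ∫ x in ball 0 1, ∑ α, gradNorm x ^ (n - 2) * Du x i α * fderiv ℝ φ x (e α)
        = ∫ x in ball 0 1, ∑ α, Fc i α x * fderiv ℝ φ x (e α) := by
      apply integral_congr_ae
      filter_upwards [ae_PB hn] with x hx
      refine Finset.sum_congr rfl fun α _ => ?_
      rw [← Fl_eq hn hx, Fl]
    rw [h1, h, ← integral_neg]
    apply integral_congr_ae
    filter_upwards [ae_PB hn] with x hx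
    have := sum_Om_Fl hn hx i
    simp only [Fl] at this
    rw [this]; ring
  · intro α x hx
    exact ((contDiffAt_Fc hn hx i α).of_le (by simp)).contDiffWithinAt
  · intro α
    refine integrableOn_of_bound hn (C := 4 * (n + 2) ^ (n - 2)) ?_ (integrableOn_w_pow hn) ?_
    · refine (measurable_rinv.mul (measurable_Fl i α)).aestronglyMeasurable.congr ?_
      filter_upwards [hFc α] with x hx
      simp only [Pi.mul_apply, hx]
    · intro x hx
      rw [← Fl_eq hn hx]
      exact abs_inv_Fl_le hn hx i α
  · refine integrableOn_of_bound hn (C := (n + 1) * (n * (27 * n * (4 * (n + 2) ^ (n - 2))))) ?_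
      (integrableOn_w_pow hn) ?_
    · have hm : Measurable (fun x : E n => - ∑ j, ∑ α, Om i j α x * Fl j α x) :=
        (Finset.measurable_fun_sum _ fun j _ => Finset.measurable_fun_sum _ fun α _ =>
          (measurable_Om i j α).mul (measurable_Fl j α)).neg
      refine hm.aestronglyMeasurable.congr ?_
      filter_upwards [ae_PB hn] with x hx
      rw [sum_Om_Fl hn hx i, neg_neg]
    · intro x hx
      exact abs_ff_le hn hx i
  · intro x hx
    exact div_Fc hn hx i

/-! ### Discontinuity -/

lemma not_continuous (hn : 3 ≤ n) :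
    ¬ ∃ v : E n → Fin (n + 1) → ℝ, ContinuousOn v (ball 0 1) ∧
      ∀ᵐ x ∂(volume.restrict (ball (0 : E n) 1)), u x = v x := by
  have : Nontrivial (E n) := by
    have : Nonempty (Fin n) := ⟨⟨0, by omega⟩⟩
    infer_instance
  rintro ⟨v, hv, hae⟩
  have hv0 : ContinuousAt (fun x => v x 0) 0 :=
    (continuous_apply 0).continuousAt.comp (hv.continuousAt (ball_mem_nhds 0 one_pos))
  obtain ⟨δ, hδ, hδb⟩ := Metric.continuousAt_iff.1 hv0 1 one_pos
  -- near the origin u^0 is large
  set M := |v 0 0| + 1 with hM
  obtain ⟨ρ, hρ0, hρ⟩ : ∃ ρ > 0, ∀ x : E n, x ≠ 0 → ‖x‖ < ρ → M < u x 0 := by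
    refine ⟨Real.exp (1 - Real.exp M), Real.exp_pos _, fun x hx hxρ => ?_⟩
    have h1 : Real.log ‖x‖ < 1 - Real.exp M := by
      rw [Real.log_lt_iff_lt_exp (norm_pos_iff.2 hx)]
      exact hxρ
    have h2 : Real.exp M < tt x := by unfold tt; linarith
    change M < Real.log (tt x)
    rw [Real.lt_log_iff_exp_lt ((Real.exp_pos M).trans h2)]
    exact h2
  set r := min (min δ ρ) 1 with hr
  have hr0 : 0 < r := lt_min (lt_min hδ hρ0) one_pos
  have hpos : 0 < volume (ball (0 : E n) r) := measure_ball_pos _ _ hr0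
  have hzero : volume (ball (0 : E n) r) = 0 := by
    have h1 : ∀ᵐ x ∂(volume.restrict (ball (0 : E n) 1)), x ∉ ball (0 : E n) r := by
      filter_upwards [hae, ae_PB hn] with x hx hxP hxr
      rw [mem_ball_zero_iff] at hxr
      have hxδ : ‖x‖ < δ := hxr.trans_le ((min_le_left _ _).trans (min_le_left _ _))
      have hxρ : ‖x‖ < ρ := hxr.trans_le ((min_le_left _ _).trans (min_le_right _ _))
      have h2 := hρ x hxP.2 hxρ
      have h3 := hδb (x := x) (by rw [dist_zero_right]; exact hxδ)
      rw [Real.dist_eq] at h3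
      rw [hx] at h2
      have h4 := abs_sub_abs_le_abs_sub (v x 0) (v 0 0)
      have h5 := le_abs_self (v x 0)
      linarith
    rw [ae_iff] at h1
    simp only [not_not] at h1
    have h2 : {a : E n | a ∈ ball (0 : E n) r} = ball 0 r := rfl
    rw [h2, Measure.restrict_apply measurableSet_ball,
      inter_eq_left.2 (ball_subset_ball (min_le_right _ _))] at h1
    exact h1
  exact hpos.ne' hzero

end Pool.Agent.Helper566.Map
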