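import Mathlib

set_option autoImplicit false
set_option linter.unusedVariables false

open Polynomial Finset

namespace Pool.Agent.Helper566.J

/-- `g` has an expansion in base `F` whose top digit is `t` -/
def Ex (F : ℝ[X]) (d : ℕ) (g t : ℝ[X]) : Prop :=
  ∃ h : ℕ → ℝ[X], g = ∑ k ∈ range d, X ^ k * (h k).comp F ∧ h (d - 1) = t

variable {F : ℝ[X]} {d : ℕ}

theorem Ex.add {g g' t t' : ℝ[X]} (h1 : Ex F d g t) (h2 : Ex F d g' t') :
    Ex F d (g + g') (t + t') := by
  obtain ⟨a, ha, ha'⟩ := h1
  obtain ⟨b, hb, hb'⟩ := h2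
  refine ⟨fun k => a k + b k, ?_, by simp [ha', hb']⟩
  rw [ha, hb, ← sum_add_distrib]
  apply sum_congr rfl
  intro k _
  rw [add_comp]; ring

theorem Ex.neg {g t : ℝ[X]} (h1 : Ex F d g t) : Ex F d (-g) (-t) := by
  obtain ⟨a, ha, ha'⟩ := h1
  refine ⟨fun k => -a k, ?_, by simp [ha']⟩
  rw [ha, ← sum_neg_distrib]
  apply sum_congr rfl
  intro k _
  rw [neg_comp]; ring

theorem Ex.sub {g g' t t' : ℝ[X]} (h1 : Ex F d g t) (h2 : Ex F d g' t') :
    Ex F d (g - g') (t - t') := by
  rw [sub_eq_add_neg, sub_eq_add_neg]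
  exact h1.add h2.neg

theorem Ex.zero : Ex F d 0 0 := ⟨fun _ => 0, by simp, rfl⟩

theorem Ex.mul_comp {g t : ℝ[X]} (h1 : Ex F d g t) (h : ℝ[X]) :
    Ex F d (g * h.comp F) (t * h) := by
  obtain ⟨a, ha, ha'⟩ := h1
  refine ⟨fun k => a k * h, ?_, by simp [ha']⟩
  rw [ha, sum_mul]
  apply sum_congr rfl
  intro k _
  rw [Polynomial.mul_comp]; ring

theorem Ex.sum {ι : Type*} (s : Finset ι) (g t : ι → ℝ[X]) (h : ∀ i ∈ s, Ex F d (g i) (t i)) :
    Ex F d (∑ i ∈ s, g i) (∑ i ∈ s, t i) := by
  classical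
  induction s using Finset.induction_on with
  | empty => simpa using Ex.zero
  | insert a s ha ih =>
    rw [sum_insert ha, sum_insert ha]
    exact (h a (mem_insert_self a s)).add (ih fun i hi => h i (mem_insert_of_mem hi))

theorem Ex.lowdeg {p : ℝ[X]} (hp : p.natDegree < d) :
    Ex F d p (C (p.coeff (d - 1))) := by
  refine ⟨fun k => C (p.coeff k), ?_, rfl⟩
  conv_lhs => rw [p.as_sum_range' d hp]
  apply sum_congr rfl
  intro k _
  rw [C_comp, ← C_mul_X_pow_eq_monomial]; ring

/-- tails of `F` -/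
noncomputable def Dt (F : ℝ[X]) (d j : ℕ) : ℝ[X] :=
  ∑ i ∈ range (d + 1 - j), C (F.coeff (i + j)) * X ^ i

theorem Dt_coeff (F : ℝ[X]) (d j i : ℕ) :
    (Dt F d j).coeff i = if i < d + 1 - j then F.coeff (i + j) else 0 := by
  unfold Dt
  rw [finsetSum_coeff]
  simp only [coeff_C_mul, coeff_X_pow, mul_ite, mul_one, mul_zero]
  rw [Finset.sum_ite_eq]
  simp only [mem_range]

theorem Dt_natDegree (F : ℝ[X]) (d j : ℕ) : (Dt F d j).natDegree ≤ d - j := by
  rw [natDegree_le_iff_coeff_eq_zero]
  intro i hi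
  rw [Dt_coeff, if_neg (by omega)]

theorem Dt_split {F : ℝ[X]} {d j : ℕ} (hF : F.natDegree = d) (hj : j ≤ d) :
    F = X ^ j * Dt F d j + ∑ i ∈ range j, C (F.coeff i) * X ^ i := by
  ext n
  rw [coeff_add, coeff_X_pow_mul', finsetSum_coeff]
  simp only [coeff_C_mul, coeff_X_pow, mul_ite, mul_one, mul_zero]
  rw [Finset.sum_ite_eq]
  simp only [mem_range]
  by_cases h : j ≤ n
  · rw [if_pos h, if_neg (by omega), add_zero, Dt_coeff]
    by_cases h2 : n ≤ d
    · rw [if_pos (by omega)]; congr 1; omega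
    · rw [if_neg (by omega)]
      exact coeff_eq_zero_of_natDegree_lt (by omega)
  · rw [if_neg h, if_pos (by omega), zero_add]

theorem Ex_Dt {F : ℝ[X]} {d : ℕ} (hF : F.natDegree = d) (hd : 2 ≤ d) {j k : ℕ} (hj1 : 1 ≤ j)
    (hjd : j ≤ d) (hk : k < d) :
    Ex F d (X ^ k * Dt F d j) (C (if k + 1 = j then F.leadingCoeff else 0)) := by
  by_cases hkj : k < j
  · have hdeg : (X ^ k * Dt F d j).natDegree < d := by
      have h1 := natDegree_mul_le (p := (X ^ k : ℝ[X])) (q := Dt F d j)
      have h2 := Dt_natDegree F d j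
      rw [natDegree_X_pow] at h1
      omega
    have h3 := Ex.lowdeg (F := F) hdeg
    have h4 : (X ^ k * Dt F d j).coeff (d - 1) = if k + 1 = j then F.leadingCoeff else 0 := by
      rw [coeff_X_pow_mul', if_pos (by omega), Dt_coeff]
      by_cases h5 : k + 1 = j
      · rw [if_pos (by omega), if_pos h5, leadingCoeff, hF]
        congr 1; omega
      · rw [if_neg (by omega), if_neg h5]
    rw [h4] at h3
    exact h3
  · push Not at hkj
    rw [if_neg (by omega)]
    have e : X ^ k * Dt F d j = X ^ (k - j) * (X : ℝ[X]).comp F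
        - X ^ (k - j) * ∑ i ∈ range j, C (F.coeff i) * X ^ i := by
      rw [X_comp, ← mul_sub]
      have hs := Dt_split hF hjd
      have hs' : F - ∑ i ∈ range j, C (F.coeff i) * X ^ i = X ^ j * Dt F d j := by
        linear_combination hs
      rw [hs', ← mul_assoc, ← pow_add]
      congr 2; omega
    rw [e]
    have h1 : Ex F d (X ^ (k - j) * (X : ℝ[X]).comp F) 0 := by
      have hdeg : (X ^ (k - j) : ℝ[X]).natDegree < d := by rw [natDegree_X_pow]; omega
      have := (Ex.lowdeg (F := F) hdeg).mul_comp X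
      rw [coeff_X_pow, if_neg (by omega)] at this
      simpa using this
    have h2 : Ex F d (X ^ (k - j) * ∑ i ∈ range j, C (F.coeff i) * X ^ i) 0 := by
      have hb : (∑ i ∈ range j, C (F.coeff i) * X ^ i).natDegree ≤ j - 1 := by
        apply natDegree_sum_le_of_forall_le
        intro i hi
        rw [mem_range] at hi
        exact (natDegree_C_mul_X_pow_le _ _).trans (by omega)
      have hdeg0 : (X ^ (k - j) * ∑ i ∈ range j, C (F.coeff i) * X ^ i).natDegree ≤ k - 1 := by
        have h1 := natDegree_mul_le (p := (X ^ (k - j) : ℝ[X]))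
          (q := ∑ i ∈ range j, C (F.coeff i) * X ^ i)
        rw [natDegree_X_pow] at h1
        omega
      have := Ex.lowdeg (F := F) (p := X ^ (k - j) * ∑ i ∈ range j, C (F.coeff i) * X ^ i)
        (d := d) (by omega)
      rw [coeff_eq_zero_of_natDegree_lt (by omega)] at this
      simpa using this
    simpa using h1.sub h2

/-- existence of digits, with degree control -/
theorem digits_exist {F : ℝ[X]} {d : ℕ} (hF : F.natDegree = d) (hd : 2 ≤ d) :
    ∀ n : ℕ, ∀ g : ℝ[X], (∀ i, n ≤ i → g.coeff i = 0) → ∃ h : ℕ → ℝ[X],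
      g = ∑ k ∈ range d, X ^ k * (h k).comp F ∧
      (∀ k < d, ∀ i, n ≤ k + d * i → (h k).coeff i = 0) ∧
      (∀ i < d, ∀ j, n = i + d * j + 1 → (h i).coeff j * F.leadingCoeff ^ j = g.coeff (i + d * j)) := by
  have hc : F.leadingCoeff ≠ 0 := by
    rw [Ne, leadingCoeff_eq_zero]
    rintro rfl
    simp at hF; omega
  intro n
  induction n with
  | zero =>
    intro g hg
    refine ⟨fun _ => 0, ?_, by simp, fun i _ j h => absurd h (by omega)⟩
    have : g = 0 := by ext i; simpa using hg i (Nat.zero_le i)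
    simp [this]
  | succ n ih =>
    intro g hg
    set i0 := n % d with hi0
    set j0 := n / d with hj0
    have hn : i0 + d * j0 = n := Nat.mod_add_div n d
    have hi0d : i0 < d := Nat.mod_lt _ (by omega)
    set a : ℝ := g.coeff n / F.leadingCoeff ^ j0 with ha
    set T : ℝ[X] := X ^ i0 * (C a * X ^ j0).comp F with hT
    have hTe : T = C a * (X ^ i0 * F ^ j0) := by
      rw [hT]; simp only [Polynomial.mul_comp, C_comp, X_pow_comp]; ring
    have hTdeg : T.natDegree ≤ n := by
      rw [hTe]
      refine (natDegree_C_mul_le _ _).trans ?_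
      refine (natDegree_mul_le).trans ?_
      rw [natDegree_X_pow, natDegree_pow, hF]
      rw [← hn]; nlinarith
    have hTco : T.coeff n = g.coeff n := by
      rw [hTe, coeff_C_mul, ← hn, add_comm i0, coeff_X_pow_mul]
      have : (F ^ j0).coeff (d * j0) = F.leadingCoeff ^ j0 := by
        rw [← leadingCoeff_pow, leadingCoeff, natDegree_pow, hF, mul_comm]
      rw [this, ha, add_comm, hn]
      field_simp
    obtain ⟨h, h1, h2, h3⟩ := ih (g - T) (by
      intro i hi
      rcases Nat.eq_or_lt_of_le hi with h | h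
      · rw [← h, coeff_sub, hTco, sub_self]
      · rw [coeff_sub, hg i (by omega), coeff_eq_zero_of_natDegree_lt (by omega), sub_zero])
    refine ⟨fun k => if k = i0 then h k + C a * X ^ j0 else h k, ?_, ?_, ?_⟩
    · have e : ∑ k ∈ range d, X ^ k * ((fun k => if k = i0 then h k + C a * X ^ j0 else h k) k).comp F
          = ∑ k ∈ range d, (X ^ k * (h k).comp F + if k = i0 then T else 0) := by
        apply sum_congr rfl
        intro k _
        by_cases hk : k = i0
        · simp only [if_pos hk]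
          rw [add_comp, mul_add, hk, hT]
        · simp only [if_neg hk, add_zero]
      rw [e, sum_add_distrib, ← h1, Finset.sum_ite_eq', if_pos (mem_range.mpr hi0d)]
      ring
    · intro k hk i hi
      by_cases hk0 : k = i0
      · simp only [if_pos hk0]
        rw [coeff_add, h2 k hk i (by omega), coeff_C_mul, coeff_X_pow, if_neg, mul_zero, add_zero]
        rintro rfl
        omega
      · simp only [if_neg hk0]
        exact h2 k hk i (by omega)
    · intro i hi j hj
      have hij : i + d * j = n := by omega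
      have hii : i = i0 := by rw [hi0, ← hij, Nat.add_mul_mod_self_left, Nat.mod_eq_of_lt hi]
      have hjj : j = j0 := by
        rw [hj0, ← hij, Nat.add_mul_div_left _ _ (by omega), Nat.div_eq_of_lt hi, zero_add]
      simp only [if_pos hii]
      rw [coeff_add, h2 i hi j (by omega), coeff_C_mul, coeff_X_pow, if_pos hjj, ha, hij, hjj]
      field_simp
      ring

end Pool.Agent.Helper566.J
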