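import Mathlib
import Pool.Agent.Helper566.JEner

set_option autoImplicit false
set_option linter.unusedVariables false

open MeasureTheory Set Filter Topology ENNReal

namespace Pool.Agent.Helper566.J

theorem two_mul_eq {x y : ENNReal} (hx : x ≠ ⊤) (hy : y ≠ ⊤) (h : 2 * (x * y) = x * x + y * y) : x = y := by
  rw [← ENNReal.toReal_eq_toReal_iff' hx hy]
  have h1 := congrArg ENNReal.toReal h
  rw [ENNReal.toReal_add (ENNReal.mul_ne_top hx hx) (ENNReal.mul_ne_top hy hy)] at h1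
  simp only [ENNReal.toReal_mul, ENNReal.toReal_ofNat] at h1
  have h2 : (x.toReal - y.toReal) ^ 2 = 0 := by nlinarith
  have h3 := pow_eq_zero_iff (two_ne_zero) |>.mp h2
  linarith

theorem measurable_Qf (μ ν : Measure ℝ) [SFinite μ] [SFinite ν] : Measurable (fun s => Qf μ ν s) := by
  have h3 : (fun s => Qf μ ν s) = fun s => ∫⁻ x, ∫⁻ y, ENNReal.ofReal (s - dist x y) ∂ν ∂μ := by
    funext s; exact (lintegral_tri μ ν s).symm
  rw [h3]
  apply Measurable.lintegral_prod_right' (f := fun q : ℝ × ℝ => ∫⁻ y, ENNReal.ofReal (q.1 - dist q.2 y) ∂ν)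
  apply Measurable.lintegral_prod_right' (f := fun q : (ℝ × ℝ) × ℝ => ENNReal.ofReal (q.1.1 - dist q.1.2 q.2))
  fun_prop

/-- equality case of positive definiteness -/
theorem eq_of_en {a b T : ℝ} (hab : a ≤ b) (hT : b - a < T) (μ ν : Measure ℝ) [IsProbabilityMeasure μ]
    [IsProbabilityMeasure ν] (hμ : ∀ᵐ x ∂μ, a ≤ x ∧ x ≤ b) (hν : ∀ᵐ x ∂ν, a ≤ x ∧ x ≤ b)
    (hfin : en T μ ν ≠ ⊤) (h : en T μ μ + en T ν ν ≤ 2 * en T μ ν) : μ = ν := by
  have hT0 : 0 < T := by linarith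
  have hd : ∀ (μ ν : Measure ℝ), (∀ᵐ x ∂μ, a ≤ x ∧ x ≤ b) → (∀ᵐ x ∂ν, a ≤ x ∧ x ≤ b) →
      ∀ᵐ x ∂μ, ∀ᵐ y ∂ν, dist x y ≤ T := by
    intro μ ν hμ hν
    filter_upwards [hμ] with x hx
    filter_upwards [hν] with y hy
    rw [Real.dist_eq, abs_le]
    constructor <;> linarith [hx.1, hx.2, hy.1, hy.2]
  rw [en_rep hT0 μ μ (hd _ _ hμ hμ), en_rep hT0 ν ν (hd _ _ hν hν), en_rep hT0 μ ν (hd _ _ hμ hν)] at h
  rw [en_rep hT0 μ ν (hd _ _ hμ hν)] at hfin
  set f : ℝ → ENNReal := fun s => (2 * Qf μ ν s) * ENNReal.ofReal (1 / s ^ 2) with hf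
  set g : ℝ → ENNReal := fun s => (Qf μ μ s + Qf ν ν s) * ENNReal.ofReal (1 / s ^ 2) with hg
  have hmr : Measurable (fun s : ℝ => ENNReal.ofReal (1 / s ^ 2)) := by fun_prop
  have hmg : Measurable g := ((measurable_Qf μ μ).add (measurable_Qf ν ν)).mul hmr
  have hle : ∀ s, f s ≤ g s := by
    intro s
    simp only [hf, hg]
    gcongr
    exact Qf_pd μ ν s
  have hm1 : Measurable (fun s => Qf μ ν s * ENNReal.ofReal (1 / s ^ 2)) := (measurable_Qf μ ν).mul hmr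
  have hm2 : Measurable (fun s => Qf μ μ s * ENNReal.ofReal (1 / s ^ 2)) := (measurable_Qf μ μ).mul hmr
  have hIf : ∫⁻ s in Ioc 0 T, f s = 2 * ∫⁻ s in Ioc 0 T, Qf μ ν s * ENNReal.ofReal (1 / s ^ 2) := by
    rw [← lintegral_const_mul _ hm1]
    simp only [hf, mul_assoc]
  have hIg : ∫⁻ s in Ioc 0 T, g s = (∫⁻ s in Ioc 0 T, Qf μ μ s * ENNReal.ofReal (1 / s ^ 2))
      + ∫⁻ s in Ioc 0 T, Qf ν ν s * ENNReal.ofReal (1 / s ^ 2) := by
    rw [← lintegral_add_left hm2]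
    simp only [hg, add_mul]
  have hA : (∫⁻ s in Ioc 0 T, Qf μ ν s * ENNReal.ofReal (1 / s ^ 2)) ≠ ⊤ := by
    intro h0; rw [h0, top_add] at hfin; exact hfin rfl
  have hfT : f T ≤ g T := hle T
  have hB : Qf μ ν T * ENNReal.ofReal (1 / T) ≠ ⊤ := by
    intro h0; rw [h0, add_top] at hfin; exact hfin rfl
  have hBle : 2 * (Qf μ ν T * ENNReal.ofReal (1 / T)) ≤ (Qf μ μ T + Qf ν ν T) * ENNReal.ofReal (1 / T) := by
    rw [← mul_assoc]
    gcongr
    exact Qf_pd μ ν T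
  have hkey : ∫⁻ s in Ioc 0 T, g s ≤ ∫⁻ s in Ioc 0 T, f s := by
    rw [hIf, hIg]
    have h1 : ((∫⁻ s in Ioc 0 T, Qf μ μ s * ENNReal.ofReal (1 / s ^ 2))
        + ∫⁻ s in Ioc 0 T, Qf ν ν s * ENNReal.ofReal (1 / s ^ 2)) + 2 * (Qf μ ν T * ENNReal.ofReal (1 / T))
        ≤ 2 * (∫⁻ s in Ioc 0 T, Qf μ ν s * ENNReal.ofReal (1 / s ^ 2)) + 2 * (Qf μ ν T * ENNReal.ofReal (1 / T)) := by
      calc _ ≤ ((∫⁻ s in Ioc 0 T, Qf μ μ s * ENNReal.ofReal (1 / s ^ 2))
          + ∫⁻ s in Ioc 0 T, Qf ν ν s * ENNReal.ofReal (1 / s ^ 2)) + (Qf μ μ T + Qf ν ν T) * ENNReal.ofReal (1 / T) := by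
            gcongr
        _ = (∫⁻ s in Ioc 0 T, Qf μ μ s * ENNReal.ofReal (1 / s ^ 2)) + Qf μ μ T * ENNReal.ofReal (1 / T)
          + ((∫⁻ s in Ioc 0 T, Qf ν ν s * ENNReal.ofReal (1 / s ^ 2)) + Qf ν ν T * ENNReal.ofReal (1 / T)) := by ring
        _ ≤ _ := h
        _ = _ := by ring
    exact (ENNReal.add_le_add_iff_right (ENNReal.mul_ne_top (by norm_num) hB)).mp h1
  have hae : f =ᵐ[volume.restrict (Ioc 0 T)] g := by
    apply ae_eq_of_ae_le_of_lintegral_le (Eventually.of_forall hle) _ hmg.aemeasurable hkey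
    rw [hIf]
    exact ENNReal.mul_ne_top (by norm_num) hA
  -- choose a good radius
  obtain ⟨s, hs1, hs2, hs3⟩ : ∃ s, b - a < s ∧ 0 < s ∧ f s = g s := by
    by_contra hcon
    push Not at hcon
    rw [Filter.EventuallyEq, ae_restrict_iff' measurableSet_Ioc, ae_iff] at hae
    have h1 : Ioo (b - a) T ⊆ {x | ¬(x ∈ Ioc 0 T → f x = g x)} := by
      intro s hs
      have hs0 : 0 < s := by linarith [hs.1]
      intro h2
      exact hcon s hs.1 hs0 (h2 ⟨hs0, hs.2.le⟩)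
    have h2 := measure_mono_null h1 hae
    rw [Real.volume_Ioo, ENNReal.ofReal_eq_zero] at h2
    linarith
  have hQ : 2 * Qf μ ν s = Qf μ μ s + Qf ν ν s := by
    simp only [hf, hg] at hs3
    have h1 : ENNReal.ofReal (1 / s ^ 2) ≠ 0 := by
      rw [Ne, ENNReal.ofReal_eq_zero, not_le]; positivity
    exact (ENNReal.mul_left_inj h1 ENNReal.ofReal_ne_top).mp hs3
  have hle1 : ∀ (μ : Measure ℝ) [IsProbabilityMeasure μ] (z : ℝ), μ (Ioc (z - s) z) ≤ 1 := by
    intro μ _ z; exact prob_le_one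
  have hnt : ∀ (μ : Measure ℝ) [IsProbabilityMeasure μ] (z : ℝ), μ (Ioc (z - s) z) ≠ ⊤ := by
    intro μ _ z; exact measure_ne_top _ _
  have hQfin : Qf μ ν s ≠ ⊤ := by
    rw [← lintegral_tri]
    have : ∫⁻ x, ∫⁻ y, ENNReal.ofReal (s - dist x y) ∂ν ∂μ ≤ ∫⁻ x, ∫⁻ y, ENNReal.ofReal s ∂ν ∂μ := by
      apply lintegral_mono; intro x
      apply lintegral_mono; intro y
      apply ENNReal.ofReal_le_ofReal
      have := dist_nonneg (x := x) (y := y)
      linarith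
    simp only [lintegral_const, measure_univ, mul_one] at this
    exact (lt_of_le_of_lt this ofReal_lt_top).ne
  have hn1 : Measurable (fun z => μ (Ioc (z - s) z) * ν (Ioc (z - s) z)) :=
    (measurable_Ioc μ s).mul (measurable_Ioc ν s)
  have hn2 : Measurable (fun z => μ (Ioc (z - s) z) * μ (Ioc (z - s) z)) :=
    (measurable_Ioc μ s).mul (measurable_Ioc μ s)
  have hn3 : Measurable (fun z => ν (Ioc (z - s) z) * ν (Ioc (z - s) z)) :=
    (measurable_Ioc ν s).mul (measurable_Ioc ν s)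
  have hae2 : (fun z => 2 * (μ (Ioc (z - s) z) * ν (Ioc (z - s) z))) =ᵐ[volume]
      fun z => μ (Ioc (z - s) z) * μ (Ioc (z - s) z) + ν (Ioc (z - s) z) * ν (Ioc (z - s) z) := by
    apply ae_eq_of_ae_le_of_lintegral_le
    · exact Eventually.of_forall fun z => two_mul_le_sq _ _
    · rw [lintegral_const_mul _ hn1]
      exact ENNReal.mul_ne_top (by norm_num) hQfin
    · exact (hn2.add hn3).aemeasurable
    · rw [lintegral_const_mul _ hn1, lintegral_add_left hn2]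
      exact hQ.symm.le
  have hae3 : ∀ᵐ z ∂(volume : Measure ℝ), μ (Ioc (z - s) z) = ν (Ioc (z - s) z) := by
    filter_upwards [hae2] with z hz
    exact two_mul_eq (hnt μ z) (hnt ν z) hz
  -- compare distribution functions
  have hlow : ∀ (μ : Measure ℝ), (∀ᵐ x ∂μ, a ≤ x ∧ x ≤ b) → ∀ z, z < a → μ (Iic z) = 0 := by
    intro μ hμ z hz
    rw [ae_iff] at hμ
    apply measure_mono_null _ hμ
    intro x hx hx'
    have : x ≤ z := hx
    linarith [hx'.1]
  have hhigh : ∀ (μ : Measure ℝ) [IsProbabilityMeasure μ], (∀ᵐ x ∂μ, a ≤ x ∧ x ≤ b) → ∀ z, b ≤ z → μ (Iic z) = 1 := by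
    intro μ _ hμ z hz
    rw [← prob_compl_eq_zero_iff measurableSet_Iic]
    rw [ae_iff] at hμ
    apply measure_mono_null _ hμ
    intro x hx hx'
    exact hx (hx'.2.trans hz)
  have hmid : ∀ (μ : Measure ℝ), (∀ᵐ x ∂μ, a ≤ x ∧ x ≤ b) → ∀ z, z ≤ b → μ (Ioc (z - s) z) = μ (Iic z) := by
    intro μ hμ z hz
    apply measure_congr
    filter_upwards [hμ] with x hx
    apply propext
    constructor
    · intro h; exact h.2
    · intro h
      refine ⟨?_, h⟩
      show z - s < x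
      linarith [hx.1]
  have hgood : ∀ᵐ z ∂(volume : Measure ℝ), μ (Iic z) = ν (Iic z) := by
    filter_upwards [hae3] with z hz
    rcases le_total z b with h | h
    · rw [← hmid μ hμ z h, ← hmid ν hν z h]; exact hz
    · rw [hhigh μ hμ z h, hhigh ν hν z h]
  have hdense : Dense {z : ℝ | μ (Iic z) = ν (Iic z)} := by
    exact Measure.dense_of_ae hgood
  apply Measure.ext_of_Iic
  intro x
  obtain ⟨u, hu1, hu2, hu3⟩ := hdense.exists_seq_strictAnti_tendsto x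
  have hI : Iic x = ⋂ n, Iic (u n) := by
    ext y
    simp only [mem_Iic, mem_iInter]
    constructor
    · intro h n
      exact h.trans (hu2 n).1.le
    · intro h
      exact ge_of_tendsto' hu3 h
  have hanti : Antitone fun n => Iic (u n) := by
    intro m n hmn
    exact Iic_subset_Iic.mpr (hu1.antitone hmn)
  have l1 := tendsto_measure_iInter_atTop (μ := μ) (fun n => (measurableSet_Iic (a := u n)).nullMeasurableSet)
    hanti ⟨0, measure_ne_top _ _⟩
  have l2 := tendsto_measure_iInter_atTop (μ := ν) (fun n => (measurableSet_Iic (a := u n)).nullMeasurableSet)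
    hanti ⟨0, measure_ne_top _ _⟩
  rw [← hI] at l1 l2
  have hcongr : (fun n => μ (Iic (u n))) = fun n => ν (Iic (u n)) := by
    funext n
    exact (hu2 n).2
  have l1' : Tendsto (fun n => μ (Iic (u n))) atTop (𝓝 (μ (Iic x))) := l1
  have l2' : Tendsto (fun n => ν (Iic (u n))) atTop (𝓝 (ν (Iic x))) := l2
  rw [hcongr] at l1'
  exact tendsto_nhds_unique l1' l2'

end Pool.Agent.Helper566.J
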