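import Mathlib

set_option autoImplicit false
set_option linter.unusedVariables false

open Polynomial Finset

namespace Pool.Agent.Helper566.J

/-- product of differences -/
noncomputable def Dn (s : Finset ℝ) (y : ℝ) : ℝ := ∏ x ∈ s.erase y, (y - x)

theorem Dn_ne {s : Finset ℝ} {y : ℝ} : Dn s y ≠ 0 := by
  unfold Dn
  rw [prod_ne_zero_iff]
  intro x hx
  exact sub_ne_zero.mpr (ne_of_mem_erase hx).symm

theorem Dn_insert {s : Finset ℝ} {z y : ℝ} (hz : z ∉ s) (hy : y ∈ s) :
    Dn (insert z s) y = (y - z) * Dn s y := by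
  unfold Dn
  have hyz : y ≠ z := fun h => hz (h ▸ hy)
  rw [erase_insert_of_ne hyz.symm, prod_insert]
  exact fun h => hz (mem_of_mem_erase h)

theorem Dn_insert_self {s : Finset ℝ} {z : ℝ} (hz : z ∉ s) :
    Dn (insert z s) z = ∏ x ∈ s, (z - x) := by
  unfold Dn
  rw [erase_insert hz]

/-- Lagrange identity for the top coefficient -/
theorem lag (s : Finset ℝ) (hs : 0 < s.card) (p : ℝ[X]) (hp : ∀ i, s.card ≤ i → p.coeff i = 0) :
    ∑ y ∈ s, p.eval y / Dn s y = p.coeff (s.card - 1) := by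
  have hdeg : p.degree < s.card := by
    rw [degree_lt_iff_coeff_zero]
    exact hp
  have h1 := Lagrange.eq_interpolate (s := s) (v := id) (f := p) (Set.injOn_id _) hdeg
  rw [Lagrange.interpolate_apply] at h1
  conv_rhs => rw [h1]
  rw [finsetSum_coeff]
  apply sum_congr rfl
  intro y hy
  rw [coeff_C_mul]
  have h2 : Lagrange.basis s id y = C (Dn s y)⁻¹ * ∏ x ∈ s.erase y, (X - C x) := by
    unfold Lagrange.basis Lagrange.basisDivisor Dn
    rw [prod_mul_distrib, ← prod_inv_distrib, map_prod]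
    rfl
  have h3 : (∏ x ∈ s.erase y, (X - C x) : ℝ[X]).coeff (s.card - 1) = 1 := by
    have hm : (∏ x ∈ s.erase y, (X - C x) : ℝ[X]).Monic := monic_prod_of_monic _ _ fun x _ => monic_X_sub_C x
    have hd : (∏ x ∈ s.erase y, (X - C x) : ℝ[X]).natDegree = s.card - 1 := by
      rw [natDegree_prod_of_monic _ _ fun x _ => monic_X_sub_C x]
      simp [card_erase_of_mem hy]
    rw [← hd]
    exact hm.coeff_natDegree
  rw [h2, coeff_C_mul, h3]
  simp only [id]
  ring

end Pool.Agent.Helper566.J
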