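import Mathlib

set_option autoImplicit false
set_option linter.unusedVariables false

open Polynomial Finset

namespace Pool.Agent.Helper566.J

/-- orthogonality system of a positive functional living on `[a, b]` -/
structure OS (a b : ℝ) (L : ℝ[X] →ₗ[ℝ] ℝ) (P : ℕ → ℝ[X]) : Prop where
  pos : ∀ g : ℝ[X], g ≠ 0 → 0 < L (g * g)
  lo : ∀ g : ℝ[X], g ≠ 0 → a * L (g * g) < L (X * (g * g))
  hi : ∀ g : ℝ[X], g ≠ 0 → L (X * (g * g)) < b * L (g * g)
  monic : ∀ n, (P n).Monic
  deg : ∀ n, (P n).natDegree = n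
  orth : ∀ n k, k < n → L (P n * X ^ k) = 0

/-- ratio of consecutive polynomials -/
noncomputable def rho (P : ℕ → ℝ[X]) (n : ℕ) (z : ℝ) : ℝ := (P (n + 1)).eval z / (P n).eval z

namespace OS

variable {a b : ℝ} {L : ℝ[X] →ₗ[ℝ] ℝ} {P : ℕ → ℝ[X]}

theorem map_C_mul (c : ℝ) (g : ℝ[X]) : L (C c * g) = c * L g := by
  rw [← smul_eq_C_mul, map_smul, smul_eq_mul]

theorem Pne (S : OS a b L P) (n : ℕ) : P n ≠ 0 := (S.monic n).ne_zero

theorem Pcoeff (S : OS a b L P) (n : ℕ) : (P n).coeff n = 1 := by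
  have := S.monic n
  rw [Monic, leadingCoeff, S.deg n] at this
  exact this

theorem Pco (S : OS a b L P) {n i : ℕ} (h : n < i) : (P n).coeff i = 0 :=
  coeff_eq_zero_of_natDegree_lt (by rw [S.deg]; exact h)

theorem orth' (S : OS a b L P) {n : ℕ} {g : ℝ[X]} (hg : ∀ i, n ≤ i → g.coeff i = 0) :
    L (P n * g) = 0 := by
  have h1 : g = ∑ i ∈ range n, C (g.coeff i) * X ^ i := by
    ext j
    rw [finsetSum_coeff]
    simp only [coeff_C_mul, coeff_X_pow, mul_ite, mul_one, mul_zero]
    rw [Finset.sum_ite_eq]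
    simp only [mem_range]
    by_cases h : j < n
    · rw [if_pos h]
    · rw [if_neg h]; exact hg j (by omega)
  rw [h1, mul_sum, map_sum]
  apply sum_eq_zero
  intro i hi
  have e : P n * (C (g.coeff i) * X ^ i) = C (g.coeff i) * (P n * X ^ i) := by ring
  rw [e, map_C_mul, S.orth n i (mem_range.mp hi), mul_zero]

theorem eq_of_orth (S : OS a b L P) {n : ℕ} {g : ℝ[X]} (hg : ∀ i, n < i → g.coeff i = 0)
    (ho : ∀ q : ℝ[X], (∀ i, n ≤ i → q.coeff i = 0) → L (g * q) = 0) :
    g = C (g.coeff n) * P n := by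
  set r := g - C (g.coeff n) * P n with hr
  have hr0 : ∀ i, n ≤ i → r.coeff i = 0 := by
    intro i hi
    rw [hr, coeff_sub, coeff_C_mul]
    rcases Nat.eq_or_lt_of_le hi with h | h
    · rw [← h, S.Pcoeff]; ring
    · rw [hg i h, S.Pco (by omega)]; ring
  have h1 : L (r * r) = 0 := by
    have e : r * r = g * r - C (g.coeff n) * (P n * r) := by
      conv_lhs => rw [show r * r = (g - C (g.coeff n) * P n) * r by rw [← hr]]
      ring
    rw [e, map_sub, ho r hr0, map_C_mul, S.orth' hr0]; ring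
  have h2 : r = 0 := by
    by_contra h
    exact absurd h1 (S.pos r h).ne'
  rw [hr, sub_eq_zero] at h2
  exact h2

theorem hpos (S : OS a b L P) (n : ℕ) : 0 < L (P n * P n) := S.pos _ (S.Pne n)

/-- minimality of the norm of the monic polynomial -/
theorem min_norm (S : OS a b L P) {n : ℕ} {g : ℝ[X]} (hg : ∀ i, n < i → g.coeff i = 0) :
    (g.coeff n) ^ 2 * L (P n * P n) ≤ L (g * g) := by
  set r := g - C (g.coeff n) * P n with hr
  have hr0 : ∀ i, n ≤ i → r.coeff i = 0 := by
    intro i hi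
    rw [hr, coeff_sub, coeff_C_mul]
    rcases Nat.eq_or_lt_of_le hi with h | h
    · rw [← h, S.Pcoeff]; ring
    · rw [hg i h, S.Pco (by omega)]; ring
  have e : g * g = C ((g.coeff n) ^ 2) * (P n * P n) + C (2 * g.coeff n) * (P n * r) + r * r := by
    have : g = C (g.coeff n) * P n + r := by rw [hr]; ring
    conv_lhs => rw [this]
    simp only [C_mul, C_pow, map_ofNat]
    ring
  rw [e, map_add, map_add, map_C_mul, map_C_mul, S.orth' hr0]
  have : 0 ≤ L (r * r) := by
    by_cases h : r = 0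
    · rw [h]; simp
    · exact (S.pos r h).le
  linarith

theorem a_lt_b (S : OS a b L P) : a < b := by
  have h1 := S.lo 1 one_ne_zero
  have h2 := S.hi 1 one_ne_zero
  have h3 := S.pos 1 one_ne_zero
  by_contra h
  push Not at h
  nlinarith

/-- diagonal coefficient -/
noncomputable def bb (L : ℝ[X] →ₗ[ℝ] ℝ) (P : ℕ → ℝ[X]) (n : ℕ) : ℝ :=
  L (X * (P n * P n)) / L (P n * P n)

/-- squared off-diagonal coefficient -/
noncomputable def aa (L : ℝ[X] →ₗ[ℝ] ℝ) (P : ℕ → ℝ[X]) (n : ℕ) : ℝ :=
  L (P (n + 1) * P (n + 1)) / L (P n * P n)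

theorem aa_pos (S : OS a b L P) (n : ℕ) : 0 < aa L P n := div_pos (S.hpos _) (S.hpos _)

theorem bb_gt (S : OS a b L P) (n : ℕ) : a < bb L P n := by
  unfold bb
  rw [lt_div_iff₀ (S.hpos n)]
  exact S.lo _ (S.Pne n)

theorem bb_lt (S : OS a b L P) (n : ℕ) : bb L P n < b := by
  unfold bb
  rw [div_lt_iff₀ (S.hpos n)]
  exact S.hi _ (S.Pne n)

theorem P_zero (S : OS a b L P) : P 0 = 1 := by
  have := S.monic 0
  exact (this.natDegree_eq_zero).mp (S.deg 0)

theorem orth_lt (S : OS a b L P) {m n : ℕ} (h : m < n) : L (P n * P m) = 0 :=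
  S.orth' fun i hi => coeff_eq_zero_of_natDegree_lt (by rw [S.deg]; omega)

theorem L_X_P (S : OS a b L P) (n : ℕ) : L (X * P n * P (n + 1)) = L (P (n + 1) * P (n + 1)) := by
  have h1 : L (P (n + 1) * (X * P n - P (n + 1))) = 0 := by
    apply S.orth'
    intro i hi
    rw [coeff_sub]
    rcases Nat.eq_or_lt_of_le hi with h | h
    · rw [← h, coeff_X_mul, S.Pcoeff, S.Pcoeff]; ring
    · rw [S.Pco (show n + 1 < i by omega), sub_zero]
      apply coeff_eq_zero_of_natDegree_lt
      refine lt_of_le_of_lt natDegree_mul_le ?_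
      rw [S.deg, natDegree_X]; omega
  rw [mul_sub, map_sub] at h1
  have e : X * P n * P (n + 1) = P (n + 1) * (X * P n) := by ring
  rw [e]
  linarith

theorem rec_zero (S : OS a b L P) : P 1 = X - C (bb L P 0) := by
  set g := X - C (bb L P 0) with hg
  have h1 : g = C (g.coeff 1) * P 1 := by
    apply S.eq_of_orth
    · intro i hi
      rw [hg, coeff_sub, coeff_X, coeff_C, if_neg (by omega), if_neg (by omega), sub_zero]
    · intro q hq
      have : q = C (q.coeff 0) := by
        ext i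
        rw [coeff_C]
        split_ifs with h
        · rw [h]
        · exact hq i (by omega)
      rw [this, mul_comm, map_C_mul, hg, map_sub]
      have h2 : L (C (bb L P 0)) = bb L P 0 * L 1 := by
        rw [← map_C_mul, mul_one]
      have h3 : bb L P 0 = L X / L 1 := by
        unfold bb; rw [S.P_zero]; simp
      have h4 : 0 < L 1 := by simpa using S.pos 1 one_ne_zero
      rw [h2, h3, div_mul_cancel₀ _ h4.ne', sub_self, mul_zero]
  have h2 : g.coeff 1 = 1 := by
    rw [hg, coeff_sub, coeff_X_one, coeff_C, if_neg one_ne_zero, sub_zero]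
  rw [h2, C_1, one_mul] at h1
  exact h1.symm

theorem rec_succ (S : OS a b L P) (n : ℕ) :
    P (n + 2) = (X - C (bb L P (n + 1))) * P (n + 1) - C (aa L P n) * P n := by
  set g := (X - C (bb L P (n + 1))) * P (n + 1) - C (aa L P n) * P n with hg
  have hco : ∀ i, n + 2 < i → g.coeff i = 0 := by
    intro i hi
    rw [hg, coeff_sub, coeff_C_mul, coeff_eq_zero_of_natDegree_lt (n := i) (p := P n)
      (by rw [S.deg]; omega), mul_zero, sub_zero]
    apply coeff_eq_zero_of_natDegree_lt
    refine lt_of_le_of_lt natDegree_mul_le ?_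
    rw [S.deg, natDegree_X_sub_C]; omega
  have h1 : g = C (g.coeff (n + 2)) * P (n + 2) := by
    apply S.eq_of_orth hco
    intro q hq
    -- decompose q
    set q1 := q - C (q.coeff (n + 1)) * P (n + 1) with hq1
    have hq1' : ∀ i, n + 1 ≤ i → q1.coeff i = 0 := by
      intro i hi
      rw [hq1, coeff_sub, coeff_C_mul]
      rcases Nat.eq_or_lt_of_le hi with h | h
      · rw [← h, S.Pcoeff]; ring
      · rw [hq i (by omega), S.Pco (by omega)]; ring
    set q2 := q1 - C (q1.coeff n) * P n with hq2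
    have hq2' : ∀ i, n ≤ i → q2.coeff i = 0 := by
      intro i hi
      rw [hq2, coeff_sub, coeff_C_mul]
      rcases Nat.eq_or_lt_of_le hi with h | h
      · rw [← h, S.Pcoeff]; ring
      · rw [hq1' i (by omega), S.Pco (by omega)]; ring
    have hqe : q = C (q.coeff (n + 1)) * P (n + 1) + C (q1.coeff n) * P n + q2 := by
      rw [hq2, hq1]; ring
    have e1 : L (g * P (n + 1)) = 0 := by
      have : g * P (n + 1) = X * (P (n + 1) * P (n + 1)) - C (bb L P (n + 1)) * (P (n + 1) * P (n + 1))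
          - C (aa L P n) * (P (n + 1) * P n) := by rw [hg]; ring
      rw [this, map_sub, map_sub, map_C_mul, map_C_mul, S.orth_lt (Nat.lt_succ_self n)]
      have h0 := S.hpos (n + 1)
      unfold bb
      field_simp
      ring
    have e2 : L (g * P n) = 0 := by
      have : g * P n = X * P n * P (n + 1) - C (bb L P (n + 1)) * (P (n + 1) * P n)
          - C (aa L P n) * (P n * P n) := by rw [hg]; ring
      rw [this, map_sub, map_sub, map_C_mul, map_C_mul, S.orth_lt (Nat.lt_succ_self n), S.L_X_P]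
      have h0 := S.hpos n
      unfold aa
      field_simp
      ring
    have e3 : L (g * q2) = 0 := by
      have : g * q2 = P (n + 1) * (X * q2) - C (bb L P (n + 1)) * (P (n + 1) * q2)
          - C (aa L P n) * (P n * q2) := by rw [hg]; ring
      rw [this, map_sub, map_sub, map_C_mul, map_C_mul, S.orth' hq2',
        S.orth' (n := n + 1) (g := q2) (fun i hi => hq2' i (by omega)), S.orth' (n := n + 1)]
      · ring
      · intro i hi
        obtain ⟨j, rfl⟩ : ∃ j, i = j + 1 := ⟨i - 1, by omega⟩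
        rw [coeff_X_mul]
        exact hq2' j (by omega)
    have e4 : g * q = C (q.coeff (n + 1)) * (g * P (n + 1)) + C (q1.coeff n) * (g * P n) + g * q2 := by
      conv_lhs => rw [hqe]
      ring
    rw [e4, map_add, map_add, map_C_mul, map_C_mul, e1, e2, e3]; ring
  have h2 : g.coeff (n + 2) = 1 := by
    rw [hg, coeff_sub, coeff_C_mul, coeff_eq_zero_of_natDegree_lt (n := n + 2) (p := P n)
      (by rw [S.deg]; omega), mul_zero, sub_zero, sub_mul, coeff_sub, coeff_C_mul, coeff_X_mul,
      S.Pcoeff, coeff_eq_zero_of_natDegree_lt (n := n + 2) (p := P (n + 1))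
      (by rw [S.deg]; omega)]
    ring
  rw [h2, C_1, one_mul] at h1
  exact h1.symm

/-- Christoffel type identity -/
theorem chr (S : OS a b L P) (n : ℕ) (z : ℝ) : ∃ Q : ℝ[X], (∀ i, n < i → Q.coeff i = 0) ∧
    Q.coeff n = (P n).eval z ∧
    (P (n + 1)).eval z * (P n).eval z * L (P n * P n) = z * L (Q * Q) - L (X * (Q * Q)) := by
  set p := (P n).eval z with hp
  set p1 := (P (n + 1)).eval z with hp1
  have hroot : (C p * P (n + 1) - C p1 * P n).IsRoot z := by
    simp [IsRoot, ← hp, ← hp1]; ring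
  obtain ⟨Q, hQ⟩ := dvd_iff_isRoot.mpr hroot
  have hdeg : ∀ i, n < i → Q.coeff i = 0 := by
    intro i hi
    by_contra hne
    have hQ0 : Q ≠ 0 := by rintro rfl; simp at hne
    have h1 : (C p * P (n + 1) - C p1 * P n).natDegree = 1 + Q.natDegree := by
      rw [hQ, natDegree_mul (X_sub_C_ne_zero z) hQ0, natDegree_X_sub_C]
    have h2 : (C p * P (n + 1) - C p1 * P n).natDegree ≤ n + 1 := by
      refine (natDegree_sub_le _ _).trans (max_le ?_ ?_)
      · exact (natDegree_C_mul_le _ _).trans (by rw [S.deg])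
      · exact (natDegree_C_mul_le _ _).trans (by rw [S.deg]; omega)
    have h3 := le_natDegree_of_ne_zero hne
    omega
  have hlead : Q.coeff n = p := by
    have h1 : (C p * P (n + 1) - C p1 * P n).coeff (n + 1) = p := by
      rw [coeff_sub, coeff_C_mul, coeff_C_mul, S.Pcoeff, coeff_eq_zero_of_natDegree_lt
        (n := n + 1) (p := P n) (by rw [S.deg]; omega)]
      ring
    rw [hQ, sub_mul, coeff_sub, coeff_X_mul, coeff_C_mul, hdeg (n + 1) (by omega)] at h1
    linarith
  refine ⟨Q, hdeg, hlead, ?_⟩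
  have e1 : z * L (Q * Q) - L (X * (Q * Q)) = - L ((X - C z) * Q * Q) := by
    have : (X - C z) * Q * Q = X * (Q * Q) - C z * (Q * Q) := by ring
    rw [this, map_sub, map_C_mul]; ring
  have e2 : L (P n * Q) = p * L (P n * P n) := by
    have h1 : L (P n * (Q - C p * P n)) = 0 := by
      apply S.orth'
      intro i hi
      rw [coeff_sub, coeff_C_mul]
      rcases Nat.eq_or_lt_of_le hi with h | h
      · rw [← h, S.Pcoeff, hlead]; ring
      · rw [hdeg i h, S.Pco (by omega)]; ring
    have h2 : P n * (Q - C p * P n) = P n * Q - C p * (P n * P n) := by ring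
    rw [h2, map_sub, map_C_mul] at h1
    linarith
  have e3 : L (P (n + 1) * Q) = 0 := S.orth' fun i hi => hdeg i (by omega)
  rw [e1, ← hQ]
  have e4 : (C p * P (n + 1) - C p1 * P n) * Q = C p * (P (n + 1) * Q) - C p1 * (P n * Q) := by ring
  rw [e4, map_sub, map_C_mul, map_C_mul, e2, e3]
  ring

theorem eval_pos (S : OS a b L P) {z : ℝ} (hz : b ≤ z) : ∀ n, 0 < (P n).eval z := by
  intro n
  induction n with
  | zero => rw [S.P_zero]; simp
  | succ n ih =>
    obtain ⟨Q, h1, h2, h3⟩ := S.chr n z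
    have hQ : Q ≠ 0 := by rintro rfl; simp at h2; exact ih.ne h2
    have h4 := S.hi Q hQ
    have h5 := S.pos Q hQ
    have h6 : 0 < z * L (Q * Q) - L (X * (Q * Q)) := by nlinarith
    rw [← h3] at h6
    have h7 := S.hpos n
    by_contra hcon
    push Not at hcon
    have : (P (n + 1)).eval z * (P n).eval z * L (P n * P n) ≤ 0 := by
      have : (P (n + 1)).eval z * (P n).eval z ≤ 0 := mul_nonpos_of_nonpos_of_nonneg hcon ih.le
      exact mul_nonpos_of_nonpos_of_nonneg this h7.le
    linarith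

theorem eval_ne_lo (S : OS a b L P) {z : ℝ} (hz : z ≤ a) :
    ∀ n, (P n).eval z ≠ 0 ∧ (P (n + 1)).eval z * (P n).eval z < 0 := by
  have key : ∀ n, (P n).eval z ≠ 0 → (P (n + 1)).eval z * (P n).eval z < 0 := by
    intro n ih
    obtain ⟨Q, h1, h2, h3⟩ := S.chr n z
    have hQ : Q ≠ 0 := by rintro rfl; simp at h2; exact ih h2.symm
    have h4 := S.lo Q hQ
    have h5 := S.pos Q hQ
    have h6 : z * L (Q * Q) - L (X * (Q * Q)) < 0 := by nlinarith
    rw [← h3] at h6
    have h7 := S.hpos n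
    by_contra hcon
    push Not at hcon
    have := mul_nonneg hcon h7.le
    linarith
  have hne : ∀ n, (P n).eval z ≠ 0 := by
    intro n
    induction n with
    | zero => rw [S.P_zero]; simp
    | succ n ih =>
      have := key n ih
      intro h0
      rw [h0, zero_mul] at this
      exact lt_irrefl _ this
  exact fun n => ⟨hne n, key n (hne n)⟩

theorem rho_pos (S : OS a b L P) {z : ℝ} (hz : b ≤ z) (n : ℕ) : 0 < rho P n z :=
  div_pos (S.eval_pos hz _) (S.eval_pos hz _)

theorem rho_neg (S : OS a b L P) {z : ℝ} (hz : z ≤ a) (n : ℕ) : rho P n z < 0 := by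
  obtain ⟨h1, h2⟩ := S.eval_ne_lo hz n
  unfold rho
  rw [div_neg_iff]
  rcases lt_or_gt_of_ne h1 with h | h
  · left; exact ⟨by nlinarith, h⟩
  · right; exact ⟨by nlinarith, h⟩

theorem rho_lower_hi (S : OS a b L P) {z : ℝ} (hz : b ≤ z) (n : ℕ) : z - b ≤ rho P n z := by
  obtain ⟨Q, h1, h2, h3⟩ := S.chr n z
  have hp := S.eval_pos hz n
  have hQ : Q ≠ 0 := by rintro rfl; simp at h2; exact hp.ne h2
  have h4 := S.hi Q hQ
  have h5 := S.min_norm h1
  rw [h2] at h5
  have h6 := S.hpos n
  unfold rho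
  rw [le_div_iff₀ hp]
  have h7 : (z - b) * (((P n).eval z) ^ 2 * L (P n * P n)) ≤ (P (n + 1)).eval z * (P n).eval z * L (P n * P n) := by
    rw [h3]
    nlinarith
  have h8 : 0 < (P n).eval z * L (P n * P n) := mul_pos hp h6
  have h9 : ((z - b) * (P n).eval z) * ((P n).eval z * L (P n * P n)) ≤
      (P (n + 1)).eval z * ((P n).eval z * L (P n * P n)) := by nlinarith
  exact le_of_mul_le_mul_right h9 h8

theorem rho_lower_lo (S : OS a b L P) {z : ℝ} (hz : z ≤ a) (n : ℕ) : a - z ≤ -rho P n z := by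
  obtain ⟨Q, h1, h2, h3⟩ := S.chr n z
  have hp := (S.eval_ne_lo hz n).1
  have hQ : Q ≠ 0 := by rintro rfl; simp at h2; exact hp h2.symm
  have h4 := S.lo Q hQ
  have h5 := S.min_norm h1
  rw [h2] at h5
  have h6 := S.hpos n
  have h7 : (a - z) * (((P n).eval z) ^ 2 * L (P n * P n)) ≤ -((P (n + 1)).eval z * (P n).eval z * L (P n * P n)) := by
    rw [h3]
    nlinarith
  have h8 : 0 < (P n).eval z ^ 2 * L (P n * P n) := by positivity
  have h9 : (a - z) * ((P n).eval z ^ 2 * L (P n * P n)) ≤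
      (-rho P n z) * ((P n).eval z ^ 2 * L (P n * P n)) := by
    have : rho P n z * ((P n).eval z ^ 2 * L (P n * P n)) = (P (n + 1)).eval z * (P n).eval z * L (P n * P n) := by
      unfold rho; field_simp
    linarith
  exact le_of_mul_le_mul_right h9 h8

theorem rho_zero (S : OS a b L P) (z : ℝ) : rho P 0 z = z - bb L P 0 := by
  unfold rho
  rw [S.rec_zero, S.P_zero]; simp

theorem rho_succ (S : OS a b L P) {z : ℝ} (n : ℕ) (h : (P (n + 1)).eval z ≠ 0)
    (h' : (P n).eval z ≠ 0) :
    rho P (n + 1) z = z - bb L P (n + 1) - aa L P n / rho P n z := by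
  unfold rho
  rw [S.rec_succ]
  simp only [eval_sub, eval_mul, eval_X, eval_C]
  field_simp

theorem rho_upper_hi (S : OS a b L P) {z : ℝ} (hz : b ≤ z) (n : ℕ) : rho P n z ≤ z - a := by
  cases n with
  | zero => rw [S.rho_zero]; linarith [S.bb_gt 0]
  | succ n =>
    rw [S.rho_succ n (S.eval_pos hz _).ne' (S.eval_pos hz _).ne']
    have h1 := S.bb_gt (n + 1)
    have h2 := div_pos (S.aa_pos n) (S.rho_pos hz n)
    linarith

theorem rho_upper_lo (S : OS a b L P) {z : ℝ} (hz : z ≤ a) (n : ℕ) : -rho P n z ≤ b - z := by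
  cases n with
  | zero => rw [S.rho_zero]; linarith [S.bb_lt 0]
  | succ n =>
    rw [S.rho_succ n (S.eval_ne_lo hz _).1 (S.eval_ne_lo hz _).1]
    have h1 := S.bb_lt (n + 1)
    have h2 := div_neg_of_pos_of_neg (S.aa_pos n) (S.rho_neg hz n)
    linarith

end OS

end Pool.Agent.Helper566.J
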