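import Mathlib
import Pool.Agent.Helper566.JAlg
import Pool.Agent.Helper566.JOP

set_option autoImplicit false
set_option linter.unusedVariables false

open Polynomial Finset

namespace Pool.Agent.Helper566.J

/-- normalised derivative -/
noncomputable def chi (F : ℝ[X]) (d : ℕ) : ℝ[X] := C ((d : ℝ) * F.leadingCoeff)⁻¹ * derivative F

/-- balanced orthogonality system -/
structure BS (a b : ℝ) (F : ℝ[X]) (d : ℕ) (L : ℝ[X] →ₗ[ℝ] ℝ) (P : ℕ → ℝ[X]) : Prop
    extends OS a b L P where
  hF : F.natDegree = d
  hd : 2 ≤ d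
  bal : ∀ g t : ℝ[X], Ex F d (g * chi F d) t → L g = L t

theorem lc_ne {F : ℝ[X]} {d : ℕ} (hF : F.natDegree = d) (hd : 2 ≤ d) : F.leadingCoeff ≠ 0 := by
  rw [Ne, leadingCoeff_eq_zero]
  rintro rfl
  simp at hF; omega

theorem chi_coeff {F : ℝ[X]} {d : ℕ} (hF : F.natDegree = d) (hd : 2 ≤ d) :
    (chi F d).coeff (d - 1) = 1 := by
  have hc := lc_ne hF hd
  unfold chi
  rw [coeff_C_mul, coeff_derivative, show d - 1 + 1 = d by omega]
  have h1 : F.coeff d = F.leadingCoeff := by rw [leadingCoeff, hF]
  have h2 : ((d - 1 : ℕ) : ℝ) + 1 = d := by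
    have : ((d - 1 + 1 : ℕ) : ℝ) = d := by congr 1; omega
    push_cast at this; exact this
  rw [h1, h2]
  have : (d : ℝ) ≠ 0 := by positivity
  field_simp

theorem chi_deg {F : ℝ[X]} {d : ℕ} (hF : F.natDegree = d) (hd : 2 ≤ d) :
    (chi F d).natDegree = d - 1 := by
  apply le_antisymm
  · unfold chi
    refine (natDegree_C_mul_le _ _).trans ?_
    refine (natDegree_derivative_le _).trans ?_
    rw [hF]
  · apply le_natDegree_of_ne_zero
    rw [chi_coeff hF hd]; exact one_ne_zero

theorem chi_monic {F : ℝ[X]} {d : ℕ} (hF : F.natDegree = d) (hd : 2 ≤ d) : (chi F d).Monic := by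
  rw [Monic, leadingCoeff, chi_deg hF hd, chi_coeff hF hd]

namespace BS

variable {a b : ℝ} {F : ℝ[X]} {d : ℕ} {L : ℝ[X] →ₗ[ℝ] ℝ} {P : ℕ → ℝ[X]}

theorem structure_lemma (S : BS a b F d L P) (m r : ℕ) (hr : r < d) :
    ∃ Φ I : ℝ[X], (∀ i, r < i → Φ.coeff i = 0) ∧ Φ.coeff r = 1 ∧
      (∀ i, d - 1 - r ≤ i → I.coeff i = 0) ∧
      C (F.leadingCoeff ^ (m + 1)) * chi F d * P (d * m + r + 1)
        = (P (m + 1)).comp F * Φ - (P m).comp F * I := by
  have hF := S.hF
  have hd := S.hd
  have O := S.toOS
  set c := F.leadingCoeff with hc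
  have hc0 : c ≠ 0 := lc_ne hF hd
  set N := C (c ^ (m + 1)) * chi F d * P (d * m + r + 1) with hN
  have hmon : (chi F d * P (d * m + r + 1)).Monic := (chi_monic hF hd).mul (O.monic _)
  have hdegm : (chi F d * P (d * m + r + 1)).natDegree = r + d * (m + 1) := by
    rw [(chi_monic hF hd).natDegree_mul (O.monic _), chi_deg hF hd, O.deg]
    have : 1 ≤ d := by omega
    rw [mul_add]; omega
  have hNco : N.coeff (r + d * (m + 1)) = c ^ (m + 1) := by
    rw [hN, mul_assoc, coeff_C_mul, ← hdegm]
    have := hmon.coeff_natDegree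
    rw [this, mul_one]
  have hNz : ∀ i, r + d * (m + 1) + 1 ≤ i → N.coeff i = 0 := by
    intro i hi
    rw [hN, mul_assoc, coeff_C_mul, coeff_eq_zero_of_natDegree_lt (by rw [hdegm]; omega), mul_zero]
  obtain ⟨h, h1, h2, h3⟩ := digits_exist hF hd (r + d * (m + 1) + 1) N hNz
  have hlead : (h r).coeff (m + 1) = 1 := by
    have := h3 r hr (m + 1) rfl
    rw [hNco] at this
    have hp : c ^ (m + 1) ≠ 0 := pow_ne_zero _ hc0
    exact mul_right_cancel₀ hp (by rw [this, one_mul])
  -- pairing
  have pair : ∀ k < d, ∀ q : ℝ[X],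
      (∀ i, d * m + r + 1 ≤ i → (Dt F d (k + 1) * q.comp F).coeff i = 0) → L (h k * q) = 0 := by
    intro k hk q hq
    have e1 : L (P (d * m + r + 1) * (Dt F d (k + 1) * q.comp F)) = 0 := O.orth' hq
    have e2 : Ex F d ((C (c ^ (m + 1)) * (P (d * m + r + 1) * (Dt F d (k + 1) * q.comp F))) * chi F d)
        (C c * (h k * q)) := by
      have e3 : (C (c ^ (m + 1)) * (P (d * m + r + 1) * (Dt F d (k + 1) * q.comp F))) * chi F d
          = ∑ l ∈ range d, (X ^ l * Dt F d (k + 1)) * (h l * q).comp F := by
        have : (C (c ^ (m + 1)) * (P (d * m + r + 1) * (Dt F d (k + 1) * q.comp F))) * chi F d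
          = N * (Dt F d (k + 1) * q.comp F) := by rw [hN]; ring
        rw [this]
        conv_lhs => rw [h1]
        rw [sum_mul]
        apply sum_congr rfl
        intro l _
        rw [Polynomial.mul_comp]; ring
      have e4 : C c * (h k * q) = ∑ l ∈ range d, C (if l + 1 = k + 1 then c else 0) * (h l * q) := by
        rw [sum_eq_single k]
        · rw [if_pos rfl]
        · intro l _ hl
          rw [if_neg (by omega), C_0, zero_mul]
        · intro hk'
          exact absurd (mem_range.mpr hk) hk'
      rw [e3, e4]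
      apply Ex.sum
      intro l hl
      exact (Ex_Dt hF hd (by omega) (by omega) (mem_range.mp hl)).mul_comp _
    have e5 := S.bal _ _ e2
    rw [OS.map_C_mul, OS.map_C_mul, e1, mul_zero] at e5
    rcases mul_eq_zero.mp e5.symm with h0 | h0
    · exact absurd h0 hc0
    · exact h0
  have Ddeg : ∀ k < d, ∀ q : ℝ[X], ∀ M : ℕ, (∀ i, M < i → q.coeff i = 0) →
      ∀ i, d - 1 - k + d * M < i → (Dt F d (k + 1) * q.comp F).coeff i = 0 := by
    intro k hk q M hq i hi
    apply coeff_eq_zero_of_natDegree_lt
    refine lt_of_le_of_lt natDegree_mul_le ?_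
    have h5 := Dt_natDegree F d (k + 1)
    have h6 : (q.comp F).natDegree ≤ d * M := by
      rw [natDegree_comp, hF, mul_comm]
      have : q.natDegree ≤ M := by
        rw [natDegree_le_iff_coeff_eq_zero]
        exact fun i hi => hq i (by omega)
      exact Nat.mul_le_mul_left _ this
    omega
  -- large indices
  have big : ∀ k < d, d - 1 - r ≤ k → h k = C ((h k).coeff (m + 1)) * P (m + 1) := by
    intro k hk hkr
    apply O.eq_of_orth
    · intro i hi
      apply h2 k hk i
      have : d * (m + 2) ≤ d * i := Nat.mul_le_mul_left _ (by omega)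
      have e : d * (m + 2) = d * (m + 1) + d := by ring
      omega
    · intro q hq
      apply pair k hk q
      intro i hi
      apply Ddeg k hk q m (fun i hi => hq i (by omega)) i
      omega
  have small : ∀ k < d, k < d - 1 - r →
      h k - C ((h k).coeff (m + 1)) * P (m + 1)
        = C ((h k - C ((h k).coeff (m + 1)) * P (m + 1)).coeff m) * P m := by
    intro k hk hkr
    apply O.eq_of_orth
    · intro i hi
      rw [coeff_sub, coeff_C_mul]
      rcases Nat.eq_or_lt_of_le (show m + 1 ≤ i from hi) with h0 | h0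
      · rw [← h0, O.Pcoeff]; ring
      · rw [O.Pco h0, h2 k hk i]
        · ring
        · have : d * (m + 2) ≤ d * i := Nat.mul_le_mul_left _ (by omega)
          have e : d * (m + 2) = d * (m + 1) + d := by ring
          omega
    · intro q hq
      have e0 : L (P (m + 1) * q) = 0 := O.orth' fun i hi => hq i (by omega)
      have e1 : L (h k * q) = 0 := by
        rcases Nat.eq_zero_or_pos m with hm | hm
        · have : q = 0 := by
            ext i; simpa using hq i (by omega)
          rw [this]; simp
        · apply pair k hk q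
          intro i hi
          apply Ddeg k hk q (m - 1) (fun i hi => hq i (by omega)) i
          have : d * m = d * (m - 1) + d := by
            conv_lhs => rw [show m = (m - 1) + 1 by omega]
            ring
          omega
      rw [sub_mul, map_sub, mul_assoc, OS.map_C_mul, e0, e1]; ring
  set I' : ℕ → ℝ := fun k => if k < d - 1 - r then
    (h k - C ((h k).coeff (m + 1)) * P (m + 1)).coeff m else 0 with hI'
  have all : ∀ k < d, h k = C ((h k).coeff (m + 1)) * P (m + 1) + C (I' k) * P m := by
    intro k hk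
    by_cases hkr : k < d - 1 - r
    · have e := small k hk hkr
      simp only [hI', if_pos hkr]
      rw [← e]; ring
    · simp only [hI', if_neg hkr]
      rw [C_0, zero_mul, add_zero]
      exact big k hk (by omega)
  refine ⟨∑ k ∈ range d, C ((h k).coeff (m + 1)) * X ^ k, -∑ k ∈ range d, C (I' k) * X ^ k, ?_, ?_, ?_, ?_⟩
  · intro i hi
    rw [finsetSum_coeff]
    simp only [coeff_C_mul, coeff_X_pow, mul_ite, mul_one, mul_zero]
    rw [Finset.sum_ite_eq]
    simp only [mem_range]
    split_ifs with hid
    · exact h2 i hid (m + 1) (by omega)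
    · rfl
  · rw [finsetSum_coeff]
    simp only [coeff_C_mul, coeff_X_pow, mul_ite, mul_one, mul_zero]
    rw [Finset.sum_ite_eq]
    simp only [mem_range]
    rw [if_pos hr, hlead]
  · intro i hi
    rw [coeff_neg, finsetSum_coeff]
    simp only [coeff_C_mul, coeff_X_pow, mul_ite, mul_one, mul_zero]
    rw [Finset.sum_ite_eq]
    simp only [mem_range]
    split_ifs with hid
    · simp only [hI', if_neg (show ¬ i < d - 1 - r by omega)]; ring
    · ring
  · rw [h1]
    have e : ∑ k ∈ range d, X ^ k * (h k).comp F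
        = ∑ k ∈ range d, X ^ k * (C ((h k).coeff (m + 1)) * P (m + 1) + C (I' k) * P m).comp F := by
      apply sum_congr rfl
      intro k hk
      rw [← all k (mem_range.mp hk)]
    rw [e, mul_neg, sub_neg_eq_add, mul_sum, mul_sum, ← sum_add_distrib]
    apply sum_congr rfl
    intro k _
    simp only [add_comp, Polynomial.mul_comp, C_comp]
    ring

end BS

end Pool.Agent.Helper566.J
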