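import Mathlib
import Pool.Agent.Helper566.JStr
import Pool.Agent.Helper566.JLag

set_option autoImplicit false
set_option linter.unusedVariables false

open Polynomial Finset

namespace Pool.Agent.Helper566.J

/-- side of a point outside `(a, b)` -/
noncomputable def sg (b z : ℝ) : ℝ := if b ≤ z then 1 else -1

/-- points outside the open interval -/
def Out (a b z : ℝ) : Prop := b ≤ z ∨ z ≤ a

/-- balanced system together with the geometry of the critical points -/
structure GS (a b : ℝ) (F : ℝ[X]) (d : ℕ) (L : ℝ[X] →ₗ[ℝ] ℝ) (P : ℕ → ℝ[X]) (Cr : Finset ℝ) : Prop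
    extends BS a b F d L P where
  chi_eq : chi F d = ∏ c ∈ Cr, (X - C c)
  cr_in : ∀ c ∈ Cr, a < c ∧ c < b
  cr_sg : ∀ c ∈ Cr, (b ≤ F.eval c ∧ F.leadingCoeff * Dn Cr c < 0) ∨
    (F.eval c ≤ a ∧ 0 < F.leadingCoeff * Dn Cr c)
  out_sg : ∀ z, Out a b z →
    (b ≤ F.eval z ∧ 0 < F.leadingCoeff * sg b z * (chi F d).eval z) ∨
    (F.eval z ≤ a ∧ F.leadingCoeff * sg b z * (chi F d).eval z < 0)

namespace GS

variable {a b : ℝ} {F : ℝ[X]} {d : ℕ} {L : ℝ[X] →ₗ[ℝ] ℝ} {P : ℕ → ℝ[X]} {Cr : Finset ℝ}

theorem card_Cr (S : GS a b F d L P Cr) : Cr.card = d - 1 := by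
  have h1 := chi_deg S.hF S.hd
  rw [S.chi_eq, natDegree_prod_of_monic _ _ fun x _ => monic_X_sub_C x] at h1
  simpa using h1

theorem out_F (S : GS a b F d L P Cr) {z : ℝ} (hz : Out a b z) : Out a b (F.eval z) := by
  rcases S.out_sg z hz with h | h
  · exact Or.inl h.1
  · exact Or.inr h.1

theorem out_Cr (S : GS a b F d L P Cr) {c : ℝ} (hc : c ∈ Cr) : Out a b (F.eval c) := by
  rcases S.cr_sg c hc with h | h
  · exact Or.inl h.1
  · exact Or.inr h.1

theorem eval_ne (S : GS a b F d L P Cr) {z : ℝ} (hz : Out a b z) (n : ℕ) : (P n).eval z ≠ 0 := by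
  rcases hz with h | h
  · exact (S.toOS.eval_pos h n).ne'
  · exact (S.toOS.eval_ne_lo h n).1

theorem rho_ne (S : GS a b F d L P Cr) {z : ℝ} (hz : Out a b z) (n : ℕ) : rho P n z ≠ 0 :=
  div_ne_zero (S.eval_ne hz _) (S.eval_ne hz _)

theorem z_notMem (S : GS a b F d L P Cr) {z : ℝ} (hz : Out a b z) : z ∉ Cr := by
  intro h
  have := S.cr_in z h
  rcases hz with h' | h' <;> linarith

theorem card_V (S : GS a b F d L P Cr) {z : ℝ} (hz : Out a b z) : (insert z Cr).card = d := by
  rw [card_insert_of_notMem (S.z_notMem hz), S.card_Cr]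
  have := S.hd
  omega

theorem chi_eval (S : GS a b F d L P Cr) (z : ℝ) : (chi F d).eval z = ∏ c ∈ Cr, (z - c) := by
  rw [S.chi_eq, eval_prod]; simp

theorem chi_Cr (S : GS a b F d L P Cr) {c : ℝ} (hc : c ∈ Cr) : (chi F d).eval c = 0 := by
  rw [S.chi_eval]
  exact prod_eq_zero hc (sub_self c)

theorem chi_ne (S : GS a b F d L P Cr) {z : ℝ} (hz : Out a b z) : (chi F d).eval z ≠ 0 := by
  rw [S.chi_eval, prod_ne_zero_iff]
  intro c hc h
  exact S.z_notMem hz (by rw [sub_eq_zero.mp h]; exact hc)

theorem lc (S : GS a b F d L P Cr) : F.leadingCoeff ≠ 0 := lc_ne S.hF S.hd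

/-- blocks of length `d` -/
theorem P_block (S : GS a b F d L P Cr) (m : ℕ) :
    C (F.leadingCoeff ^ m) * P (d * m) = (P m).comp F := by
  have hd := S.hd
  cases m with
  | zero => simp [S.toOS.P_zero]
  | succ m =>
    obtain ⟨Φ, I, h1, h2, h3, h4⟩ := S.toBS.structure_lemma m (d - 1) (by omega)
    have hI : I = 0 := by
      ext i; rw [coeff_zero]; exact h3 i (by omega)
    have e0 : d * m + (d - 1) + 1 = d * (m + 1) := by rw [mul_add]; omega
    rw [hI, mul_zero, sub_zero, e0] at h4
    have hroot : ∀ y ∈ Cr, Φ.eval y = 0 := by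
      intro y hy
      have := congrArg (eval y) h4
      simp only [eval_mul, eval_C, eval_comp] at this
      rw [S.chi_Cr hy] at this
      have hne := S.eval_ne (S.out_Cr hy) (m + 1)
      have h5 : eval (eval y F) (P (m + 1)) * eval y Φ = 0 := by rw [← this]; ring
      rcases mul_eq_zero.mp h5 with h | h
      · exact absurd h hne
      · exact h
    have hΦ : Φ = chi F d := by
      have hz : Φ - chi F d = 0 := by
        apply Polynomial.eq_zero_of_natDegree_lt_card_of_eval_eq_zero' (Φ - chi F d) Cr
        · intro y hy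
          rw [eval_sub, hroot y hy, S.chi_Cr hy, sub_zero]
        · rw [S.card_Cr]
          rw [Nat.lt_iff_le_pred (by omega), natDegree_le_iff_coeff_eq_zero]
          intro i hi
          rw [coeff_sub]
          rcases Nat.eq_or_lt_of_le (show d - 1 ≤ i by omega) with h | h
          · rw [← h, h2, chi_coeff S.hF hd, sub_self]
          · rw [h1 i h, coeff_eq_zero_of_natDegree_lt (by rw [chi_deg S.hF hd]; exact h), sub_zero]
      exact sub_eq_zero.mp hz
    rw [hΦ] at h4
    have hχ0 : chi F d ≠ 0 := (chi_monic S.hF hd).ne_zero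
    apply mul_left_cancel₀ hχ0
    linear_combination h4

theorem P_block_eval (S : GS a b F d L P Cr) (m : ℕ) (z : ℝ) :
    (P m).eval (F.eval z) = F.leadingCoeff ^ m * (P (d * m)).eval z := by
  have := congrArg (eval z) (S.P_block m)
  simp only [eval_mul, eval_C, eval_comp] at this
  exact this.symm

/-- signed weights -/
noncomputable def sig (F : ℝ[X]) (P : ℕ → ℝ[X]) (Cr : Finset ℝ) (m : ℕ) (z y : ℝ) : ℝ :=
  rho P m (F.eval y) / Dn (insert z Cr) y

/-- signed weighted sum -/
noncomputable def Sf (F : ℝ[X]) (P : ℕ → ℝ[X]) (Cr : Finset ℝ) (m : ℕ) (z : ℝ) (h : ℝ[X]) : ℝ :=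
  ∑ y ∈ insert z Cr, sig F P Cr m z y * h.eval y

theorem Sf_key (S : GS a b F d L P Cr) (m r : ℕ) (hr : r < d) {z : ℝ} (hz : Out a b z)
    {Φ I : ℝ[X]} (h3 : ∀ i, d - 1 - r ≤ i → I.coeff i = 0)
    (h4 : C (F.leadingCoeff ^ (m + 1)) * chi F d * P (d * m + r + 1)
        = (P (m + 1)).comp F * Φ - (P m).comp F * I) (h : ℝ[X]) (hh : ∀ i, r + 1 < i → h.coeff i = 0) :
    Sf F P Cr m z (Φ * h) = (I * h).coeff (d - 1) +
      F.leadingCoeff ^ (m + 1) * (P (d * m + r + 1)).eval z / (P m).eval (F.eval z) * h.eval z := by
  have hd := S.hd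
  have hc : ∀ y ∈ Cr, rho P m (F.eval y) * Φ.eval y = I.eval y := by
    intro y hy
    have := congrArg (eval y) h4
    simp only [eval_mul, eval_C, eval_comp, eval_sub] at this
    rw [S.chi_Cr hy] at this
    have hne := S.eval_ne (S.out_Cr hy) m
    unfold rho
    field_simp
    linarith
  have hcz : (chi F d).eval z = Dn (insert z Cr) z := by
    rw [Dn_insert_self (S.z_notMem hz), S.chi_eval]
  have hzz : rho P m (F.eval z) * Φ.eval z - I.eval z
      = F.leadingCoeff ^ (m + 1) * (P (d * m + r + 1)).eval z / (P m).eval (F.eval z) * Dn (insert z Cr) z := by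
    have := congrArg (eval z) h4
    simp only [eval_mul, eval_C, eval_comp, eval_sub] at this
    have hne := S.eval_ne (S.out_F hz) m
    rw [← hcz]
    unfold rho
    field_simp
    linarith
  have hlag := lag (insert z Cr) (by rw [S.card_V hz]; omega) (I * h) (by
    intro i hi
    rw [S.card_V hz] at hi
    rw [coeff_mul]
    apply sum_eq_zero
    intro p hp
    rw [HasAntidiagonal.mem_antidiagonal] at hp
    by_cases h5 : d - 1 - r ≤ p.1
    · rw [h3 _ h5, zero_mul]
    · rw [hh p.2 (by omega), mul_zero])
  rw [S.card_V hz] at hlag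
  rw [← hlag]
  unfold Sf
  rw [sum_insert (S.z_notMem hz), sum_insert (S.z_notMem hz)]
  have e1 : ∀ y ∈ Cr, sig F P Cr m z y * (Φ * h).eval y = (I * h).eval y / Dn (insert z Cr) y := by
    intro y hy
    unfold sig
    rw [eval_mul, eval_mul, ← hc y hy]
    ring
  rw [sum_congr rfl e1]
  have hD : Dn (insert z Cr) z ≠ 0 := Dn_ne
  have e2 : sig F P Cr m z z * (Φ * h).eval z = (I * h).eval z / Dn (insert z Cr) z +
      F.leadingCoeff ^ (m + 1) * (P (d * m + r + 1)).eval z / (P m).eval (F.eval z) * h.eval z := by
    unfold sig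
    rw [eval_mul, eval_mul]
    have : rho P m (F.eval z) * Φ.eval z = I.eval z +
      F.leadingCoeff ^ (m + 1) * (P (d * m + r + 1)).eval z / (P m).eval (F.eval z) * Dn (insert z Cr) z := by
      linarith
    calc rho P m (eval z F) / Dn (insert z Cr) z * (eval z Φ * eval z h)
        = (rho P m (eval z F) * Φ.eval z) / Dn (insert z Cr) z * h.eval z := by ring
      _ = _ := by rw [this]; field_simp
  rw [e2]; ring

/-- main variational identity -/
theorem var (S : GS a b F d L P Cr) (m r : ℕ) (hr : r < d) :
    ∃ κ : ℝ, (∀ z, Out a b z → ∃ Q : ℝ[X], (∀ i, r < i → Q.coeff i = 0) ∧ Q.coeff r = 1 ∧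
      (∀ h : ℝ[X], (∀ i, r < i → h.coeff i = 0) →
        Sf F P Cr m z (Q * h) = κ * rho P (d * m + r) z * h.coeff r) ∧
      Q.eval z * (F.leadingCoeff * ∏ k ∈ range r, rho P (d * m + k) z) = κ) ∧
      ((r = 0 ∧ κ = F.leadingCoeff) ∨ (1 ≤ r ∧ ∃ Φ : ℝ[X], (∀ i, r ≤ i → Φ.coeff i = 0) ∧
        Φ.coeff (r - 1) = 1 ∧ κ = -∑ y ∈ Cr, rho P m (F.eval y) * (Φ.eval y) ^ 2 / Dn Cr y)) := by
  have hd := S.hd
  have hc := S.lc
  rcases Nat.eq_zero_or_pos r with h0 | h0
  · subst h0
    refine ⟨F.leadingCoeff, ?_, Or.inl ⟨rfl, rfl⟩⟩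
    intro z hz
    obtain ⟨Φ, I, h1, h2, h3, h4⟩ := S.toBS.structure_lemma m 0 (by omega)
    have hΦ : Φ = 1 := by
      ext i
      rw [coeff_one]
      split_ifs with h
      · rw [h]; exact h2
      · exact h1 i (by omega)
    refine ⟨1, fun i hi => by rw [coeff_one, if_neg (by omega)], by simp, ?_, by simp⟩
    intro h hh
    have e := S.Sf_key m 0 (by omega) hz h3 h4 h (fun i hi => hh i (by omega))
    rw [hΦ] at e
    have hh' : h = C (h.coeff 0) := by
      ext i
      rw [coeff_C]
      split_ifs with h5
      · rw [h5]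
      · exact hh i (by omega)
    have e2 : (I * h).coeff (d - 1) = 0 := by
      rw [hh', coeff_mul_C, h3 (d - 1) (by omega), zero_mul]
    have e3 : h.eval z = h.coeff 0 := by
      conv_lhs => rw [hh']
      simp
    rw [e, e2, e3, S.P_block_eval m z]
    have hne := S.eval_ne hz (d * m)
    unfold rho
    simp only [add_zero]
    rw [pow_succ]
    field_simp
    ring
  · obtain ⟨r', rfl⟩ : ∃ r', r = r' + 1 := ⟨r - 1, by omega⟩
    obtain ⟨Φ', I', g1, g2, g3, g4⟩ := S.toBS.structure_lemma m r' (by omega)
    obtain ⟨Φ, I, h1, h2, h3, h4⟩ := S.toBS.structure_lemma m (r' + 1) hr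
    refine ⟨-I'.coeff (d - 1 - (r' + 1)), ?_, Or.inr ⟨by omega, Φ', ?_, ?_, ?_⟩⟩
    · intro z hz
      set A := F.leadingCoeff ^ (m + 1) * (P (d * m + (r' + 1) + 1)).eval z / (P m).eval (F.eval z) with hA
      set A' := F.leadingCoeff ^ (m + 1) * (P (d * m + r' + 1)).eval z / (P m).eval (F.eval z) with hA'
      have hne := S.eval_ne hz (d * m)
      have hne1 := S.eval_ne hz (d * m + (r' + 1))
      have hneF := S.eval_ne (S.out_F hz) m
      have hAA : A = rho P (d * m + (r' + 1)) z * A' := by
        rw [hA, hA']
        unfold rho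
        rw [show d * m + r' + 1 = d * m + (r' + 1) by ring]
        field_simp
      have hA'0 : A' ≠ 0 := by
        rw [hA', show d * m + r' + 1 = d * m + (r' + 1) by ring]
        exact div_ne_zero (mul_ne_zero (pow_ne_zero _ hc) hne1) hneF
      have key1 : ∀ h : ℝ[X], (∀ i, r' + 1 < i → h.coeff i = 0) →
          Sf F P Cr m z (Φ * h) = A * h.eval z := by
        intro h hh
        rw [S.Sf_key m (r' + 1) hr hz h3 h4 h (fun i hi => hh i (by omega))]
        have : (I * h).coeff (d - 1) = 0 := by
          rw [coeff_mul]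
          apply sum_eq_zero
          intro p hp
          rw [HasAntidiagonal.mem_antidiagonal] at hp
          by_cases h5 : d - 1 - (r' + 1) ≤ p.1
          · rw [h3 _ h5, zero_mul]
          · rw [hh p.2 (by omega), mul_zero]
        rw [this, zero_add]
      have key2 : ∀ h : ℝ[X], (∀ i, r' + 1 < i → h.coeff i = 0) →
          Sf F P Cr m z (Φ' * h) = I'.coeff (d - 1 - (r' + 1)) * h.coeff (r' + 1) + A' * h.eval z := by
        intro h hh
        rw [S.Sf_key m r' (by omega) hz g3 g4 h hh]
        have : (I' * h).coeff (d - 1) = I'.coeff (d - 1 - (r' + 1)) * h.coeff (r' + 1) := by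
          rw [coeff_mul, sum_eq_single (d - 1 - (r' + 1), r' + 1)]
          · intro p hp hpne
            rw [HasAntidiagonal.mem_antidiagonal] at hp
            by_cases h5 : d - 1 - r' ≤ p.1
            · rw [g3 _ h5, zero_mul]
            · by_cases h6 : r' + 1 < p.2
              · rw [hh _ h6, mul_zero]
              · exfalso; apply hpne
                ext <;> simp <;> omega
          · intro hp
            exfalso; apply hp
            rw [HasAntidiagonal.mem_antidiagonal]; simp; omega
        rw [this]
      have SfSub : ∀ u v : ℝ[X], ∀ t : ℝ, Sf F P Cr m z (u - C t * v) = Sf F P Cr m z u - t * Sf F P Cr m z v := by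
        intro u v t
        unfold Sf
        rw [mul_sum, ← sum_sub_distrib]
        apply sum_congr rfl
        intro y _
        rw [eval_sub, eval_mul, eval_C]; ring
      refine ⟨Φ - C (rho P (d * m + (r' + 1)) z) * Φ', ?_, ?_, ?_, ?_⟩
      · intro i hi
        rw [coeff_sub, coeff_C_mul, h1 i hi, g1 i (by omega)]; ring
      · rw [coeff_sub, coeff_C_mul, h2, g1 (r' + 1) (by omega)]; ring
      · intro h hh
        have e : (Φ - C (rho P (d * m + (r' + 1)) z) * Φ') * h
            = Φ * h - C (rho P (d * m + (r' + 1)) z) * (Φ' * h) := by ring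
        rw [e, SfSub, key1 h hh, key2 h hh, hAA]; ring
      · -- value at z
        have hcr : ∀ y ∈ Cr, rho P m (F.eval y) * Φ.eval y = I.eval y := by
          intro y hy
          have := congrArg (eval y) h4
          simp only [eval_mul, eval_C, eval_comp, eval_sub] at this
          rw [S.chi_Cr hy] at this
          have hne := S.eval_ne (S.out_Cr hy) m
          unfold rho
          field_simp
          linarith
        have hcr' : ∀ y ∈ Cr, rho P m (F.eval y) * Φ'.eval y = I'.eval y := by
          intro y hy
          have := congrArg (eval y) g4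
          simp only [eval_mul, eval_C, eval_comp, eval_sub] at this
          rw [S.chi_Cr hy] at this
          have hne := S.eval_ne (S.out_Cr hy) m
          unfold rho
          field_simp
          linarith
        have hlag := lag (insert z Cr) (by rw [S.card_V hz]; omega) (Φ' * I - Φ * I') (by
          intro i hi
          rw [S.card_V hz] at hi
          rw [coeff_sub, coeff_mul, coeff_mul]
          rw [sum_eq_zero, sum_eq_zero, sub_zero]
          · intro p hp
            rw [HasAntidiagonal.mem_antidiagonal] at hp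
            by_cases h5 : d - 1 - r' ≤ p.2
            · rw [g3 _ h5, mul_zero]
            · rw [h1 p.1 (by omega), zero_mul]
          · intro p hp
            rw [HasAntidiagonal.mem_antidiagonal] at hp
            by_cases h5 : d - 1 - (r' + 1) ≤ p.2
            · rw [h3 _ h5, mul_zero]
            · rw [g1 p.1 (by omega), zero_mul])
        rw [S.card_V hz, sum_insert (S.z_notMem hz)] at hlag
        rw [sum_eq_zero (s := Cr) (by
          intro y hy
          rw [eval_sub, eval_mul, eval_mul, ← hcr y hy, ← hcr' y hy]
          ring)] at hlag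
        have hco : (Φ' * I - Φ * I').coeff (d - 1) = - I'.coeff (d - 1 - (r' + 1)) := by
          rw [coeff_sub]
          have e1 : (Φ' * I).coeff (d - 1) = 0 := by
            rw [coeff_mul]
            apply sum_eq_zero
            intro p hp
            rw [HasAntidiagonal.mem_antidiagonal] at hp
            by_cases h5 : d - 1 - (r' + 1) ≤ p.2
            · rw [h3 _ h5, mul_zero]
            · rw [g1 p.1 (by omega), zero_mul]
          have e2 : (Φ * I').coeff (d - 1) = I'.coeff (d - 1 - (r' + 1)) := by
            rw [coeff_mul, sum_eq_single (r' + 1, d - 1 - (r' + 1))]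
            · simp only; rw [h2, one_mul]
            · intro p hp hpne
              rw [HasAntidiagonal.mem_antidiagonal] at hp
              by_cases h5 : d - 1 - r' ≤ p.2
              · rw [g3 _ h5, mul_zero]
              · by_cases h6 : r' + 1 < p.1
                · rw [h1 _ h6, zero_mul]
                · exfalso; apply hpne
                  ext <;> simp <;> omega
            · intro hp
              exfalso; apply hp
              rw [HasAntidiagonal.mem_antidiagonal]; simp; omega
          rw [e1, e2]; ring
        rw [hco, add_zero] at hlag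
        have hD : Dn (insert z Cr) z ≠ 0 := Dn_ne
        have hcz : (chi F d).eval z = Dn (insert z Cr) z := by
          rw [Dn_insert_self (S.z_notMem hz), S.chi_eval]
        have hz1 : rho P m (F.eval z) * Φ.eval z - I.eval z = A * Dn (insert z Cr) z := by
          have := congrArg (eval z) h4
          simp only [eval_mul, eval_C, eval_comp, eval_sub] at this
          rw [← hcz, hA]
          unfold rho
          field_simp
          linarith
        have hz2 : rho P m (F.eval z) * Φ'.eval z - I'.eval z = A' * Dn (insert z Cr) z := by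
          have := congrArg (eval z) g4
          simp only [eval_mul, eval_C, eval_comp, eval_sub] at this
          rw [← hcz, hA']
          unfold rho
          field_simp
          linarith
        have e5 : (Φ' * I - Φ * I').eval z = (Φ.eval z * A' - Φ'.eval z * A) * Dn (insert z Cr) z := by
          rw [eval_sub, eval_mul, eval_mul]
          linear_combination (Φ'.eval z) * (-hz1) + (Φ.eval z) * hz2
        rw [e5, mul_div_assoc, div_self hD, mul_one] at hlag
        have e6 : A' = F.leadingCoeff * ∏ k ∈ range (r' + 1), rho P (d * m + k) z := by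
          rw [hA', S.P_block_eval m z]
          have : ∀ j, ∏ k ∈ range j, rho P (d * m + k) z = (P (d * m + j)).eval z / (P (d * m)).eval z := by
            intro j
            induction j with
            | zero => simp [div_self hne]
            | succ j ih =>
              rw [prod_range_succ, ih]
              unfold rho
              have := S.eval_ne hz (d * m + j)
              field_simp
              rw [add_assoc]
          rw [this]
          rw [show d * m + r' + 1 = d * m + (r' + 1) by ring]
          rw [pow_succ]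
          field_simp
        rw [← e6, eval_sub, eval_mul, eval_C, ← hlag, hAA]
        ring
    · intro i hi; exact g1 i (by omega)
    · exact g2
    · have hcr' : ∀ y ∈ Cr, rho P m (F.eval y) * Φ'.eval y = I'.eval y := by
        intro y hy
        have := congrArg (eval y) g4
        simp only [eval_mul, eval_C, eval_comp, eval_sub] at this
        rw [S.chi_Cr hy] at this
        have hne := S.eval_ne (S.out_Cr hy) m
        unfold rho
        field_simp
        linarith
      have hlag := lag Cr (by rw [S.card_Cr]; omega) (I' * Φ') (by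
        intro i hi
        rw [S.card_Cr] at hi
        rw [coeff_mul]
        apply sum_eq_zero
        intro p hp
        rw [HasAntidiagonal.mem_antidiagonal] at hp
        by_cases h5 : d - 1 - r' ≤ p.1
        · rw [g3 _ h5, zero_mul]
        · rw [g1 p.2 (by omega), mul_zero])
      have hco : (I' * Φ').coeff (Cr.card - 1) = I'.coeff (d - 1 - (r' + 1)) := by
        rw [S.card_Cr, coeff_mul, sum_eq_single (d - 1 - (r' + 1), r')]
        · simp only; rw [g2, mul_one]
        · intro p hp hpne
          rw [HasAntidiagonal.mem_antidiagonal] at hp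
          by_cases h5 : d - 1 - r' ≤ p.1
          · rw [g3 _ h5, zero_mul]
          · by_cases h6 : r' < p.2
            · rw [g1 _ h6, mul_zero]
            · exfalso; apply hpne
              ext <;> simp <;> omega
        · intro hp
          exfalso; apply hp
          rw [HasAntidiagonal.mem_antidiagonal]; simp; omega
      rw [hco] at hlag
      rw [← hlag]
      congr 1
      apply sum_congr rfl
      intro y hy
      rw [eval_mul, ← hcr' y hy]; ring

end GS

end Pool.Agent.Helper566.J
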