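import Mathlib
import Pool.Agent.Helper566.JStep

set_option autoImplicit false
set_option linter.unusedVariables false

open Polynomial Finset

namespace Pool.Agent.Helper566.J

/-- modulus of the ratio -/
noncomputable def gg (P : ℕ → ℝ[X]) (m : ℕ) (E : ℝ) : ℝ := |rho P m E|

namespace GS

variable {a b : ℝ} {F : ℝ[X]} {d : ℕ} {L : ℝ[X] →ₗ[ℝ] ℝ} {P : ℕ → ℝ[X]} {Cr : Finset ℝ}

theorem gg_pos (S : GS a b F d L P Cr) {z : ℝ} (hz : Out a b z) (n : ℕ) : 0 < gg P n z :=
  abs_pos.mpr (S.rho_ne hz n)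

/-- common sign of the weights -/
noncomputable def ee (b : ℝ) (F : ℝ[X]) (z : ℝ) : ℝ :=
  if 0 < F.leadingCoeff then sg b z else -sg b z

theorem ee_sq (b : ℝ) (F : ℝ[X]) (z : ℝ) : ee b F z = 1 ∨ ee b F z = -1 := by
  unfold ee sg; split_ifs <;> simp

theorem a_lt (S : GS a b F d L P Cr) : a < b := S.toOS.a_lt_b

theorem sg_rho (S : GS a b F d L P Cr) {z : ℝ} (m : ℕ) (hz : Out a b z) : 0 < sg b z * rho P m z := by
  unfold sg
  rcases hz with h | h
  · rw [if_pos h, one_mul]; exact S.toOS.rho_pos h m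
  · rw [if_neg (by have := S.a_lt; linarith)]
    have := S.toOS.rho_neg h m
    linarith

theorem sig_sign (S : GS a b F d L P Cr) (m : ℕ) {z : ℝ} (hz : Out a b z) :
    ∀ y ∈ insert z Cr, 0 < ee b F z * sig F P Cr m z y := by
  have hab := S.a_lt
  have hlc := S.lc
  have hel : 0 < ee b F z * (F.leadingCoeff * sg b z) := by
    unfold ee sg
    split_ifs with h1 h2 h2
    · simpa using h1
    · simpa using h1
    · have : F.leadingCoeff < 0 := lt_of_le_of_ne (not_lt.mp h1) hlc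
      linarith
    · have : F.leadingCoeff < 0 := lt_of_le_of_ne (not_lt.mp h1) hlc
      linarith
  intro y hy
  rw [mem_insert] at hy
  have hsq : sg b z * sg b z = 1 := by unfold sg; split_ifs <;> ring
  have hl2 : 0 < F.leadingCoeff * F.leadingCoeff := mul_self_pos.mpr hlc
  -- it suffices that lead * sg z * sig > 0
  suffices h : 0 < (F.leadingCoeff * sg b z) * sig F P Cr m z y by
    have h1 : 0 < (ee b F z * (F.leadingCoeff * sg b z)) * ((F.leadingCoeff * sg b z) * sig F P Cr m z y) :=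
      mul_pos hel h
    have h2 : (ee b F z * (F.leadingCoeff * sg b z)) * ((F.leadingCoeff * sg b z) * sig F P Cr m z y)
      = (F.leadingCoeff * F.leadingCoeff) * (sg b z * sg b z) * (ee b F z * sig F P Cr m z y) := by ring
    rw [h2, hsq, mul_one] at h1
    exact (pos_iff_pos_of_mul_pos h1).mp hl2
  rcases hy with rfl | hy
  · unfold sig
    rw [Dn_insert_self (S.z_notMem hz), ← S.chi_eval]
    have hχ := S.chi_ne hz
    rcases S.out_sg y hz with h | h
    · have hr := S.toOS.rho_pos h.1 m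
      have : F.leadingCoeff * sg b y * (rho P m (eval y F) / eval y (chi F d))
        = (F.leadingCoeff * sg b y * eval y (chi F d)) * rho P m (eval y F) / (eval y (chi F d)) ^ 2 := by
        field_simp
      rw [this]
      exact div_pos (mul_pos h.2 hr) (by positivity)
    · have hr := S.toOS.rho_neg h.1 m
      have : F.leadingCoeff * sg b y * (rho P m (eval y F) / eval y (chi F d))
        = (F.leadingCoeff * sg b y * eval y (chi F d)) * rho P m (eval y F) / (eval y (chi F d)) ^ 2 := by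
        field_simp
      rw [this]
      exact div_pos (mul_pos_of_neg_of_neg h.2 hr) (by positivity)
  · unfold sig
    rw [Dn_insert (S.z_notMem hz) hy]
    have hD : Dn Cr y ≠ 0 := Dn_ne
    have hyin := S.cr_in y hy
    have hyz : sg b z * (y - z) < 0 := by
      unfold sg
      rcases hz with h | h
      · rw [if_pos h]; linarith
      · rw [if_neg (by linarith)]; linarith
    have hyz0 : y - z ≠ 0 := by
      intro h0; rw [h0, mul_zero] at hyz; exact lt_irrefl _ hyz
    have e : F.leadingCoeff * sg b z * (rho P m (eval y F) / ((y - z) * Dn Cr y))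
        = (F.leadingCoeff * Dn Cr y) * (sg b z * (y - z)) * rho P m (eval y F) / ((y - z) * Dn Cr y) ^ 2 := by
      field_simp
    rw [e]
    apply div_pos _ (by positivity)
    rcases S.cr_sg y hy with h | h
    · have hr := S.toOS.rho_pos h.1 m
      exact mul_pos (mul_pos_of_neg_of_neg h.2 hyz) hr
    · have hr := S.toOS.rho_neg h.1 m
      exact mul_pos_of_neg_of_neg (mul_neg_of_pos_of_neg h.2 hyz) hr

/-- positive weights -/
noncomputable def om (F : ℝ[X]) (P : ℕ → ℝ[X]) (Cr : Finset ℝ) (m : ℕ) (z y : ℝ) : ℝ :=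
  |sig F P Cr m z y|

theorem om_eq (S : GS a b F d L P Cr) (m : ℕ) {z : ℝ} (hz : Out a b z) {y : ℝ} (hy : y ∈ insert z Cr) :
    om F P Cr m z y = ee b F z * sig F P Cr m z y := by
  have h := S.sig_sign m hz y hy
  unfold om
  rcases ee_sq b F z with h1 | h1
  · rw [h1] at h ⊢; rw [one_mul] at *; exact abs_of_pos h
  · rw [h1] at h ⊢
    rw [abs_of_neg (by linarith)]; ring

theorem om_pos (S : GS a b F d L P Cr) (m : ℕ) {z : ℝ} (hz : Out a b z) {y : ℝ} (hy : y ∈ insert z Cr) :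
    0 < om F P Cr m z y := by
  rw [S.om_eq m hz hy]; exact S.sig_sign m hz y hy

theorem om_def (m : ℕ) (z y : ℝ) :
    om F P Cr m z y = gg P m (F.eval y) / |Dn (insert z Cr) y| := by
  unfold om sig gg
  rw [abs_div]

/-- normalisation constants -/
noncomputable def kap (S : GS a b F d L P Cr) (m r : ℕ) : ℝ :=
  if h : r < d then (S.var m r h).choose else 1

theorem kap_spec (S : GS a b F d L P Cr) (m r : ℕ) (hr : r < d) :
    (∀ z, Out a b z → ∃ Q : ℝ[X], (∀ i, r < i → Q.coeff i = 0) ∧ Q.coeff r = 1 ∧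
      (∀ h : ℝ[X], (∀ i, r < i → h.coeff i = 0) →
        Sf F P Cr m z (Q * h) = S.kap m r * rho P (d * m + r) z * h.coeff r) ∧
      Q.eval z * (F.leadingCoeff * ∏ k ∈ range r, rho P (d * m + k) z) = S.kap m r) ∧
      ((r = 0 ∧ S.kap m r = F.leadingCoeff) ∨ (1 ≤ r ∧ ∃ Φ : ℝ[X], (∀ i, r ≤ i → Φ.coeff i = 0) ∧
        Φ.coeff (r - 1) = 1 ∧ S.kap m r = -∑ y ∈ Cr, rho P m (F.eval y) * (Φ.eval y) ^ 2 / Dn Cr y)) := by
  unfold kap
  rw [dif_pos hr]
  exact (S.var m r hr).choose_spec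

/-- an optimal polynomial -/
structure Opt (S : GS a b F d L P Cr) (m r : ℕ) (z : ℝ) (Q : ℝ[X]) : Prop where
  hi : ∀ i, r < i → Q.coeff i = 0
  one : Q.coeff r = 1
  val : ∑ y ∈ insert z Cr, om F P Cr m z y * (Q.eval y) ^ 2 = |S.kap m r| * gg P (d * m + r) z
  min : ∀ q : ℝ[X], (∀ i, r < i → q.coeff i = 0) → q.coeff r = 1 →
    |S.kap m r| * gg P (d * m + r) z ≤ ∑ y ∈ insert z Cr, om F P Cr m z y * (q.eval y) ^ 2
  ort : 1 ≤ r → ∑ y ∈ insert z Cr, om F P Cr m z y * Q.eval y = 0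
  atz : |Q.eval z| * (|F.leadingCoeff| * ∏ k ∈ range r, gg P (d * m + k) z) = |S.kap m r|

theorem exists_opt (S : GS a b F d L P Cr) (m r : ℕ) (hr : r < d) {z : ℝ} (hz : Out a b z) :
    ∃ Q, Opt S m r z Q := by
  obtain ⟨Q, h1, h2, h3, h4⟩ := (S.kap_spec m r hr).1 z hz
  have hsum : ∀ h : ℝ[X], ∑ y ∈ insert z Cr, om F P Cr m z y * h.eval y
      = ee b F z * Sf F P Cr m z h := by
    intro h
    unfold Sf
    rw [mul_sum]
    apply sum_congr rfl
    intro y hy
    rw [S.om_eq m hz hy]; ring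
  have hQQ : ∑ y ∈ insert z Cr, om F P Cr m z y * (Q.eval y) ^ 2
      = ee b F z * (S.kap m r * rho P (d * m + r) z) := by
    have := hsum (Q * Q)
    rw [h3 Q h1, h2, mul_one] at this
    rw [← this]
    apply sum_congr rfl
    intro y hy
    rw [eval_mul]; ring
  have hnn : 0 ≤ ∑ y ∈ insert z Cr, om F P Cr m z y * (Q.eval y) ^ 2 :=
    sum_nonneg fun y hy => mul_nonneg (abs_nonneg _) (sq_nonneg _)
  have hval : ∑ y ∈ insert z Cr, om F P Cr m z y * (Q.eval y) ^ 2 = |S.kap m r| * gg P (d * m + r) z := by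
    rw [← abs_of_nonneg hnn, hQQ, abs_mul, abs_mul]
    have : |ee b F z| = 1 := by rcases ee_sq b F z with h | h <;> simp [h]
    rw [this, one_mul]; rfl
  refine ⟨Q, h1, h2, hval, ?_, ?_, ?_⟩
  · intro q hq1 hq2
    rw [← hval]
    have e : ∑ y ∈ insert z Cr, om F P Cr m z y * (q.eval y) ^ 2
        = ∑ y ∈ insert z Cr, om F P Cr m z y * (Q.eval y) ^ 2
          + 2 * ∑ y ∈ insert z Cr, om F P Cr m z y * (Q * (q - Q)).eval y
          + ∑ y ∈ insert z Cr, om F P Cr m z y * ((q - Q).eval y) ^ 2 := by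
      rw [mul_sum, ← sum_add_distrib, ← sum_add_distrib]
      apply sum_congr rfl
      intro y _
      rw [eval_mul, eval_sub]; ring
    have e2 : ∑ y ∈ insert z Cr, om F P Cr m z y * (Q * (q - Q)).eval y = 0 := by
      rw [hsum, h3 (q - Q) (fun i hi => by rw [coeff_sub, hq1 i hi, h1 i hi, sub_zero]),
        coeff_sub, hq2, h2]
      ring
    have e3 : 0 ≤ ∑ y ∈ insert z Cr, om F P Cr m z y * ((q - Q).eval y) ^ 2 :=
      sum_nonneg fun y hy => mul_nonneg (abs_nonneg _) (sq_nonneg _)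
    rw [e, e2]; linarith
  · intro hr1
    have := hsum (Q * 1)
    rw [h3 1 (fun i hi => by rw [coeff_one, if_neg (by omega)]), coeff_one, if_neg (by omega),
      mul_zero, mul_zero, mul_one] at this
    exact this
  · rw [← h4, abs_mul, abs_mul, Finset.abs_prod]; rfl

theorem kap_pos (S : GS a b F d L P Cr) (m r : ℕ) (hr : r < d) : 0 < |S.kap m r| := by
  rw [abs_pos]
  rcases (S.kap_spec m r hr).2 with h | ⟨h1, Φ, h2, h3, h4⟩
  · rw [h.2]; exact S.lc
  · intro h0
    rw [h0] at h4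
    -- all terms have the same sign
    have hterm : ∀ y ∈ Cr, 0 ≤ F.leadingCoeff * -(rho P m (F.eval y) * (Φ.eval y) ^ 2 / Dn Cr y) := by
      intro y hy
      have hD : Dn Cr y ≠ 0 := Dn_ne
      have e : F.leadingCoeff * -(rho P m (F.eval y) * (Φ.eval y) ^ 2 / Dn Cr y)
        = -((F.leadingCoeff * Dn Cr y) * rho P m (F.eval y)) * (Φ.eval y) ^ 2 / (Dn Cr y) ^ 2 := by
        field_simp
      rw [e]
      apply div_nonneg _ (sq_nonneg _)
      apply mul_nonneg _ (sq_nonneg _)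
      rcases S.cr_sg y hy with h | h
      · have := mul_neg_of_neg_of_pos h.2 (S.toOS.rho_pos h.1 m)
        linarith
      · have := mul_neg_of_pos_of_neg h.2 (S.toOS.rho_neg h.1 m)
        linarith
    have hsum0 : ∑ y ∈ Cr, F.leadingCoeff * -(rho P m (F.eval y) * (Φ.eval y) ^ 2 / Dn Cr y) = 0 := by
      rw [← mul_sum, sum_neg_distrib, ← h4, mul_zero]
    have hz0 := (sum_eq_zero_iff_of_nonneg hterm).mp hsum0
    have hΦ0 : ∀ y ∈ Cr, Φ.eval y = 0 := by
      intro y hy
      have h5 := hz0 y hy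
      have hD : Dn Cr y ≠ 0 := Dn_ne
      have hlc := S.lc
      have hrh := S.rho_ne (S.out_Cr hy) m
      rcases mul_eq_zero.mp h5 with h6 | h6
      · exact absurd h6 hlc
      · rw [neg_eq_zero, div_eq_zero_iff] at h6
        rcases h6 with h6 | h6
        · rcases mul_eq_zero.mp h6 with h7 | h7
          · exact absurd h7 hrh
          · exact pow_eq_zero_iff (by norm_num) |>.mp h7
        · exact absurd h6 hD
    have : Φ = 0 := by
      apply Polynomial.eq_zero_of_natDegree_lt_card_of_eval_eq_zero' Φ Cr hΦ0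
      rw [S.card_Cr]
      have hd := S.hd
      rw [Nat.lt_iff_le_pred (by omega), natDegree_le_iff_coeff_eq_zero]
      intro i hi
      exact h2 i (by omega)
    rw [this] at h3
    simp at h3

/-- transition bound -/
def Pr (S : GS a b F d L P Cr) (m r : ℕ) (z y π : ℝ) : Prop :=
  y ∈ insert z Cr ∧ ∃ Q, Opt S m r z Q ∧
    π * (|S.kap m r| * gg P (d * m + r) z) ≤ om F P Cr m z y * (Q.eval y) ^ 2

theorem step_node (S : GS a b F d L P Cr) {m m' r : ℕ} (hr : r < d) {z y π B β : ℝ} (hz : Out a b z)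
    (hp : Pr S m' r z y π) (hB : ∀ x, Out a b x → x ∈ (insert z Cr).image (fun y => F.eval y) → gg P m x ≤ B * gg P m' x)
    (hβ : gg P m (F.eval y) ≤ β * gg P m' (F.eval y)) (hβB : β ≤ B) :
    |S.kap m r| * gg P (d * m + r) z
      ≤ ((1 - π) * B + π * β) * (|S.kap m' r| * gg P (d * m' + r) z) := by
  obtain ⟨hy, Q, hQ, hπ⟩ := hp
  obtain ⟨Q', hQ'⟩ := S.exists_opt m r hr hz
  have hout : ∀ x ∈ insert z Cr, Out a b (F.eval x) := by
    intro x hx
    rw [mem_insert] at hx
    rcases hx with rfl | hx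
    · exact S.out_F hz
    · exact S.out_Cr hx
  have h1 := hQ'.min Q hQ.hi hQ.one
  have hcmp : ∀ x ∈ insert z Cr, ∀ t : ℝ, gg P m (F.eval x) ≤ t * gg P m' (F.eval x) →
      om F P Cr m z x * (Q.eval x) ^ 2 ≤ t * (om F P Cr m' z x * (Q.eval x) ^ 2) := by
    intro x hx t ht
    rw [om_def, om_def]
    have hD : 0 < |Dn (insert z Cr) x| := abs_pos.mpr Dn_ne
    calc gg P m (eval x F) / |Dn (insert z Cr) x| * eval x Q ^ 2
        ≤ (t * gg P m' (eval x F)) / |Dn (insert z Cr) x| * eval x Q ^ 2 := by gcongr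
      _ = _ := by ring
  have h2 : ∑ x ∈ insert z Cr, om F P Cr m z x * (Q.eval x) ^ 2
      ≤ B * ∑ x ∈ insert z Cr, om F P Cr m' z x * (Q.eval x) ^ 2
        - (B - β) * (om F P Cr m' z y * (Q.eval y) ^ 2) := by
    rw [← add_sum_erase _ _ hy, ← add_sum_erase (insert z Cr) (fun x => om F P Cr m' z x * (Q.eval x) ^ 2) hy]
    have h3 := hcmp y hy β hβ
    have h4 : ∑ x ∈ (insert z Cr).erase y, om F P Cr m z x * (Q.eval x) ^ 2
        ≤ B * ∑ x ∈ (insert z Cr).erase y, om F P Cr m' z x * (Q.eval x) ^ 2 := by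
      rw [mul_sum]
      apply sum_le_sum
      intro x hx
      have hx' := mem_of_mem_erase hx
      exact hcmp x hx' B (hB _ (hout x hx') (mem_image_of_mem _ hx'))
    linarith
  rw [hQ.val] at h2
  have h5 : (B - β) * (π * (|S.kap m' r| * gg P (d * m' + r) z))
      ≤ (B - β) * (om F P Cr m' z y * (Q.eval y) ^ 2) :=
    mul_le_mul_of_nonneg_left hπ (by linarith)
  nlinarith [h1, h2, h5]

theorem kg_pos (S : GS a b F d L P Cr) (m r : ℕ) (hr : r < d) {z : ℝ} (hz : Out a b z) :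
    0 < |S.kap m r| * gg P (d * m + r) z := mul_pos (S.kap_pos m r hr) (S.gg_pos hz _)

/-- staying -/
theorem pr_stay (S : GS a b F d L P Cr) {m r : ℕ} (hr : r < d) {z : ℝ} (hz : Out a b z) {π : ℝ}
    (h : π * (|(chi F d).eval z| * (|F.leadingCoeff| * ∏ k ∈ range r, gg P (d * m + k) z) ^ 2
      * gg P (d * m + r) z) ≤ gg P m (F.eval z) * |S.kap m r|) : Pr S m r z z π := by
  obtain ⟨Q, hQ⟩ := S.exists_opt m r hr hz
  refine ⟨mem_insert_self _ _, Q, hQ, ?_⟩
  have hK := S.kap_pos m r hr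
  have hχ : 0 < |(chi F d).eval z| := abs_pos.mpr (S.chi_ne hz)
  have hD : |Dn (insert z Cr) z| = |(chi F d).eval z| := by
    rw [Dn_insert_self (S.z_notMem hz), S.chi_eval]
  have hA : 0 < |F.leadingCoeff| * ∏ k ∈ range r, gg P (d * m + k) z :=
    mul_pos (abs_pos.mpr S.lc) (prod_pos fun k _ => S.gg_pos hz _)
  set A := |F.leadingCoeff| * ∏ k ∈ range r, gg P (d * m + k) z with hAdef
  have hQz : |Q.eval z| = |S.kap m r| / A := by
    rw [eq_div_iff hA.ne']; exact hQ.atz
  rw [om_def, hD, ← sq_abs (Q.eval z), hQz]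
  rw [div_pow, div_mul_div_comm, le_div_iff₀ (by positivity)]
  calc π * (|S.kap m r| * gg P (d * m + r) z) * (|(chi F d).eval z| * A ^ 2)
      = |S.kap m r| * (π * (|(chi F d).eval z| * A ^ 2 * gg P (d * m + r) z)) := by ring
    _ ≤ |S.kap m r| * (gg P m (F.eval z) * |S.kap m r|) := by gcongr
    _ = _ := by ring

/-- jumping to a critical point -/
theorem pr_jump (S : GS a b F d L P Cr) {m r : ℕ} (hr : r < d) (hr1 : 1 ≤ r) {z : ℝ} (hz : Out a b z)
    {θ : ℝ} (hθ : θ * ∑ y ∈ insert z Cr, om F P Cr m z y ≤ om F P Cr m z z) :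
    ∃ y ∈ Cr, Pr S m r z y (θ / (d - 1 : ℕ)) := by
  obtain ⟨Q, hQ⟩ := S.exists_opt m r hr hz
  have hd := S.hd
  have hzn := S.z_notMem hz
  set lam := |S.kap m r| * gg P (d * m + r) z with hlam
  have hlpos : 0 < lam := S.kg_pos m r hr hz
  set w := om F P Cr m z with hw
  have hwz : 0 < w z := S.om_pos m hz (mem_insert_self _ _)
  have h1 := hQ.ort hr1
  have h2 := hQ.val
  rw [sum_insert hzn] at h1 h2
  set A := ∑ y ∈ Cr, w y with hA
  set q := ∑ y ∈ Cr, w y * (Q.eval y) ^ 2 with hq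
  have hwnn : ∀ y, 0 ≤ w y := fun y => abs_nonneg _
  have hAnn : 0 ≤ A := sum_nonneg fun y _ => hwnn y
  have hqnn : 0 ≤ q := sum_nonneg fun y _ => mul_nonneg (hwnn y) (sq_nonneg _)
  have hcs : (∑ y ∈ Cr, w y * Q.eval y) ^ 2 ≤ A * q := by
    have := Finset.sum_mul_sq_le_sq_mul_sq Cr (fun y => Real.sqrt (w y)) (fun y => Real.sqrt (w y) * Q.eval y)
    have e1 : ∑ y ∈ Cr, Real.sqrt (w y) * (Real.sqrt (w y) * Q.eval y) = ∑ y ∈ Cr, w y * Q.eval y := by
      apply sum_congr rfl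
      intro y _
      rw [← mul_assoc, Real.mul_self_sqrt (hwnn y)]
    have e2 : ∑ y ∈ Cr, Real.sqrt (w y) ^ 2 = A := by
      apply sum_congr rfl
      intro y _
      exact Real.sq_sqrt (hwnn y)
    have e3 : ∑ y ∈ Cr, (Real.sqrt (w y) * Q.eval y) ^ 2 = q := by
      apply sum_congr rfl
      intro y _
      rw [mul_pow, Real.sq_sqrt (hwnn y)]
    rwa [e1, e2, e3] at this
  have h3 : ∑ y ∈ Cr, w y * Q.eval y = -(w z * Q.eval z) := by linarith
  rw [h3] at hcs
  have h4 : w z * (w z * (Q.eval z) ^ 2) ≤ A * q := by nlinarith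
  have h5 : w z * (Q.eval z) ^ 2 = lam - q := by linarith
  rw [h5] at h4
  rw [sum_insert hzn] at hθ
  -- θ lam ≤ q
  have h6 : θ * lam ≤ q := by
    have hpos : 0 < w z + A := by linarith
    have h7 : w z * lam ≤ (w z + A) * q := by nlinarith
    have h8 : θ * (w z + A) * lam ≤ w z * lam := by
      apply mul_le_mul_of_nonneg_right _ hlpos.le
      exact hθ
    have h9 : (w z + A) * (θ * lam) ≤ (w z + A) * q := by nlinarith
    exact le_of_mul_le_mul_left h9 hpos
  -- pigeonhole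
  have hcard : (Cr.card : ℝ) = ((d - 1 : ℕ) : ℝ) := by rw [S.card_Cr]
  have hcpos : (0:ℝ) < ((d - 1 : ℕ) : ℝ) := by
    have : 0 < d - 1 := by omega
    exact_mod_cast this
  have hne : Cr.Nonempty := by
    rw [← card_pos, S.card_Cr]; omega
  obtain ⟨y, hy, hy2⟩ := exists_le_of_sum_le (s := Cr) (f := fun _ => θ / ((d - 1 : ℕ) : ℝ) * lam)
    (g := fun y => w y * (Q.eval y) ^ 2) hne (by
      rw [sum_const, nsmul_eq_mul, hcard]
      have : ((d - 1 : ℕ) : ℝ) * (θ / ((d - 1 : ℕ) : ℝ) * lam) = θ * lam := by field_simp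
      rw [this]; exact h6)
  exact ⟨y, hy, mem_insert_of_mem hy, Q, hQ, hy2⟩

/-- lower bound for the normalisation constants -/
theorem kap_lower (S : GS a b F d L P Cr) {δ : ℝ} (hδ : 0 < δ) (r : ℕ) (hr : r < d) :
    ∃ c0 > 0, ∀ m, (∀ y ∈ Cr, δ ≤ gg P m (F.eval y)) → c0 ≤ |S.kap m r| := by
  have hd := S.hd
  set M := ∑ y ∈ Cr, (y ^ (d - 1 - r)) ^ 2 / (δ * |Dn Cr y|) with hM
  have hMnn : 0 ≤ M := sum_nonneg fun y _ => by positivity
  refine ⟨min |F.leadingCoeff| (1 / (M + 1)), lt_min (abs_pos.mpr S.lc) (by positivity), ?_⟩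
  intro m hm
  rcases (S.kap_spec m r hr).2 with h | ⟨h1, Φ, h2, h3, h4⟩
  · rw [h.2]; exact min_le_left _ _
  · refine (min_le_right _ _).trans ?_
    have hsgn : |S.kap m r| = ∑ y ∈ Cr, gg P m (F.eval y) * (Φ.eval y) ^ 2 / |Dn Cr y| := by
      have hterm : ∀ y ∈ Cr, (SignType.sign F.leadingCoeff : ℝ) * -(rho P m (F.eval y) * (Φ.eval y) ^ 2 / Dn Cr y)
          = gg P m (F.eval y) * (Φ.eval y) ^ 2 / |Dn Cr y| := by
        intro y hy
        have hD : Dn Cr y ≠ 0 := Dn_ne
        unfold gg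
        rcases lt_or_gt_of_ne S.lc with hl | hl
        · rw [sign_neg hl]
          rcases S.cr_sg y hy with h | h
          · have hD' : 0 < Dn Cr y := (pos_iff_pos_of_mul_pos (a := -F.leadingCoeff) (by linarith [h.2])).mp (by linarith)
            rw [abs_of_pos (S.toOS.rho_pos h.1 m), abs_of_pos hD']
            simp
          · have hD' : Dn Cr y < 0 := by
              by_contra hcon
              push Not at hcon
              have := mul_nonpos_of_nonpos_of_nonneg hl.le hcon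
              linarith [h.2]
            rw [abs_of_neg (S.toOS.rho_neg h.1 m), abs_of_neg hD']
            simp
        · rw [sign_pos hl]
          rcases S.cr_sg y hy with h | h
          · have hD' : Dn Cr y < 0 := by
              by_contra hcon
              push Not at hcon
              have := mul_nonneg hl.le hcon
              linarith [h.2]
            rw [abs_of_pos (S.toOS.rho_pos h.1 m), abs_of_neg hD']
            simp
            field_simp
          · have hD' : 0 < Dn Cr y := (pos_iff_pos_of_mul_pos h.2).mp hl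
            rw [abs_of_neg (S.toOS.rho_neg h.1 m), abs_of_pos hD']
            simp
            ring
      have e : ∑ y ∈ Cr, gg P m (F.eval y) * (Φ.eval y) ^ 2 / |Dn Cr y|
          = (SignType.sign F.leadingCoeff : ℝ) * S.kap m r := by
        rw [h4, ← sum_congr rfl hterm, ← mul_sum, sum_neg_distrib]
      have hnn : 0 ≤ ∑ y ∈ Cr, gg P m (F.eval y) * (Φ.eval y) ^ 2 / |Dn Cr y| :=
        sum_nonneg fun y _ => by unfold gg; positivity
      rw [← abs_of_nonneg hnn, e, abs_mul]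
      rcases lt_or_gt_of_ne S.lc with hl | hl
      · rw [sign_neg hl]; simp
      · rw [sign_pos hl]; simp
    have hlag := lag Cr (by rw [S.card_Cr]; omega) (Φ * X ^ (d - 1 - r)) (by
      intro i hi
      rw [S.card_Cr] at hi
      rw [coeff_mul_X_pow', if_pos (by omega)]
      exact h2 _ (by omega))
    have hco : (Φ * X ^ (d - 1 - r)).coeff (Cr.card - 1) = 1 := by
      rw [S.card_Cr, coeff_mul_X_pow', if_pos (by omega), ← h3]
      congr 1; omega
    rw [hco] at hlag
    have hgp : ∀ y ∈ Cr, 0 < gg P m (F.eval y) := fun y hy => lt_of_lt_of_le hδ (hm y hy)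
    have hcs := Finset.sum_mul_sq_le_sq_mul_sq Cr
      (fun y => Real.sqrt (gg P m (F.eval y) / |Dn Cr y|) * Φ.eval y)
      (fun y => (Real.sqrt (gg P m (F.eval y) / |Dn Cr y|))⁻¹ * (y ^ (d - 1 - r) / Dn Cr y))
    have e1 : ∑ y ∈ Cr, Real.sqrt (gg P m (F.eval y) / |Dn Cr y|) * Φ.eval y *
        ((Real.sqrt (gg P m (F.eval y) / |Dn Cr y|))⁻¹ * (y ^ (d - 1 - r) / Dn Cr y)) = 1 := by
      rw [← hlag]
      apply sum_congr rfl
      intro y hy
      have hD : 0 < |Dn Cr y| := abs_pos.mpr Dn_ne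
      have hs : 0 < Real.sqrt (gg P m (F.eval y) / |Dn Cr y|) := Real.sqrt_pos.mpr (div_pos (hgp y hy) hD)
      have hD' : Dn Cr y ≠ 0 := Dn_ne
      rw [eval_mul, eval_pow, eval_X]
      field_simp
    have e2 : ∑ y ∈ Cr, (Real.sqrt (gg P m (F.eval y) / |Dn Cr y|) * Φ.eval y) ^ 2 = |S.kap m r| := by
      rw [hsgn]
      apply sum_congr rfl
      intro y hy
      have hD : 0 < |Dn Cr y| := abs_pos.mpr Dn_ne
      rw [mul_pow, Real.sq_sqrt (div_pos (hgp y hy) hD).le]; ring
    have e3 : ∑ y ∈ Cr, ((Real.sqrt (gg P m (F.eval y) / |Dn Cr y|))⁻¹ * (y ^ (d - 1 - r) / Dn Cr y)) ^ 2 ≤ M := by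
      rw [hM]
      apply sum_le_sum
      intro y hy
      have hD : 0 < |Dn Cr y| := abs_pos.mpr Dn_ne
      have hg := hgp y hy
      have hD' : Dn Cr y ≠ 0 := Dn_ne
      rw [mul_pow, inv_pow, Real.sq_sqrt (div_pos hg hD).le, div_pow, ← sq_abs (Dn Cr y)]
      rw [inv_div, div_mul_div_comm, div_le_div_iff₀ (by positivity) (by positivity)]
      have := hm y hy
      calc |Dn Cr y| * (y ^ (d - 1 - r)) ^ 2 * (δ * |Dn Cr y|)
          = (y ^ (d - 1 - r)) ^ 2 * |Dn Cr y| ^ 2 * δ := by ring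
        _ ≤ (y ^ (d - 1 - r)) ^ 2 * |Dn Cr y| ^ 2 * gg P m (F.eval y) := by gcongr
        _ = _ := by ring
    rw [e1, e2] at hcs
    have h7 : 1 ≤ |S.kap m r| * M := by
      calc (1:ℝ) = 1 ^ 2 := by norm_num
        _ ≤ _ := hcs
        _ ≤ _ := by gcongr
    rw [div_le_iff₀ (by positivity)]
    nlinarith [abs_nonneg (S.kap m r)]

end GS

end Pool.Agent.Helper566.J
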