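import Mathlib
import Pool.Agent.Helper566.JOne

set_option autoImplicit false
set_option linter.unusedVariables false

open Polynomial Finset

namespace Pool.Agent.Helper566.J

namespace GS

variable {a b : ℝ} {F : ℝ[X]} {d : ℕ} {L : ℝ[X] →ₗ[ℝ] ℝ} {P : ℕ → ℝ[X]} {Cr : Finset ℝ}

/-- invariant set of energies -/
structure EE (a b : ℝ) (F : ℝ[X]) (Cr : Finset ℝ) (E : Set ℝ) : Prop where
  out : ∀ z ∈ E, Out a b z
  map : ∀ z ∈ E, F.eval z ∈ E
  cr : ∀ c ∈ Cr, F.eval c ∈ E

/-- paths -/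
def Pth (S : GS a b F d L P Cr) : ℕ → ℕ → ℝ → ℝ → ℝ → Prop
  | 0, _, z, π, w => w = z ∧ 0 ≤ π ∧ π ≤ 1
  | K + 1, n, z, π, w => ∃ y π0 π1, S.Pr (n / d) (n % d) z y π0 ∧ 0 ≤ π0 ∧ 0 ≤ π1 ∧
      Pth S K (n / d) (F.eval y) π1 w ∧ 0 ≤ π ∧ π ≤ π0 * π1

/-- constants along a chain -/
noncomputable def cc (S : GS a b F d L P Cr) : ℕ → ℕ → ℕ → ℝ
  | 0, _, _ => 1
  | K + 1, n, n' => |S.kap (n / d) (n % d)| / |S.kap (n' / d) (n' % d)| * cc S K (n / d) (n' / d)

theorem cc_pos (S : GS a b F d L P Cr) (K : ℕ) : ∀ n n', 0 < S.cc K n n' := by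
  have hd := S.hd
  induction K with
  | zero => intro n n'; exact one_pos
  | succ K ih =>
    intro n n'
    have h1 := S.kap_pos (n / d) (n % d) (Nat.mod_lt _ (by omega))
    have h2 := S.kap_pos (n' / d) (n' % d) (Nat.mod_lt _ (by omega))
    exact mul_pos (div_pos h1 h2) (ih _ _)

theorem cc_symm (S : GS a b F d L P Cr) (K : ℕ) : ∀ n n', S.cc K n' n * S.cc K n n' = 1 := by
  have hd := S.hd
  induction K with
  | zero => intro n n'; simp [cc]
  | succ K ih =>
    intro n n'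
    have h1 := S.kap_pos (n / d) (n % d) (Nat.mod_lt _ (by omega))
    have h2 := S.kap_pos (n' / d) (n' % d) (Nat.mod_lt _ (by omega))
    have h3 := ih (n / d) (n' / d)
    simp only [cc]
    calc _ = (|S.kap (n' / d) (n' % d)| / |S.kap (n / d) (n % d)|) *
        (|S.kap (n / d) (n % d)| / |S.kap (n' / d) (n' % d)|) *
        (S.cc K (n' / d) (n / d) * S.cc K (n / d) (n' / d)) := by ring
      _ = 1 := by rw [h3]; field_simp

theorem mod_step {d K n n' : ℕ} (hd : 2 ≤ d) (h : n ≡ n' [MOD d ^ (K + 1)]) :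
    n % d = n' % d ∧ n / d ≡ n' / d [MOD d ^ K] := by
  have h1 : n ≡ n' [MOD d] := h.of_dvd (dvd_pow_self d (by omega))
  refine ⟨h1, ?_⟩
  have h2 : d * (n / d) ≡ d * (n' / d) [MOD d * d ^ K] := by
    have e1 : n % d + d * (n / d) = n := Nat.mod_add_div n d
    have e2 : n' % d + d * (n' / d) = n' := Nat.mod_add_div n' d
    have h3 : n % d + d * (n / d) ≡ n' % d + d * (n' / d) [MOD d * d ^ K] := by
      rw [e1, e2, ← pow_succ']; exact h
    have h4 : n % d = n' % d := h1
    rw [h4] at h3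
    exact Nat.ModEq.add_left_cancel' _ h3
  exact Nat.ModEq.mul_left_cancel' (by omega) h2

theorem up (S : GS a b F d L P Cr) {E : Set ℝ} (hE : EE a b F Cr E) (K : ℕ) :
    ∀ n n', n ≡ n' [MOD d ^ K] → ∀ B : ℝ, 0 ≤ B → (∀ x ∈ E, gg P (n / d ^ K) x ≤ B * gg P (n' / d ^ K) x) →
      (∀ z ∈ E, S.cc K n n' * gg P n z ≤ B * gg P n' z) ∧
      (∀ z ∈ E, ∀ π w R : ℝ, S.Pth K n' z π w → gg P (n / d ^ K) w ≤ R * gg P (n' / d ^ K) w →
        S.cc K n n' * gg P n z ≤ ((1 - π) * B + π * R) * gg P n' z) := by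
  have hd := S.hd
  induction K with
  | zero =>
    intro n n' _ B hB0 hB
    simp only [pow_zero, Nat.div_one] at hB ⊢
    refine ⟨fun z hz => by simpa [cc] using hB z hz, ?_⟩
    intro z hz π w R hp hR
    obtain ⟨rfl, h0, h1⟩ := hp
    have h2 := hB w hz
    simp only [cc, one_mul]
    nlinarith
  | succ K ih =>
    intro n n' hmod B hB0 hB
    obtain ⟨hr, hm⟩ := mod_step hd hmod
    have hrd : n' % d < d := Nat.mod_lt _ (by omega)
    have hBK : ∀ x ∈ E, gg P (n / d / d ^ K) x ≤ B * gg P (n' / d / d ^ K) x := by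
      intro x hx
      rw [Nat.div_div_eq_div_mul, Nat.div_div_eq_div_mul, ← pow_succ']
      exact hB x hx
    obtain ⟨ih1, ih2⟩ := ih (n / d) (n' / d) hm B hB0 hBK
    have hcK := S.cc_pos K (n / d) (n' / d)
    set c := S.cc K (n / d) (n' / d) with hc
    have hn : d * (n / d) + n' % d = n := by rw [← hr]; exact Nat.div_add_mod n d
    have hn' : d * (n' / d) + n' % d = n' := Nat.div_add_mod n' d
    have hk1 := S.kap_pos (n / d) (n' % d) hrd
    have hk2 := S.kap_pos (n' / d) (n' % d) hrd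
    have base : ∀ x, Out a b x → ∀ z ∈ E, x ∈ (insert z Cr).image (fun y => F.eval y) →
        gg P (n / d) x ≤ (B / c) * gg P (n' / d) x := by
      intro x _ z hz hx
      rw [mem_image] at hx
      obtain ⟨y, hy, rfl⟩ := hx
      have hyE : F.eval y ∈ E := by
        rw [mem_insert] at hy
        rcases hy with rfl | hy
        · exact hE.map _ hz
        · exact hE.cr _ hy
      have := ih1 _ hyE
      rw [div_mul_eq_mul_div, le_div_iff₀ hcK]
      linarith
    have main : ∀ z ∈ E, ∀ y π0 β, S.Pr (n' / d) (n' % d) z y π0 → 0 ≤ π0 →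
        gg P (n / d) (F.eval y) ≤ β * gg P (n' / d) (F.eval y) → β ≤ B / c →
        S.cc (K + 1) n n' * gg P n z ≤ c * ((1 - π0) * (B / c) + π0 * β) * gg P n' z := by
      intro z hz y π0 β hp h0 hβ hβB
      have h := S.step_node hrd (hE.out z hz) hp (fun x hx hx' => base x hx z hz hx') hβ hβB
      rw [hn, hn'] at h
      simp only [cc]
      rw [hr]
      have e : |S.kap (n / d) (n' % d)| / |S.kap (n' / d) (n' % d)| * c * gg P n z
          = c * (|S.kap (n / d) (n' % d)| * gg P n z) / |S.kap (n' / d) (n' % d)| := by ring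
      rw [e, div_le_iff₀ hk2]
      calc c * (|S.kap (n / d) (n' % d)| * gg P n z)
          ≤ c * (((1 - π0) * (B / c) + π0 * β) * (|S.kap (n' / d) (n' % d)| * gg P n' z)) := by gcongr
        _ = _ := by ring
    refine ⟨?_, ?_⟩
    · intro z hz
      obtain ⟨Q, hQ⟩ := S.exists_opt (n' / d) (n' % d) hrd (hE.out z hz)
      have hp : S.Pr (n' / d) (n' % d) z z 0 := by
        refine ⟨mem_insert_self _ _, Q, hQ, ?_⟩
        rw [zero_mul]
        exact mul_nonneg (abs_nonneg _) (sq_nonneg _)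
      have h := main z hz z 0 (B / c) hp le_rfl
        (base _ (S.out_F (hE.out z hz)) z hz (mem_image_of_mem _ (mem_insert_self _ _))) le_rfl
      have e : c * ((1 - 0) * (B / c) + 0 * (B / c)) = B := by field_simp; ring
      rw [e] at h
      exact h
    · intro z hz π w R hp hR
      obtain ⟨y, π0, π1, hpr, h0, h1, hpth, hπ0, hπ⟩ := hp
      have hyE : F.eval y ∈ E := by
        have hy := hpr.1
        rw [mem_insert] at hy
        rcases hy with rfl | hy
        · exact hE.map _ hz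
        · exact hE.cr _ hy
      by_cases hRB : R ≤ B
      · have h2 := ih2 _ hyE π1 w R hpth (by
          rw [Nat.div_div_eq_div_mul, Nat.div_div_eq_div_mul, ← pow_succ']
          exact hR)
        have h3 := main z hz y π0 (((1 - π1) * B + π1 * R) / c) hpr h0 (by
          rw [div_mul_eq_mul_div, le_div_iff₀ hcK]; linarith) (by
          apply div_le_div_of_nonneg_right _ hcK.le
          nlinarith)
        have e : c * ((1 - π0) * (B / c) + π0 * (((1 - π1) * B + π1 * R) / c))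
            = (1 - π0 * π1) * B + π0 * π1 * R := by field_simp; ring
        rw [e] at h3
        refine h3.trans ?_
        apply mul_le_mul_of_nonneg_right _ (abs_nonneg _)
        nlinarith
      · push Not at hRB
        obtain ⟨Q, hQ⟩ := S.exists_opt (n' / d) (n' % d) hrd (hE.out z hz)
        have hp : S.Pr (n' / d) (n' % d) z z 0 := by
          refine ⟨mem_insert_self _ _, Q, hQ, ?_⟩
          rw [zero_mul]
          exact mul_nonneg (abs_nonneg _) (sq_nonneg _)
        have h := main z hz z 0 (B / c) hp le_rfl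
          (base _ (S.out_F (hE.out z hz)) z hz (mem_image_of_mem _ (mem_insert_self _ _))) le_rfl
        have e : c * ((1 - 0) * (B / c) + 0 * (B / c)) = B := by field_simp; ring
        rw [e] at h
        refine h.trans ?_
        apply mul_le_mul_of_nonneg_right _ (abs_nonneg _)
        nlinarith

/-- comparison property at depth `N` -/
def HH (P : ℕ → ℝ[X]) (d : ℕ) (E : Set ℝ) (N : ℕ) (x : ℝ) : Prop :=
  ∀ n n', n ≡ n' [MOD d ^ N] → ∀ z ∈ E, ∀ z' ∈ E, gg P n z * gg P n' z' ≤ x * (gg P n' z * gg P n z')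

theorem contract (S : GS a b F d L P Cr) {E : Set ℝ} (hE : EE a b F Cr E) (hne : E.Nonempty)
    (far : ∀ η > 0, ∃ Z : ℝ, ∀ n n', ∀ w ∈ E, Z ≤ |w| → gg P n w ≤ (1 + η) * gg P n' w)
    (unb : ∀ Z : ℝ, ∃ w ∈ E, Z ≤ |w|)
    {B0 : ℝ} (hB0 : ∀ n n', ∀ w ∈ E, gg P n w ≤ B0 * gg P n' w)
    {N K0 : ℕ} {x π η : ℝ} (hx : HH P d E N x) (hπ0 : 0 ≤ π) (hπ1 : π ≤ 1) (hη : 0 < η) (hη1 : η ≤ 1)
    (paths : ∀ n n', n ≡ n' [MOD d ^ K0] → ∃ K ≤ K0,
      (∀ z ∈ E, ∃ w ∈ E, S.Pth K n z π w ∧ ∀ m m', gg P m w ≤ (1 + η) * gg P m' w) ∧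
      (∀ z ∈ E, ∃ w ∈ E, S.Pth K n' z π w ∧ ∀ m m', gg P m w ≤ (1 + η) * gg P m' w)) :
    HH P d E (N + K0) ((1 - π) * x + π * (1 + η * (4 + x))) := by
  intro n n' hmod z hz z' hz'
  have hd := S.hd
  obtain ⟨K, hK, hp1, hp2⟩ := paths n n' (hmod.of_dvd (pow_dvd_pow _ (by omega)))
  have hmK : n ≡ n' [MOD d ^ K] := hmod.of_dvd (pow_dvd_pow _ (by omega))
  have hmN : n / d ^ K ≡ n' / d ^ K [MOD d ^ N] := by
    have h1 : n ≡ n' [MOD d ^ (K + N)] := hmod.of_dvd (pow_dvd_pow _ (by omega))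
    have h2 : ∀ K n n', n ≡ n' [MOD d ^ (K + N)] → n / d ^ K ≡ n' / d ^ K [MOD d ^ N] := by
      intro K
      induction K with
      | zero => intro n n' h; simpa using h
      | succ K ih =>
        intro n n' h
        have h' : n ≡ n' [MOD d ^ (K + N + 1)] := by
          have e : K + N + 1 = K + 1 + N := by ring
          rw [e]; exact h
        have := (mod_step (K := K + N) hd h').2
        have := ih _ _ this
        rw [Nat.div_div_eq_div_mul, Nat.div_div_eq_div_mul, ← pow_succ'] at this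
        exact this
    exact h2 K n n' h1
  set M := n / d ^ K with hM
  set M' := n' / d ^ K with hM'
  have hgp : ∀ k, ∀ z ∈ E, 0 < gg P k z := fun k z hz => S.gg_pos (hE.out z hz) k
  set A : Set ℝ := {t | ∃ w ∈ E, t = gg P M w / gg P M' w} with hA
  have hAb : BddAbove A := by
    refine ⟨B0, ?_⟩
    rintro t ⟨w, hw, rfl⟩
    rw [div_le_iff₀ (hgp _ _ hw)]
    exact hB0 _ _ w hw
  obtain ⟨w0, hw0⟩ := hne
  have hAne : A.Nonempty := ⟨_, w0, hw0, rfl⟩
  set B := sSup A with hB
  have hBge : ∀ w ∈ E, gg P M w ≤ B * gg P M' w := by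
    intro w hw
    rw [← div_le_iff₀ (hgp _ _ hw)]
    exact le_csSup hAb ⟨w, hw, rfl⟩
  have hB1 : 1 ≤ B := by
    by_contra hcon
    push Not at hcon
    have hBpos : 0 < B := lt_of_lt_of_le (div_pos (hgp M w0 hw0) (hgp M' w0 hw0)) (le_csSup hAb ⟨w0, hw0, rfl⟩)
    obtain ⟨Z, hZ⟩ := far ((1 / B - 1) / 2) (by
      have : 1 < 1 / B := by rw [lt_div_iff₀ hBpos]; linarith
      linarith)
    obtain ⟨w, hw, hwZ⟩ := unb Z
    have h1 := hZ M' M w hw hwZ
    have h2 := hBge w hw
    have h3 := hgp M' w hw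
    have h4 : (1 + (1 / B - 1) / 2) * gg P M w ≤ (1 + (1 / B - 1) / 2) * (B * gg P M' w) := by
      apply mul_le_mul_of_nonneg_left h2
      have : 1 < 1 / B := by rw [lt_div_iff₀ hBpos]; linarith
      linarith
    have h5 : (1 + (1 / B - 1) / 2) * (B * gg P M' w) = ((1 + B) / 2) * gg P M' w := by
      field_simp; ring
    rw [h5] at h4
    nlinarith
  have hBpos : 0 < B := by linarith
  have hxB : ∀ w ∈ E, gg P M' w ≤ (x / B) * gg P M w := by
    intro w hw
    have hle : B ≤ x * gg P M w / gg P M' w := by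
      apply csSup_le hAne
      rintro t ⟨v, hv, rfl⟩
      have := hx M M' hmN v hv w hw
      rw [div_le_div_iff₀ (hgp _ _ hv) (hgp _ _ hw)]
      nlinarith [this]
    rw [le_div_iff₀ (hgp _ _ hw)] at hle
    rw [div_mul_eq_mul_div, le_div_iff₀ hBpos]
    linarith
  have hxB1 : B ≤ x := by
    by_contra hcon
    push Not at hcon
    have hx0 : 0 < x := by
      have h1 := hxB w0 hw0
      have h2 := hgp M' w0 hw0
      have h3 := hgp M w0 hw0
      by_contra h
      push Not at h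
      have : x / B * gg P M w0 ≤ 0 := mul_nonpos_of_nonpos_of_nonneg (div_nonpos_of_nonpos_of_nonneg h hBpos.le) h3.le
      linarith
    obtain ⟨Z, hZ⟩ := far ((B / x - 1) / 2) (by
      have : 1 < B / x := by rw [lt_div_iff₀ hx0]; linarith
      linarith)
    obtain ⟨w, hw, hwZ⟩ := unb Z
    have h1 := hZ M M' w hw hwZ
    have h2 := hxB w hw
    have h3 := hgp M w hw
    have h4 : (1 + (B / x - 1) / 2) * gg P M' w ≤ (1 + (B / x - 1) / 2) * (x / B * gg P M w) := by
      apply mul_le_mul_of_nonneg_left h2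
      have : 1 < B / x := by rw [lt_div_iff₀ hx0]; linarith
      linarith
    have h5 : (1 + (B / x - 1) / 2) * (x / B * gg P M w) = ((1 + x / B) / 2) * gg P M w := by
      field_simp; ring
    rw [h5] at h4
    have h6 : x / B < 1 := by rw [div_lt_one hBpos]; exact hcon
    nlinarith
  have hx0 : 0 < x := by linarith
  obtain ⟨w1, hw1, hpth1, hfar1⟩ := hp2 z hz
  obtain ⟨w2, hw2, hpth2, hfar2⟩ := hp1 z' hz'
  have U1 := (S.up hE K n n' hmK B hBpos.le hBge).2 z hz π w1 (1 + η) hpth1 (hfar1 M M')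
  have U2 := (S.up hE K n' n hmK.symm (x / B) (by positivity) hxB).2 z' hz' π w2 (1 + η) hpth2 (hfar2 M' M)
  have hc := S.cc_pos K n n'
  have hc' := S.cc_pos K n' n
  have hcc := S.cc_symm K n n'
  have hg1 := hgp n z hz
  have hg2 := hgp n' z hz
  have hg3 := hgp n z' hz'
  have hg4 := hgp n' z' hz'
  have hmul : (S.cc K n n' * gg P n z) * (S.cc K n' n * gg P n' z')
      ≤ (((1 - π) * B + π * (1 + η)) * gg P n' z) * (((1 - π) * (x / B) + π * (1 + η)) * gg P n z') := by
    apply mul_le_mul U1 U2 (by positivity)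
    have : 0 ≤ (1 - π) * B + π * (1 + η) := by
      have := mul_nonneg (sub_nonneg.mpr hπ1) hBpos.le
      nlinarith
    positivity
  have e1 : (S.cc K n n' * gg P n z) * (S.cc K n' n * gg P n' z') = gg P n z * gg P n' z' := by
    calc _ = (S.cc K n' n * S.cc K n n') * (gg P n z * gg P n' z') := by ring
      _ = _ := by rw [hcc, one_mul]
  rw [e1] at hmul
  refine hmul.trans ?_
  have e2 : (((1 - π) * B + π * (1 + η)) * gg P n' z) * (((1 - π) * (x / B) + π * (1 + η)) * gg P n z')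
      = (((1 - π) * B + π * (1 + η)) * ((1 - π) * (x / B) + π * (1 + η))) * (gg P n' z * gg P n z') := by ring
  rw [e2]
  apply mul_le_mul_of_nonneg_right _ (by positivity)
  have hsum : B + x / B ≤ 1 + x := by
    rw [← sub_nonneg]
    have : 1 + x - (B + x / B) = (B - 1) * (x - B) / B := by field_simp; ring
    rw [this]
    exact div_nonneg (mul_nonneg (by linarith) (by linarith)) hBpos.le
  have hprod : B * (x / B) = x := by field_simp
  have e3 : ((1 - π) * B + π * (1 + η)) * ((1 - π) * (x / B) + π * (1 + η))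
      = (1 - π) ^ 2 * (B * (x / B)) + π * (1 - π) * (1 + η) * (B + x / B) + π ^ 2 * (1 + η) ^ 2 := by ring
  rw [e3, hprod]
  have h6 : π * (1 - π) * (1 + η) * (B + x / B) ≤ π * (1 - π) * (1 + η) * (1 + x) := by
    apply mul_le_mul_of_nonneg_left hsum
    have := mul_nonneg hπ0 (sub_nonneg.mpr hπ1)
    positivity
  have h7 : π ^ 2 * (1 + η) ^ 2 ≤ π ^ 2 + 3 * π * η := by
    have hp2' : π ^ 2 ≤ π := by nlinarith
    have hη2 : η ^ 2 ≤ η := by nlinarith
    have h71 : π ^ 2 * (2 * η + η ^ 2) ≤ π * (3 * η) :=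
      mul_le_mul hp2' (by linarith) (by positivity) hπ0
    nlinarith [h71]
  have h8 : 0 ≤ η * π * π * (1 + x) := by positivity
  nlinarith [h6, h7, h8]

end GS

end Pool.Agent.Helper566.J
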