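import Mathlib
import Pool.Agent.Helper566.JPath

set_option autoImplicit false
set_option linter.unusedVariables false

open Polynomial Finset

namespace Pool.Agent.Helper566.J

/-- distance to the hull -/
noncomputable def dlo (a b z : ℝ) : ℝ := max (z - b) (a - z)
/-- largest distance to the hull -/
noncomputable def dup (a b z : ℝ) : ℝ := max (z - a) (b - z)

theorem up_eq (a b z : ℝ) : dup a b z = dlo a b z + (b - a) := by
  unfold dup dlo
  rw [← max_add_add_right]
  congr 1 <;> ring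

theorem lo_abs (a b z : ℝ) : |z| - (|a| + |b|) ≤ dlo a b z := by
  unfold dlo
  rcases le_total 0 z with h | h
  · refine le_trans ?_ (le_max_left _ _)
    rw [abs_of_nonneg h]
    have := le_abs_self b
    have := abs_nonneg a
    linarith
  · refine le_trans ?_ (le_max_right _ _)
    rw [abs_of_nonpos h]
    have := neg_abs_le a
    have := abs_nonneg b
    linarith

/-- system with a uniformly escaping invariant set of energies -/
structure HS (a b : ℝ) (F : ℝ[X]) (d : ℕ) (L : ℝ[X] →ₗ[ℝ] ℝ) (P : ℕ → ℝ[X]) (Cr : Finset ℝ)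
    (E : Set ℝ) (δ : ℝ) : Prop extends GS a b F d L P Cr where
  inv : GS.EE a b F Cr E
  ne : E.Nonempty
  dpos : 0 < δ
  sep : ∀ z ∈ E, δ ≤ dlo a b z
  lowF : ∀ z, Out a b z → |F.leadingCoeff| * (dlo a b z) ^ d ≤ dlo a b (F.eval z)
  esc : ∀ Z : ℝ, ∃ T, ∀ z ∈ E, ∀ k, T ≤ k → Z ≤ dlo a b ((fun x => F.eval x)^[k] z)

namespace GS

variable {a b : ℝ} {F : ℝ[X]} {d : ℕ} {L : ℝ[X] →ₗ[ℝ] ℝ} {P : ℕ → ℝ[X]} {Cr : Finset ℝ}

theorem gg_lo (S : GS a b F d L P Cr) {z : ℝ} (hz : Out a b z) (n : ℕ) : dlo a b z ≤ gg P n z := by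
  have hab := S.a_lt
  unfold dlo gg
  rcases hz with h | h
  · have h1 := S.toOS.rho_pos h n
    rw [abs_of_pos h1]
    exact max_le (S.toOS.rho_lower_hi h n) (by linarith)
  · have h1 := S.toOS.rho_neg h n
    rw [abs_of_neg h1]
    exact max_le (by linarith) (S.toOS.rho_lower_lo h n)

theorem gg_up (S : GS a b F d L P Cr) {z : ℝ} (hz : Out a b z) (n : ℕ) : gg P n z ≤ dup a b z := by
  unfold dup gg
  rcases hz with h | h
  · have h1 := S.toOS.rho_pos h n
    rw [abs_of_pos h1]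
    exact le_trans (S.toOS.rho_upper_hi h n) (le_max_left _ _)
  · have h1 := S.toOS.rho_neg h n
    rw [abs_of_neg h1]
    exact le_trans (S.toOS.rho_upper_lo h n) (le_max_right _ _)

theorem lo_nonneg {z : ℝ} (hz : Out a b z) : 0 ≤ dlo a b z := by
  unfold dlo
  rcases hz with h | h
  · exact le_trans (by linarith) (le_max_left _ _)
  · exact le_trans (by linarith) (le_max_right _ _)

theorem cr_dist (S : GS a b F d L P Cr) {z : ℝ} (hz : Out a b z) {c : ℝ} (hc : c ∈ Cr) :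
    dlo a b z ≤ |c - z| ∧ |z - c| ≤ dup a b z := by
  have h1 := S.cr_in c hc
  have hab := S.a_lt
  unfold dlo dup
  rcases hz with h | h
  · constructor
    · rw [abs_of_neg (by linarith)]
      exact max_le (by linarith) (by linarith)
    · rw [abs_of_pos (by linarith)]
      exact le_trans (by linarith) (le_max_left _ _)
  · constructor
    · rw [abs_of_pos (by linarith)]
      exact max_le (by linarith) (by linarith)
    · rw [abs_of_neg (by linarith)]
      exact le_trans (by linarith) (le_max_right _ _)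

theorem up_pos (S : GS a b F d L P Cr) {z : ℝ} (hz : Out a b z) : 0 < dup a b z := by
  rw [up_eq]
  have := S.a_lt
  have := lo_nonneg hz
  linarith

theorem chi_le (S : GS a b F d L P Cr) {z : ℝ} (hz : Out a b z) :
    |(chi F d).eval z| ≤ (dup a b z) ^ (d - 1) := by
  rw [S.chi_eval, Finset.abs_prod, ← S.card_Cr]
  calc ∏ c ∈ Cr, |z - c| ≤ ∏ _c ∈ Cr, dup a b z :=
        prod_le_prod (fun c _ => abs_nonneg _) fun c hc => (S.cr_dist hz hc).2
    _ = _ := by rw [prod_const]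

theorem kap_zero (S : GS a b F d L P Cr) (m : ℕ) : |S.kap m 0| = |F.leadingCoeff| := by
  have hd := S.hd
  rcases (S.kap_spec m 0 (by omega)).2 with h | h
  · rw [h.2]
  · omega

theorem Pth_mono (S : GS a b F d L P Cr) {K n : ℕ} {z π π' w : ℝ} (h : S.Pth K n z π w)
    (h0 : 0 ≤ π') (h1 : π' ≤ π) : S.Pth K n z π' w := by
  cases K with
  | zero => exact ⟨h.1, h0, h1.trans h.2.2⟩
  | succ K =>
    obtain ⟨y, π0, π1, a1, a2, a3, a4, a5, a6⟩ := h
    exact ⟨y, π0, π1, a1, a2, a3, a4, h0, h1.trans a6⟩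

theorem Pth_nonneg (S : GS a b F d L P Cr) {K n : ℕ} {z π w : ℝ} (h : S.Pth K n z π w) : 0 ≤ π := by
  cases K with
  | zero => exact h.2.1
  | succ K =>
    obtain ⟨y, π0, π1, a1, a2, a3, a4, a5, a6⟩ := h
    exact a5

theorem Pth_concat (S : GS a b F d L P Cr) (K1 : ℕ) : ∀ {K2 n : ℕ} {z π w π' w' : ℝ},
    S.Pth K1 n z π w → S.Pth K2 (n / d ^ K1) w π' w' → S.Pth (K1 + K2) n z (π * π') w' := by
  induction K1 with
  | zero =>
    intro K2 n z π w π' w' h1 h2
    obtain ⟨rfl, h3, h4⟩ := h1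
    rw [pow_zero, Nat.div_one] at h2
    rw [zero_add]
    have h5 := S.Pth_nonneg h2
    exact S.Pth_mono h2 (mul_nonneg h3 h5) (by nlinarith)
  | succ K1 ih =>
    intro K2 n z π w π' w' h1 h2
    obtain ⟨y, π0, π1, a1, a2, a3, a4, a5, a6⟩ := h1
    have h5 := S.Pth_nonneg h2
    have h6 := ih (K2 := K2) (π' := π') (w' := w') a4 (by
      rw [Nat.div_div_eq_div_mul, ← pow_succ']
      exact h2)
    rw [show K1 + 1 + K2 = (K1 + K2) + 1 by ring]
    refine ⟨y, π0, π1 * π', a1, a2, mul_nonneg a3 h5, h6, mul_nonneg a5 h5, ?_⟩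
    calc π * π' ≤ (π0 * π1) * π' := by gcongr
      _ = _ := by ring

theorem dig_eq {d : ℕ} (hd : 2 ≤ d) (K : ℕ) : ∀ n n' : ℕ, n ≡ n' [MOD d ^ K] →
    ∀ k < K, n / d ^ k % d = n' / d ^ k % d := by
  induction K with
  | zero => intro n n' _ k hk; omega
  | succ K ih =>
    intro n n' h k hk
    obtain ⟨h1, h2⟩ := mod_step hd h
    cases k with
    | zero => simpa using h1
    | succ k =>
      have := ih _ _ h2 k (by omega)
      rwa [Nat.div_div_eq_div_mul, Nat.div_div_eq_div_mul, ← pow_succ'] at this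

end GS

namespace HS

variable {a b : ℝ} {F : ℝ[X]} {d : ℕ} {L : ℝ[X] →ₗ[ℝ] ℝ} {P : ℕ → ℝ[X]} {Cr : Finset ℝ}
  {E : Set ℝ} {δ : ℝ}

/-- ratio constant -/
noncomputable def R0 (a b δ : ℝ) : ℝ := 1 + (b - a) / δ

theorem R0_one (S : HS a b F d L P Cr E δ) : 1 ≤ R0 a b δ := by
  unfold R0
  have := div_pos (sub_pos.mpr S.toGS.a_lt) S.dpos
  linarith

theorem up_le (S : HS a b F d L P Cr E δ) {z : ℝ} (hz : z ∈ E) : dup a b z ≤ R0 a b δ * dlo a b z := by
  rw [up_eq]
  unfold R0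
  have h1 := S.sep z hz
  have h2 := S.dpos
  have h3 := S.toGS.a_lt
  have : b - a ≤ (b - a) / δ * dlo a b z := by
    rw [div_mul_eq_mul_div, le_div_iff₀ h2]
    nlinarith
  linarith

theorem cmp (S : HS a b F d L P Cr E δ) {z : ℝ} (hz : z ∈ E) (n n' : ℕ) {Z : ℝ} (hZ : 0 < Z)
    (h : Z ≤ dlo a b z) : gg P n z ≤ (1 + (b - a) / Z) * gg P n' z := by
  have h1 := S.toGS.gg_up (S.inv.out z hz) n
  have h2 := S.toGS.gg_lo (S.inv.out z hz) n'
  have h3 := S.toGS.a_lt
  rw [up_eq] at h1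
  have h4 : b - a ≤ (b - a) / Z * dlo a b z := by
    rw [div_mul_eq_mul_div, le_div_iff₀ hZ]
    nlinarith
  have h5 : 0 < (b - a) / Z := div_pos (by linarith) hZ
  calc gg P n z ≤ (1 + (b - a) / Z) * dlo a b z := by linarith
    _ ≤ _ := by gcongr

theorem iter_mem (S : HS a b F d L P Cr E δ) {z : ℝ} (hz : z ∈ E) (k : ℕ) :
    (fun x => F.eval x)^[k] z ∈ E := by
  induction k with
  | zero => exact hz
  | succ k ih =>
    rw [Function.iterate_succ_apply']
    exact S.inv.map _ ih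

/-- stay probability under the zero digit -/
noncomputable def th0 (a b δ : ℝ) (d : ℕ) : ℝ := ((R0 a b δ) ^ d)⁻¹

theorem th0_pos (S : HS a b F d L P Cr E δ) : 0 < th0 a b δ d := by
  unfold th0
  have := S.R0_one
  positivity

theorem th0_le (S : HS a b F d L P Cr E δ) : th0 a b δ d ≤ 1 := by
  unfold th0
  exact inv_le_one_of_one_le₀ (one_le_pow₀ S.R0_one)

theorem stay0 (S : HS a b F d L P Cr E δ) {z : ℝ} (hz : z ∈ E) (m : ℕ) :
    S.toGS.Pr m 0 z z (th0 a b δ d) := by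
  have hd := S.hd
  have hout := S.inv.out z hz
  apply S.toGS.pr_stay (by omega) hout
  rw [S.toGS.kap_zero, range_zero, prod_empty, mul_one, add_zero]
  have h1 := S.toGS.chi_le hout
  have h2 := S.toGS.gg_up hout (d * m)
  have h3 := S.toGS.gg_lo (S.toGS.out_F hout) m
  have h4 := S.lowF z hout
  have h5 := S.up_le hz
  have hup := S.toGS.up_pos hout
  have hl : 0 < |F.leadingCoeff| := abs_pos.mpr S.toGS.lc
  have hth := S.th0_pos
  have h6 : (dup a b z) ^ d ≤ (R0 a b δ) ^ d * (dlo a b z) ^ d := by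
    rw [← mul_pow]
    gcongr
  have h7 : th0 a b δ d * (dup a b z) ^ d ≤ (dlo a b z) ^ d := by
    unfold th0
    have : 0 < (R0 a b δ) ^ d := pow_pos (by linarith [S.R0_one]) _
    rw [inv_mul_le_iff₀ this]
    exact h6
  have hg := S.toGS.gg_pos hout (d * m)
  calc th0 a b δ d * (|eval z (chi F d)| * |F.leadingCoeff| ^ 2 * gg P (d * m) z)
      ≤ th0 a b δ d * ((dup a b z) ^ (d - 1) * |F.leadingCoeff| ^ 2 * dup a b z) := by gcongr
    _ = (th0 a b δ d * (dup a b z) ^ d) * |F.leadingCoeff| ^ 2 := by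
        have : (dup a b z) ^ d = (dup a b z) ^ (d - 1) * dup a b z := by
          rw [← pow_succ]; congr 1; omega
        rw [this]; ring
    _ ≤ (dlo a b z) ^ d * |F.leadingCoeff| ^ 2 := by gcongr
    _ = (|F.leadingCoeff| * (dlo a b z) ^ d) * |F.leadingCoeff| := by ring
    _ ≤ gg P m (F.eval z) * |F.leadingCoeff| := by gcongr; linarith

theorem stay0Path (S : HS a b F d L P Cr E δ) (K : ℕ) : ∀ n : ℕ, (∀ k < K, n / d ^ k % d = 0) →
    ∀ z ∈ E, S.toGS.Pth K n z ((th0 a b δ d) ^ K) ((fun x => F.eval x)^[K] z) := by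
  have h0 := S.th0_pos
  induction K with
  | zero => intro n _ z hz; exact ⟨rfl, by simp⟩
  | succ K ih =>
    intro n hn z hz
    have h1 := ih (n / d) (fun k hk => by
      have := hn (k + 1) (by omega)
      rwa [pow_succ', ← Nat.div_div_eq_div_mul] at this) (F.eval z) (S.inv.map z hz)
    refine ⟨z, th0 a b δ d, (th0 a b δ d) ^ K, ?_, h0.le, by positivity, h1, by positivity, ?_⟩
    · have h2 : n % d = 0 := by simpa using hn 0 (by omega)
      rw [h2]
      exact S.stay0 hz _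
    · rw [pow_succ']

theorem kap_low (S : HS a b F d L P Cr E δ) : ∃ c0 > 0, ∀ r < d, ∀ m, c0 ≤ |S.toGS.kap m r| := by
  have key : ∀ n, n ≤ d → ∃ c0 > 0, ∀ r < n, ∀ m, c0 ≤ |S.toGS.kap m r| := by
    intro n
    induction n with
    | zero => intro _; exact ⟨1, one_pos, fun r hr => by omega⟩
    | succ n ih =>
      intro hn
      obtain ⟨c0, h0, h1⟩ := ih (by omega)
      obtain ⟨c1, h2, h3⟩ := S.toGS.kap_lower S.dpos n (by omega)
      refine ⟨min c0 c1, lt_min h0 h2, ?_⟩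
      intro r hr m
      rcases Nat.eq_or_lt_of_le (Nat.lt_succ_iff.mp hr) with h | h
      · rw [h]
        refine (min_le_right _ _).trans (h3 m ?_)
        intro y hy
        exact (S.sep _ (S.inv.cr y hy)).trans (S.toGS.gg_lo (S.toGS.out_Cr hy) m)
      · exact (min_le_left _ _).trans (h1 r h m)
  exact key d le_rfl

theorem stay_any (S : HS a b F d L P Cr E δ) {U : ℝ} (hU : 1 ≤ U) :
    ∃ p > 0, p ≤ 1 ∧ ∀ z ∈ E, dup a b z ≤ U → ∀ r < d, ∀ m, S.toGS.Pr m r z z p := by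
  have hd := S.hd
  obtain ⟨c0, hc0, hc1⟩ := S.kap_low
  have hl : 0 < |F.leadingCoeff| := abs_pos.mpr S.toGS.lc
  have hδ := S.dpos
  refine ⟨min 1 (δ ^ d * c0 / (|F.leadingCoeff| * U ^ (3 * d))), lt_min one_pos (by positivity),
    min_le_left _ _, ?_⟩
  intro z hz hzU r hr m
  have hout := S.inv.out z hz
  apply S.toGS.pr_stay hr hout
  set p := min 1 (δ ^ d * c0 / (|F.leadingCoeff| * U ^ (3 * d))) with hp
  have hp0 : 0 < p := lt_min one_pos (by positivity)
  have hp1 : p ≤ δ ^ d * c0 / (|F.leadingCoeff| * U ^ (3 * d)) := min_le_right _ _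
  have hup := S.toGS.up_pos hout
  have h1 : |eval z (chi F d)| ≤ U ^ (d - 1) := (S.toGS.chi_le hout).trans (by gcongr)
  have hgU : ∀ n, gg P n z ≤ U := fun n => (S.toGS.gg_up hout n).trans hzU
  have hg0 : ∀ n, 0 < gg P n z := fun n => S.toGS.gg_pos hout n
  have h2 : ∏ k ∈ range r, gg P (d * m + k) z ≤ U ^ r := by
    calc ∏ k ∈ range r, gg P (d * m + k) z ≤ ∏ _k ∈ range r, U :=
        prod_le_prod (fun k _ => (hg0 _).le) fun k _ => hgU _
      _ = _ := by rw [prod_const, card_range]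
  have h20 : 0 ≤ ∏ k ∈ range r, gg P (d * m + k) z := prod_nonneg fun k _ => (hg0 _).le
  have h3 : |F.leadingCoeff| * δ ^ d ≤ gg P m (F.eval z) := by
    have h4 := S.lowF z hout
    have h5 := S.toGS.gg_lo (S.toGS.out_F hout) m
    have h6 : δ ^ d ≤ (dlo a b z) ^ d := by
      have := S.sep z hz
      gcongr
    calc |F.leadingCoeff| * δ ^ d ≤ |F.leadingCoeff| * (dlo a b z) ^ d := by gcongr
      _ ≤ _ := by linarith
  have h4 := hc1 r hr m
  have h5 : U ^ (d - 1) * (U ^ r) ^ 2 * U ≤ U ^ (3 * d) := by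
    rw [← pow_mul, ← pow_add, ← pow_succ]
    exact pow_le_pow_right₀ hU (by omega)
  calc p * (|eval z (chi F d)| * (|F.leadingCoeff| * ∏ k ∈ range r, gg P (d * m + k) z) ^ 2 * gg P (d * m + r) z)
      ≤ p * (U ^ (d - 1) * (|F.leadingCoeff| * U ^ r) ^ 2 * U) := by
        have := hgU (d * m + r)
        have := (hg0 (d * m + r)).le
        gcongr
    _ = p * |F.leadingCoeff| ^ 2 * (U ^ (d - 1) * (U ^ r) ^ 2 * U) := by ring
    _ ≤ p * |F.leadingCoeff| ^ 2 * U ^ (3 * d) := by gcongr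
    _ ≤ (δ ^ d * c0 / (|F.leadingCoeff| * U ^ (3 * d))) * |F.leadingCoeff| ^ 2 * U ^ (3 * d) := by gcongr
    _ = (|F.leadingCoeff| * δ ^ d) * c0 := by field_simp
    _ ≤ _ := by
      have : 0 < |F.leadingCoeff| * δ ^ d := by positivity
      have h6 : 0 ≤ gg P m (F.eval z) := by linarith
      gcongr

theorem stayPath (S : HS a b F d L P Cr E δ) {U p : ℝ} (hp0 : 0 < p)
    (hp : ∀ z ∈ E, dup a b z ≤ U → ∀ r < d, ∀ m, S.toGS.Pr m r z z p) (K : ℕ) :
    ∀ n : ℕ, ∀ z ∈ E, (∀ k < K, dup a b ((fun x => F.eval x)^[k] z) ≤ U) →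
      S.toGS.Pth K n z (p ^ K) ((fun x => F.eval x)^[K] z) := by
  have hd := S.hd
  induction K with
  | zero => intro n z hz _; exact ⟨rfl, by simp⟩
  | succ K ih =>
    intro n z hz hU
    have h1 := ih (n / d) (F.eval z) (S.inv.map z hz) (fun k hk => hU (k + 1) (by omega))
    refine ⟨z, p, p ^ K, hp z hz (hU 0 (by omega)) _ (Nat.mod_lt _ (by omega)) _, hp0.le,
      by positivity, h1, by positivity, ?_⟩
    rw [pow_succ']

theorem jump (S : HS a b F d L P Cr E δ) :
    ∃ p > 0, p ≤ 1 ∧ ∀ z ∈ E, ∀ r < d, 1 ≤ r → ∀ m, ∃ y ∈ Cr, S.toGS.Pr m r z y p := by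
  have hd := S.hd
  have hl : 0 < |F.leadingCoeff| := abs_pos.mpr S.toGS.lc
  have hδ := S.dpos
  have hR := S.R0_one
  set M := ∑ y ∈ Cr, dup a b (F.eval y) / (δ * |Dn Cr y|) with hM
  have hMnn : 0 ≤ M := sum_nonneg fun y hy => by
    have := S.toGS.up_pos (S.toGS.out_Cr hy)
    positivity
  set s := |F.leadingCoeff| * δ / (R0 a b δ) ^ (d - 1) with hs
  have hs0 : 0 < s := by positivity
  have hd1 : (1:ℝ) ≤ ((d - 1 : ℕ) : ℝ) := by
    have : 1 ≤ d - 1 := by omega
    exact_mod_cast this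
  refine ⟨(s / (s + M)) / ((d - 1 : ℕ) : ℝ), by positivity, ?_, ?_⟩
  · have h1 : s / (s + M) ≤ 1 := by rw [div_le_one (by positivity)]; linarith
    rw [div_le_one (by linarith)]
    linarith
  intro z hz r hr hr1 m
  have hout := S.inv.out z hz
  apply S.toGS.pr_jump hr hr1 hout
  rw [sum_insert (S.toGS.z_notMem hout)]
  have hup := S.toGS.up_pos hout
  have hlo : 0 < dlo a b z := lt_of_lt_of_le hδ (S.sep z hz)
  have h1 : ∑ y ∈ Cr, GS.om F P Cr m z y ≤ M := by
    rw [hM]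
    apply sum_le_sum
    intro y hy
    have hD : 0 < |Dn Cr y| := abs_pos.mpr Dn_ne
    rw [GS.om_def, Dn_insert (S.toGS.z_notMem hout) hy, abs_mul]
    have h2 := (S.toGS.cr_dist hout hy).1
    have h3 := S.toGS.gg_up (S.toGS.out_Cr hy) m
    have h4 := S.sep z hz
    have := S.toGS.up_pos (S.toGS.out_Cr hy)
    gcongr
    linarith
  have h2 : s ≤ GS.om F P Cr m z z := by
    have hD : |Dn (insert z Cr) z| = |(chi F d).eval z| := by
      rw [Dn_insert_self (S.toGS.z_notMem hout), S.toGS.chi_eval]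
    rw [GS.om_def, hD]
    have hχ : 0 < |(chi F d).eval z| := abs_pos.mpr (S.toGS.chi_ne hout)
    rw [le_div_iff₀ hχ]
    have h3 := S.toGS.chi_le hout
    have h4 := S.lowF z hout
    have h5 := S.toGS.gg_lo (S.toGS.out_F hout) m
    have h6 := S.up_le hz
    have h7 : (dup a b z) ^ (d - 1) ≤ (R0 a b δ) ^ (d - 1) * (dlo a b z) ^ (d - 1) := by
      rw [← mul_pow]; gcongr
    calc s * |eval z (chi F d)| ≤ s * ((R0 a b δ) ^ (d - 1) * (dlo a b z) ^ (d - 1)) := by
          gcongr; linarith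
      _ = |F.leadingCoeff| * (δ * (dlo a b z) ^ (d - 1)) := by rw [hs]; field_simp
      _ ≤ |F.leadingCoeff| * (dlo a b z * (dlo a b z) ^ (d - 1)) := by
          have := S.sep z hz
          gcongr
      _ = |F.leadingCoeff| * (dlo a b z) ^ d := by
          rw [← pow_succ']; congr 2; omega
      _ ≤ _ := by linarith
  have h3 : s / (s + M) * (GS.om F P Cr m z z + ∑ y ∈ Cr, GS.om F P Cr m z y)
      ≤ s / (s + M) * (GS.om F P Cr m z z + M) := by gcongr
  refine h3.trans ?_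
  rw [div_mul_eq_mul_div, div_le_iff₀ (by positivity)]
  nlinarith

theorem paths (S : HS a b F d L P Cr E δ) {Z : ℝ} :
    ∃ K0 : ℕ, ∃ π > 0, π ≤ 1 ∧ ∀ n n', n ≡ n' [MOD d ^ K0] → ∃ K ≤ K0,
      (∀ z ∈ E, ∃ w ∈ E, S.toGS.Pth K n z π w ∧ Z ≤ dlo a b w) ∧
      (∀ z ∈ E, ∃ w ∈ E, S.toGS.Pth K n' z π w ∧ Z ≤ dlo a b w) := by
  have hd := S.hd
  obtain ⟨T, hT⟩ := S.esc Z
  obtain ⟨p1, hp1, hp11, hjump⟩ := S.jump
  -- bound on energies
  obtain ⟨U, hU1, hU⟩ : ∃ U ≥ 1, ∀ c ∈ Cr, ∀ k < T, dup a b ((fun x => F.eval x)^[k] (F.eval c)) ≤ U := by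
    refine ⟨1 + ∑ c ∈ Cr, ∑ k ∈ range T, dup a b ((fun x => F.eval x)^[k] (F.eval c)), ?_, ?_⟩
    · have : 0 ≤ ∑ c ∈ Cr, ∑ k ∈ range T, dup a b ((fun x => F.eval x)^[k] (F.eval c)) :=
        sum_nonneg fun c hc => sum_nonneg fun k _ =>
          (S.toGS.up_pos (S.inv.out _ (S.iter_mem (S.inv.cr c hc) k))).le
      linarith
    · intro c hc k hk
      have hpos : ∀ c ∈ Cr, ∀ k, 0 ≤ dup a b ((fun x => F.eval x)^[k] (F.eval c)) := fun c hc k =>
        (S.toGS.up_pos (S.inv.out _ (S.iter_mem (S.inv.cr c hc) k))).le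
      have h1 : dup a b ((fun x => F.eval x)^[k] (F.eval c))
          ≤ ∑ k ∈ range T, dup a b ((fun x => F.eval x)^[k] (F.eval c)) :=
        single_le_sum (f := fun k => dup a b ((fun x => F.eval x)^[k] (F.eval c)))
          (fun k _ => hpos c hc k) (mem_range.mpr hk)
      have h2 : ∑ k ∈ range T, dup a b ((fun x => F.eval x)^[k] (F.eval c))
          ≤ ∑ c ∈ Cr, ∑ k ∈ range T, dup a b ((fun x => F.eval x)^[k] (F.eval c)) :=
        single_le_sum (f := fun c => ∑ k ∈ range T, dup a b ((fun x => F.eval x)^[k] (F.eval c)))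
          (fun c hc => sum_nonneg fun k _ => hpos c hc k) hc
      linarith
  obtain ⟨p2, hp2, hp21, hstay⟩ := S.stay_any hU1
  have h0 := S.th0_pos
  have h01 := S.th0_le
  set π := (th0 a b δ d) ^ T * (p1 * p2 ^ T) with hπ
  have hπ0 : 0 < π := by positivity
  have hq1 : p1 * p2 ^ T ≤ 1 := by
    have : p2 ^ T ≤ 1 := pow_le_one₀ hp2.le hp21
    nlinarith [pow_pos hp2 T]
  have hπ1 : π ≤ 1 := by
    have : (th0 a b δ d) ^ T ≤ 1 := pow_le_one₀ h0.le h01
    have h2 : 0 < p1 * p2 ^ T := by positivity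
    have h3 : 0 < (th0 a b δ d) ^ T := by positivity
    nlinarith
  have key : ∀ n : ℕ, ∀ j ≤ T, (∀ k < j, n / d ^ k % d = 0) → (j = T ∨ n / d ^ j % d ≠ 0) →
      ∀ z ∈ E, ∃ w ∈ E, S.toGS.Pth (if j = T then T else j + 1 + T) n z π w ∧ Z ≤ dlo a b w := by
    intro n j hj hdig hor z hz
    have hst := S.stay0Path j n hdig z hz
    by_cases hjT : j = T
    · rw [if_pos hjT]
      subst hjT
      refine ⟨_, S.iter_mem hz j, S.toGS.Pth_mono hst hπ0.le ?_, hT z hz j le_rfl⟩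
      rw [hπ]
      have : 0 < (th0 a b δ d) ^ j := by positivity
      nlinarith
    · rw [if_neg hjT]
      have hr : n / d ^ j % d ≠ 0 := by tauto
      have hzj := S.iter_mem hz j
      obtain ⟨y, hy, hpy⟩ := hjump _ hzj (n / d ^ j % d) (Nat.mod_lt _ (by omega)) (by omega) (n / d ^ j / d)
      have h3 := S.stayPath hp2 hstay T (n / d ^ j / d) (F.eval y) (S.inv.cr y hy) (hU y hy)
      have h4 : S.toGS.Pth (1 + T) (n / d ^ j) ((fun x => F.eval x)^[j] z) (p1 * p2 ^ T)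
          ((fun x => F.eval x)^[T] (F.eval y)) := by
        rw [add_comm]
        exact ⟨y, p1, p2 ^ T, hpy, hp1.le, by positivity, h3, by positivity, le_rfl⟩
      have h5 := S.toGS.Pth_concat j hst h4
      rw [← add_assoc] at h5
      refine ⟨_, S.iter_mem (S.inv.cr y hy) T, S.toGS.Pth_mono h5 hπ0.le ?_, hT _ (S.inv.cr y hy) T le_rfl⟩
      rw [hπ]
      have : (th0 a b δ d) ^ T ≤ (th0 a b δ d) ^ j := pow_le_pow_of_le_one h0.le h01 hj
      gcongr
  refine ⟨2 * T + 1, π, hπ0, hπ1, ?_⟩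
  intro n n' hmod
  have hdig := GS.dig_eq hd _ n n' hmod
  obtain ⟨j, hj, hj1, hj2⟩ : ∃ j ≤ T, (∀ k < j, n / d ^ k % d = 0) ∧ (j = T ∨ n / d ^ j % d ≠ 0) := by
    by_cases hall : ∀ k < T, n / d ^ k % d = 0
    · exact ⟨T, le_rfl, hall, Or.inl rfl⟩
    · push Not at hall
      have hex : ∃ k, n / d ^ k % d ≠ 0 ∧ k < T := by
        obtain ⟨k, hk, hk'⟩ := hall
        exact ⟨k, hk', hk⟩
      classical
      refine ⟨Nat.find hex, (Nat.find_spec hex).2.le, ?_, Or.inr (Nat.find_spec hex).1⟩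
      intro k hk
      by_contra hne
      exact Nat.find_min hex hk ⟨hne, hk.trans (Nat.find_spec hex).2⟩
  refine ⟨if j = T then T else j + 1 + T, ?_, ?_, ?_⟩
  · split_ifs with h
    · omega
    · omega
  · exact key n j hj hj1 hj2
  · apply key n' j hj
    · intro k hk
      rw [← hdig k (by omega)]
      exact hj1 k hk
    · rcases hj2 with h | h
      · exact Or.inl h
      · right
        rw [← hdig j (by omega)]
        exact h

theorem HH_mono {N : ℕ} {x y : ℝ} (S : HS a b F d L P Cr E δ) (h : GS.HH P d E N x) (hxy : x ≤ y) :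
    GS.HH P d E N y := by
  intro n n' hm z hz z' hz'
  refine (h n n' hm z hz z' hz').trans ?_
  have h1 := S.toGS.gg_pos (S.inv.out z hz) n'
  have h2 := S.toGS.gg_pos (S.inv.out z' hz') n
  gcongr

theorem HH_one (S : HS a b F d L P Cr E δ) {ε : ℝ} (hε : 0 < ε) : ∃ N, GS.HH P d E N (1 + ε) := by
  have hd := S.hd
  have hR := S.R0_one
  have hδ := S.dpos
  have hab := S.toGS.a_lt
  have hB0 : ∀ n n', ∀ w ∈ E, gg P n w ≤ R0 a b δ * gg P n' w := by
    intro n n' w hw
    exact S.cmp hw n n' hδ (S.sep w hw)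
  set X0 := (R0 a b δ) ^ 2 with hX0
  have hX1 : 1 ≤ X0 := one_le_pow₀ hR
  have hbase : GS.HH P d E 0 X0 := by
    intro n n' _ z hz z' hz'
    have h1 := hB0 n n' z hz
    have h2 := hB0 n' n z' hz'
    have h3 := S.toGS.gg_pos (S.inv.out z hz) n
    have h4 := S.toGS.gg_pos (S.inv.out z' hz') n'
    have h5 := S.toGS.gg_pos (S.inv.out z hz) n'
    calc gg P n z * gg P n' z' ≤ (R0 a b δ * gg P n' z) * (R0 a b δ * gg P n z') :=
          mul_le_mul h1 h2 h4.le (by positivity)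
      _ = _ := by rw [hX0]; ring
  have farZ : ∀ η > 0, ∀ n n', ∀ w ∈ E, (b - a) / η ≤ dlo a b w → gg P n w ≤ (1 + η) * gg P n' w := by
    intro η hη n n' w hw h
    have h1 := S.cmp hw n n' (Z := (b - a) / η) (div_pos (by linarith) hη) h
    have e : (b - a) / ((b - a) / η) = η := by
      have : b - a ≠ 0 := by linarith
      field_simp
    rw [e] at h1
    exact h1
  have far : ∀ η > 0, ∃ Z : ℝ, ∀ n n', ∀ w ∈ E, Z ≤ |w| → gg P n w ≤ (1 + η) * gg P n' w := by
    intro η hη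
    refine ⟨(b - a) / η + (|a| + |b|), ?_⟩
    intro n n' w hw h
    apply farZ η hη n n' w hw
    have := lo_abs a b w
    linarith
  have unb : ∀ Z : ℝ, ∃ w ∈ E, Z ≤ |w| := by
    intro Z
    obtain ⟨T, hT⟩ := S.esc (|Z| + |a| + |b|)
    obtain ⟨z, hz⟩ := S.ne
    refine ⟨_, S.iter_mem hz T, ?_⟩
    have h1 := hT z hz T le_rfl
    set w := (fun x => F.eval x)^[T] z
    have h2 : dlo a b w ≤ |w| + |a| + |b| := by
      unfold dlo
      apply max_le
      · have := le_abs_self w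
        have := neg_abs_le b
        have := abs_nonneg a
        linarith
      · have := neg_abs_le w
        have := le_abs_self a
        have := abs_nonneg b
        linarith
    have := le_abs_self Z
    linarith
  -- choose eta
  set η := min 1 (ε / (2 * (4 + X0))) with hη
  have hη0 : 0 < η := lt_min one_pos (by positivity)
  have hη1 : η ≤ 1 := min_le_left _ _
  have hη2 : η * (4 + X0) ≤ ε / 2 := by
    have : η ≤ ε / (2 * (4 + X0)) := min_le_right _ _
    calc η * (4 + X0) ≤ ε / (2 * (4 + X0)) * (4 + X0) := by gcongr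
      _ = ε / 2 := by field_simp
  obtain ⟨K0, π, hπ0, hπ1, hpaths⟩ := S.paths (Z := (b - a) / η)
  have step : ∀ N x, 1 ≤ x → x ≤ X0 → GS.HH P d E N x →
      GS.HH P d E (N + K0) ((1 - π) * x + π * (1 + η * (4 + x))) := by
    intro N x hx1 hx2 hx
    apply S.toGS.contract S.inv S.ne far unb hB0 hx hπ0.le hπ1 hη0 hη1
    intro n n' hmod
    obtain ⟨K, hK, h1, h2⟩ := hpaths n n' hmod
    refine ⟨K, hK, ?_, ?_⟩
    · intro z hz
      obtain ⟨w, hw, h3, h4⟩ := h1 z hz
      exact ⟨w, hw, h3, fun m m' => farZ η hη0 m m' w hw h4⟩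
    · intro z hz
      obtain ⟨w, hw, h3, h4⟩ := h2 z hz
      exact ⟨w, hw, h3, fun m m' => farZ η hη0 m m' w hw h4⟩
  have iter : ∀ k : ℕ, ∃ N, GS.HH P d E N (max (1 + ε) (X0 - k * (π * ε / 2))) := by
    intro k
    induction k with
    | zero =>
      refine ⟨0, S.HH_mono hbase ?_⟩
      simp
    | succ k ih =>
      obtain ⟨N, hN⟩ := ih
      set x := max (1 + ε) (X0 - k * (π * ε / 2)) with hx
      by_cases hle : x ≤ 1 + ε
      · exact ⟨N, S.HH_mono hN (hle.trans (le_max_left _ _))⟩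
      · push Not at hle
        have hxe : x = X0 - k * (π * ε / 2) := by
          rcases max_choice (1 + ε) (X0 - k * (π * ε / 2)) with h | h
          · rw [← hx] at h; linarith
          · rw [← hx] at h; exact h
        have hxX : x ≤ X0 := by
          rw [hxe]
          have : 0 ≤ (k:ℝ) * (π * ε / 2) := by positivity
          linarith
        refine ⟨N + K0, S.HH_mono (step N x (by linarith) hxX hN) ?_⟩
        refine le_trans ?_ (le_max_right _ _)
        push_cast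
        have h1 : η * (4 + x) ≤ ε / 2 := by
          refine le_trans ?_ hη2
          gcongr
        have h2 : (1 - π) * x + π * (1 + η * (4 + x)) ≤ (1 - π) * x + π * (1 + ε / 2) := by gcongr
        refine h2.trans ?_
        have h3 : π * (1 + ε) ≤ π * x := by gcongr
        rw [hxe] at h3 ⊢
        linarith
  obtain ⟨k, hk⟩ := exists_nat_ge ((X0 - 1) / (π * ε / 2))
  obtain ⟨N, hN⟩ := iter k
  refine ⟨N, S.HH_mono hN ?_⟩
  apply max_le le_rfl
  rw [div_le_iff₀ (by positivity)] at hk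
  linarith

/-- uniform comparison along arithmetic progressions -/
theorem cmp_gg (S : HS a b F d L P Cr E δ) {ε : ℝ} (hε : 0 < ε) :
    ∃ N : ℕ, ∀ n n', n ≡ n' [MOD d ^ N] → ∀ z ∈ E, gg P n z ≤ (1 + ε) * gg P n' z := by
  have hab := S.toGS.a_lt
  obtain ⟨N, hN⟩ := S.HH_one (ε := min 1 (ε / 3)) (lt_min one_pos (by positivity))
  refine ⟨N, ?_⟩
  intro n n' hmod z hz
  set e := min 1 (ε / 3) with he
  have he0 : 0 < e := lt_min one_pos (by positivity)
  have he1 : e ≤ 1 := min_le_left _ _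
  have he2 : e ≤ ε / 3 := min_le_right _ _
  obtain ⟨T, hT⟩ := S.esc ((b - a) / e)
  obtain ⟨w0, hw0⟩ := S.ne
  have hw := S.iter_mem hw0 T
  set w := (fun x => F.eval x)^[T] w0
  have h1 := hN n n' hmod z hz w hw
  have h2 : gg P n w ≤ (1 + e) * gg P n' w := by
    have h3 := S.cmp hw n n' (Z := (b - a) / e) (div_pos (by linarith) he0) (hT w0 hw0 T le_rfl)
    have e' : (b - a) / ((b - a) / e) = e := by
      have : b - a ≠ 0 := by linarith
      field_simp
    rw [e'] at h3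
    exact h3
  have h3 := S.toGS.gg_pos (S.inv.out z hz) n'
  have h4 := S.toGS.gg_pos (S.inv.out w hw) n'
  have h5 : gg P n z * gg P n' w ≤ ((1 + e) * (1 + e) * gg P n' z) * gg P n' w := by
    calc gg P n z * gg P n' w ≤ (1 + e) * (gg P n' z * gg P n w) := h1
      _ ≤ (1 + e) * (gg P n' z * ((1 + e) * gg P n' w)) := by gcongr
      _ = _ := by ring
  have h6 := le_of_mul_le_mul_right h5 h4
  refine h6.trans ?_
  have : (1 + e) * (1 + e) ≤ 1 + ε := by nlinarith
  gcongr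

end HS

end Pool.Agent.Helper566.J
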