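import Mathlib
import Pool.Agent.Helper566.JHyp

set_option autoImplicit false
set_option linter.unusedVariables false

open Polynomial Finset

namespace Pool.Agent.Helper566.J

/-- product of linear factors -/
noncomputable def lp (s : Multiset ℝ) : ℝ[X] := (s.map (fun x => X - C x)).prod

theorem lp_cons (x : ℝ) (s : Multiset ℝ) : lp (x ::ₘ s) = (X - C x) * lp s := by
  unfold lp; rw [Multiset.map_cons, Multiset.prod_cons]

theorem lp_zero : lp 0 = 1 := by unfold lp; simp

theorem lp_eval (s : Multiset ℝ) (z : ℝ) : (lp s).eval z = (s.map (fun x => z - x)).prod := by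
  unfold lp
  rw [eval_multiset_prod, Multiset.map_map]
  simp

theorem lp_natDegree (s : Multiset ℝ) : (lp s).natDegree = s.card := by
  unfold lp
  exact natDegree_multiset_prod_X_sub_C_eq_card s

theorem lp_monic (s : Multiset ℝ) : (lp s).Monic := by
  unfold lp
  exact monic_multiset_prod_of_monic _ _ fun x _ => monic_X_sub_C x

/-- Laguerre expression -/
theorem Lg_nonneg (s : Multiset ℝ) (c : ℝ) :
    0 ≤ ((lp s).derivative.eval c) ^ 2 - (lp s).eval c * (lp s).derivative.derivative.eval c := by
  induction s using Multiset.induction_on with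
  | empty => simp [lp_zero]
  | cons x s ih =>
    rw [lp_cons]
    simp only [derivative_mul, derivative_sub, derivative_X, derivative_C, sub_zero, one_mul,
      derivative_add, eval_add, eval_mul, eval_sub, eval_X, eval_C]
    have e : (eval c (lp s) + (c - x) * eval c (derivative (lp s))) ^ 2 -
      (c - x) * eval c (lp s) * (eval c (derivative (lp s)) + (eval c (derivative (lp s)) +
        (c - x) * eval c (derivative (derivative (lp s)))))
      = (eval c (lp s)) ^ 2 + (c - x) ^ 2 * ((eval c (derivative (lp s))) ^ 2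
        - eval c (lp s) * eval c (derivative (derivative (lp s)))) := by ring
    rw [e]
    positivity

theorem Lg_pos (s : Multiset ℝ) (hs : s ≠ 0) (c : ℝ) (hc : (lp s).eval c ≠ 0) :
    0 < ((lp s).derivative.eval c) ^ 2 - (lp s).eval c * (lp s).derivative.derivative.eval c := by
  obtain ⟨x, hx⟩ := Multiset.exists_mem_of_ne_zero hs
  obtain ⟨t, rfl⟩ := Multiset.exists_cons_of_mem hx
  rw [lp_cons] at hc ⊢
  have h0 : eval c (lp t) ≠ 0 := by
    intro h; apply hc; rw [eval_mul, h, mul_zero]
  simp only [derivative_mul, derivative_sub, derivative_X, derivative_C, sub_zero, one_mul,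
    derivative_add, eval_add, eval_mul, eval_sub, eval_X, eval_C]
  have e : (eval c (lp t) + (c - x) * eval c (derivative (lp t))) ^ 2 -
      (c - x) * eval c (lp t) * (eval c (derivative (lp t)) + (eval c (derivative (lp t)) +
        (c - x) * eval c (derivative (derivative (lp t)))))
      = (eval c (lp t)) ^ 2 + (c - x) ^ 2 * ((eval c (derivative (lp t))) ^ 2
        - eval c (lp t) * eval c (derivative (derivative (lp t)))) := by ring
  rw [e]
  have := Lg_nonneg t c
  have h1 : 0 < (eval c (lp t)) ^ 2 := by positivity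
  have h2 : 0 ≤ (c - x) ^ 2 * ((eval c (derivative (lp t))) ^ 2
        - eval c (lp t) * eval c (derivative (derivative (lp t)))) := mul_nonneg (sq_nonneg _) this
  linarith

/-- logarithmic derivative -/
theorem lp_log (s : Multiset ℝ) (c : ℝ) (hc : (lp s).eval c ≠ 0) :
    (lp s).derivative.eval c = (lp s).eval c * (s.map (fun x => 1 / (c - x))).sum := by
  induction s using Multiset.induction_on with
  | empty => simp [lp_zero]
  | cons x s ih =>
    rw [lp_cons] at hc ⊢
    rw [eval_mul, eval_sub, eval_X, eval_C] at hc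
    have h0 : eval c (lp s) ≠ 0 := right_ne_zero_of_mul hc
    have h1 : c - x ≠ 0 := left_ne_zero_of_mul hc
    rw [Multiset.map_cons, Multiset.sum_cons]
    simp only [derivative_mul, derivative_sub, derivative_X, derivative_C, sub_zero, one_mul,
      eval_add, eval_mul, eval_sub, eval_X, eval_C]
    rw [ih h0]
    field_simp

/-- real dynamics on the line -/
structure RD (a b : ℝ) (F : ℝ[X]) (d : ℕ) (K : Set ℝ) : Prop where
  hF : F.natDegree = d
  hd : 2 ≤ d
  cpt : IsCompact K
  inf : K.Infinite
  ha : a ∈ K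
  hb : b ∈ K
  sub : ∀ x ∈ K, a ≤ x ∧ x ≤ b
  inv : ∀ x, F.eval x ∈ K ↔ x ∈ K
  split : ∀ t ∈ K, ∃ s : Multiset ℝ, F - C t = C F.leadingCoeff * lp s
  esc : ∀ x, x ∉ K → ∀ Z : ℝ, ∃ T, ∀ k, T ≤ k → Z ≤ |(fun y => F.eval y)^[k] x|

namespace RD

variable {a b : ℝ} {F : ℝ[X]} {d : ℕ} {K : Set ℝ}

theorem ab (S : RD a b F d K) : a < b := by
  by_contra h
  push Not at h
  apply S.inf
  apply (Set.finite_singleton a).subset
  intro x hx
  have := S.sub x hx
  rw [Set.mem_singleton_iff]
  linarith [(S.sub b S.hb).1]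

theorem lc (S : RD a b F d K) : F.leadingCoeff ≠ 0 := lc_ne S.hF S.hd

theorem card_s (S : RD a b F d K) {t : ℝ} {s : Multiset ℝ} (h : F - C t = C F.leadingCoeff * lp s) :
    s.card = d := by
  have h1 : (F - C t).natDegree = d := by rw [natDegree_sub_C, S.hF]
  rw [h, natDegree_C_mul S.lc, lp_natDegree] at h1
  exact h1

theorem eval_s (S : RD a b F d K) {t : ℝ} {s : Multiset ℝ} (h : F - C t = C F.leadingCoeff * lp s) (z : ℝ) :
    F.eval z - t = F.leadingCoeff * (s.map (fun x => z - x)).prod := by
  have := congrArg (eval z) h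
  rw [eval_sub, eval_C, eval_mul, eval_C, lp_eval] at this
  exact this

theorem mem_s (S : RD a b F d K) {t : ℝ} (ht : t ∈ K) {s : Multiset ℝ}
    (h : F - C t = C F.leadingCoeff * lp s) {x : ℝ} (hx : x ∈ s) : F.eval x = t ∧ x ∈ K := by
  have h1 := S.eval_s h x
  have h2 : (s.map (fun y => x - y)).prod = 0 := by
    apply Multiset.prod_eq_zero
    rw [Multiset.mem_map]
    exact ⟨x, hx, sub_self x⟩
  rw [h2, mul_zero, sub_eq_zero] at h1
  refine ⟨h1, ?_⟩
  rw [← S.inv, h1]
  exact ht

theorem der_s (S : RD a b F d K) {t : ℝ} {s : Multiset ℝ} (h : F - C t = C F.leadingCoeff * lp s) :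
    derivative F = C F.leadingCoeff * derivative (lp s) := by
  have := congrArg derivative h
  rw [derivative_sub, derivative_C, sub_zero, derivative_C_mul] at this
  exact this

theorem s_ne (S : RD a b F d K) {t : ℝ} {s : Multiset ℝ} (h : F - C t = C F.leadingCoeff * lp s) :
    s ≠ 0 := by
  have h1 := S.card_s h
  have h2 := S.hd
  rintro rfl
  simp at h1
  omega

/-- Laguerre inequality at a critical point -/
theorem lag_crit (S : RD a b F d K) {t : ℝ} (ht : t ∈ K) {c : ℝ} (hc : (derivative F).eval c = 0)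
    (hne : F.eval c ≠ t) : (F.eval c - t) * (derivative (derivative F)).eval c < 0 := by
  obtain ⟨s, hs⟩ := S.split t ht
  have hl := S.lc
  have h1 := S.der_s hs
  have h2 : derivative (derivative F) = C F.leadingCoeff * derivative (derivative (lp s)) := by
    rw [h1, derivative_C_mul]
  have h3 : (lp s).eval c ≠ 0 := by
    intro h0
    have := congrArg (eval c) hs
    rw [eval_sub, eval_C, eval_mul, h0, mul_zero] at this
    exact hne (sub_eq_zero.mp this)
  have h4 := Lg_pos s (S.s_ne hs) c h3
  have h5 : (derivative (lp s)).eval c = 0 := by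
    have := congrArg (eval c) h1
    rw [hc, eval_mul, eval_C] at this
    rcases mul_eq_zero.mp this.symm with h | h
    · exact absurd h hl
    · exact h
  rw [h5] at h4
  have h6 : F.eval c - t = F.leadingCoeff * (lp s).eval c := by
    have := congrArg (eval c) hs
    rwa [eval_sub, eval_C, eval_mul, eval_C] at this
  have h7 : (derivative (derivative F)).eval c = F.leadingCoeff * (derivative (derivative (lp s))).eval c := by
    rw [h2, eval_mul, eval_C]
  rw [h6, h7]
  have h8 : 0 < F.leadingCoeff * F.leadingCoeff := mul_self_pos.mpr hl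
  have e : F.leadingCoeff * eval c (lp s) * (F.leadingCoeff * eval c (derivative (derivative (lp s))))
      = (F.leadingCoeff * F.leadingCoeff) * (eval c (lp s) * eval c (derivative (derivative (lp s)))) := by ring
  rw [e]
  apply mul_neg_of_pos_of_neg h8
  linarith

theorem crit_dich (S : RD a b F d K) {c : ℝ} (hc : (derivative F).eval c = 0) :
    (b ≤ F.eval c ∧ (derivative (derivative F)).eval c < 0) ∨
    (F.eval c ≤ a ∧ 0 < (derivative (derivative F)).eval c) := by
  have hab := S.ab
  rcases lt_or_ge (F.eval c) b with h | h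
  · right
    have h1 := S.lag_crit S.hb hc h.ne
    have h2 : 0 < (derivative (derivative F)).eval c := by
      by_contra hcon
      push Not at hcon
      have := mul_nonneg_of_nonpos_of_nonpos (show F.eval c - b ≤ 0 by linarith) hcon
      linarith
    refine ⟨?_, h2⟩
    by_contra hcon
    push Not at hcon
    have h3 := S.lag_crit S.ha hc hcon.ne'
    have := mul_pos (show 0 < F.eval c - a by linarith) h2
    linarith
  · left
    refine ⟨h, ?_⟩
    have h1 := S.lag_crit S.ha hc (by intro h0; linarith)
    by_contra hcon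
    push Not at hcon
    have := mul_nonneg (show 0 ≤ F.eval c - a by linarith) hcon
    linarith

/-- critical points -/
noncomputable def Cp (F : ℝ[X]) : Finset ℝ := (derivative F).roots.toFinset

theorem der_ne (S : RD a b F d K) : derivative F ≠ 0 := by
  intro h
  have h1 := chi_monic S.hF S.hd
  unfold chi at h1
  rw [h, mul_zero] at h1
  exact absurd h1 (by simp [Monic])

theorem nodup_crit (S : RD a b F d K) : (derivative F).roots.Nodup := by
  rw [Multiset.nodup_iff_count_le_one]
  intro c
  rw [count_roots]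
  by_contra hcon
  push Not at hcon
  obtain ⟨h1, h2⟩ := (one_lt_rootMultiplicity_iff_isRoot S.der_ne).mp hcon
  rcases S.crit_dich h1 with h | h
  · have := h.2
    rw [h2.eq_zero] at this
    exact lt_irrefl _ this
  · have := h.2
    rw [h2.eq_zero] at this
    exact lt_irrefl _ this

theorem mem_Cp (S : RD a b F d K) {c : ℝ} : c ∈ Cp F ↔ (derivative F).eval c = 0 := by
  unfold Cp
  rw [Multiset.mem_toFinset, mem_roots S.der_ne]
  rfl

theorem der_deg (S : RD a b F d K) : (derivative F).natDegree = d - 1 := by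
  have hd := S.hd
  have h := chi_deg S.hF hd
  unfold chi at h
  rwa [natDegree_C_mul] at h
  have : (d : ℝ) ≠ 0 := by positivity
  exact inv_ne_zero (mul_ne_zero this S.lc)

theorem card_roots_der (S : RD a b F d K) : (derivative F).roots.card = (derivative F).natDegree := by
  apply le_antisymm (card_roots' _)
  rw [S.der_deg]
  obtain ⟨s, hs⟩ := S.split a S.ha
  have h1 := card_roots_le_derivative (F - C a)
  rw [derivative_sub, derivative_C, sub_zero] at h1
  have h2 : (F - C a).roots = s := by
    rw [hs, roots_C_mul _ S.lc]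
    unfold lp
    exact roots_multiset_prod_X_sub_C s
  rw [h2, S.card_s hs] at h1
  omega

theorem chi_prod (S : RD a b F d K) : chi F d = ∏ c ∈ Cp F, (X - C c) := by
  have hd := S.hd
  have h1 := C_leadingCoeff_mul_prod_multiset_X_sub_C S.card_roots_der
  have h2 : ∏ c ∈ Cp F, (X - C c) = (Multiset.map (fun x => X - C x) (derivative F).roots).prod := by
    unfold Cp
    show (Multiset.map _ ((derivative F).roots.toFinset).val).prod = _
    rw [Multiset.toFinset_val, S.nodup_crit.dedup]
  rw [h2]
  unfold chi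
  have h3 : (derivative F).leadingCoeff = d * F.leadingCoeff := by
    rw [leadingCoeff, S.der_deg, coeff_derivative, show d - 1 + 1 = d by omega]
    have h1 : F.coeff d = F.leadingCoeff := by rw [leadingCoeff, S.hF]
    have h2 : ((d - 1 : ℕ) : ℝ) + 1 = d := by
      have : ((d - 1 + 1 : ℕ) : ℝ) = d := by congr 1; omega
      push_cast at this; exact this
    rw [h1, h2]; ring
  have hne : (d : ℝ) * F.leadingCoeff ≠ 0 := by
    have : (d : ℝ) ≠ 0 := by positivity
    exact mul_ne_zero this S.lc
  conv_lhs => rw [← h1]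
  rw [h3, ← mul_assoc, ← C_mul, inv_mul_cancel₀ hne, C_1, one_mul]

theorem der_eq (S : RD a b F d K) : derivative F = C ((d : ℝ) * F.leadingCoeff) * chi F d := by
  have hd := S.hd
  have hne : (d : ℝ) * F.leadingCoeff ≠ 0 := by
    have : (d : ℝ) ≠ 0 := by positivity
    exact mul_ne_zero this S.lc
  unfold chi
  rw [← mul_assoc, ← C_mul, mul_inv_cancel₀ hne, C_1, one_mul]

theorem der2 (S : RD a b F d K) {c : ℝ} (hc : c ∈ Cp F) :
    (derivative (derivative F)).eval c = (d : ℝ) * F.leadingCoeff * Dn (Cp F) c := by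
  rw [S.der_eq, derivative_C_mul, eval_mul, eval_C, S.chi_prod]
  have h := Lagrange.eval_nodal_derivative_eval_node_eq (s := Cp F) (v := (id : ℝ → ℝ)) hc
  have h1 : Lagrange.nodal (Cp F) (id : ℝ → ℝ) = ∏ c ∈ Cp F, (X - C c) := rfl
  rw [h1] at h
  simp only [id] at h
  rw [h, Lagrange.eval_nodal]
  unfold Dn
  rfl

theorem crit_in (S : RD a b F d K) {c : ℝ} (hc : (derivative F).eval c = 0) : a < c ∧ c < b := by
  have hab := S.ab
  have key : ∀ t ∈ K, F.eval c ≠ t → a < c ∧ c < b := by
    intro t ht hne
    obtain ⟨s, hs⟩ := S.split t ht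
    have h3 : (lp s).eval c ≠ 0 := by
      intro h0
      have := congrArg (eval c) hs
      rw [eval_sub, eval_C, eval_mul, h0, mul_zero] at this
      exact hne (sub_eq_zero.mp this)
    have h5 : (derivative (lp s)).eval c = 0 := by
      have := congrArg (eval c) (S.der_s hs)
      rw [hc, eval_mul, eval_C] at this
      rcases mul_eq_zero.mp this.symm with h | h
      · exact absurd h S.lc
      · exact h
    have h6 := lp_log s c h3
    rw [h5] at h6
    have h7 : (s.map (fun x => 1 / (c - x))).sum = 0 := by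
      rcases mul_eq_zero.mp h6.symm with h | h
      · exact absurd h h3
      · exact h
    have hcs : ∀ x ∈ s, c - x ≠ 0 := by
      intro x hx h0
      apply h3
      rw [lp_eval]
      apply Multiset.prod_eq_zero
      rw [Multiset.mem_map]
      exact ⟨x, hx, h0⟩
    obtain ⟨x0, hx0⟩ := Multiset.exists_mem_of_ne_zero (S.s_ne hs)
    constructor
    · by_contra hcon
      push Not at hcon
      have hneg : ∀ x ∈ s, 1 / (c - x) < 0 := by
        intro x hx
        have h8 := S.sub x (S.mem_s ht hs hx).2
        have h9 : c - x < 0 := lt_of_le_of_ne (by linarith) (hcs x hx)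
        exact one_div_neg.mpr h9
      have : (s.map (fun x => 1 / (c - x))).sum < 0 := by
        obtain ⟨t', rfl⟩ := Multiset.exists_cons_of_mem hx0
        rw [Multiset.map_cons, Multiset.sum_cons]
        have e1 := hneg x0 hx0
        have e2 : (t'.map (fun x => 1 / (c - x))).sum ≤ 0 := by
          have := Multiset.sum_le_card_nsmul (t'.map (fun x => 1 / (c - x))) 0 (by
            intro y hy
            rw [Multiset.mem_map] at hy
            obtain ⟨x, hx, rfl⟩ := hy
            exact (hneg x (Multiset.mem_cons_of_mem hx)).le)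
          simpa using this
        linarith
      linarith
    · by_contra hcon
      push Not at hcon
      have hpos : ∀ x ∈ s, 0 < 1 / (c - x) := by
        intro x hx
        have h8 := S.sub x (S.mem_s ht hs hx).2
        have h9 : 0 < c - x := lt_of_le_of_ne (by linarith) (hcs x hx).symm
        exact one_div_pos.mpr h9
      have : 0 < (s.map (fun x => 1 / (c - x))).sum := by
        obtain ⟨t', rfl⟩ := Multiset.exists_cons_of_mem hx0
        rw [Multiset.map_cons, Multiset.sum_cons]
        have e1 := hpos x0 hx0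
        have e2 : 0 ≤ (t'.map (fun x => 1 / (c - x))).sum := by
          apply Multiset.sum_nonneg
          intro y hy
          rw [Multiset.mem_map] at hy
          obtain ⟨x, hx, rfl⟩ := hy
          exact (hpos x (Multiset.mem_cons_of_mem hx)).le
        linarith
      linarith
  by_cases h : F.eval c = a
  · exact key b S.hb (by rw [h]; exact hab.ne)
  · exact key a S.ha h

theorem prod_nonneg_of {s : Multiset ℝ} {z : ℝ} (h : ∀ x ∈ s, 0 ≤ z - x) :
    0 ≤ (s.map (fun x => z - x)).prod := by
  apply Multiset.prod_nonneg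
  intro y hy
  rw [Multiset.mem_map] at hy
  obtain ⟨x, hx, rfl⟩ := hy
  exact h x hx

theorem prod_neg_of {s : Multiset ℝ} {z : ℝ} (h : ∀ x ∈ s, z - x ≤ 0) :
    0 ≤ (-1) ^ s.card * (s.map (fun x => z - x)).prod := by
  induction s using Multiset.induction_on with
  | empty => simp
  | cons x s ih =>
    rw [Multiset.card_cons, Multiset.map_cons, Multiset.prod_cons, pow_succ]
    have h1 := ih fun y hy => h y (Multiset.mem_cons_of_mem hy)
    have h2 := h x (Multiset.mem_cons_self x s)
    have e : (-1) ^ s.card * -1 * ((z - x) * (s.map (fun x => z - x)).prod)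
        = -(z - x) * ((-1) ^ s.card * (s.map (fun x => z - x)).prod) := by ring
    rw [e]
    exact mul_nonneg (by linarith) h1

theorem prod_abs_of {s : Multiset ℝ} {z r : ℝ} (hr : 0 ≤ r) (h : ∀ x ∈ s, r ≤ |z - x|) :
    r ^ s.card ≤ |(s.map (fun x => z - x)).prod| := by
  induction s using Multiset.induction_on with
  | empty => simp
  | cons x s ih =>
    rw [Multiset.card_cons, Multiset.map_cons, Multiset.prod_cons, pow_succ, abs_mul, mul_comm]
    have h1 := ih fun y hy => h y (Multiset.mem_cons_of_mem hy)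
    have h2 := h x (Multiset.mem_cons_self x s)
    have h3 : 0 ≤ r ^ s.card := by positivity
    exact mul_le_mul h2 h1 h3 (abs_nonneg _)

theorem chi_hi (S : RD a b F d K) {z : ℝ} (hz : b ≤ z) : 0 < (chi F d).eval z := by
  rw [S.chi_prod, eval_prod]
  apply Finset.prod_pos
  intro c hc
  rw [eval_sub, eval_X, eval_C]
  have := S.crit_in (S.mem_Cp.mp hc)
  linarith

theorem card_Cp (S : RD a b F d K) : (Cp F).card = d - 1 := by
  unfold Cp
  rw [Multiset.toFinset_card_of_nodup S.nodup_crit, S.card_roots_der, S.der_deg]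

theorem chi_lo (S : RD a b F d K) {z : ℝ} (hz : z ≤ a) : 0 < (-1) ^ (d - 1) * (chi F d).eval z := by
  rw [S.chi_prod, eval_prod, ← S.card_Cp, ← Finset.prod_const, ← Finset.prod_mul_distrib]
  apply Finset.prod_pos
  intro c hc
  rw [eval_sub, eval_X, eval_C]
  have := S.crit_in (S.mem_Cp.mp hc)
  linarith

theorem out_sg (S : RD a b F d K) (z : ℝ) (hz : Out a b z) :
    (b ≤ F.eval z ∧ 0 < F.leadingCoeff * sg b z * (chi F d).eval z) ∨
    (F.eval z ≤ a ∧ F.leadingCoeff * sg b z * (chi F d).eval z < 0) := by
  have hab := S.ab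
  have hd := S.hd
  obtain ⟨sa, hsa⟩ := S.split a S.ha
  obtain ⟨sb, hsb⟩ := S.split b S.hb
  have ea := S.eval_s hsa z
  have eb := S.eval_s hsb z
  rcases hz with hz | hz
  · have h1 := S.chi_hi hz
    have pa := prod_nonneg_of (s := sa) (z := z) (fun x hx => by
      have := (S.sub x (S.mem_s S.ha hsa hx).2).2; linarith)
    have pb := prod_nonneg_of (s := sb) (z := z) (fun x hx => by
      have := (S.sub x (S.mem_s S.hb hsb hx).2).2; linarith)
    have hsg : sg b z = 1 := by unfold sg; rw [if_pos hz]
    rw [hsg, mul_one]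
    rcases lt_or_gt_of_ne S.lc with hl | hl
    · right
      exact ⟨by have := mul_nonpos_of_nonpos_of_nonneg hl.le pa; linarith, mul_neg_of_neg_of_pos hl h1⟩
    · left
      exact ⟨by have := mul_nonneg hl.le pb; linarith, mul_pos hl h1⟩
  · have h1 := S.chi_lo hz
    have pa := prod_neg_of (s := sa) (z := z) (fun x hx => by
      have := (S.sub x (S.mem_s S.ha hsa hx).2).1; linarith)
    have pb := prod_neg_of (s := sb) (z := z) (fun x hx => by
      have := (S.sub x (S.mem_s S.hb hsb hx).2).1; linarith)
    rw [S.card_s hsa] at pa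
    rw [S.card_s hsb] at pb
    have hsg : sg b z = -1 := by unfold sg; rw [if_neg (by linarith)]
    rw [hsg]
    have hdp : ((-1 : ℝ)) ^ d = (-1) ^ (d - 1) * (-1) := by rw [← pow_succ]; congr 1; omega
    rcases Nat.even_or_odd (d - 1) with he | ho
    · rw [hdp, he.neg_one_pow] at pa pb
      rw [he.neg_one_pow] at h1
      rcases lt_or_gt_of_ne S.lc with hl | hl
      · left
        refine ⟨?_, ?_⟩
        · have : 0 ≤ F.leadingCoeff * (sb.map (fun x => z - x)).prod :=
            mul_nonneg_of_nonpos_of_nonpos hl.le (by linarith)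
          linarith
        · nlinarith
      · right
        refine ⟨?_, ?_⟩
        · have : F.leadingCoeff * (sa.map (fun x => z - x)).prod ≤ 0 :=
            mul_nonpos_of_nonneg_of_nonpos hl.le (by linarith)
          linarith
        · nlinarith
    · rw [hdp, ho.neg_one_pow] at pa pb
      rw [ho.neg_one_pow] at h1
      rcases lt_or_gt_of_ne S.lc with hl | hl
      · right
        refine ⟨?_, ?_⟩
        · have : F.leadingCoeff * (sa.map (fun x => z - x)).prod ≤ 0 :=
            mul_nonpos_of_nonpos_of_nonneg hl.le (by linarith)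
          linarith
        · nlinarith
      · left
        refine ⟨?_, ?_⟩
        · have : 0 ≤ F.leadingCoeff * (sb.map (fun x => z - x)).prod :=
            mul_nonneg hl.le (by linarith)
          linarith
        · nlinarith

theorem dist_ge {z x : ℝ} (hz : Out a b z) (hx : a ≤ x ∧ x ≤ b) (hab : a < b) : dlo a b z ≤ |z - x| := by
  unfold dlo
  rcases hz with h | h
  · rw [abs_of_nonneg (by linarith)]
    exact max_le (by linarith) (by linarith)
  · rw [abs_of_nonpos (by linarith)]
    exact max_le (by linarith) (by linarith)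

theorem lowF (S : RD a b F d K) (z : ℝ) (hz : Out a b z) :
    |F.leadingCoeff| * (dlo a b z) ^ d ≤ dlo a b (F.eval z) := by
  have hab := S.ab
  have h0 := GS.lo_nonneg hz
  have key : ∀ t ∈ K, |F.leadingCoeff| * (dlo a b z) ^ d ≤ |F.eval z - t| := by
    intro t ht
    obtain ⟨s, hs⟩ := S.split t ht
    rw [S.eval_s hs z, abs_mul]
    have h1 := prod_abs_of (s := s) (z := z) (r := dlo a b z) h0 (fun x hx =>
      dist_ge hz (S.sub x (S.mem_s ht hs hx).2) hab)
    rw [S.card_s hs] at h1
    gcongr
  rcases S.out_sg z hz with h | h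
  · have h1 := key b S.hb
    rw [abs_of_nonneg (show 0 ≤ F.eval z - b by linarith [h.1])] at h1
    exact h1.trans (le_max_left _ _)
  · have h1 := key a S.ha
    rw [abs_of_nonpos (show F.eval z - a ≤ 0 by linarith [h.1])] at h1
    refine h1.trans ?_
    unfold dlo
    refine le_trans ?_ (le_max_right _ _)
    linarith

/-- strict exterior is mapped to itself -/
theorem out_strict (S : RD a b F d K) {z : ℝ} (hz : b < z ∨ z < a) : b < F.eval z ∨ F.eval z < a := by
  have h1 : Out a b z := by rcases hz with h | h; exact Or.inl h.le; exact Or.inr h.le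
  have h2 : 0 < dlo a b z := by
    unfold dlo
    rcases hz with h | h
    · exact lt_of_lt_of_le (by linarith) (le_max_left _ _)
    · exact lt_of_lt_of_le (by linarith) (le_max_right _ _)
  have h3 := S.lowF z h1
  have h4 : 0 < |F.leadingCoeff| * (dlo a b z) ^ d := by
    have := abs_pos.mpr S.lc
    positivity
  have h5 : 0 < dlo a b (F.eval z) := by linarith
  unfold dlo at h5
  rcases lt_max_iff.mp h5 with h | h
  · left; linarith
  · right; linarith

/-- the geometric data for a balanced system -/
theorem toGS (S : RD a b F d K) {L : ℝ[X] →ₗ[ℝ] ℝ} {P : ℕ → ℝ[X]} (O : OS a b L P)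
    (bal : ∀ g t : ℝ[X], Ex F d (g * chi F d) t → L g = L t) : GS a b F d L P (Cp F) where
  toOS := O
  hF := S.hF
  hd := S.hd
  bal := bal
  chi_eq := S.chi_prod
  cr_in := fun c hc => S.crit_in (S.mem_Cp.mp hc)
  cr_sg := by
    intro c hc
    have hd := S.hd
    have h1 := S.der2 hc
    have hd0 : (0:ℝ) < d := by positivity
    rcases S.crit_dich (S.mem_Cp.mp hc) with h | h
    · left
      refine ⟨h.1, ?_⟩
      have h2 := h.2
      rw [h1, mul_assoc] at h2
      exact (pos_iff_neg_of_mul_neg h2).mp hd0
    · right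
      refine ⟨h.1, ?_⟩
      have h2 := h.2
      rw [h1, mul_assoc] at h2
      exact (pos_iff_pos_of_mul_pos h2).mp hd0
  out_sg := S.out_sg

/-- energies: forward orbits of a finite set -/
def Orb (F : ℝ[X]) (S0 : Finset ℝ) : Set ℝ := {z | ∃ s ∈ S0, ∃ k : ℕ, z = (fun y => F.eval y)^[k] s}

theorem exists_lower (u : ℕ → ℝ) (hu : ∀ k, 0 < u k) (T : ℕ) (h : ∀ k, T ≤ k → 1 ≤ u k) :
    ∃ δ > 0, ∀ k, δ ≤ u k := by
  induction T generalizing u with
  | zero => exact ⟨1, one_pos, fun k => h k (Nat.zero_le k)⟩
  | succ T ih =>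
    obtain ⟨δ, h1, h2⟩ := ih (fun k => u (k + 1)) (fun k => hu _) (fun k hk => h _ (by omega))
    refine ⟨min δ (u 0), lt_min h1 (hu 0), ?_⟩
    intro k
    cases k with
    | zero => exact min_le_right _ _
    | succ k => exact (min_le_left _ _).trans (h2 k)

theorem finset_bound {S0 : Finset ℝ} {Q : ℝ → ℝ → Prop} (hm : ∀ s δ δ', Q s δ → δ' ≤ δ → Q s δ')
    (h : ∀ s ∈ S0, ∃ δ > 0, Q s δ) : ∃ δ > 0, ∀ s ∈ S0, Q s δ := by
  classical
  induction S0 using Finset.induction_on with
  | empty => exact ⟨1, one_pos, by simp⟩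
  | insert x S0 hx ih =>
    obtain ⟨δ1, h1, h2⟩ := ih fun s hs => h s (mem_insert_of_mem hs)
    obtain ⟨δ2, h3, h4⟩ := h x (mem_insert_self _ _)
    refine ⟨min δ1 δ2, lt_min h1 h3, ?_⟩
    intro s hs
    rw [mem_insert] at hs
    rcases hs with rfl | hs
    · exact hm _ _ _ h4 (min_le_right _ _)
    · exact hm _ _ _ (h2 s hs) (min_le_left _ _)

theorem finset_boundN {S0 : Finset ℝ} {Q : ℝ → ℕ → Prop} (hm : ∀ s T T', Q s T → T ≤ T' → Q s T')
    (h : ∀ s ∈ S0, ∃ T, Q s T) : ∃ T, ∀ s ∈ S0, Q s T := by
  classical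
  induction S0 using Finset.induction_on with
  | empty => exact ⟨0, by simp⟩
  | insert x S0 hx ih =>
    obtain ⟨T1, h2⟩ := ih fun s hs => h s (mem_insert_of_mem hs)
    obtain ⟨T2, h4⟩ := h x (mem_insert_self _ _)
    refine ⟨max T1 T2, ?_⟩
    intro s hs
    rw [mem_insert] at hs
    rcases hs with rfl | hs
    · exact hm _ _ _ h4 (le_max_right _ _)
    · exact hm _ _ _ (h2 s hs) (le_max_left _ _)

theorem iter_strict (S : RD a b F d K) {z : ℝ} (hz : b < z ∨ z < a) (k : ℕ) :
    b < (fun y => F.eval y)^[k] z ∨ (fun y => F.eval y)^[k] z < a := by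
  induction k with
  | zero => exact hz
  | succ k ih =>
    rw [Function.iterate_succ_apply']
    exact S.out_strict ih

theorem dlo_pos {z : ℝ} (hz : b < z ∨ z < a) : 0 < dlo a b z := by
  unfold dlo
  rcases hz with h | h
  · exact lt_of_lt_of_le (by linarith) (le_max_left _ _)
  · exact lt_of_lt_of_le (by linarith) (le_max_right _ _)

/-- the open case -/
theorem toHS (S : RD a b F d K) {L : ℝ[X] →ₗ[ℝ] ℝ} {P : ℕ → ℝ[X]} (O : OS a b L P)
    (bal : ∀ g t : ℝ[X], Ex F d (g * chi F d) t → L g = L t)
    (hop : ∀ c, (derivative F).eval c = 0 → c ∉ K) :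
    ∃ E δ, HS a b F d L P (Cp F) E δ ∧ b + 1 ∈ E ∧ a - 1 ∈ E := by
  classical
  have hab := S.ab
  set S0 : Finset ℝ := insert (b + 1) (insert (a - 1) ((Cp F).image fun y => F.eval y)) with hS0
  have hout : ∀ s ∈ S0, b < s ∨ s < a := by
    intro s hs
    rw [hS0, mem_insert, mem_insert, mem_image] at hs
    rcases hs with rfl | rfl | ⟨c, hc, rfl⟩
    · left; linarith
    · right; linarith
    · have hc' := S.mem_Cp.mp hc
      have hcK := hop c hc'
      rcases S.crit_dich hc' with h | h
      · left
        refine lt_of_le_of_ne h.1 ?_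
        intro h0
        apply hcK
        rw [← S.inv, ← h0]
        exact S.hb
      · right
        refine lt_of_le_of_ne h.1 ?_
        intro h0
        apply hcK
        rw [← S.inv, h0]
        exact S.ha
  have hnK : ∀ s, (b < s ∨ s < a) → s ∉ K := by
    intro s hs hK
    have := S.sub s hK
    rcases hs with h | h <;> linarith
  have hesc : ∀ s ∈ S0, ∀ Z : ℝ, ∃ T, ∀ k, T ≤ k → Z ≤ dlo a b ((fun y => F.eval y)^[k] s) := by
    intro s hs Z
    obtain ⟨T, hT⟩ := S.esc s (hnK s (hout s hs)) (Z + (|a| + |b|))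
    refine ⟨T, fun k hk => ?_⟩
    have h1 := hT k hk
    have h2 := lo_abs a b ((fun y => F.eval y)^[k] s)
    linarith
  obtain ⟨δ, hδ, hδ2⟩ := finset_bound (S0 := S0)
    (Q := fun s δ => ∀ k, δ ≤ dlo a b ((fun y => F.eval y)^[k] s))
    (fun s δ δ' h hle k => hle.trans (h k)) (fun s hs => by
      obtain ⟨T, hT⟩ := hesc s hs 1
      exact exists_lower _ (fun k => dlo_pos (S.iter_strict (hout s hs) k)) T hT)
  refine ⟨Orb F S0, δ, ?_, ?_, ?_⟩
  · have hOrb : ∀ z ∈ Orb F S0, b < z ∨ z < a := by
      rintro z ⟨s, hs, k, rfl⟩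
      exact S.iter_strict (hout s hs) k
    refine { S.toGS O bal with
      inv := ⟨?_, ?_, ?_⟩
      ne := ⟨b + 1, b + 1, mem_insert_self _ _, 0, rfl⟩
      dpos := hδ
      sep := ?_
      lowF := S.lowF
      esc := ?_ }
    · intro z hz
      rcases hOrb z hz with h | h
      · exact Or.inl h.le
      · exact Or.inr h.le
    · rintro z ⟨s, hs, k, rfl⟩
      refine ⟨s, hs, k + 1, ?_⟩
      rw [Function.iterate_succ_apply']
    · intro c hc
      refine ⟨F.eval c, ?_, 0, rfl⟩
      rw [hS0, mem_insert, mem_insert, mem_image]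
      exact Or.inr (Or.inr ⟨c, hc, rfl⟩)
    · rintro z ⟨s, hs, k, rfl⟩
      exact hδ2 s hs k
    · intro Z
      obtain ⟨T, hT⟩ := finset_boundN (S0 := S0)
        (Q := fun s T => ∀ k, T ≤ k → Z ≤ dlo a b ((fun y => F.eval y)^[k] s))
        (fun s T T' h hle k hk => h k (hle.trans hk)) (fun s hs => hesc s hs Z)
      refine ⟨T, ?_⟩
      rintro z ⟨s, hs, j, rfl⟩ k hk
      rw [← Function.iterate_add_apply]
      exact hT s hs (k + j) (by omega)
  · exact ⟨b + 1, mem_insert_self _ _, 0, rfl⟩
  · exact ⟨a - 1, mem_insert_of_mem (mem_insert_self _ _), 0, rfl⟩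

end RD

end Pool.Agent.Helper566.J
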