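import Mathlib
import Pool.Agent.Helper566.JGeo

set_option autoImplicit false
set_option linter.unusedVariables false

open Polynomial Finset

namespace Pool.Agent.Helper566.J

/-- the part of `K` away from the end points -/
def Ko (a b : ℝ) (K : Set ℝ) : Set ℝ := {t | t ∈ K ∧ t ≠ a ∧ t ≠ b}

/-- preimages -/
noncomputable def Rt (F : ℝ[X]) (t : ℝ) : Finset ℝ := (F - C t).roots.toFinset

/-- preimage tree -/
noncomputable def RR (F : ℝ[X]) (t0 : ℝ) : ℕ → Finset ℝ
  | 0 => {t0}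
  | n + 1 => (RR F t0 n).biUnion (Rt F)

/-- off diagonal energy of a finite set -/
noncomputable def Ef (R : Finset ℝ) : ℝ := ∑ x ∈ R, ∑ y ∈ R.erase x, -Real.log (x - y)

namespace RD

variable {a b : ℝ} {F : ℝ[X]} {d : ℕ} {K : Set ℝ}

theorem Ko_in (S : RD a b F d K) {t : ℝ} (ht : t ∈ Ko a b K) : a < t ∧ t < b :=
  ⟨lt_of_le_of_ne (S.sub t ht.1).1 ht.2.1.symm, lt_of_le_of_ne (S.sub t ht.1).2 ht.2.2⟩

theorem sub_ne (S : RD a b F d K) (t : ℝ) : F - C t ≠ 0 := by
  intro h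
  have h1 : (F - C t).natDegree = d := by rw [natDegree_sub_C, S.hF]
  rw [h, natDegree_zero] at h1
  have := S.hd
  omega

theorem mem_Rt (S : RD a b F d K) {t x : ℝ} : x ∈ Rt F t ↔ F.eval x = t := by
  unfold Rt
  rw [Multiset.mem_toFinset, mem_roots (S.sub_ne t), IsRoot, eval_sub, eval_C, sub_eq_zero]

theorem end_a (S : RD a b F d K) : F.eval a = a ∨ F.eval a = b := by
  have h1 := S.sub _ ((S.inv a).mpr S.ha)
  rcases S.out_sg a (Or.inr le_rfl) with h | h
  · right; linarith [h.1]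
  · left; linarith [h.1]

theorem end_b (S : RD a b F d K) : F.eval b = a ∨ F.eval b = b := by
  have h1 := S.sub _ ((S.inv b).mpr S.hb)
  rcases S.out_sg b (Or.inl le_rfl) with h | h
  · right; linarith [h.1]
  · left; linarith [h.1]

theorem Rt_Ko (S : RD a b F d K) {t x : ℝ} (ht : t ∈ Ko a b K) (hx : x ∈ Rt F t) : x ∈ Ko a b K := by
  rw [S.mem_Rt] at hx
  refine ⟨?_, ?_, ?_⟩
  · rw [← S.inv, hx]; exact ht.1
  · rintro rfl
    rcases S.end_a with h | h
    · exact ht.2.1 (by rw [← hx, h])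
    · exact ht.2.2 (by rw [← hx, h])
  · rintro rfl
    rcases S.end_b with h | h
    · exact ht.2.1 (by rw [← hx, h])
    · exact ht.2.2 (by rw [← hx, h])

theorem Rt_nodup (S : RD a b F d K) {t : ℝ} (ht : t ∈ Ko a b K) : (F - C t).roots.Nodup := by
  rw [Multiset.nodup_iff_count_le_one]
  intro c
  rw [count_roots]
  by_contra hcon
  push Not at hcon
  obtain ⟨h1, h2⟩ := (one_lt_rootMultiplicity_iff_isRoot (S.sub_ne t)).mp hcon
  rw [derivative_sub, derivative_C, sub_zero] at h2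
  rw [IsRoot, eval_sub, eval_C, sub_eq_zero] at h1
  have h3 := S.Ko_in ht
  rcases S.crit_dich h2 with h | h
  · linarith [h.1]
  · linarith [h.1]

theorem Rt_prod (S : RD a b F d K) {t : ℝ} (ht : t ∈ Ko a b K) :
    F - C t = C F.leadingCoeff * ∏ x ∈ Rt F t, (X - C x) := by
  obtain ⟨s, hs⟩ := S.split t ht.1
  have h2 : (F - C t).roots = s := by
    rw [hs, roots_C_mul _ S.lc]
    unfold lp
    exact roots_multiset_prod_X_sub_C s
  have h3 : ∏ x ∈ Rt F t, (X - C x) = lp s := by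
    unfold Rt lp
    show (Multiset.map _ ((F - C t).roots.toFinset).val).prod = _
    rw [Multiset.toFinset_val, (S.Rt_nodup ht).dedup, h2]
  rw [h3]
  exact hs

theorem Rt_card (S : RD a b F d K) {t : ℝ} (ht : t ∈ Ko a b K) : (Rt F t).card = d := by
  have h1 : (F - C t).natDegree = d := by rw [natDegree_sub_C, S.hF]
  rw [S.Rt_prod ht, natDegree_C_mul S.lc, natDegree_prod_of_monic _ _ fun x _ => monic_X_sub_C x] at h1
  simpa using h1

theorem Rt_eval (S : RD a b F d K) {t : ℝ} (ht : t ∈ Ko a b K) (z : ℝ) :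
    F.eval z - t = F.leadingCoeff * ∏ x ∈ Rt F t, (z - x) := by
  have := congrArg (eval z) (S.Rt_prod ht)
  rw [eval_sub, eval_C, eval_mul, eval_C, eval_prod] at this
  rw [this]
  simp

theorem Rt_der (S : RD a b F d K) {t : ℝ} (ht : t ∈ Ko a b K) {x : ℝ} (hx : x ∈ Rt F t) :
    (derivative F).eval x = F.leadingCoeff * Dn (Rt F t) x := by
  have h0 : derivative F = derivative (F - C t) := by rw [derivative_sub, derivative_C, sub_zero]
  rw [h0, S.Rt_prod ht, derivative_C_mul, eval_mul, eval_C]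
  have h := Lagrange.eval_nodal_derivative_eval_node_eq (s := Rt F t) (v := (id : ℝ → ℝ)) hx
  have h1 : Lagrange.nodal (Rt F t) (id : ℝ → ℝ) = ∏ c ∈ Rt F t, (X - C c) := rfl
  rw [h1] at h
  simp only [id] at h
  rw [h, Lagrange.eval_nodal]
  unfold Dn
  rfl

theorem sum_Rt (S : RD a b F d K) {t : ℝ} (ht : t ∈ Ko a b K) {g τ : ℝ[X]}
    (h : Ex F d (g * chi F d) τ) : ∑ x ∈ Rt F t, g.eval x = d * τ.eval t := by
  obtain ⟨h, hg, htop⟩ := h
  have hd := S.hd
  have hd0 : (d:ℝ) ≠ 0 := by positivity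
  have hl := S.lc
  set p : ℝ[X] := ∑ k ∈ range d, C ((h k).eval t) * X ^ k with hp
  have hpc : ∀ i, p.coeff i = if i < d then (h i).eval t else 0 := by
    intro i
    rw [hp, finsetSum_coeff]
    simp only [coeff_C_mul, coeff_X_pow, mul_ite, mul_one, mul_zero]
    rw [Finset.sum_ite_eq]
    simp only [mem_range]
  have hlag := lag (Rt F t) (by rw [S.Rt_card ht]; omega) p (by
    intro i hi
    rw [S.Rt_card ht] at hi
    rw [hpc, if_neg (by omega)])
  rw [S.Rt_card ht, hpc, if_pos (by omega), htop] at hlag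
  rw [← hlag, mul_sum]
  apply sum_congr rfl
  intro x hx
  have h1 := congrArg (eval x) hg
  rw [eval_mul, eval_finsetSum] at h1
  have h2 : ∑ k ∈ range d, eval x (X ^ k * (h k).comp F) = p.eval x := by
    rw [hp, eval_finsetSum]
    apply sum_congr rfl
    intro k _
    rw [eval_mul, eval_mul, eval_comp, S.mem_Rt.mp hx]
    simp; ring
  rw [h2] at h1
  have h3 := S.Rt_der ht hx
  have h4 : (derivative F).eval x = (d : ℝ) * F.leadingCoeff * (chi F d).eval x := by
    conv_lhs => rw [S.der_eq, eval_mul, eval_C]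
  rw [h4] at h3
  have hD : Dn (Rt F t) x ≠ 0 := Dn_ne
  have h5 : (d:ℝ) * (chi F d).eval x = Dn (Rt F t) x := by
    apply mul_left_cancel₀ hl
    linarith
  rw [← h1, ← h5]
  have h6 : (chi F d).eval x ≠ 0 := by
    intro h0; rw [h0, mul_zero] at h5; exact hD h5.symm
  field_simp

theorem exists_Tr (S : RD a b F d K) (g : ℝ[X]) :
    ∃ τ, Ex F d (g * chi F d) τ ∧ τ.natDegree ≤ g.natDegree / d := by
  have hd := S.hd
  obtain ⟨h, h1, h2, -⟩ := digits_exist S.hF hd (g.natDegree + d) (g * chi F d) (by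
    intro i hi
    apply coeff_eq_zero_of_natDegree_lt
    refine lt_of_le_of_lt natDegree_mul_le ?_
    rw [chi_deg S.hF hd]; omega)
  refine ⟨h (d - 1), ⟨h, h1, rfl⟩, ?_⟩
  rw [natDegree_le_iff_coeff_eq_zero]
  intro i hi
  apply h2 (d - 1) (by omega)
  have h3 : g.natDegree < d * i := by
    rw [Nat.div_lt_iff_lt_mul (by omega)] at hi
    rw [mul_comm]; exact hi
  omega

theorem RR_Ko (S : RD a b F d K) {t0 : ℝ} (h0 : t0 ∈ Ko a b K) (n : ℕ) : ∀ x ∈ RR F t0 n, x ∈ Ko a b K := by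
  induction n with
  | zero =>
    intro x hx
    rw [RR, mem_singleton] at hx
    rw [hx]; exact h0
  | succ n ih =>
    intro x hx
    rw [RR, mem_biUnion] at hx
    obtain ⟨t, ht, hx⟩ := hx
    exact S.Rt_Ko (ih t ht) hx

theorem sum_RR (S : RD a b F d K) {t0 : ℝ} (n : ℕ) (φ : ℝ → ℝ) :
    ∑ x ∈ RR F t0 (n + 1), φ x = ∑ t ∈ RR F t0 n, ∑ x ∈ Rt F t, φ x := by
  rw [RR, sum_biUnion]
  intro s _ t _ hst
  rw [Function.onFun, Finset.disjoint_left]
  intro x hx hx'
  apply hst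
  rw [← S.mem_Rt.mp hx, S.mem_Rt.mp hx']

theorem card_RR (S : RD a b F d K) {t0 : ℝ} (h0 : t0 ∈ Ko a b K) (n : ℕ) :
    ((RR F t0 n).card : ℝ) = (d : ℝ) ^ n := by
  induction n with
  | zero => simp [RR]
  | succ n ih =>
    have h := S.sum_RR (t0 := t0) n (fun _ => 1)
    simp only [sum_const, nsmul_eq_mul, mul_one] at h
    rw [h, sum_congr rfl (fun t ht => by rw [S.Rt_card (S.RR_Ko h0 n t ht)]), sum_const, nsmul_eq_mul, ih,
      pow_succ]

theorem mem_RR_succ (S : RD a b F d K) {t0 : ℝ} {n : ℕ} {x : ℝ} :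
    x ∈ RR F t0 (n + 1) ↔ F.eval x ∈ RR F t0 n := by
  rw [RR, mem_biUnion]
  constructor
  · rintro ⟨t, ht, hx⟩
    rw [S.mem_Rt.mp hx]; exact ht
  · intro h
    exact ⟨_, h, S.mem_Rt.mpr rfl⟩

theorem ev_const (S : RD a b F d K) {t0 : ℝ} (h0 : t0 ∈ Ko a b K) (m : ℕ) : ∀ g : ℝ[X], g.natDegree ≤ m →
    ∃ (c : ℝ) (N : ℕ), ∀ n, N ≤ n → ∑ x ∈ RR F t0 n, g.eval x = c * (d : ℝ) ^ n := by
  have hd := S.hd
  induction m using Nat.strong_induction_on with
  | _ m ih =>
    intro g hg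
    rcases Nat.eq_zero_or_pos m with hm | hm
    · refine ⟨g.coeff 0, 0, fun n _ => ?_⟩
      have hgc : g = C (g.coeff 0) := eq_C_of_natDegree_eq_zero (by omega)
      rw [hgc]
      simp only [eval_C, coeff_C_zero]
      rw [sum_const, nsmul_eq_mul, S.card_RR h0]; ring
    · obtain ⟨τ, h1, h2⟩ := S.exists_Tr g
      have h3 : τ.natDegree ≤ m / d := h2.trans (Nat.div_le_div_right hg)
      obtain ⟨c, N, hN⟩ := ih (m / d) (Nat.div_lt_self hm (by omega)) τ h3
      refine ⟨c, N + 1, ?_⟩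
      intro n hn
      obtain ⟨k, rfl⟩ : ∃ k, n = k + 1 := ⟨n - 1, by omega⟩
      rw [S.sum_RR, sum_congr rfl (fun t ht => S.sum_Rt (S.RR_Ko h0 k t ht) h1), ← mul_sum,
        hN k (by omega), pow_succ]
      ring

theorem log_Rt (S : RD a b F d K) {t : ℝ} (ht : t ∈ Ko a b K) {v : ℝ} (hv : F.eval v ≠ t) :
    ∑ x ∈ Rt F t, Real.log (v - x) = Real.log (F.eval v - t) - Real.log F.leadingCoeff := by
  have hne : ∀ x ∈ Rt F t, v - x ≠ 0 := by
    intro x hx h0
    apply hv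
    rw [sub_eq_zero.mp h0]
    exact S.mem_Rt.mp hx
  rw [S.Rt_eval ht v, Real.log_mul S.lc (prod_ne_zero_iff.mpr hne), Real.log_prod hne]
  ring

/-- log sums from outside -/
theorem log_RR (S : RD a b F d K) {t0 : ℝ} (h0 : t0 ∈ Ko a b K) {A : ℝ} (hA0 : 0 ≤ A)
    (hA1 : -Real.log (min (t0 - a) (b - t0)) ≤ A) (hA2 : Real.log F.leadingCoeff ≤ A) (n : ℕ) :
    ∀ v, Out a b v → -(A * (d : ℝ) ^ n) ≤ ∑ z ∈ RR F t0 n, Real.log (v - z) := by
  have hd := S.hd
  have hin := S.Ko_in h0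
  induction n with
  | zero =>
    intro v hv
    rw [RR, sum_singleton, pow_zero, mul_one]
    have h1 : min (t0 - a) (b - t0) ≤ |v - t0| := by
      rcases hv with h | h
      · rw [abs_of_nonneg (by linarith)]
        exact (min_le_right _ _).trans (by linarith)
      · rw [abs_of_nonpos (by linarith)]
        exact (min_le_left _ _).trans (by linarith)
    have h2 : 0 < min (t0 - a) (b - t0) := lt_min (by linarith) (by linarith)
    have h3 := Real.log_le_log h2 h1
    rw [Real.log_abs] at h3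
    linarith
  | succ n ih =>
    intro v hv
    rw [S.sum_RR]
    have hFv := S.out_sg v hv
    have hFo : Out a b (F.eval v) := by
      rcases hFv with h | h
      · exact Or.inl h.1
      · exact Or.inr h.1
    have e : ∑ t ∈ RR F t0 n, ∑ x ∈ Rt F t, Real.log (v - x)
        = ∑ t ∈ RR F t0 n, (Real.log (F.eval v - t) - Real.log F.leadingCoeff) := by
      apply sum_congr rfl
      intro t ht
      apply S.log_Rt (S.RR_Ko h0 n t ht)
      intro h
      have := S.Ko_in (S.RR_Ko h0 n t ht)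
      rcases hFo with h' | h' <;> linarith
    rw [e, sum_sub_distrib, sum_const, nsmul_eq_mul, S.card_RR h0]
    have h1 := ih _ hFo
    have h2 : (0:ℝ) ≤ (d:ℝ) ^ n := by positivity
    have h3 : (d:ℝ) ^ n * Real.log F.leadingCoeff ≤ (d:ℝ) ^ n * A := by gcongr
    have h4 : (2:ℝ) ≤ d := by exact_mod_cast hd
    rw [pow_succ]
    have h5 : A * (d:ℝ) ^ n * 2 ≤ A * (d:ℝ) ^ n * d := by gcongr
    nlinarith

theorem der_ne_Ko (S : RD a b F d K) {x : ℝ} (hx : F.eval x ∈ Ko a b K) : (derivative F).eval x ≠ 0 := by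
  intro h
  have h3 := S.Ko_in hx
  rcases S.crit_dich h with h | h
  · linarith [h.1]
  · linarith [h.1]

/-- lower bound for derivatives -/
theorem log_der (S : RD a b F d K) {t0 : ℝ} (h0 : t0 ∈ Ko a b K) :
    ∃ B : ℝ, 0 ≤ B ∧ ∀ n, -(B * (d : ℝ) ^ (n + 1)) ≤ ∑ x ∈ RR F t0 (n + 1), Real.log ((derivative F).eval x) := by
  have hd := S.hd
  set A := max 0 (max (-Real.log (min (t0 - a) (b - t0))) (Real.log F.leadingCoeff)) with hA
  have hA0 : 0 ≤ A := le_max_left _ _
  have hA1 : -Real.log (min (t0 - a) (b - t0)) ≤ A := (le_max_left _ _).trans (le_max_right _ _)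
  have hA2 : Real.log F.leadingCoeff ≤ A := (le_max_right _ _).trans (le_max_right _ _)
  set L0 := Real.log (d * F.leadingCoeff) with hL0
  refine ⟨|L0| + (Cp F).card * A, by positivity, ?_⟩
  intro n
  have hlog : ∀ x ∈ RR F t0 (n + 1), Real.log ((derivative F).eval x)
      = L0 + ∑ c ∈ Cp F, Real.log (c - x) := by
    intro x hx
    have hx1 : F.eval x ∈ Ko a b K := S.RR_Ko h0 n _ (S.mem_RR_succ.mp hx)
    have hne := S.der_ne_Ko hx1
    have hne2 : ∀ c ∈ Cp F, x - c ≠ 0 := by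
      intro c hc h
      apply hne
      rw [sub_eq_zero.mp h]
      exact S.mem_Cp.mp hc
    have e : (derivative F).eval x = (d * F.leadingCoeff) * ∏ c ∈ Cp F, (x - c) := by
      conv_lhs => rw [S.der_eq, eval_mul, eval_C, S.chi_prod, eval_prod]
      simp
    rw [e, Real.log_mul (mul_ne_zero (by positivity) S.lc) (prod_ne_zero_iff.mpr hne2), Real.log_prod hne2]
    congr 1
    apply sum_congr rfl
    intro c _
    rw [← Real.log_neg_eq_log, neg_sub]
  rw [sum_congr rfl hlog, sum_add_distrib, sum_const, nsmul_eq_mul, S.card_RR h0, sum_comm]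
  have hc : ∀ c ∈ Cp F, -(A * (d:ℝ) ^ (n + 1)) ≤ ∑ x ∈ RR F t0 (n + 1), Real.log (c - x) := by
    intro c hc
    rw [S.sum_RR]
    have hFo : Out a b (F.eval c) := by
      rcases S.crit_dich (S.mem_Cp.mp hc) with h | h
      · exact Or.inl h.1
      · exact Or.inr h.1
    have e : ∑ t ∈ RR F t0 n, ∑ x ∈ Rt F t, Real.log (c - x)
        = ∑ t ∈ RR F t0 n, (Real.log (F.eval c - t) - Real.log F.leadingCoeff) := by
      apply sum_congr rfl
      intro t ht
      apply S.log_Rt (S.RR_Ko h0 n t ht)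
      intro h
      have := S.Ko_in (S.RR_Ko h0 n t ht)
      rcases hFo with h' | h' <;> linarith
    rw [e, sum_sub_distrib, sum_const, nsmul_eq_mul, S.card_RR h0]
    have h1 := S.log_RR h0 hA0 hA1 hA2 n _ hFo
    have h2 : (0:ℝ) ≤ (d:ℝ) ^ n := by positivity
    have h3 : (d:ℝ) ^ n * Real.log F.leadingCoeff ≤ (d:ℝ) ^ n * A := by gcongr
    have h4 : (2:ℝ) ≤ d := by exact_mod_cast hd
    rw [pow_succ]
    have h5 : A * (d:ℝ) ^ n * 2 ≤ A * (d:ℝ) ^ n * d := by gcongr
    nlinarith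
  have hs := Finset.sum_le_sum hc
  rw [sum_const, nsmul_eq_mul] at hs
  have h6 : -(|L0| * (d:ℝ) ^ (n + 1)) ≤ (d:ℝ) ^ (n + 1) * L0 := by
    have := neg_abs_le L0
    have h7 : (0:ℝ) ≤ (d:ℝ) ^ (n + 1) := by positivity
    nlinarith
  nlinarith

/-- recursion of the discrete energy -/
theorem Ef_succ (S : RD a b F d K) {t0 : ℝ} (h0 : t0 ∈ Ko a b K) (n : ℕ) :
    Ef (RR F t0 (n + 1)) = d * Ef (RR F t0 n) + (d : ℝ) ^ (2 * n + 1) * Real.log F.leadingCoeff
      - ∑ x ∈ RR F t0 (n + 1), Real.log ((derivative F).eval x) := by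
  have hd := S.hd
  set l := Real.log F.leadingCoeff with hl
  -- inner sums
  have inner : ∀ t ∈ RR F t0 n, ∀ x ∈ Rt F t, ∑ y ∈ (RR F t0 (n + 1)).erase x, -Real.log (x - y)
      = (∑ t' ∈ (RR F t0 n).erase t, -Real.log (t - t')) + (d : ℝ) ^ n * l
        - Real.log ((derivative F).eval x) := by
    intro t ht x hx
    have hFx := S.mem_Rt.mp hx
    have hxR : x ∈ RR F t0 (n + 1) := by rw [S.mem_RR_succ, hFx]; exact ht
    have htK := S.RR_Ko h0 n t ht
    have e1 := add_sum_erase (RR F t0 (n + 1)) (fun y => -Real.log (x - y)) hxR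
    rw [S.sum_RR, ← add_sum_erase (RR F t0 n) _ ht, ← add_sum_erase (Rt F t) (fun y => -Real.log (x - y)) hx] at e1
    simp only [sub_self, Real.log_zero, neg_zero, zero_add] at e1
    rw [e1]
    have e2 : ∑ y ∈ (Rt F t).erase x, -Real.log (x - y) = l - Real.log ((derivative F).eval x) := by
      have hne : ∀ y ∈ (Rt F t).erase x, x - y ≠ 0 := fun y hy =>
        sub_ne_zero.mpr (ne_of_mem_erase hy).symm
      rw [sum_neg_distrib, ← Real.log_prod hne, S.Rt_der htK hx, Real.log_mul S.lc Dn_ne]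
      unfold Dn
      ring
    have e3 : ∀ t' ∈ (RR F t0 n).erase t, ∑ y ∈ Rt F t', -Real.log (x - y) = -Real.log (t - t') + l := by
      intro t' ht'
      rw [sum_neg_distrib, S.log_Rt (S.RR_Ko h0 n t' (mem_of_mem_erase ht')) (by
        rw [hFx]; exact (ne_of_mem_erase ht').symm), hFx]
      ring
    rw [e2, sum_congr rfl e3, sum_add_distrib, sum_const, nsmul_eq_mul]
    have hcard : (((RR F t0 n).erase t).card : ℝ) = (d : ℝ) ^ n - 1 := by
      rw [← S.card_RR h0 n]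
      have := card_erase_add_one ht
      have h2 : (((RR F t0 n).erase t).card : ℝ) + 1 = (RR F t0 n).card := by exact_mod_cast this
      linarith
    rw [hcard]
    ring
  unfold Ef
  have e4 := S.sum_RR (t0 := t0) n (fun x => ∑ y ∈ (RR F t0 (n + 1)).erase x, -Real.log (x - y))
  have e5 := S.sum_RR (t0 := t0) n (fun x => Real.log ((derivative F).eval x))
  rw [e4, e5]
  have e6 : ∀ t ∈ RR F t0 n, ∑ x ∈ Rt F t, ∑ y ∈ (RR F t0 (n + 1)).erase x, -Real.log (x - y)
      = d * (∑ t' ∈ (RR F t0 n).erase t, -Real.log (t - t')) + d * ((d : ℝ) ^ n * l)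
        - ∑ x ∈ Rt F t, Real.log ((derivative F).eval x) := by
    intro t ht
    rw [sum_congr rfl (inner t ht), sum_sub_distrib, sum_const, nsmul_eq_mul,
      S.Rt_card (S.RR_Ko h0 n t ht)]
    ring
  rw [sum_congr rfl e6, sum_sub_distrib, sum_add_distrib, ← mul_sum, sum_const, nsmul_eq_mul, S.card_RR h0]
  ring

/-- bound of the discrete energy -/
theorem Ef_le (S : RD a b F d K) {t0 : ℝ} (h0 : t0 ∈ Ko a b K) :
    ∃ B : ℝ, ∀ n : ℕ, Ef (RR F t0 n) ≤ (Real.log F.leadingCoeff / ((d : ℝ) - 1)) * (d : ℝ) ^ (2 * n)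
      + (B * (n + 1)) * (d : ℝ) ^ n := by
  have hd := S.hd
  have hd2 : (2:ℝ) ≤ d := by exact_mod_cast hd
  obtain ⟨B, hB0, hB⟩ := S.log_der h0
  set V := Real.log F.leadingCoeff / ((d : ℝ) - 1) with hV
  have hVl : Real.log F.leadingCoeff = V * ((d:ℝ) - 1) := by
    rw [hV]
    have : (d:ℝ) - 1 ≠ 0 := by linarith
    field_simp
  refine ⟨B + |V|, ?_⟩
  intro n
  induction n with
  | zero =>
    have : Ef (RR F t0 0) = 0 := by
      unfold Ef
      simp [RR]
    rw [this]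
    have := neg_abs_le V
    simp
    linarith
  | succ n ih =>
    rw [S.Ef_succ h0 n]
    have h1 := hB n
    have h2 : (d:ℝ) * Ef (RR F t0 n) ≤ d * (V * (d : ℝ) ^ (2 * n) + ((B + |V|) * (n + 1)) * (d : ℝ) ^ n) := by
      gcongr
    rw [hVl]
    push_cast
    have e1 : (d:ℝ) ^ (2 * (n + 1)) = d ^ (2 * n) * d * d := by
      rw [show 2 * (n + 1) = 2 * n + 1 + 1 by ring, pow_succ, pow_succ]
    have e2 : (d:ℝ) ^ (2 * n + 1) = d ^ (2 * n) * d := pow_succ _ _
    have e3 : (d:ℝ) ^ (n + 1) = d ^ n * d := pow_succ _ _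
    rw [e1, e2, e3]
    rw [e3] at h1
    have h3 : 0 ≤ |V| * ((d:ℝ) ^ n * d) := by positivity
    nlinarith

end RD

end Pool.Agent.Helper566.J
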