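import Mathlib
import Pool.Agent.Helper566.JTree
import Pool.Agent.Helper566.JEq

set_option autoImplicit false
set_option linter.unusedVariables false

open Polynomial MeasureTheory Filter Topology

namespace Pool.Agent.Helper566.J

/-- normalised counting measure of a finite set -/
noncomputable def cm (R : Finset ℝ) : Measure ℝ := (R.card : ENNReal)⁻¹ • ∑ x ∈ R, Measure.dirac x

theorem cm_lint (R : Finset ℝ) (f : ℝ → ENNReal) :
    ∫⁻ x, f x ∂(cm R) = (R.card : ENNReal)⁻¹ * ∑ x ∈ R, f x := by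
  unfold cm
  rw [lintegral_smul_measure, lintegral_finsetSum_measure]
  simp only [lintegral_dirac, smul_eq_mul]

theorem cm_prob {R : Finset ℝ} (hR : R.Nonempty) : IsProbabilityMeasure (cm R) := by
  constructor
  have h := cm_lint R (fun _ => 1)
  simp only [lintegral_one, Finset.sum_const, nsmul_eq_mul, mul_one] at h
  rw [h]
  apply ENNReal.inv_mul_cancel
  · have := Finset.card_pos.mpr hR
    exact_mod_cast this.ne'
  · exact ENNReal.natCast_ne_top _

theorem cm_int (R : Finset ℝ) (f : ℝ → ℝ) : ∫ x, f x ∂(cm R) = (R.card : ℝ)⁻¹ * ∑ x ∈ R, f x := by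
  unfold cm
  rw [integral_smul_measure, integral_finsetSum_measure]
  · simp only [integral_dirac, smul_eq_mul]
    rw [ENNReal.toReal_inv, ENNReal.toReal_natCast]
  · intro i _
    exact integrable_dirac (by simp)

theorem cm_null {R : Finset ℝ} {A : Set ℝ} (h : ∀ x ∈ R, x ∉ A) : cm R A = 0 := by
  unfold cm
  rw [Measure.smul_apply, Measure.finsetSum_apply]
  rw [Finset.sum_eq_zero, smul_zero]
  intro x hx
  rw [Measure.dirac_apply, Set.indicator_of_notMem (h x hx)]

theorem exists_bcf {a b : ℝ} (hab : a ≤ b) (f : ℝ → ℝ) (hf : Continuous f) :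
    ∃ φ : BoundedContinuousFunction ℝ ℝ, ∀ x ∈ Set.Icc a b, φ x = f x := by
  let g : C(Set.Icc a b, ℝ) := ⟨fun x => f x, by fun_prop⟩
  refine ⟨(BoundedContinuousFunction.mkOfCompact g).compContinuous
    ⟨Set.projIcc a b hab, continuous_projIcc⟩, ?_⟩
  intro x hx
  show f (Set.projIcc a b hab x) = f x
  rw [Set.projIcc_of_mem hab hx]

namespace RD

variable {a b : ℝ} {F : ℝ[X]} {d : ℕ} {K : Set ℝ}

theorem RR_ne (S : RD a b F d K) {t0 : ℝ} (h0 : t0 ∈ Ko a b K) (n : ℕ) : (RR F t0 n).Nonempty := by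
  rw [← Finset.card_pos]
  have h := S.card_RR h0 n
  have hd := S.hd
  have : (0:ℝ) < (d:ℝ) ^ n := by positivity
  rw [← h] at this
  exact_mod_cast this

/-- approximating measures -/
noncomputable def omm (S : RD a b F d K) {t0 : ℝ} (h0 : t0 ∈ Ko a b K) (n : ℕ) : ProbabilityMeasure ℝ :=
  ⟨cm (RR F t0 n), cm_prob (S.RR_ne h0 n)⟩

theorem omm_coe (S : RD a b F d K) {t0 : ℝ} (h0 : t0 ∈ Ko a b K) (n : ℕ) :
    (S.omm h0 n : Measure ℝ) = cm (RR F t0 n) := rfl

/-- limit data -/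
structure Lim (S : RD a b F d K) {t0 : ℝ} (h0 : t0 ∈ Ko a b K) (ν : ProbabilityMeasure ℝ)
    (U : Ultrafilter ℕ) : Prop where
  hU : (U : Filter ℕ) ≤ atTop
  lim : Tendsto (S.omm h0) U (𝓝 ν)

theorem exists_Lim (S : RD a b F d K) {t0 : ℝ} (h0 : t0 ∈ Ko a b K) :
    ∃ (ν : ProbabilityMeasure ℝ) (U : Ultrafilter ℕ), Lim S h0 ν U := by
  have htight : IsTightMeasureSet {((μ : ProbabilityMeasure ℝ) : Measure ℝ) | μ ∈ Set.range (S.omm h0)} := by
    rw [isTightMeasureSet_iff_exists_isCompact_measure_compl_le]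
    intro ε hε
    refine ⟨Set.Icc a b, isCompact_Icc, ?_⟩
    rintro _ ⟨_, ⟨k, rfl⟩, rfl⟩
    have : (S.omm h0 k : Measure ℝ) (Set.Icc a b)ᶜ = 0 := by
      rw [S.omm_coe]
      apply cm_null
      intro x hx hx'
      exact hx' (S.sub x (S.RR_Ko h0 k x hx).1)
    rw [this]
    exact hε.le
  have hc := isCompact_closure_of_isTightMeasureSet htight
  obtain ⟨ν, -, hν⟩ := hc.exists_mapClusterPt (f := atTop) (u := S.omm h0) (by
    rw [Filter.le_principal_iff]
    exact Filter.mem_map.mpr (Filter.univ_mem' fun k => subset_closure (Set.mem_range_self k)))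
  rw [mapClusterPt_iff_ultrafilter] at hν
  obtain ⟨U, hU, hT⟩ := hν
  exact ⟨ν, U, hU, hT⟩

variable {S : RD a b F d K} {t0 : ℝ} {h0 : t0 ∈ Ko a b K} {ν : ProbabilityMeasure ℝ} {U : Ultrafilter ℕ}

theorem Lim.supp (H : Lim S h0 ν U) : (ν : Measure ℝ) Kᶜ = 0 := by
  have hopen : IsOpen Kᶜ := S.cpt.isClosed.isOpen_compl
  have h1 := ProbabilityMeasure.le_liminf_measure_open_of_tendsto H.lim hopen
  have h2 : ∀ l, (S.omm h0 l : Measure ℝ) Kᶜ = 0 := by
    intro l
    rw [S.omm_coe]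
    apply cm_null
    intro x hx hx'
    exact hx' (S.RR_Ko h0 l x hx).1
  simp only [h2] at h1
  have h4 : liminf (fun l : ℕ => (0 : ENNReal)) (U : Filter ℕ) = 0 := by simp
  rw [h4] at h1
  exact le_antisymm h1 zero_le

theorem Lim.ae_K (H : Lim S h0 ν U) : ∀ᵐ x ∂(ν : Measure ℝ), x ∈ K := by
  rw [ae_iff]; exact H.supp

theorem Lim.ae_I (H : Lim S h0 ν U) : ∀ᵐ x ∂(ν : Measure ℝ), a ≤ x ∧ x ≤ b := by
  filter_upwards [H.ae_K] with x hx using S.sub x hx

theorem Lim.cont (H : Lim S h0 ν U) {f : ℝ → ℝ} (hf : Continuous f) :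
    Tendsto (fun n => ((d:ℝ) ^ n)⁻¹ * ∑ x ∈ RR F t0 n, f x) U (𝓝 (∫ x, f x ∂(ν : Measure ℝ))) := by
  obtain ⟨φ, hφ⟩ := exists_bcf S.ab.le f hf
  have h1 := (ProbabilityMeasure.tendsto_iff_forall_integral_tendsto.mp H.lim) φ
  have e1 : ∫ x, φ x ∂(ν : Measure ℝ) = ∫ x, f x ∂(ν : Measure ℝ) := by
    apply integral_congr_ae
    filter_upwards [H.ae_I] with x hx using hφ x hx
  rw [e1] at h1
  refine h1.congr fun n => ?_
  rw [S.omm_coe, cm_int, S.card_RR h0]
  congr 1
  apply Finset.sum_congr rfl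
  intro x hx
  exact hφ x (S.sub x (S.RR_Ko h0 n x hx).1)

theorem Lim.cint (H : Lim S h0 ν U) {f : ℝ → ℝ} (hf : Continuous f) : Integrable f (ν : Measure ℝ) := by
  obtain ⟨φ, hφ⟩ := exists_bcf S.ab.le f hf
  apply (φ.integrable (ν : Measure ℝ)).congr
  filter_upwards [H.ae_I] with x hx using hφ x hx

theorem Lim.ev (H : Lim S h0 ν U) (g : ℝ[X]) :
    ∀ᶠ n in atTop, ((d:ℝ) ^ n)⁻¹ * ∑ x ∈ RR F t0 n, g.eval x = ∫ x, g.eval x ∂(ν : Measure ℝ) := by
  obtain ⟨c, N, hN⟩ := S.ev_const h0 g.natDegree g le_rfl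
  have hd := S.hd
  have h1 : ∀ᶠ n in atTop, ((d:ℝ) ^ n)⁻¹ * ∑ x ∈ RR F t0 n, g.eval x = c := by
    filter_upwards [eventually_ge_atTop N] with n hn
    rw [hN n hn]
    have : (0:ℝ) < (d:ℝ) ^ n := by positivity
    field_simp
  have h2 := H.cont g.continuous
  have h3 : Tendsto (fun n => ((d:ℝ) ^ n)⁻¹ * ∑ x ∈ RR F t0 n, g.eval x) U (𝓝 c) :=
    tendsto_const_nhds.congr' (EventuallyEq.symm (H.hU h1))
  rw [tendsto_nhds_unique h2 h3]
  exact h1

theorem Lim.bal (H : Lim S h0 ν U) {g τ : ℝ[X]} (h : Ex F d (g * chi F d) τ) :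
    ∫ x, g.eval x ∂(ν : Measure ℝ) = ∫ x, τ.eval x ∂(ν : Measure ℝ) := by
  obtain ⟨N1, hN1⟩ := eventually_atTop.mp (H.ev g)
  obtain ⟨N2, hN2⟩ := eventually_atTop.mp (H.ev τ)
  have hd := S.hd
  have e1 := hN1 (max N1 N2 + 1) ((le_max_left _ _).trans (Nat.le_succ _))
  have e2 := hN2 (max N1 N2) (le_max_right _ _)
  set n := max N1 N2
  rw [← e1, ← e2, S.sum_RR, Finset.sum_congr rfl (fun t ht => S.sum_Rt (S.RR_Ko h0 n t ht) h),
    ← Finset.mul_sum, pow_succ]
  have h3 : (0:ℝ) < (d:ℝ) ^ n := by positivity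
  have h4 : (0:ℝ) < d := by positivity
  field_simp

/-- log energy constant -/
noncomputable def Vc (F : ℝ[X]) (d : ℕ) (T : ℝ) : ℝ := Real.log T + Real.log F.leadingCoeff / ((d:ℝ) - 1)

theorem Lim.energy (H : Lim S h0 ν U) {T : ℝ} (hT : b - a ≤ T) (hT1 : 1 ≤ T) :
    en T (ν : Measure ℝ) (ν : Measure ℝ) ≤ ENNReal.ofReal (Vc F d T) := by
  have hd := S.hd
  obtain ⟨B, hB⟩ := S.Ef_le h0
  set V := Real.log F.leadingCoeff / ((d:ℝ) - 1) with hV
  have h2 : Tendsto (fun k => (S.omm h0 k).prod (S.omm h0 k)) U (𝓝 (ν.prod ν)) := by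
    have := (ProbabilityMeasure.continuous_prod (α := ℝ) (β := ℝ)).tendsto (ν, ν)
    exact this.comp (H.lim.prodMk_nhds H.lim)
  rw [en_eq_prod]
  have hlogT : 0 ≤ Real.log T := Real.log_nonneg hT1
  have h3 : ∀ m, ∫⁻ p, (kerTrunc T m p : ENNReal) ∂((ν : Measure ℝ).prod (ν : Measure ℝ))
      ≤ ENNReal.ofReal (Vc F d T) := by
    intro m
    set Cm : ℝ := max 0 (Real.log T - Real.log (1 / ((m : ℝ) + 1))) with hCm
    let g : BoundedContinuousFunction (ℝ × ℝ) NNReal :=
      BoundedContinuousFunction.mkOfBound ⟨kerTrunc T m, kerTrunc_continuous T m⟩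
        (Real.toNNReal (Real.log T - Real.log (1 / ((m : ℝ) + 1)))) (by
          intro x y
          simp only [ContinuousMap.coe_mk]
          rw [NNReal.dist_eq, abs_le]
          have h1 := kerTrunc_le T m x
          have h2 := kerTrunc_le T m y
          have h3 : (0:ℝ) ≤ kerTrunc T m x := NNReal.coe_nonneg _
          have h4 : (0:ℝ) ≤ kerTrunc T m y := NNReal.coe_nonneg _
          have h5 : ((kerTrunc T m x : NNReal) : ℝ) ≤ (Real.toNNReal (Real.log T - Real.log (1 / ((m : ℝ) + 1))) : NNReal) :=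
            NNReal.coe_le_coe.mpr h1
          have h6 : ((kerTrunc T m y : NNReal) : ℝ) ≤ (Real.toNNReal (Real.log T - Real.log (1 / ((m : ℝ) + 1))) : NNReal) :=
            NNReal.coe_le_coe.mpr h2
          constructor <;> linarith)
    have h4 := (ProbabilityMeasure.tendsto_iff_forall_lintegral_tendsto.mp h2) g
    have h4' : Tendsto (fun n => ∫⁻ p, (kerTrunc T m p : ENNReal) ∂((cm (RR F t0 n)).prod (cm (RR F t0 n)))) U
        (𝓝 (∫⁻ p, (kerTrunc T m p : ENNReal) ∂((ν : Measure ℝ).prod (ν : Measure ℝ)))) := h4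
    have h5 : ∀ n, ∫⁻ p, (kerTrunc T m p : ENNReal) ∂((cm (RR F t0 n)).prod (cm (RR F t0 n)))
        ≤ ENNReal.ofReal (Vc F d T + (B * (n + 1) + Cm) / (d:ℝ) ^ n) := by
      intro n
      have := cm_prob (S.RR_ne h0 n)
      set R := RR F t0 n with hR
      have hcard : (R.card : ℝ) = (d:ℝ) ^ n := S.card_RR h0 n
      have hpos : (0:ℝ) < (d:ℝ) ^ n := by positivity
      rw [lintegral_prod _ (kerTrunc_continuous T m).measurable.coe_nnreal_ennreal.aemeasurable]
      simp only [cm_lint]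
      have hk : ∀ x ∈ R, ∀ y ∈ R, (kerTrunc T m (x, y) : ENNReal) = ENNReal.ofReal ((kerTrunc T m (x, y) : NNReal) : ℝ) :=
        fun x _ y _ => (ENNReal.ofReal_coe_nnreal).symm
      have e1 : (R.card : ENNReal)⁻¹ * ∑ x ∈ R, (R.card : ENNReal)⁻¹ * ∑ y ∈ R, (kerTrunc T m (x, y) : ENNReal)
          = ENNReal.ofReal (((d:ℝ) ^ n)⁻¹ * ∑ x ∈ R, ((d:ℝ) ^ n)⁻¹ * ∑ y ∈ R, ((kerTrunc T m (x, y) : NNReal) : ℝ)) := by
        have hinv : (R.card : ENNReal)⁻¹ = ENNReal.ofReal (((d:ℝ) ^ n)⁻¹) := by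
          rw [ENNReal.ofReal_inv_of_pos hpos, ← hcard, ENNReal.ofReal_natCast]
        rw [ENNReal.ofReal_mul (by positivity), ENNReal.ofReal_sum_of_nonneg (fun x _ => by positivity), hinv]
        congr 1
        apply Finset.sum_congr rfl
        intro x _
        rw [ENNReal.ofReal_mul (by positivity), ENNReal.ofReal_sum_of_nonneg (fun y _ => by positivity)]
        congr 1
        apply Finset.sum_congr rfl
        intro y _
        rw [ENNReal.ofReal_coe_nnreal]
      rw [e1]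
      apply ENNReal.ofReal_le_ofReal
      have hsum : ∑ x ∈ R, ∑ y ∈ R, ((kerTrunc T m (x, y) : NNReal) : ℝ)
          ≤ (d:ℝ) ^ n * (d:ℝ) ^ n * Real.log T + Ef R + (d:ℝ) ^ n * Cm := by
        have hx : ∀ x ∈ R, ∑ y ∈ R, ((kerTrunc T m (x, y) : NNReal) : ℝ)
            ≤ (d:ℝ) ^ n * Real.log T + (∑ y ∈ R.erase x, -Real.log (x - y)) + Cm := by
          intro x hx
          rw [← Finset.add_sum_erase R _ hx]
          have a1 : ((kerTrunc T m (x, x) : NNReal) : ℝ) ≤ Cm := by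
            have := NNReal.coe_le_coe.mpr (kerTrunc_le T m (x, x))
            refine this.trans ?_
            rw [Real.coe_toNNReal', hCm, max_comm]
          have a2 : ∑ y ∈ R.erase x, ((kerTrunc T m (x, y) : NNReal) : ℝ)
              ≤ ∑ y ∈ R.erase x, (Real.log T + -Real.log (x - y)) := by
            apply Finset.sum_le_sum
            intro y hy
            have hxy : x ≠ y := (Finset.ne_of_mem_erase hy).symm
            have hyR := Finset.mem_of_mem_erase hy
            have hx1 := S.sub x (S.RR_Ko h0 n x hx).1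
            have hy1 := S.sub y (S.RR_Ko h0 n y hyR).1
            have hdist : dist x y ≤ T := by
              rw [Real.dist_eq, abs_le]; constructor <;> linarith [hx1.1, hx1.2, hy1.1, hy1.2]
            have hdp : 0 < dist x y := dist_pos.mpr hxy
            unfold kerTrunc
            rw [Real.coe_toNNReal']
            have e2 : Real.log (x - y) = Real.log (dist x y) := by rw [Real.dist_eq, Real.log_abs]
            rw [e2]
            apply max_le
            · have := Real.log_le_log hdp (le_max_left (dist x y) (1 / ((m:ℝ) + 1)))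
              simp only
              linarith
            · have := Real.log_le_log hdp hdist
              linarith
          rw [Finset.sum_add_distrib, Finset.sum_const, nsmul_eq_mul] at a2
          have a3 : ((R.erase x).card : ℝ) * Real.log T ≤ (d:ℝ) ^ n * Real.log T := by
            rw [← hcard]
            gcongr
            exact Finset.erase_subset _ _
          linarith
        refine (Finset.sum_le_sum hx).trans ?_
        rw [Finset.sum_add_distrib, Finset.sum_add_distrib, Finset.sum_const, Finset.sum_const,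
          nsmul_eq_mul, nsmul_eq_mul, hcard]
        unfold Ef
        linarith
      have hE := hB n
      rw [← hR] at hE
      have e3 : ((d:ℝ) ^ n)⁻¹ * ∑ x ∈ R, ((d:ℝ) ^ n)⁻¹ * ∑ y ∈ R, ((kerTrunc T m (x, y) : NNReal) : ℝ)
          = (∑ x ∈ R, ∑ y ∈ R, ((kerTrunc T m (x, y) : NNReal) : ℝ)) / ((d:ℝ) ^ n * (d:ℝ) ^ n) := by
        rw [← Finset.mul_sum]
        field_simp
      rw [e3, div_le_iff₀ (by positivity)]
      have e4 : (Vc F d T + (B * (n + 1) + Cm) / (d:ℝ) ^ n) * ((d:ℝ) ^ n * (d:ℝ) ^ n)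
          = (d:ℝ) ^ n * (d:ℝ) ^ n * Real.log T + V * ((d:ℝ) ^ n * (d:ℝ) ^ n)
            + (B * (n + 1)) * (d:ℝ) ^ n + (d:ℝ) ^ n * Cm := by
        unfold Vc
        rw [← hV]
        field_simp
        ring
      rw [e4]
      have e5 : (d:ℝ) ^ (2 * n) = (d:ℝ) ^ n * (d:ℝ) ^ n := by rw [two_mul, pow_add]
      rw [e5] at hE
      linarith
    have h6 : Tendsto (fun n : ℕ => ENNReal.ofReal (Vc F d T + (B * (n + 1) + Cm) / (d:ℝ) ^ n)) atTop
        (𝓝 (ENNReal.ofReal (Vc F d T))) := by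
      apply (ENNReal.continuous_ofReal.tendsto _).comp
      have hd1 : (1:ℝ) < d := by exact_mod_cast (show 1 < d by omega)
      have t1 : Tendsto (fun n : ℕ => (n:ℝ) ^ 1 / (d:ℝ) ^ n) atTop (𝓝 0) :=
        tendsto_pow_const_div_const_pow_of_one_lt 1 hd1
      have t2 : Tendsto (fun n : ℕ => (n:ℝ) ^ 0 / (d:ℝ) ^ n) atTop (𝓝 0) :=
        tendsto_pow_const_div_const_pow_of_one_lt 0 hd1
      have t3 := (tendsto_const_nhds (x := Vc F d T)).add ((t1.const_mul B).add (t2.const_mul (B + Cm)))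
      simp only [mul_zero, add_zero] at t3
      refine t3.congr fun n => ?_
      simp only [pow_one, pow_zero]
      ring
    exact le_of_tendsto_of_tendsto' h4' (h6.mono_left H.hU) h5
  have h5 : ∫⁻ p, ker T p.1 p.2 ∂((ν : Measure ℝ).prod (ν : Measure ℝ))
      = ⨆ n, ∫⁻ p, (kerTrunc T n p : ENNReal) ∂((ν : Measure ℝ).prod (ν : Measure ℝ)) := by
    rw [← lintegral_iSup]
    · simp_rw [kerTrunc_iSup]
    · intro n
      exact (kerTrunc_continuous T n).measurable.coe_nnreal_ennreal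
    · exact kerTrunc_mono T
  rw [h5]
  exact iSup_le h3

end RD

/-- finite energy excludes atoms -/
theorem no_atom {T : ℝ} {μ : Measure ℝ} (h : en T μ μ ≠ ⊤) (x : ℝ) : μ {x} = 0 := by
  by_contra hx
  apply h
  rw [eq_top_iff]
  unfold en
  have h1 : ∀ z ∈ ({x} : Set ℝ), (⊤ : ENNReal) ≤ ∫⁻ y, ker T z y ∂μ := by
    intro z hz
    rw [Set.mem_singleton_iff] at hz
    rw [hz]
    calc (⊤ : ENNReal) = ⊤ * μ {x} := (ENNReal.top_mul hx).symm
      _ = ∫⁻ y in {x}, ⊤ ∂μ := by rw [lintegral_const, Measure.restrict_apply MeasurableSet.univ, Set.univ_inter]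
      _ = ∫⁻ y in {x}, ker T x y ∂μ := by
          apply setLIntegral_congr_fun (measurableSet_singleton x)
          intro y hy
          rw [Set.mem_singleton_iff] at hy
          simp only
          rw [hy]; unfold ker; rw [if_pos rfl]
      _ ≤ _ := setLIntegral_le_lintegral _ _
  calc (⊤ : ENNReal) = ⊤ * μ {x} := (ENNReal.top_mul hx).symm
    _ = ∫⁻ y in {x}, ⊤ ∂μ := by rw [lintegral_const, Measure.restrict_apply MeasurableSet.univ, Set.univ_inter]
    _ ≤ ∫⁻ z in {x}, ∫⁻ y, ker T z y ∂μ ∂μ := by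
        apply setLIntegral_mono' (measurableSet_singleton x)
        intro z hz
        exact h1 z hz
    _ ≤ _ := setLIntegral_le_lintegral _ _

end Pool.Agent.Helper566.J
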