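import Mathlib
import Pool.Agent.Helper566.JPot

set_option autoImplicit false
set_option linter.unusedVariables false

open Polynomial MeasureTheory Filter Topology

namespace Pool.Agent.Helper566.J

namespace RD

variable {a b : ℝ} {F : ℝ[X]} {d : ℕ} {K : Set ℝ}

theorem prod_abs_le {s : Multiset ℝ} {z r : ℝ} (hr : 0 ≤ r) (h : ∀ x ∈ s, |z - x| ≤ r) :
    |(s.map (fun x => z - x)).prod| ≤ r ^ s.card := by
  induction s using Multiset.induction_on with
  | empty => simp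
  | cons x s ih =>
    rw [Multiset.card_cons, Multiset.map_cons, Multiset.prod_cons, pow_succ, abs_mul, mul_comm]
    have h1 := ih fun y hy => h y (Multiset.mem_cons_of_mem hy)
    have h2 := h x (Multiset.mem_cons_self x s)
    exact mul_le_mul h1 h2 (abs_nonneg _) (by positivity)

theorem cap_le (S : RD a b F d K) : 1 ≤ |F.leadingCoeff| * (b - a) ^ (d - 1) := by
  have hab := S.ab
  have hd := S.hd
  have key : ∀ t ∈ K, |F.eval b - t| ≤ |F.leadingCoeff| * (b - a) ^ d := by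
    intro t ht
    obtain ⟨s, hs⟩ := S.split t ht
    rw [S.eval_s hs b, abs_mul]
    have h1 := prod_abs_le (s := s) (z := b) (r := b - a) (by linarith) (fun x hx => by
      have := S.sub x (S.mem_s ht hs hx).2
      rw [abs_le]; constructor <;> linarith [this.1, this.2])
    rw [S.card_s hs] at h1
    gcongr
  have h2 : b - a ≤ |F.leadingCoeff| * (b - a) ^ d := by
    rcases S.end_b with h | h
    · have := key b S.hb
      rw [h, abs_of_nonpos (by linarith)] at this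
      linarith
    · have := key a S.ha
      rw [h, abs_of_nonneg (by linarith)] at this
      linarith
  have h3 : (b - a) ^ d = (b - a) ^ (d - 1) * (b - a) := by
    rw [← pow_succ]; congr 1; omega
  rw [h3] at h2
  have h4 : (1 : ℝ) * (b - a) ≤ (|F.leadingCoeff| * (b - a) ^ (d - 1)) * (b - a) := by linarith
  exact le_of_mul_le_mul_right h4 (by linarith)

/-- kernel constant -/
theorem cc_nonneg (S : RD a b F d K) {T : ℝ} (hT : b - a ≤ T) :
    0 ≤ ((d:ℝ) - 1) * Real.log T + Real.log F.leadingCoeff := by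
  have hab := S.ab
  have hd := S.hd
  have h1 := S.cap_le
  have h2 := Real.log_nonneg h1
  have hl : |F.leadingCoeff| ≠ 0 := (abs_pos.mpr S.lc).ne'
  rw [Real.log_mul hl (pow_pos (by linarith) _).ne', Real.log_abs, Real.log_pow] at h2
  have h3 := Real.log_le_log (by linarith) hT
  have h4 : ((d - 1 : ℕ) : ℝ) = (d:ℝ) - 1 := by
    rw [Nat.cast_sub (by omega)]; simp
  rw [h4] at h2
  have h5 : (0:ℝ) ≤ (d:ℝ) - 1 := by
    have : (1:ℝ) ≤ d := by exact_mod_cast (show 1 ≤ d by omega)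
    linarith
  have := mul_le_mul_of_nonneg_left h3 h5
  linarith

variable {S : RD a b F d K} {t0 : ℝ} {h0 : t0 ∈ Ko a b K} {ν : ProbabilityMeasure ℝ} {U : Ultrafilter ℕ}

theorem Lim.ae_Ko (H : Lim S h0 ν U) (hat : ∀ x, (ν : Measure ℝ) {x} = 0) :
    ∀ᵐ t ∂(ν : Measure ℝ), t ∈ Ko a b K := by
  have h1 : ∀ x : ℝ, ∀ᵐ t ∂(ν : Measure ℝ), t ≠ x := by
    intro x
    rw [ae_iff]
    simpa using hat x
  filter_upwards [H.ae_K, h1 a, h1 b] with t h2 h3 h4
  exact ⟨h2, h3, h4⟩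

theorem Lim.bal_cont (H : Lim S h0 ν U) (hat : ∀ x, (ν : Measure ℝ) {x} = 0) {φ : ℝ → ℝ} (hφ : Continuous φ) :
    Integrable (fun t => ∑ x ∈ Rt F t, φ x) (ν : Measure ℝ) ∧
    ∫ t, ∑ x ∈ Rt F t, φ x ∂(ν : Measure ℝ) = d * ∫ x, φ x ∂(ν : Measure ℝ) := by
  have hd := S.hd
  have hae := H.ae_Ko hat
  have hpoly : ∀ k : ℕ, ∃ p : ℝ[X], ∀ x ∈ Set.Icc a b, |p.eval x - φ x| < 1 / ((k:ℝ) + 1) := fun k =>
    exists_polynomial_near_of_continuousOn a b φ hφ.continuousOn _ (by positivity)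
  choose p hp using hpoly
  have htr : ∀ k, ∃ τ, Ex F d (p k * chi F d) τ := fun k => by
    obtain ⟨τ, h1, -⟩ := S.exists_Tr (p k)
    exact ⟨τ, h1⟩
  choose τ hτ using htr
  set ψ : ℝ → ℝ := fun t => ∑ x ∈ Rt F t, φ x with hψ
  have hclose : ∀ k, ∀ t ∈ Ko a b K, |d * (τ k).eval t - ψ t| ≤ d * (1 / ((k:ℝ) + 1)) := by
    intro k t ht
    rw [← S.sum_Rt ht (hτ k), hψ]
    simp only
    rw [← Finset.sum_sub_distrib]
    refine (Finset.abs_sum_le_sum_abs _ _).trans ?_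
    calc ∑ x ∈ Rt F t, |(p k).eval x - φ x| ≤ ∑ _x ∈ Rt F t, 1 / ((k:ℝ) + 1) := by
          apply Finset.sum_le_sum
          intro x hx
          exact (hp k x (S.sub x (S.Rt_Ko ht hx).1)).le
      _ = _ := by rw [Finset.sum_const, nsmul_eq_mul, S.Rt_card ht]
  have hlim : Tendsto (fun k : ℕ => (d:ℝ) * (1 / ((k:ℝ) + 1))) atTop (𝓝 0) := by
    have := (tendsto_one_div_add_atTop_nhds_zero_nat (𝕜 := ℝ)).const_mul (d:ℝ)
    simpa using this
  have hmeas : AEStronglyMeasurable ψ (ν : Measure ℝ) := by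
    apply aestronglyMeasurable_of_tendsto_ae atTop (f := fun k t => (d:ℝ) * (τ k).eval t)
    · intro k
      exact (continuous_const.mul (τ k).continuous).aestronglyMeasurable
    · filter_upwards [hae] with t ht
      rw [tendsto_iff_norm_sub_tendsto_zero]
      apply squeeze_zero (fun k => norm_nonneg _) (fun k => ?_) hlim
      rw [Real.norm_eq_abs]
      exact hclose k t ht
  obtain ⟨φ', hφ'⟩ := exists_bcf S.ab.le φ hφ
  have hint : Integrable ψ (ν : Measure ℝ) := by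
    apply Integrable.of_bound hmeas ((d:ℝ) * ‖φ'‖)
    filter_upwards [hae] with t ht
    rw [Real.norm_eq_abs]
    refine (Finset.abs_sum_le_sum_abs _ _).trans ?_
    calc ∑ x ∈ Rt F t, |φ x| ≤ ∑ _x ∈ Rt F t, ‖φ'‖ := by
          apply Finset.sum_le_sum
          intro x hx
          rw [← hφ' x (S.sub x (S.Rt_Ko ht hx).1), ← Real.norm_eq_abs]
          exact φ'.norm_coe_le_norm x
      _ = _ := by rw [Finset.sum_const, nsmul_eq_mul, S.Rt_card ht]
  refine ⟨hint, ?_⟩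
  have hb : ∀ k : ℕ, |∫ t, ψ t ∂(ν : Measure ℝ) - d * ∫ x, φ x ∂(ν : Measure ℝ)| ≤ 2 * (d * (1 / ((k:ℝ) + 1))) := by
    intro k
    have i1 : Integrable (fun t => (d:ℝ) * (τ k).eval t) (ν : Measure ℝ) :=
      (H.cint (τ k).continuous).const_mul _
    have i2 : Integrable (fun t => (p k).eval t) (ν : Measure ℝ) := H.cint (p k).continuous
    have i3 : Integrable φ (ν : Measure ℝ) := H.cint hφ
    have b1 : |∫ t, ((d:ℝ) * (τ k).eval t - ψ t) ∂(ν : Measure ℝ)| ≤ d * (1 / ((k:ℝ) + 1)) := by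
      have := norm_integral_le_of_norm_le_const (μ := (ν : Measure ℝ)) (f := fun t => (d:ℝ) * (τ k).eval t - ψ t)
        (C := d * (1 / ((k:ℝ) + 1))) (by
          filter_upwards [hae] with t ht
          rw [Real.norm_eq_abs]; exact hclose k t ht)
      simpa using this
    have b2 : |∫ t, ((p k).eval t - φ t) ∂(ν : Measure ℝ)| ≤ 1 / ((k:ℝ) + 1) := by
      have := norm_integral_le_of_norm_le_const (μ := (ν : Measure ℝ)) (f := fun t => (p k).eval t - φ t)
        (C := 1 / ((k:ℝ) + 1)) (by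
          filter_upwards [H.ae_I] with t ht
          rw [Real.norm_eq_abs]; exact (hp k t ht).le)
      simpa using this
    rw [integral_sub i1 hint, integral_const_mul, ← H.bal (hτ k)] at b1
    rw [integral_sub i2 i3] at b2
    have e : ∫ t, ψ t ∂(ν : Measure ℝ) - d * ∫ x, φ x ∂(ν : Measure ℝ)
        = -((d:ℝ) * ∫ x, (p k).eval x ∂(ν : Measure ℝ) - ∫ t, ψ t ∂(ν : Measure ℝ))
          + d * (∫ x, (p k).eval x ∂(ν : Measure ℝ) - ∫ x, φ x ∂(ν : Measure ℝ)) := by ring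
    rw [e]
    refine (abs_add_le _ _).trans ?_
    rw [abs_neg, abs_mul, Nat.abs_cast]
    have : (d:ℝ) * |∫ x, (p k).eval x ∂(ν : Measure ℝ) - ∫ x, φ x ∂(ν : Measure ℝ)| ≤ d * (1 / ((k:ℝ) + 1)) := by
      gcongr
    linarith
  have h1 : |∫ t, ψ t ∂(ν : Measure ℝ) - d * ∫ x, φ x ∂(ν : Measure ℝ)| ≤ 0 := by
    have h2 := hlim.const_mul 2
    rw [mul_zero] at h2
    exact ge_of_tendsto' h2 hb
  have h2 := abs_nonpos_iff.mp h1
  linarith

theorem Lim.trunc (H : Lim S h0 ν U) (hat : ∀ x, (ν : Measure ℝ) {x} = 0) (T : ℝ) (M : ℕ) (x : ℝ) :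
    AEMeasurable (fun t => ∑ y ∈ Rt F t, (kerTrunc T M (x, y) : ENNReal)) (ν : Measure ℝ) ∧
    ∫⁻ t, ∑ y ∈ Rt F t, (kerTrunc T M (x, y) : ENNReal) ∂(ν : Measure ℝ)
      = d * ∫⁻ y, (kerTrunc T M (x, y) : ENNReal) ∂(ν : Measure ℝ) := by
  set φ : ℝ → ℝ := fun y => ((kerTrunc T M (x, y) : NNReal) : ℝ) with hφ
  have hc : Continuous φ := NNReal.continuous_coe.comp ((kerTrunc_continuous T M).comp (by fun_prop))
  obtain ⟨h1, h2⟩ := H.bal_cont hat hc
  have hφ0 : ∀ y, 0 ≤ φ y := fun y => NNReal.coe_nonneg _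
  have e1 : (fun t => ∑ y ∈ Rt F t, (kerTrunc T M (x, y) : ENNReal))
      = fun t => ENNReal.ofReal (∑ y ∈ Rt F t, φ y) := by
    funext t
    rw [ENNReal.ofReal_sum_of_nonneg (fun y _ => hφ0 y)]
    apply Finset.sum_congr rfl
    intro y _
    rw [hφ]; simp only; rw [ENNReal.ofReal_coe_nnreal]
  have e2 : (fun y => (kerTrunc T M (x, y) : ENNReal)) = fun y => ENNReal.ofReal (φ y) := by
    funext y
    rw [hφ]; simp only; rw [ENNReal.ofReal_coe_nnreal]
  rw [e1, e2]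
  refine ⟨h1.aestronglyMeasurable.aemeasurable.ennreal_ofReal, ?_⟩
  rw [← ofReal_integral_eq_lintegral_ofReal h1 (Eventually.of_forall fun t => Finset.sum_nonneg fun y _ => hφ0 y),
    ← ofReal_integral_eq_lintegral_ofReal (H.cint hc) (Eventually.of_forall hφ0), h2,
    ENNReal.ofReal_mul (by positivity), ENNReal.ofReal_natCast]

theorem ker_Rt (S : RD a b F d K) {T : ℝ} (hT : b - a ≤ T) {x t : ℝ} (hx : x ∈ K) (ht : t ∈ Ko a b K) :
    ker T (F.eval x) t + ENNReal.ofReal (((d:ℝ) - 1) * Real.log T + Real.log F.leadingCoeff)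
      = ∑ y ∈ Rt F t, ker T x y := by
  have hab := S.ab
  by_cases h : F.eval x = t
  · have h1 : ker T (F.eval x) t = ⊤ := by unfold ker; rw [if_pos h]
    rw [h1, top_add]
    symm
    rw [ENNReal.sum_eq_top]
    refine ⟨x, S.mem_Rt.mpr h, ?_⟩
    unfold ker; rw [if_pos rfl]
  · have hne : ∀ y ∈ Rt F t, x ≠ y := by
      rintro y hy rfl
      exact h (S.mem_Rt.mp hy)
    have hxI := S.sub x hx
    have hbd : ∀ u ∈ K, ∀ v ∈ K, u ≠ v → 0 ≤ Real.log T - Real.log (dist u v) := by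
      intro u hu v hv huv
      rw [sub_nonneg]
      apply Real.log_le_log (dist_pos.mpr huv)
      have h1 := S.sub u hu
      have h2 := S.sub v hv
      rw [Real.dist_eq, abs_le]
      constructor <;> linarith [h1.1, h1.2, h2.1, h2.2]
    have e1 : ∑ y ∈ Rt F t, ker T x y = ENNReal.ofReal (∑ y ∈ Rt F t, (Real.log T - Real.log (dist x y))) := by
      rw [ENNReal.ofReal_sum_of_nonneg]
      · apply Finset.sum_congr rfl
        intro y hy
        unfold ker
        rw [if_neg (hne y hy)]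
      · intro y hy
        exact hbd x hx y (S.Rt_Ko ht hy).1 (hne y hy)
    have e2 : ker T (F.eval x) t = ENNReal.ofReal (Real.log T - Real.log (dist (F.eval x) t)) := by
      unfold ker; rw [if_neg h]
    rw [e1, e2, ← ENNReal.ofReal_add (hbd _ ((S.inv x).mpr hx) _ ht.1 h) (S.cc_nonneg hT)]
    congr 1
    rw [Finset.sum_sub_distrib, Finset.sum_const, nsmul_eq_mul, S.Rt_card ht]
    have e3 : ∑ y ∈ Rt F t, Real.log (dist x y) = ∑ y ∈ Rt F t, Real.log (x - y) := by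
      apply Finset.sum_congr rfl
      intro y _
      rw [Real.dist_eq, Real.log_abs]
    rw [e3, S.log_Rt ht h, Real.dist_eq, Real.log_abs]
    ring

theorem Lim.pot_step (H : Lim S h0 ν U) (hat : ∀ x, (ν : Measure ℝ) {x} = 0) {T : ℝ} (hT : b - a ≤ T)
    {x : ℝ} (hx : x ∈ K) :
    (∫⁻ t, ker T (F.eval x) t ∂(ν : Measure ℝ))
      + ENNReal.ofReal (((d:ℝ) - 1) * Real.log T + Real.log F.leadingCoeff)
      ≤ d * ∫⁻ y, ker T x y ∂(ν : Measure ℝ) := by
  have e1 : (∫⁻ t, ker T (F.eval x) t ∂(ν : Measure ℝ))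
      + ENNReal.ofReal (((d:ℝ) - 1) * Real.log T + Real.log F.leadingCoeff)
      = ∫⁻ t, ⨆ M : ℕ, ∑ y ∈ Rt F t, (kerTrunc T M (x, y) : ENNReal) ∂(ν : Measure ℝ) := by
    have e2 : ENNReal.ofReal (((d:ℝ) - 1) * Real.log T + Real.log F.leadingCoeff)
        = ∫⁻ _t, ENNReal.ofReal (((d:ℝ) - 1) * Real.log T + Real.log F.leadingCoeff) ∂(ν : Measure ℝ) := by simp
    rw [e2, ← lintegral_add_right _ measurable_const]
    apply lintegral_congr_ae
    filter_upwards [H.ae_Ko hat] with t ht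
    rw [S.ker_Rt hT hx ht]
    rw [← ENNReal.finsetSum_iSup_of_monotone]
    · apply Finset.sum_congr rfl
      intro y _
      exact (kerTrunc_iSup T (x, y)).symm
    · intro y M M' hMM
      exact kerTrunc_mono T hMM (x, y)
  rw [e1, lintegral_iSup']
  · apply iSup_le
    intro M
    rw [(H.trunc hat T M x).2]
    gcongr with y
    rw [← kerTrunc_iSup T (x, y)]
    exact le_iSup (fun M => (kerTrunc T M (x, y) : ENNReal)) M
  · intro M
    exact (H.trunc hat T M x).1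
  · refine Eventually.of_forall fun t M M' hMM => ?_
    apply Finset.sum_le_sum
    intro y _
    exact kerTrunc_mono T hMM (x, y)

theorem Lim.pot_ge (H : Lim S h0 ν U) (hat : ∀ x, (ν : Measure ℝ) {x} = 0) {T : ℝ} (hT : b - a ≤ T)
    {x : ℝ} (hx : x ∈ K) : ENNReal.ofReal (Vc F d T) ≤ ∫⁻ y, ker T x y ∂(ν : Measure ℝ) := by
  have hd := S.hd
  have hd2 : (2:ℝ) ≤ d := by exact_mod_cast hd
  set c := ((d:ℝ) - 1) * Real.log T + Real.log F.leadingCoeff with hc
  have hc0 : 0 ≤ c := S.cc_nonneg hT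
  have hVc : ((d:ℝ) - 1) * Vc F d T = c := by
    unfold Vc
    have : (d:ℝ) - 1 ≠ 0 := by linarith
    rw [hc]; field_simp
  rcases le_or_gt (Vc F d T) 0 with hV | hV
  · rw [ENNReal.ofReal_of_nonpos hV]; exact zero_le
  have hcpos : 0 < c := by rw [← hVc]; apply mul_pos _ hV; linarith
  by_contra hcon
  push Not at hcon
  set V := Vc F d T with hVdef
  set u := (∫⁻ y, ker T x y ∂(ν : Measure ℝ)).toReal with hu
  have hfin : (∫⁻ y, ker T x y ∂(ν : Measure ℝ)) ≠ ⊤ := (lt_of_lt_of_le hcon le_top).ne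
  have huV : u < V := by
    rw [hu]
    have := (ENNReal.toReal_lt_toReal hfin ENNReal.ofReal_ne_top).mpr hcon
    rwa [ENNReal.toReal_ofReal hV.le] at this
  have hmem : ∀ n : ℕ, (fun y => F.eval y)^[n] x ∈ K := by
    intro n
    induction n with
    | zero => exact hx
    | succ n ih =>
      rw [Function.iterate_succ_apply']
      exact (S.inv _).mpr ih
  have hiter : ∀ n : ℕ, ∫⁻ y, ker T ((fun y => F.eval y)^[n] x) y ∂(ν : Measure ℝ)
      ≤ ENNReal.ofReal (V - (d:ℝ) ^ n * (V - u)) := by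
    intro n
    induction n with
    | zero =>
      simp only [Function.iterate_zero, id, pow_zero, one_mul]
      rw [show V - (V - u) = u by ring, hu, ENNReal.ofReal_toReal hfin]
    | succ n ih =>
      have h1 := H.pot_step hat hT (hmem n)
      rw [Function.iterate_succ_apply']
      have h2 : (d : ENNReal) * ∫⁻ y, ker T ((fun y => F.eval y)^[n] x) y ∂(ν : Measure ℝ)
          ≤ ENNReal.ofReal (d * (V - (d:ℝ) ^ n * (V - u))) := by
        rw [ENNReal.ofReal_mul (by positivity), ENNReal.ofReal_natCast]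
        gcongr
      have h3 := h1.trans h2
      have h4 := ENNReal.le_sub_of_add_le_right ENNReal.ofReal_ne_top h3
      rw [← ENNReal.ofReal_sub _ hc0] at h4
      refine h4.trans (ENNReal.ofReal_le_ofReal (le_of_eq ?_))
      rw [← hVc, pow_succ]; ring
  obtain ⟨n, hn⟩ := pow_unbounded_of_one_lt (V / (V - u)) (show (1:ℝ) < d by linarith)
  have h1 : V - (d:ℝ) ^ n * (V - u) ≤ 0 := by
    rw [div_lt_iff₀ (by linarith)] at hn
    linarith
  have h2 := hiter n
  rw [ENNReal.ofReal_of_nonpos h1] at h2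
  have h3 := H.pot_step hat hT (hmem n)
  rw [le_antisymm h2 zero_le, mul_zero] at h3
  have h4 : ENNReal.ofReal c ≤ 0 := le_trans le_add_self h3
  rw [nonpos_iff_eq_zero, ENNReal.ofReal_eq_zero] at h4
  linarith

/-- the minimiser is balanced -/
theorem bal_min (S : RD a b F d K) {T : ℝ} (hT : b - a < T) (hT1 : 1 ≤ T) (μ : Measure ℝ)
    [IsProbabilityMeasure μ] (hμK : μ Kᶜ = 0)
    (hmin : ∀ ν : Measure ℝ, IsProbabilityMeasure ν → ν Kᶜ = 0 → en T μ μ ≤ en T ν ν) :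
    (∀ x, μ {x} = 0) ∧ ∀ g τ : ℝ[X], Ex F d (g * chi F d) τ → ∫ x, g.eval x ∂μ = ∫ x, τ.eval x ∂μ := by
  obtain ⟨t0, ht0⟩ : ∃ t0, t0 ∈ Ko a b K := by
    have h1 := S.inf.sdiff (Set.toFinite {a, b})
    obtain ⟨t, ht⟩ := h1.nonempty
    refine ⟨t, ht.1, ?_, ?_⟩
    · rintro rfl; exact ht.2 (by simp)
    · rintro rfl; exact ht.2 (by simp)
  obtain ⟨ν, U, H⟩ := S.exists_Lim ht0
  have hE := H.energy hT.le hT1
  have hEfin : en T (ν : Measure ℝ) (ν : Measure ℝ) ≠ ⊤ := (lt_of_le_of_lt hE ENNReal.ofReal_lt_top).ne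
  have hat := no_atom hEfin
  have hμae : ∀ᵐ x ∂μ, x ∈ K := by rw [ae_iff]; exact hμK
  have hμI : ∀ᵐ x ∂μ, a ≤ x ∧ x ≤ b := by
    filter_upwards [hμae] with x hx using S.sub x hx
  have hle := hmin (ν : Measure ℝ) inferInstance H.supp
  have hcross : ENNReal.ofReal (Vc F d T) ≤ en T μ (ν : Measure ℝ) := by
    unfold en
    calc ENNReal.ofReal (Vc F d T) = ∫⁻ _x, ENNReal.ofReal (Vc F d T) ∂μ := by simp
      _ ≤ _ := by
        apply lintegral_mono_ae
        filter_upwards [hμae] with x hx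
        exact H.pot_ge hat hT.le hx
  have hab := S.ab
  have hT0 : 0 < T := by linarith
  have hdist : ∀ (μ ν : Measure ℝ), (∀ᵐ x ∂μ, a ≤ x ∧ x ≤ b) → (∀ᵐ x ∂ν, a ≤ x ∧ x ≤ b) →
      ∀ᵐ x ∂μ, ∀ᵐ y ∂ν, dist x y ≤ T := by
    intro μ ν hμ hν
    filter_upwards [hμ] with x hx
    filter_upwards [hν] with y hy
    rw [Real.dist_eq, abs_le]
    constructor <;> linarith [hx.1, hx.2, hy.1, hy.2]
  have hpd := en_pd hT0 μ (ν : Measure ℝ) (hdist _ _ hμI hμI) (hdist _ _ H.ae_I H.ae_I) (hdist _ _ hμI H.ae_I)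
  have hfin : en T μ (ν : Measure ℝ) ≠ ⊤ := by
    intro h
    rw [h] at hpd
    have h1 : en T μ μ + en T (ν : Measure ℝ) (ν : Measure ℝ) ≠ ⊤ :=
      ENNReal.add_ne_top.mpr ⟨(lt_of_le_of_lt hle (lt_top_iff_ne_top.mpr hEfin)).ne, hEfin⟩
    apply h1
    rw [eq_top_iff]
    refine le_trans ?_ hpd
    rw [ENNReal.mul_top (by norm_num)]
  have heq : μ = (ν : Measure ℝ) := by
    apply eq_of_en hab.le hT μ (ν : Measure ℝ) hμI H.ae_I hfin
    calc en T μ μ + en T (ν : Measure ℝ) (ν : Measure ℝ)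
        ≤ ENNReal.ofReal (Vc F d T) + ENNReal.ofReal (Vc F d T) := add_le_add (hle.trans hE) hE
      _ = 2 * ENNReal.ofReal (Vc F d T) := by ring
      _ ≤ _ := by gcongr
  rw [heq]
  exact ⟨hat, fun g τ h => H.bal h⟩

end RD

end Pool.Agent.Helper566.J
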