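import Mathlib
import Pool.Agent.Helper566.JGeo

set_option autoImplicit false
set_option linter.unusedVariables false

open Polynomial Finset

namespace Pool.Agent.Helper566.J

/-- filled Julia set of a complex polynomial -/
def Kf (f : ℂ[X]) : Set ℂ := {z : ℂ | Bornology.IsBounded (Set.range (fun n : ℕ => (fun w : ℂ => f.eval w)^[n] z))}

section cplx

variable {f : ℂ[X]}

theorem mem_Kf (z : ℂ) : z ∈ Kf f ↔
    Bornology.IsBounded (Set.range (fun n : ℕ => (fun w : ℂ => f.eval w)^[n] z)) := Iff.rfl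

theorem esc_radius (hf : 2 ≤ f.natDegree) : ∃ R : ℝ, 1 ≤ R ∧ ∀ z : ℂ, R ≤ ‖z‖ → 2 * ‖z‖ ≤ ‖f.eval z‖ := by
  have hdeg : 0 < f.divX.degree := by
    rw [← natDegree_pos_iff_degree_pos, natDegree_divX_eq_natDegree_tsub_one]
    omega
  have h1 := tendsto_norm_atTop f.divX hdeg (l := Filter.comap (fun z : ℂ => ‖z‖) Filter.atTop)
    (z := fun z => z) Filter.tendsto_comap
  have h2 := h1.eventually (Filter.eventually_ge_atTop (3:ℝ))
  rw [Filter.eventually_comap] at h2
  obtain ⟨R1, hR1⟩ := Filter.eventually_atTop.mp h2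
  refine ⟨max 1 (max R1 ‖f.coeff 0‖), le_max_left _ _, ?_⟩
  intro z hz
  have hz1 : R1 ≤ ‖z‖ := le_trans ((le_max_left _ _).trans (le_max_right _ _)) hz
  have hz2 : ‖f.coeff 0‖ ≤ ‖z‖ := le_trans ((le_max_right _ _).trans (le_max_right _ _)) hz
  have h3 := hR1 ‖z‖ hz1 z rfl
  have h4 : f.eval z = f.divX.eval z * z + f.coeff 0 := by
    conv_lhs => rw [← divX_mul_X_add f]
    rw [eval_add, eval_mul, eval_X, eval_C]
  rw [h4]
  have h5 : ‖f.divX.eval z * z‖ - ‖f.coeff 0‖ ≤ ‖f.divX.eval z * z + f.coeff 0‖ := by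
    have := norm_sub_norm_le (f.divX.eval z * z) (-f.coeff 0)
    rwa [norm_neg, sub_neg_eq_add] at this
  rw [norm_mul] at h5
  have h6 : 3 * ‖z‖ ≤ ‖f.divX.eval z‖ * ‖z‖ := by gcongr
  linarith

theorem esc_iter {R : ℝ} (hR : 1 ≤ R) (h : ∀ z : ℂ, R ≤ ‖z‖ → 2 * ‖z‖ ≤ ‖f.eval z‖) {z : ℂ}
    (hz : R ≤ ‖z‖) (k : ℕ) : R * 2 ^ k ≤ ‖(fun w : ℂ => f.eval w)^[k] z‖ := by
  induction k with
  | zero => simpa using hz
  | succ k ih =>
    rw [Function.iterate_succ_apply']
    have h1 : R ≤ ‖(fun w : ℂ => f.eval w)^[k] z‖ := by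
      have : (1:ℝ) ≤ 2 ^ k := one_le_pow₀ (by norm_num)
      nlinarith
    have h2 := h _ h1
    rw [pow_succ]
    linarith

theorem Kf_iff {R : ℝ} (hR : 1 ≤ R) (h : ∀ z : ℂ, R ≤ ‖z‖ → 2 * ‖z‖ ≤ ‖f.eval z‖) (z : ℂ) :
    z ∈ Kf f ↔ ∀ n : ℕ, ‖(fun w : ℂ => f.eval w)^[n] z‖ ≤ R := by
  constructor
  · intro hz n
    by_contra hcon
    push Not at hcon
    obtain ⟨M, hM⟩ := isBounded_iff_forall_norm_le.mp ((mem_Kf z).mp hz)
    obtain ⟨k, hk⟩ := pow_unbounded_of_one_lt M (show (1:ℝ) < 2 by norm_num)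
    have h1 := esc_iter hR h hcon.le k
    rw [← Function.iterate_add_apply] at h1
    have h2 := hM _ (Set.mem_range_self (k + n))
    have : (0:ℝ) < 2 ^ k := by positivity
    nlinarith
  · intro hz
    rw [mem_Kf]
    apply isBounded_iff_forall_norm_le.mpr
    refine ⟨R, ?_⟩
    rintro x ⟨n, rfl⟩
    exact hz n

theorem iter_cont (n : ℕ) : Continuous ((fun w : ℂ => f.eval w)^[n]) :=
  Continuous.iterate f.continuous n

theorem Kf_closed (hf : 2 ≤ f.natDegree) : IsClosed (Kf f) := by
  obtain ⟨R, hR, h⟩ := esc_radius hf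
  have : Kf f = ⋂ n : ℕ, {z | ‖(fun w : ℂ => f.eval w)^[n] z‖ ≤ R} := by
    ext z
    rw [Kf_iff hR h, Set.mem_iInter]
    rfl
  rw [this]
  exact isClosed_iInter fun n => isClosed_le (iter_cont n).norm continuous_const

theorem Kf_bdd (hf : 2 ≤ f.natDegree) : ∃ R : ℝ, ∀ z ∈ Kf f, ‖z‖ ≤ R := by
  obtain ⟨R, hR, h⟩ := esc_radius hf
  refine ⟨R, ?_⟩
  intro z hz
  exact (Kf_iff hR h z).mp hz 0

theorem Kf_inv (hf : 2 ≤ f.natDegree) (z : ℂ) : f.eval z ∈ Kf f ↔ z ∈ Kf f := by
  obtain ⟨R, hR, h⟩ := esc_radius hf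
  rw [Kf_iff hR h, Kf_iff hR h]
  constructor
  · intro hz n
    cases n with
    | zero =>
      by_contra hcon
      push Not at hcon
      simp only [Function.iterate_zero, id] at hcon
      have h1 := h z hcon.le
      have h2 := hz 0
      simp only [Function.iterate_zero, id] at h2
      linarith
    | succ n =>
      rw [Function.iterate_succ_apply]
      exact hz n
  · intro hz n
    have := hz (n + 1)
    rwa [Function.iterate_succ_apply] at this

theorem Kf_ne (hf : 2 ≤ f.natDegree) : (Kf f).Nonempty := by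
  have hdeg : (f - X).natDegree = f.natDegree := by
    apply natDegree_sub_eq_left_of_natDegree_lt
    rw [natDegree_X]; omega
  obtain ⟨z, hz⟩ := IsAlgClosed.exists_root (f - X) (by
    exact (natDegree_pos_iff_degree_pos.mp (by omega)).ne')
  refine ⟨z, ?_⟩
  have hz' : f.eval z = z := by
    rw [IsRoot, eval_sub, eval_X, sub_eq_zero] at hz
    exact hz
  have hfix : ∀ n : ℕ, (fun w : ℂ => f.eval w)^[n] z = z := fun n =>
    Function.iterate_fixed hz' n
  rw [mem_Kf]
  simp only [hfix, Set.range_const]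
  exact Bornology.isBounded_singleton

theorem Kf_real (hf : 2 ≤ f.natDegree) (hR : frontier (Kf f) ⊆ Set.range ((↑) : ℝ → ℂ)) :
    Kf f ⊆ Set.range ((↑) : ℝ → ℂ) := by
  obtain ⟨R, hRb⟩ := Kf_bdd hf
  have hcl := Kf_closed hf
  have key : ∀ (σ : ℝ), (σ = 1 ∨ σ = -1) → ∀ z ∈ Kf f, ¬ (0 < σ * z.im) := by
    intro σ hσ z hz him
    set H : Set ℂ := {w | 0 < σ * w.im} with hH
    have hconv : Convex ℝ H := by
      intro x hx y hy s t hs ht hst
      show 0 < σ * (s • x + t • y).im
      have : (s • x + t • y).im = s * x.im + t * y.im := by simp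
      rw [this]
      have hx' : 0 < σ * x.im := hx
      have hy' : 0 < σ * y.im := hy
      rcases eq_or_lt_of_le hs with h | h
      · have : t = 1 := by linarith
        rw [← h, this]; linarith
      · have h1 : 0 < s * (σ * x.im) := mul_pos h hx'
        have h2 : 0 ≤ t * (σ * y.im) := mul_nonneg ht hy'.le
        nlinarith
    have hsub : H ⊆ interior (Kf f) := by
      apply hconv.isPreconnected.subset_left_of_subset_union isOpen_interior hcl.isOpen_compl
      · rw [Set.disjoint_left]
        intro x hx hx'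
        exact hx' (interior_subset hx)
      · intro x hx
        by_cases hxK : x ∈ Kf f
        · left
          by_contra hni
          have : x ∈ frontier (Kf f) := ⟨subset_closure hxK, hni⟩
          obtain ⟨r, hr⟩ := hR this
          have hx' : 0 < σ * x.im := hx
          rw [← hr] at hx'
          simp at hx'
        · exact Or.inr hxK
      · refine ⟨z, him, ?_⟩
        by_contra hni
        have : z ∈ frontier (Kf f) := ⟨subset_closure hz, hni⟩
        obtain ⟨r, hr⟩ := hR this
        rw [← hr] at him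
        simp at him
    set w : ℂ := ((|R| + 1 : ℝ) * σ : ℝ) * Complex.I with hw
    have hwH : w ∈ H := by
      show 0 < σ * w.im
      have : w.im = (|R| + 1) * σ := by simp [hw]
      rw [this]
      have h1 : σ * σ = 1 := by rcases hσ with h | h <;> rw [h] <;> norm_num
      have : 0 ≤ |R| := abs_nonneg R
      nlinarith
    have h1 := hRb w (interior_subset (hsub hwH))
    have h2 : ‖w‖ = |R| + 1 := by
      rw [hw, norm_mul, Complex.norm_I, mul_one, Complex.norm_real, Real.norm_eq_abs, abs_mul]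
      have : |σ| = 1 := by rcases hσ with h | h <;> simp [h]
      rw [this, mul_one, abs_of_nonneg]
      have := abs_nonneg R
      linarith
    have := le_abs_self R
    linarith
  intro z hz
  have h1 := key 1 (Or.inl rfl) z hz
  have h2 := key (-1) (Or.inr rfl) z hz
  refine ⟨z.re, ?_⟩
  apply Complex.ext
  · simp
  · simp only [Complex.ofReal_im]
    linarith

theorem Kf_frontier (hf : 2 ≤ f.natDegree) (hR : frontier (Kf f) ⊆ Set.range ((↑) : ℝ → ℂ)) :
    frontier (Kf f) = Kf f := by
  have hcl := Kf_closed hf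
  have hreal := Kf_real hf hR
  rw [hcl.frontier_eq]
  have : interior (Kf f) = ∅ := by
    rw [Set.eq_empty_iff_forall_notMem]
    intro z hz
    obtain ⟨ε, hε, hball⟩ := Metric.isOpen_iff.mp isOpen_interior z hz
    have h1 : z + (ε / 2 : ℝ) * Complex.I ∈ Kf f := by
      apply interior_subset
      apply hball
      rw [Metric.mem_ball, dist_eq_norm]
      simp only [add_sub_cancel_left, norm_mul, Complex.norm_I, mul_one, Complex.norm_real, Real.norm_eq_abs]
      rw [abs_of_pos (by linarith)]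
      linarith
    obtain ⟨r, hr⟩ := hreal h1
    obtain ⟨s, hs⟩ := hreal (interior_subset hz)
    rw [← hs] at hr
    have := congrArg Complex.im hr
    simp at this
    linarith
  rw [this, Set.sdiff_empty]

theorem Kf_inf (hf : 2 ≤ f.natDegree) (hR : frontier (Kf f) ⊆ Set.range ((↑) : ℝ → ℂ)) :
    (Kf f).Infinite := by
  intro hfin
  obtain ⟨Rb, hRb1, hRb⟩ := esc_radius hf
  have hmaps : Set.MapsTo (fun w => f.eval w) (Kf f) (Kf f) := fun z hz => (Kf_inv hf z).mpr hz
  have hroot : ∀ w, ∃ z, f.eval z = w := by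
    intro w
    obtain ⟨z, hz⟩ := IsAlgClosed.exists_root (f - C w) (by
      exact (natDegree_pos_iff_degree_pos.mp (by rw [natDegree_sub_C]; omega)).ne')
    rw [IsRoot, eval_sub, eval_C, sub_eq_zero] at hz
    exact ⟨z, hz⟩
  have hsurj : Set.SurjOn (fun w => f.eval w) (Kf f) (Kf f) := by
    intro w hw
    obtain ⟨z, hz⟩ := hroot w
    refine ⟨z, ?_, hz⟩
    rw [← Kf_inv hf, hz]
    exact hw
  have hinj := ((hfin.surjOn_iff_bijOn_of_mapsTo hmaps).mp hsurj).injOn
  set l := f.leadingCoeff with hl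
  have hl0 : l ≠ 0 := by
    rw [hl, Ne, leadingCoeff_eq_zero]
    rintro rfl
    simp at hf
  have key : ∀ z ∈ Kf f, f = C (f.eval z) + C l * (X - C z) ^ f.natDegree := by
    intro z hz
    have hs := (IsAlgClosed.splits (f - C (f.eval z))).eq_prod_roots
    have hlead : (f - C (f.eval z)).leadingCoeff = l := by
      rw [leadingCoeff, natDegree_sub_C, coeff_sub, coeff_C_of_ne_zero (by omega), sub_zero]
      rfl
    have hne : f - C (f.eval z) ≠ 0 := by
      intro h0
      rw [h0, leadingCoeff_zero] at hlead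
      exact hl0 hlead.symm
    have hroots : ∀ y ∈ (f - C (f.eval z)).roots, y = z := by
      intro y hy
      rw [mem_roots hne, IsRoot, eval_sub, eval_C, sub_eq_zero] at hy
      apply hinj _ hz hy
      rw [← Kf_inv hf, hy, Kf_inv hf]
      exact hz
    have hrep := Multiset.eq_replicate_of_mem hroots
    have hcard : (f - C (f.eval z)).roots.card = f.natDegree := by
      rw [← (IsAlgClosed.splits (f - C (f.eval z))).natDegree_eq_card_roots, natDegree_sub_C]
    rw [hrep, hcard, Multiset.map_replicate, Multiset.prod_replicate, hlead] at hs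
    rw [← hs]; ring
  obtain ⟨z0, hz0⟩ := Kf_ne hf
  have huniq : ∀ z ∈ Kf f, z = z0 := by
    intro z hz
    have h1 := key z hz
    have h2 := key z0 hz0
    have d1 := congrArg derivative h1
    have d2 := congrArg derivative h2
    rw [derivative_add, derivative_C, zero_add, derivative_C_mul, derivative_X_sub_C_pow] at d1 d2
    have e1 := congrArg (eval z) d1
    rw [d2] at e1
    simp only [eval_mul, eval_C, eval_pow, eval_sub, eval_X, sub_self] at e1
    rw [zero_pow (show f.natDegree - 1 ≠ 0 by omega)] at e1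
    have hd0 : ((f.natDegree : ℕ) : ℂ) ≠ 0 := by
      rw [Nat.cast_ne_zero]; omega
    have e2 : (z - z0) ^ (f.natDegree - 1) = 0 := by
      have e3 : l * ((f.natDegree : ℂ) * (z - z0) ^ (f.natDegree - 1)) = 0 := by
        simpa using e1
      rcases mul_eq_zero.mp e3 with h | h
      · exact absurd h hl0
      · rcases mul_eq_zero.mp h with h | h
        · exact absurd h hd0
        · exact h
    exact sub_eq_zero.mp (pow_eq_zero_iff (show f.natDegree - 1 ≠ 0 by omega) |>.mp e2)
  have hfix : f.eval z0 = z0 := huniq _ ((Kf_inv hf z0).mpr hz0)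
  have hform := key z0 hz0
  rw [hfix] at hform
  -- a small disc is invariant
  set r : ℝ := min 1 (1 / ‖l‖) with hr
  have hln : 0 < ‖l‖ := norm_pos_iff.mpr hl0
  have hr0 : 0 < r := lt_min one_pos (by positivity)
  have hr1 : r ≤ 1 := min_le_left _ _
  have hr2 : ‖l‖ * r ≤ 1 := by
    have : r ≤ 1 / ‖l‖ := min_le_right _ _
    calc ‖l‖ * r ≤ ‖l‖ * (1 / ‖l‖) := by gcongr
      _ = 1 := by field_simp
  have hstep : ∀ w : ℂ, ‖w - z0‖ ≤ r → ‖f.eval w - z0‖ ≤ r := by
    intro w hw
    have e : f.eval w - z0 = l * (w - z0) ^ f.natDegree := by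
      conv_lhs => rw [hform]
      simp
    rw [e, norm_mul, norm_pow]
    have h1 : ‖w - z0‖ ^ f.natDegree ≤ r ^ f.natDegree := by gcongr
    have h2 : r ^ f.natDegree ≤ r ^ 2 := pow_le_pow_of_le_one hr0.le hr1 hf
    calc ‖l‖ * ‖w - z0‖ ^ f.natDegree ≤ ‖l‖ * r ^ 2 := by gcongr; linarith
      _ = (‖l‖ * r) * r := by ring
      _ ≤ 1 * r := by gcongr
      _ = r := one_mul r
  have hiter : ∀ w : ℂ, ‖w - z0‖ ≤ r → ∀ n : ℕ, ‖(fun w : ℂ => f.eval w)^[n] w - z0‖ ≤ r := by
    intro w hw n
    induction n with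
    | zero => exact hw
    | succ n ih =>
      rw [Function.iterate_succ_apply']
      exact hstep _ ih
  have hmem : z0 + (r : ℂ) ∈ Kf f := by
    rw [mem_Kf]
    apply isBounded_iff_forall_norm_le.mpr
    refine ⟨r + ‖z0‖, ?_⟩
    rintro x ⟨n, rfl⟩
    have h1 := hiter (z0 + (r : ℂ)) (by
      rw [add_sub_cancel_left, Complex.norm_real, Real.norm_eq_abs, abs_of_pos hr0]) n
    simp only
    have h2 := norm_sub_norm_le ((fun w : ℂ => f.eval w)^[n] (z0 + (r : ℂ))) z0
    linarith
  have h1 := huniq _ hmem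
  have h2 : (r : ℂ) = 0 := by
    have := congrArg (fun w => w - z0) h1
    simpa using this
  exact hr0.ne' (by exact_mod_cast h2)

end cplx

/-- passage to the real line -/
theorem exists_RD (f : ℂ[X]) (hf : 2 ≤ f.natDegree)
    (hR : frontier (Kf f) ⊆ Set.range ((↑) : ℝ → ℂ)) :
    ∃ (F : ℝ[X]) (a b : ℝ), f = F.map Complex.ofRealHom ∧ RD a b F f.natDegree {x : ℝ | (x : ℂ) ∈ Kf f} := by
  obtain ⟨R, hR1, hRe⟩ := esc_radius hf
  have hreal := Kf_real hf hR
  have hinf := Kf_inf hf hR
  have hcl := Kf_closed hf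
  set K : Set ℝ := {x : ℝ | (x : ℂ) ∈ Kf f} with hK
  have hKimg : Kf f = ((↑) : ℝ → ℂ) '' K := by
    ext z
    constructor
    · intro hz
      obtain ⟨r, rfl⟩ := hreal hz
      exact ⟨r, hz, rfl⟩
    · rintro ⟨r, hr, rfl⟩
      exact hr
  have hKinf : K.Infinite := by
    intro h
    apply hinf
    rw [hKimg]
    exact h.image _
  set d := f.natDegree with hd
  set F : ℝ[X] := ∑ i ∈ range (d + 1), C (f.coeff i).re * X ^ i with hF
  set G : ℝ[X] := ∑ i ∈ range (d + 1), C (f.coeff i).im * X ^ i with hG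
  have hFG : ∀ x : ℝ, f.eval (x : ℂ) = (F.eval x : ℝ) + (G.eval x : ℝ) * Complex.I := by
    intro x
    rw [eval_eq_sum_range, hF, hG, eval_finsetSum, eval_finsetSum]
    push_cast
    rw [sum_mul, ← sum_add_distrib]
    apply sum_congr rfl
    intro i _
    simp only [eval_mul, eval_C, eval_pow, eval_X]
    push_cast
    conv_lhs => rw [← Complex.re_add_im (f.coeff i)]
    ring
  have hG0 : G = 0 := by
    apply eq_zero_of_infinite_isRoot
    apply hKinf.mono
    intro x hx
    have h1 : f.eval (x : ℂ) ∈ Kf f := (Kf_inv hf _).mpr hx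
    obtain ⟨r, hr⟩ := hreal h1
    have h2 := congrArg Complex.im (hFG x)
    rw [← hr] at h2
    simp at h2
    exact h2.symm
  have hcF : ∀ i, F.coeff i = (f.coeff i).re := by
    intro i
    rw [hF, finsetSum_coeff]
    simp only [coeff_C_mul, coeff_X_pow, mul_ite, mul_one, mul_zero]
    rw [Finset.sum_ite_eq]
    split_ifs with h
    · rfl
    · rw [mem_range] at h
      rw [coeff_eq_zero_of_natDegree_lt (by omega)]; simp
  have hcG : ∀ i, G.coeff i = (f.coeff i).im := by
    intro i
    rw [hG, finsetSum_coeff]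
    simp only [coeff_C_mul, coeff_X_pow, mul_ite, mul_one, mul_zero]
    rw [Finset.sum_ite_eq]
    split_ifs with h
    · rfl
    · rw [mem_range] at h
      rw [coeff_eq_zero_of_natDegree_lt (by omega)]; simp
  have hfF : f = F.map Complex.ofRealHom := by
    ext i
    rw [coeff_map, hcF]
    apply Complex.ext
    · simp
    · rw [← hcG, hG0]; simp
  have hFd : F.natDegree = d := by
    rw [hd, hfF, natDegree_map]
  have hev : ∀ x : ℝ, f.eval (x : ℂ) = ((F.eval x : ℝ) : ℂ) := by
    intro x
    rw [hFG x, hG0]; simp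
  have hinvK : ∀ x : ℝ, F.eval x ∈ K ↔ x ∈ K := by
    intro x
    show ((F.eval x : ℝ) : ℂ) ∈ Kf f ↔ (x : ℂ) ∈ Kf f
    rw [← hev]
    exact Kf_inv hf _
  have hKcl : IsClosed K := hcl.preimage Complex.continuous_ofReal
  have hKb : ∀ x ∈ K, |x| ≤ R := by
    intro x hx
    have := (Kf_iff hR1 hRe (x : ℂ)).mp hx 0
    simpa using this
  have hKc : IsCompact K := by
    apply Metric.isCompact_of_isClosed_isBounded hKcl
    apply isBounded_iff_forall_norm_le.mpr
    exact ⟨R, fun x hx => by rw [Real.norm_eq_abs]; exact hKb x hx⟩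
  have hKne : K.Nonempty := hKinf.nonempty
  refine ⟨F, sInf K, sSup K, hfF, ?_⟩
  exact
    { hF := hFd
      hd := hf
      cpt := hKc
      inf := hKinf
      ha := hKc.sInf_mem hKne
      hb := hKc.sSup_mem hKne
      sub := fun x hx => ⟨csInf_le hKc.bddBelow hx, le_csSup hKc.bddAbove hx⟩
      inv := hinvK
      split := by
        intro t ht
        have hq : (F - C t).map Complex.ofRealHom = f - C (t : ℂ) := by
          rw [Polynomial.map_sub, map_C, ← hfF]; rfl
        have hqd : 0 < (F - C t).natDegree := by rw [natDegree_sub_C, hFd]; omega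
        have hs := (IsAlgClosed.splits (f - C (t : ℂ))).eq_prod_roots
        have hne : f - C (t : ℂ) ≠ 0 := by
          intro h0
          have : (f - C (t : ℂ)).natDegree = 0 := by rw [h0]; simp
          rw [natDegree_sub_C] at this
          omega
        have hrr : ∀ z ∈ (f - C (t : ℂ)).roots, ((z.re : ℝ) : ℂ) = z := by
          intro z hz
          rw [mem_roots hne, IsRoot, eval_sub, eval_C, sub_eq_zero] at hz
          have h1 : z ∈ Kf f := by
            rw [← Kf_inv hf, hz]; exact ht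
          obtain ⟨r, rfl⟩ := hreal h1
          simp
        set s : Multiset ℝ := (f - C (t : ℂ)).roots.map Complex.re with hsdef
        have hsm : s.map (fun x : ℝ => (x : ℂ)) = (f - C (t : ℂ)).roots := by
          rw [hsdef, Multiset.map_map]
          conv_rhs => rw [← Multiset.map_id (f - C (t : ℂ)).roots]
          apply Multiset.map_congr rfl
          intro z hz
          exact hrr z hz
        refine ⟨s, ?_⟩
        apply Polynomial.map_injective Complex.ofRealHom Complex.ofRealHom.injective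
        rw [hq, hs]
        rw [Polynomial.map_mul, map_C]
        have hlead : (f - C (t : ℂ)).leadingCoeff = Complex.ofRealHom F.leadingCoeff := by
          rw [leadingCoeff, natDegree_sub_C, coeff_sub, coeff_C_of_ne_zero (by omega), sub_zero]
          rw [hfF, natDegree_map, coeff_map]; rfl
        rw [hlead]
        congr 1
        unfold lp
        rw [Polynomial.map_multiset_prod, Multiset.map_map, ← hsm, Multiset.map_map]
        congr 1
        apply Multiset.map_congr rfl
        intro x _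
        simp
      esc := by
        intro x hx Z
        have hx' : ¬ ∀ n : ℕ, ‖(fun w : ℂ => f.eval w)^[n] (x : ℂ)‖ ≤ R := by
          rw [← Kf_iff hR1 hRe]; exact hx
        push Not at hx'
        obtain ⟨n0, hn0⟩ := hx'
        have hit : ∀ k : ℕ, (fun w : ℂ => f.eval w)^[k] (x : ℂ) = (((fun y => F.eval y)^[k] x : ℝ) : ℂ) := by
          intro k
          induction k with
          | zero => rfl
          | succ k ih =>
            rw [Function.iterate_succ_apply', Function.iterate_succ_apply', ih, hev]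
        obtain ⟨k0, hk0⟩ := pow_unbounded_of_one_lt Z (show (1:ℝ) < 2 by norm_num)
        refine ⟨n0 + k0, ?_⟩
        intro k hk
        obtain ⟨j, rfl⟩ : ∃ j, k = (k0 + j) + n0 := ⟨k - n0 - k0, by omega⟩
        have h1 := esc_iter hR1 hRe hn0.le (k0 + j)
        rw [← Function.iterate_add_apply, hit, Complex.norm_real, Real.norm_eq_abs] at h1
        refine le_trans ?_ h1
        have h2 : (1:ℝ) ≤ 2 ^ j := one_le_pow₀ (by norm_num)
        have h3 : (0:ℝ) < 2 ^ k0 := by positivity
        rw [pow_add]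
        have h4 : (2:ℝ) ^ k0 ≤ 2 ^ k0 * 2 ^ j := by nlinarith
        have h5 : (2:ℝ) ^ k0 * 2 ^ j ≤ R * (2 ^ k0 * 2 ^ j) := by
          have : 0 < (2:ℝ) ^ k0 * 2 ^ j := by positivity
          nlinarith
        linarith }

end Pool.Agent.Helper566.J
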