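import Mathlib
import Pool.Agent.Helper566.JHyp

set_option autoImplicit false
set_option linter.unusedVariables false

open Polynomial Finset

namespace Pool.Agent.Helper566.J

/-- Lipschitz bound for the harmonic mean -/
theorem harm_lip {p q p' q' : ℝ} (hp : 0 < p) (hq : 0 < q) (hp' : 0 < p') (hq' : 0 < q') :
    |p * q / (p + q) - p' * q' / (p' + q')| ≤ |p - p'| + |q - q'| := by
  have h1 : 0 < p + q := by linarith
  have h2 : 0 < p' + q' := by linarith
  have e : p * q / (p + q) - p' * q' / (p' + q')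
      = (p - p') * (q / (p + q) * (q' / (p' + q'))) + (q - q') * (p / (p + q) * (p' / (p' + q'))) := by
    field_simp
    ring
  rw [e]
  refine (abs_add_le _ _).trans ?_
  rw [abs_mul (p - p'), abs_mul (q - q')]
  have b1 : |q / (p + q) * (q' / (p' + q'))| ≤ 1 := by
    rw [abs_of_pos (by positivity)]
    have : q / (p + q) ≤ 1 := by rw [div_le_one h1]; linarith
    have : q' / (p' + q') ≤ 1 := by rw [div_le_one h2]; linarith
    have : 0 < q / (p + q) := by positivity
    have : 0 < q' / (p' + q') := by positivity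
    nlinarith
  have b2 : |p / (p + q) * (p' / (p' + q'))| ≤ 1 := by
    rw [abs_of_pos (by positivity)]
    have : p / (p + q) ≤ 1 := by rw [div_le_one h1]; linarith
    have : p' / (p' + q') ≤ 1 := by rw [div_le_one h2]; linarith
    have : 0 < p / (p + q) := by positivity
    have : 0 < p' / (p' + q') := by positivity
    nlinarith
  have := abs_nonneg (p - p')
  have := abs_nonneg (q - q')
  nlinarith

/-- Lipschitz bound for the fraction, arguments at least one -/
theorem frac_lip {p q p' q' : ℝ} (hp : 1 ≤ p) (hq : 1 ≤ q) (hp' : 1 ≤ p') (hq' : 1 ≤ q') :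
    |q / (p + q) - q' / (p' + q')| ≤ |p - p'| + |q - q'| := by
  have h1 : 0 < p + q := by linarith
  have h2 : 0 < p' + q' := by linarith
  have e : q / (p + q) - q' / (p' + q')
      = (q - q') * (p' / (p' + q') * (1 / (p + q))) - (p - p') * (q' / (p' + q') * (1 / (p + q))) := by
    field_simp
    ring
  rw [e]
  refine (abs_sub _ _).trans ?_
  rw [abs_mul (q - q'), abs_mul (p - p')]
  have b0 : 1 / (p + q) ≤ 1 := by rw [div_le_one h1]; linarith
  have b00 : 0 < 1 / (p + q) := by positivity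
  have b1 : |p' / (p' + q') * (1 / (p + q))| ≤ 1 := by
    rw [abs_of_pos (by positivity)]
    have : p' / (p' + q') ≤ 1 := by rw [div_le_one h2]; linarith
    have : 0 < p' / (p' + q') := by positivity
    nlinarith
  have b2 : |q' / (p' + q') * (1 / (p + q))| ≤ 1 := by
    rw [abs_of_pos (by positivity)]
    have : q' / (p' + q') ≤ 1 := by rw [div_le_one h2]; linarith
    have : 0 < q' / (p' + q') := by positivity
    nlinarith
  have := abs_nonneg (p - p')
  have := abs_nonneg (q - q')
  nlinarith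

variable {a b : ℝ} {L : ℝ[X] →ₗ[ℝ] ℝ} {P : ℕ → ℝ[X]}

namespace OS

/-- first energy -/
theorem gb (S : OS a b L P) (n : ℕ) : 1 ≤ gg P n (b + 1) ∧ gg P n (b + 1) ≤ b - a + 1 ∧
    gg P n (b + 1) = rho P n (b + 1) := by
  have h := S.rho_lower_hi (z := b + 1) (by linarith) n
  have h2 := S.rho_upper_hi (z := b + 1) (by linarith) n
  have h3 := S.rho_pos (z := b + 1) (by linarith) n
  unfold gg
  rw [abs_of_pos h3]
  exact ⟨by linarith, by linarith, rfl⟩

theorem ga (S : OS a b L P) (n : ℕ) : 1 ≤ gg P n (a - 1) ∧ gg P n (a - 1) ≤ b - a + 1 ∧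
    gg P n (a - 1) = -rho P n (a - 1) := by
  have h := S.rho_lower_lo (z := a - 1) (by linarith) n
  have h2 := S.rho_upper_lo (z := a - 1) (by linarith) n
  have h3 := S.rho_neg (z := a - 1) (by linarith) n
  unfold gg
  rw [abs_of_neg h3]
  exact ⟨by linarith, by linarith, rfl⟩

/-- deficit -/
noncomputable def df (a b : ℝ) (P : ℕ → ℝ[X]) (n : ℕ) : ℝ :=
  (b - a + 2) - gg P n (b + 1) - gg P n (a - 1)

theorem df_zero (S : OS a b L P) : df a b P 0 = 0 := by
  unfold df
  rw [(S.gb 0).2.2, (S.ga 0).2.2, S.rho_zero, S.rho_zero]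
  ring

theorem df_succ (S : OS a b L P) (n : ℕ) :
    df a b P (n + 1) = aa L P n * (1 / gg P n (b + 1) + 1 / gg P n (a - 1)) := by
  unfold df
  rw [(S.gb _).2.2, (S.ga _).2.2, (S.gb _).2.2, (S.ga _).2.2]
  rw [S.rho_succ n (S.eval_pos (by linarith) _).ne' (S.eval_pos (by linarith) _).ne',
    S.rho_succ n (S.eval_ne_lo (by linarith) _).1 (S.eval_ne_lo (by linarith) _).1]
  have h3 := S.rho_pos (z := b + 1) (by linarith) n
  have h4 := S.rho_neg (z := a - 1) (by linarith) n
  have h3' := h3.ne'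
  have h4' := h4.ne
  rw [one_div_neg_eq_neg_one_div]
  field_simp
  ring

theorem aa_eq (S : OS a b L P) (n : ℕ) : aa L P n
    = df a b P (n + 1) * (gg P n (b + 1) * gg P n (a - 1) / (gg P n (b + 1) + gg P n (a - 1))) := by
  have h1 := (S.gb n).1
  have h2 := (S.ga n).1
  rw [S.df_succ]
  have : gg P n (b + 1) ≠ 0 := by linarith
  have : gg P n (a - 1) ≠ 0 := by linarith
  have : gg P n (b + 1) + gg P n (a - 1) ≠ 0 := by linarith
  field_simp
  ring

theorem bb_zero_eq (S : OS a b L P) : bb L P 0 = (b + 1) - gg P 0 (b + 1) := by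
  rw [(S.gb 0).2.2, S.rho_zero]; ring

theorem bb_succ_eq (S : OS a b L P) (n : ℕ) : bb L P (n + 1) = (b + 1) - gg P (n + 1) (b + 1)
    - df a b P (n + 1) * (gg P n (a - 1) / (gg P n (b + 1) + gg P n (a - 1))) := by
  have h1 := (S.gb n).1
  have h2 := (S.ga n).1
  have e : aa L P n / gg P n (b + 1)
      = df a b P (n + 1) * (gg P n (a - 1) / (gg P n (b + 1) + gg P n (a - 1))) := by
    conv_lhs => rw [S.aa_eq n]
    have : gg P n (b + 1) ≠ 0 := by linarith
    have : gg P n (b + 1) + gg P n (a - 1) ≠ 0 := by linarith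
    field_simp
  rw [← e, (S.gb (n + 1)).2.2, S.rho_succ n (S.eval_pos (by linarith) _).ne' (S.eval_pos (by linarith) _).ne',
    (S.gb n).2.2]
  ring

theorem df_nonneg (S : OS a b L P) (n : ℕ) : 0 ≤ df a b P n := by
  cases n with
  | zero => rw [S.df_zero]
  | succ n =>
    rw [S.df_succ]
    have h1 := (S.gb n).1
    have h2 := (S.ga n).1
    have h3 := S.aa_pos n
    positivity

theorem df_le (S : OS a b L P) (n : ℕ) : df a b P n ≤ b - a := by
  unfold df
  have h1 := (S.gb n).1
  have h2 := (S.ga n).1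
  linarith

/-- from ratios to coefficients -/
theorem coeffs (S : OS a b L P) {D : ℕ} {e : ℝ} (he : 0 ≤ e)
    (h : ∀ n n', n ≡ n' [MOD D] → |gg P n (b + 1) - gg P n' (b + 1)| ≤ e ∧
      |gg P n (a - 1) - gg P n' (a - 1)| ≤ e) :
    (∀ n n', n ≡ n' [MOD D] → |aa L P n - aa L P n'| ≤ (4 * (b - a + 1)) * e) ∧
    (∀ n n', n ≡ n' [MOD D] → |bb L P n - bb L P n'| ≤ (4 * (b - a + 1)) * e) := by
  have hab := S.a_lt_b
  have hdf : ∀ n n', n ≡ n' [MOD D] → |df a b P n - df a b P n'| ≤ 2 * e := by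
    intro n n' hm
    obtain ⟨h1, h2⟩ := h n n' hm
    have : df a b P n - df a b P n' = -(gg P n (b + 1) - gg P n' (b + 1)) - (gg P n (a - 1) - gg P n' (a - 1)) := by
      unfold df; ring
    rw [this]
    refine (abs_sub _ _).trans ?_
    rw [abs_neg]; linarith
  constructor
  · intro n n' hm
    obtain ⟨h1, h2⟩ := h n n' hm
    have h3 := hdf (n + 1) (n' + 1) (hm.add_right 1)
    rw [S.aa_eq n, S.aa_eq n']
    obtain ⟨a1, a2, -⟩ := S.gb n
    obtain ⟨a3, a4, -⟩ := S.ga n
    obtain ⟨a5, a6, -⟩ := S.gb n'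
    obtain ⟨a7, a8, -⟩ := S.ga n'
    have h4 := harm_lip (p := gg P n (b + 1)) (q := gg P n (a - 1)) (p' := gg P n' (b + 1))
      (q' := gg P n' (a - 1)) (by linarith) (by linarith) (by linarith) (by linarith)
    set H := gg P n (b + 1) * gg P n (a - 1) / (gg P n (b + 1) + gg P n (a - 1)) with hH
    set H' := gg P n' (b + 1) * gg P n' (a - 1) / (gg P n' (b + 1) + gg P n' (a - 1)) with hH'
    have hHn : 0 ≤ H := by positivity
    have hHb : H ≤ b - a + 1 := by
      rw [hH, div_le_iff₀ (by linarith)]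
      nlinarith
    have e1 : df a b P (n + 1) * H - df a b P (n' + 1) * H'
        = (df a b P (n + 1) - df a b P (n' + 1)) * H + df a b P (n' + 1) * (H - H') := by ring
    rw [e1]
    refine (abs_add_le _ _).trans ?_
    rw [abs_mul, abs_mul, abs_of_nonneg hHn, abs_of_nonneg (S.df_nonneg _)]
    have h5 := S.df_le (n' + 1)
    have h6 := S.df_nonneg (n' + 1)
    calc |df a b P (n + 1) - df a b P (n' + 1)| * H + df a b P (n' + 1) * |H - H'|
        ≤ (2 * e) * (b - a + 1) + (b - a) * (e + e) := by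
          gcongr
          linarith
      _ ≤ _ := by nlinarith
  · intro n n' hm
    rcases Nat.eq_zero_or_pos n with hn | hn
    · rcases Nat.eq_zero_or_pos n' with hn' | hn'
      · rw [hn, hn', sub_self, abs_zero]
        have : 0 ≤ b - a + 1 := by linarith
        positivity
      · obtain ⟨m, rfl⟩ : ∃ m, n' = m + 1 := ⟨n' - 1, by omega⟩
        subst hn
        obtain ⟨h1, h2⟩ := h _ _ hm
        have h3 := hdf _ _ hm
        rw [S.df_zero] at h3
        rw [S.bb_zero_eq, S.bb_succ_eq m]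
        obtain ⟨a1, a2, -⟩ := S.gb m
        obtain ⟨a3, a4, -⟩ := S.ga m
        set G := gg P m (a - 1) / (gg P m (b + 1) + gg P m (a - 1)) with hG
        have hG0 : 0 ≤ G := by positivity
        have hG1 : G ≤ 1 := by rw [hG, div_le_one (by linarith)]; linarith
        have h4 := S.df_nonneg (m + 1)
        rw [zero_sub, abs_neg, abs_of_nonneg h4] at h3
        have e1 : b + 1 - gg P 0 (b + 1) - (b + 1 - gg P (m + 1) (b + 1) - df a b P (m + 1) * G)
          = -(gg P 0 (b + 1) - gg P (m + 1) (b + 1)) + df a b P (m + 1) * G := by ring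
        rw [e1]
        refine (abs_add_le _ _).trans ?_
        rw [abs_neg, abs_of_nonneg (mul_nonneg h4 hG0)]
        nlinarith
    · rcases Nat.eq_zero_or_pos n' with hn' | hn'
      · obtain ⟨m, rfl⟩ : ∃ m, n = m + 1 := ⟨n - 1, by omega⟩
        subst hn'
        obtain ⟨h1, h2⟩ := h _ _ hm
        have h3 := hdf _ _ hm
        rw [S.df_zero] at h3
        rw [S.bb_zero_eq, S.bb_succ_eq m]
        obtain ⟨a1, a2, -⟩ := S.gb m
        obtain ⟨a3, a4, -⟩ := S.ga m
        set G := gg P m (a - 1) / (gg P m (b + 1) + gg P m (a - 1)) with hG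
        have hG0 : 0 ≤ G := by positivity
        have hG1 : G ≤ 1 := by rw [hG, div_le_one (by linarith)]; linarith
        have h4 := S.df_nonneg (m + 1)
        rw [sub_zero, abs_of_nonneg h4] at h3
        have e1 : (b + 1 - gg P (m + 1) (b + 1) - df a b P (m + 1) * G) - (b + 1 - gg P 0 (b + 1))
          = -(gg P (m + 1) (b + 1) - gg P 0 (b + 1)) - df a b P (m + 1) * G := by ring
        rw [e1]
        refine (abs_sub _ _).trans ?_
        rw [abs_neg, abs_of_nonneg (mul_nonneg h4 hG0)]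
        nlinarith
      · obtain ⟨m, rfl⟩ : ∃ m, n = m + 1 := ⟨n - 1, by omega⟩
        obtain ⟨m', rfl⟩ : ∃ m, n' = m + 1 := ⟨n' - 1, by omega⟩
        have hm' : m ≡ m' [MOD D] := Nat.ModEq.add_right_cancel' 1 hm
        obtain ⟨h1, h2⟩ := h _ _ hm
        obtain ⟨g1, g2⟩ := h _ _ hm'
        have h3 := hdf _ _ hm
        rw [S.bb_succ_eq m, S.bb_succ_eq m']
        obtain ⟨a1, a2, -⟩ := S.gb m
        obtain ⟨a3, a4, -⟩ := S.ga m
        obtain ⟨a5, a6, -⟩ := S.gb m'
        obtain ⟨a7, a8, -⟩ := S.ga m'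
        have h4 := frac_lip a1 a3 a5 a7
        set G := gg P m (a - 1) / (gg P m (b + 1) + gg P m (a - 1)) with hG
        set G' := gg P m' (a - 1) / (gg P m' (b + 1) + gg P m' (a - 1)) with hG'
        have hG0 : 0 ≤ G := by positivity
        have hG1 : G ≤ 1 := by rw [hG, div_le_one (by linarith)]; linarith
        have e1 : (b + 1 - gg P (m + 1) (b + 1) - df a b P (m + 1) * G)
            - (b + 1 - gg P (m' + 1) (b + 1) - df a b P (m' + 1) * G')
            = -(gg P (m + 1) (b + 1) - gg P (m' + 1) (b + 1))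
              - ((df a b P (m + 1) - df a b P (m' + 1)) * G + df a b P (m' + 1) * (G - G')) := by ring
        rw [e1]
        refine (abs_sub _ _).trans ?_
        have h5 := S.df_nonneg (m' + 1)
        have h6 := S.df_le (m' + 1)
        have e2 : |(df a b P (m + 1) - df a b P (m' + 1)) * G + df a b P (m' + 1) * (G - G')|
            ≤ (2 * e) * 1 + (b - a) * (e + e) := by
          refine (abs_add_le _ _).trans ?_
          rw [abs_mul, abs_mul, abs_of_nonneg hG0, abs_of_nonneg h5]
          gcongr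
          linarith
        rw [abs_neg]
        nlinarith

end OS

namespace HS

variable {F : ℝ[X]} {d : ℕ} {Cr : Finset ℝ} {E : Set ℝ} {δ : ℝ}

theorem final (S : HS a b F d L P Cr E δ) (h1 : b + 1 ∈ E) (h2 : a - 1 ∈ E) {ε : ℝ} (hε : 0 < ε) :
    ∃ D : ℕ, 0 < D ∧ (∀ n n', n ≡ n' [MOD D] → |OS.aa L P n - OS.aa L P n'| ≤ ε) ∧
      (∀ n n', n ≡ n' [MOD D] → |OS.bb L P n - OS.bb L P n'| ≤ ε) := by
  have hab := S.toGS.a_lt
  have hd := S.hd
  set W := b - a + 1 with hW
  have hW1 : 1 ≤ W := by linarith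
  obtain ⟨N, hN⟩ := S.cmp_gg (ε := ε / (4 * W * W)) (by positivity)
  have key : ∀ z ∈ E, (∀ n, gg P n z ≤ W) → (∀ n, 0 ≤ gg P n z) → ∀ n n', n ≡ n' [MOD d ^ N] →
      |gg P n z - gg P n' z| ≤ ε / (4 * W) := by
    intro z hz hb h0 n n' hm
    have a1 := hN n n' hm z hz
    have a2 := hN n' n hm.symm z hz
    have a3 : ε / (4 * W * W) * gg P n' z ≤ ε / (4 * W) := by
      calc ε / (4 * W * W) * gg P n' z ≤ ε / (4 * W * W) * W := by gcongr; exact hb n'
        _ = _ := by field_simp
    have a4 : ε / (4 * W * W) * gg P n z ≤ ε / (4 * W) := by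
      calc ε / (4 * W * W) * gg P n z ≤ ε / (4 * W * W) * W := by gcongr; exact hb n
        _ = _ := by field_simp
    rw [abs_le]
    constructor <;> nlinarith
  have h := S.toOS.coeffs (D := d ^ N) (e := ε / (4 * W)) (by positivity) (fun n n' hm =>
    ⟨key _ h1 (fun n => (S.toOS.gb n).2.1) (fun n => abs_nonneg _) n n' hm,
      key _ h2 (fun n => (S.toOS.ga n).2.1) (fun n => abs_nonneg _) n n' hm⟩)
  have e : 4 * (b - a + 1) * (ε / (4 * W)) = ε := by rw [← hW]; field_simp
  rw [e] at h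
  exact ⟨d ^ N, by positivity, h.1, h.2⟩

end HS

end Pool.Agent.Helper566.J
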