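import Mathlib
import Pool.Agent.Helper566.JBal
import Pool.Agent.Helper566.JFin
import Pool.Agent.Helper566.JDyn

set_option autoImplicit false
set_option linter.unusedVariables false

open Polynomial MeasureTheory Filter Topology

namespace Pool.Agent.Helper566.J

theorem poly_int {a b : ℝ} {μ : Measure ℝ} [IsProbabilityMeasure μ] (hab : a ≤ b)
    (hμ : ∀ᵐ x ∂μ, a ≤ x ∧ x ≤ b) (g : ℝ[X]) : Integrable (fun x => g.eval x) μ := by
  obtain ⟨φ, hφ⟩ := exists_bcf hab (fun x => g.eval x) g.continuous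
  apply (φ.integrable μ).congr
  filter_upwards [hμ] with x hx using hφ x hx

/-- integration functional -/
noncomputable def Lf {a b : ℝ} (μ : Measure ℝ) [IsProbabilityMeasure μ] (hab : a ≤ b)
    (hμ : ∀ᵐ x ∂μ, a ≤ x ∧ x ≤ b) : ℝ[X] →ₗ[ℝ] ℝ where
  toFun := fun g => ∫ x, g.eval x ∂μ
  map_add' := by
    intro g h
    simp only [eval_add]
    exact integral_add (poly_int hab hμ g) (poly_int hab hμ h)
  map_smul' := by
    intro c g
    simp only [eval_smul, RingHom.id_apply]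
    exact integral_smul c _

theorem Lf_apply {a b : ℝ} (μ : Measure ℝ) [IsProbabilityMeasure μ] (hab : a ≤ b)
    (hμ : ∀ᵐ x ∂μ, a ≤ x ∧ x ≤ b) (g : ℝ[X]) : Lf μ hab hμ g = ∫ x, g.eval x ∂μ := rfl

theorem fin_null {μ : Measure ℝ} (hat : ∀ x, μ {x} = 0) (s : Finset ℝ) : μ (s : Set ℝ) = 0 := by
  have h1 : (s : Set ℝ) = ⋃ x ∈ (s : Set ℝ), {x} := by ext y; simp
  rw [h1, measure_biUnion_null_iff s.countable_toSet]
  intro x _
  exact hat x

theorem int_pos {μ : Measure ℝ} [IsProbabilityMeasure μ] (hat : ∀ x, μ {x} = 0) {f : ℝ → ℝ}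
    (hf : Integrable f μ) (h0 : 0 ≤ᵐ[μ] f) (s : Finset ℝ) (hs : ∀ x, f x = 0 → x ∈ s) : 0 < ∫ x, f x ∂μ := by
  rw [integral_pos_iff_support_of_nonneg_ae h0 hf]
  have h1 : μ (Function.support f)ᶜ = 0 := by
    apply measure_mono_null _ (fin_null hat s)
    intro x hx
    rw [Set.mem_compl_iff, Function.mem_support, not_not] at hx
    exact hs x hx
  by_contra hcon
  push Not at hcon
  have h2 : μ (Function.support f) = 0 := le_antisymm hcon zero_le
  have h3 : μ Set.univ ≤ μ (Function.support f) + μ (Function.support f)ᶜ := by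
    rw [← Set.union_compl_self (Function.support f)]
    exact measure_union_le _ _
  rw [h1, h2, measure_univ] at h3
  simp at h3

theorem mk_OS {a b : ℝ} (μ : Measure ℝ) [IsProbabilityMeasure μ] (hab : a ≤ b)
    (hμ : ∀ᵐ x ∂μ, a ≤ x ∧ x ≤ b) (hat : ∀ x, μ {x} = 0) {P : ℕ → ℝ[X]}
    (hP : ∀ n : ℕ, (P n).Monic ∧ (P n).natDegree = n ∧ ∀ k : ℕ, k < n → ∫ x, (P n).eval x * x ^ k ∂μ = 0) :
    OS a b (Lf μ hab hμ) P where
  pos := by
    intro g hg
    rw [Lf_apply]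
    apply int_pos hat (poly_int hab hμ _) (Eventually.of_forall fun x => ?_) g.roots.toFinset
    · intro x hx
      rw [Multiset.mem_toFinset, mem_roots hg, IsRoot]
      rw [eval_mul] at hx
      exact mul_self_eq_zero.mp hx
    · simp only [Pi.zero_apply, eval_mul]
      exact mul_self_nonneg _
  lo := by
    intro g hg
    have h1 : 0 < Lf μ hab hμ ((X - C a) * (g * g)) := by
      rw [Lf_apply]
      apply int_pos hat (poly_int hab hμ _) _ (insert a g.roots.toFinset)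
      · intro x hx
        rw [eval_mul, eval_sub, eval_X, eval_C, eval_mul] at hx
        rcases mul_eq_zero.mp hx with h | h
        · rw [Finset.mem_insert]; left; linarith
        · rw [Finset.mem_insert]; right
          rw [Multiset.mem_toFinset, mem_roots hg, IsRoot]
          exact mul_self_eq_zero.mp h
      · filter_upwards [hμ] with x hx
        simp only [Pi.zero_apply, eval_mul, eval_sub, eval_X, eval_C]
        exact mul_nonneg (by linarith [hx.1]) (mul_self_nonneg _)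
    have e : (X - C a) * (g * g) = X * (g * g) - C a * (g * g) := by ring
    rw [e, map_sub, OS.map_C_mul] at h1
    linarith
  hi := by
    intro g hg
    have h1 : 0 < Lf μ hab hμ ((C b - X) * (g * g)) := by
      rw [Lf_apply]
      apply int_pos hat (poly_int hab hμ _) _ (insert b g.roots.toFinset)
      · intro x hx
        rw [eval_mul, eval_sub, eval_X, eval_C, eval_mul] at hx
        rcases mul_eq_zero.mp hx with h | h
        · rw [Finset.mem_insert]; left; linarith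
        · rw [Finset.mem_insert]; right
          rw [Multiset.mem_toFinset, mem_roots hg, IsRoot]
          exact mul_self_eq_zero.mp h
      · filter_upwards [hμ] with x hx
        simp only [Pi.zero_apply, eval_mul, eval_sub, eval_X, eval_C]
        exact mul_nonneg (by linarith [hx.2]) (mul_self_nonneg _)
    have e : (C b - X) * (g * g) = C b * (g * g) - X * (g * g) := by ring
    rw [e, map_sub, OS.map_C_mul] at h1
    linarith
  monic := fun n => (hP n).1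
  deg := fun n => (hP n).2.1
  orth := by
    intro n k hk
    rw [Lf_apply]
    have := (hP n).2.2 k hk
    simp only [eval_mul, eval_pow, eval_X]
    exact this

/-- kernel of the frozen statement -/
theorem en_frozen {T : ℝ} (hT : 0 < T) (μ : Measure ℝ) :
    (∫⁻ x, ∫⁻ y, (if x = y then (⊤ : ENNReal)
      else ENNReal.ofReal (Real.log (T / |x - y|))) ∂μ ∂μ) = en T μ μ := by
  unfold en
  apply lintegral_congr; intro x
  apply lintegral_congr; intro y
  unfold ker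
  split_ifs with h
  · rfl
  · rw [Real.dist_eq, Real.log_div hT.ne' (abs_pos.mpr (sub_ne_zero.mpr h)).ne']

/-- everything extracted from the hypotheses -/
theorem extract (f : ℂ[X]) (hf : 2 ≤ f.natDegree) (J : Set ℂ)
    (hJ : J = frontier {z : ℂ | Bornology.IsBounded
            (Set.range (fun n : ℕ => (fun w : ℂ => f.eval w)^[n] z))})
    (hR : J ⊆ Set.range ((↑) : ℝ → ℂ))
    (μ : Measure ℝ) (hμp : IsProbabilityMeasure μ) (hμ : μ {x : ℝ | (x : ℂ) ∉ J} = 0)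
    (hmin : ∀ ν : MeasureTheory.Measure ℝ, MeasureTheory.IsProbabilityMeasure ν →
          ν {x : ℝ | (x : ℂ) ∉ J} = 0 →
          (∫⁻ x, ∫⁻ y, (if x = y then (⊤ : ENNReal)
              else ENNReal.ofReal (Real.log ((Metric.diam J + 1) / |x - y|))) ∂μ ∂μ)
            ≤ (∫⁻ x, ∫⁻ y, (if x = y then (⊤ : ENNReal)
              else ENNReal.ofReal (Real.log ((Metric.diam J + 1) / |x - y|))) ∂ν ∂ν))
    (P : ℕ → ℝ[X])
    (hP : ∀ n : ℕ, (P n).Monic ∧ (P n).natDegree = n ∧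
            ∀ k : ℕ, k < n → ∫ x, (P n).eval x * x ^ k ∂μ = 0) :
    ∃ (F : ℝ[X]) (a b : ℝ) (K : Set ℝ) (L : ℝ[X] →ₗ[ℝ] ℝ), f = F.map Complex.ofRealHom ∧
      (∀ x : ℝ, x ∈ K ↔ (x : ℂ) ∈ J) ∧ RD a b F f.natDegree K ∧ OS a b L P ∧
      (∀ g t : ℝ[X], Ex F f.natDegree (g * chi F f.natDegree) t → L g = L t) ∧
      (∀ g : ℝ[X], L g = ∫ x, g.eval x ∂μ) := by
  have hJK : J = frontier (Kf f) := hJ
  rw [hJK] at hR
  obtain ⟨F, a, b, hfF, S⟩ := exists_RD f hf hR
  have hfr := Kf_frontier hf hR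
  rw [hfr] at hJK
  subst hJK
  clear hJ
  set K : Set ℝ := {x : ℝ | (x : ℂ) ∈ Kf f} with hK
  have hKc : {x : ℝ | (x : ℂ) ∉ Kf f} = Kᶜ := rfl
  rw [hKc] at hμ hmin
  have hab := S.ab
  have hdiam : b - a ≤ Metric.diam (Kf f) := by
    obtain ⟨R, hRb⟩ := Kf_bdd hf
    have hbd : Bornology.IsBounded (Kf f) := isBounded_iff_forall_norm_le.mpr ⟨R, hRb⟩
    have h1 := Metric.dist_le_diam_of_mem hbd (show ((b : ℝ) : ℂ) ∈ Kf f from S.hb) (show ((a : ℝ) : ℂ) ∈ Kf f from S.ha)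
    rw [Complex.dist_eq, ← Complex.ofReal_sub, Complex.norm_real, Real.norm_eq_abs, abs_of_nonneg (by linarith)] at h1
    exact h1
  have hdiam0 : 0 ≤ Metric.diam (Kf f) := Metric.diam_nonneg
  have hT0 : 0 < Metric.diam (Kf f) + 1 := by linarith
  simp only [en_frozen hT0] at hmin
  obtain ⟨hat, hbal⟩ := S.bal_min (T := Metric.diam (Kf f) + 1) (by linarith) (by linarith) μ hμ hmin
  have hμI : ∀ᵐ x ∂μ, a ≤ x ∧ x ≤ b := by
    have : ∀ᵐ x ∂μ, x ∈ K := by rw [ae_iff]; exact hμ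
    filter_upwards [this] with x hx using S.sub x hx
  refine ⟨F, a, b, K, Lf μ hab.le hμI, hfF, fun x => Iff.rfl, S, mk_OS μ hab.le hμI hat hP, ?_, fun g => rfl⟩
  intro g t h
  rw [Lf_apply, Lf_apply]
  exact hbal g t h

/-- final conversion -/
theorem conclude {a b : ℝ} {L : ℝ[X] →ₗ[ℝ] ℝ} {P : ℕ → ℝ[X]} {μ : Measure ℝ}
    (hL : ∀ g : ℝ[X], L g = ∫ x, g.eval x ∂μ)
    (h : ∀ ε : ℝ, 0 < ε → ∃ D : ℕ, 0 < D ∧ (∀ n n', n ≡ n' [MOD D] → |OS.aa L P n - OS.aa L P n'| ≤ ε) ∧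
      (∀ n n', n ≡ n' [MOD D] → |OS.bb L P n - OS.bb L P n'| ≤ ε)) :
    (∀ ε : ℝ, 0 < ε → ∃ L : ℕ, ∀ m : ℕ, ∃ τ : ℕ, m ≤ τ ∧ τ ≤ m + L ∧
            ∀ n : ℕ,
              |(∫ x, x * (P (n + τ)).eval x ^ 2 ∂μ) / (∫ x, (P (n + τ)).eval x ^ 2 ∂μ)
                - (∫ x, x * (P n).eval x ^ 2 ∂μ) / (∫ x, (P n).eval x ^ 2 ∂μ)| ≤ ε) ∧
          (∀ ε : ℝ, 0 < ε → ∃ L : ℕ, ∀ m : ℕ, ∃ τ : ℕ, m ≤ τ ∧ τ ≤ m + L ∧
            ∀ n : ℕ,
              |(∫ x, (P (n + τ + 1)).eval x ^ 2 ∂μ) / (∫ x, (P (n + τ)).eval x ^ 2 ∂μ)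
                - (∫ x, (P (n + 1)).eval x ^ 2 ∂μ) / (∫ x, (P n).eval x ^ 2 ∂μ)| ≤ ε) := by
  have e1 : ∀ n, ∫ x, (P n).eval x ^ 2 ∂μ = L (P n * P n) := by
    intro n
    rw [hL]
    congr 1; funext x
    rw [eval_mul, sq]
  have e2 : ∀ n, ∫ x, x * (P n).eval x ^ 2 ∂μ = L (X * (P n * P n)) := by
    intro n
    rw [hL]
    congr 1; funext x
    rw [eval_mul, eval_mul, eval_X, sq]
  have hτ : ∀ D m : ℕ, 0 < D → ∃ τ, m ≤ τ ∧ τ ≤ m + D ∧ ∀ n, n + τ ≡ n [MOD D] := by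
    intro D m hD
    refine ⟨D * ((m + D) / D), ?_, ?_, ?_⟩
    · have := Nat.lt_mul_div_succ m hD
      rw [Nat.add_div_right m hD]
      exact this.le
    · exact Nat.mul_div_le (m + D) D
    · intro n
      show (n + D * _) % D = n % D
      exact Nat.add_mul_mod_self_left n D _
  constructor
  · intro ε hε
    obtain ⟨D, hD, -, h2⟩ := h ε hε
    refine ⟨D, fun m => ?_⟩
    obtain ⟨τ, h3, h4, h5⟩ := hτ D m hD
    refine ⟨τ, h3, h4, fun n => ?_⟩
    rw [e1, e2, e1, e2]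
    exact h2 _ _ (h5 n)
  · intro ε hε
    obtain ⟨D, hD, h1, -⟩ := h ε hε
    refine ⟨D, fun m => ?_⟩
    obtain ⟨τ, h3, h4, h5⟩ := hτ D m hD
    refine ⟨τ, h3, h4, fun n => ?_⟩
    rw [e1, e1, e1, e1]
    exact h1 _ _ (h5 n)

end Pool.Agent.Helper566.J
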