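import Mathlib

namespace Pool.Agent.Helper566.Kir

open scoped RealInnerProductSpace Topology
open Filter Set

variable {H : Type*} [NormedAddCommGroup H] [InnerProductSpace ℝ H]
variable {L : Type*} [NormedAddCommGroup L] [InnerProductSpace ℝ L]

/-- two global minimisers for some parameter in a convex set that is dense over the range -/
theorem two_min {f0 : H → ℝ} {i : H →L[ℝ] L} (hcpt : IsCompactOperator i)
    (heven : ∀ u, f0 (-u) = f0 u) (hcont : Continuous f0)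
    (hmin : ∀ w : L, ‖w‖ ≤ 1 → ∃ u, ∀ z, f0 u + ⟪i u, w⟫ ≤ f0 z + ⟪i z, w⟫)
    (hseq : ∀ (w : ℕ → L) (w0 : L) (u : ℕ → H), (∀ n, ‖w n‖ ≤ 1) →
      Tendsto w atTop (𝓝 w0) →
      (∀ n z, f0 (u n) + ⟪i (u n), w n⟫ ≤ f0 z + ⟪i z, w n⟫) →
      ∃ (y : H) (φ : ℕ → ℕ), StrictMono φ ∧ Tendsto (fun n => u (φ n)) atTop (𝓝 y))
    {R ρ : ℝ} (hρ : 0 < ρ)
    (hR : ∀ w u, ‖w‖ ≤ 1 → (∀ z, f0 u + ⟪i u, w⟫ ≤ f0 z + ⟪i z, w⟫) → ‖u‖ ≤ R ∧ ρ ≤ ‖i u‖)
    {C : Set L} (hC : Convex ℝ C) (hdense : range i ⊆ closure C) :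
    ∃ w ∈ C, ‖w‖ ≤ 1 ∧ ∃ u1 u2, u1 ≠ u2 ∧
      (∀ z, f0 u1 + ⟪i u1, w⟫ ≤ f0 z + ⟪i z, w⟫) ∧
      (∀ z, f0 u2 + ⟪i u2, w⟫ ≤ f0 z + ⟪i z, w⟫) := by
  classical
  -- the finite net
  have hK : IsCompact (closure (i '' Metric.closedBall (0 : H) R)) :=
    hcpt.isCompact_closure_image_closedBall R
  have hTB : TotallyBounded (i '' Metric.closedBall (0 : H) R) :=
    hK.totallyBounded.subset subset_closure
  obtain ⟨t, htK, htf, hcov⟩ := Metric.finite_approx_of_totallyBounded hTB (ρ / 4) (by positivity)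
  set B : ℝ := ‖i‖ * |R| with hB
  have hB0 : 0 ≤ B := by positivity
  have hKB : ∀ y ∈ i '' Metric.closedBall (0 : H) R, ‖y‖ ≤ B := by
    rintro _ ⟨u, hu, rfl⟩
    rw [mem_closedBall_zero_iff] at hu
    exact (i.le_opNorm u).trans
      (mul_le_mul_of_nonneg_left (hu.trans (le_abs_self R)) (norm_nonneg _))
  set ε : ℝ := 1 / (2 * (B + 1)) with hε
  have hε0 : 0 < ε := by positivity
  have hεB : ∀ y ∈ i '' Metric.closedBall (0 : H) R, ε * ‖y‖ ≤ 1 / 2 := by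
    intro y hy
    have h1 := hKB y hy
    have h2 : ε * (B + 1) = 1 / 2 := by rw [hε]; field_simp
    nlinarith
  set δ : ℝ := min (1 / 2) (ε * ρ / 2) with hδ
  have hδ0 : 0 < δ := lt_min (by norm_num) (by positivity)
  have hδ1 : δ ≤ 1 / 2 := min_le_left _ _
  have hδ2 : δ ≤ ε * ρ / 2 := min_le_right _ _
  have hc : ∀ y ∈ t, ∃ c ∈ C, ‖ε • y - c‖ < δ := by
    intro y hy
    obtain ⟨u, -, rfl⟩ := htK hy
    have : ε • i u ∈ closure C := hdense ⟨ε • u, by simp⟩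
    obtain ⟨c, hcC, hc⟩ := Metric.mem_closure_iff.1 this δ hδ0
    exact ⟨c, hcC, by rwa [dist_eq_norm] at hc⟩
  choose! c hcC hcδ using hc
  set W : Set L := c '' t with hW
  have hWf : W.Finite := htf.image _
  have hWC : W ⊆ C := by rintro _ ⟨y, hy, rfl⟩; exact hcC y hy
  set Δ : Set L := convexHull ℝ W with hΔ
  have hΔC : Δ ⊆ C := convexHull_min hWC hC
  have hΔcpt : IsCompact Δ := hWf.isCompact_convexHull (𝕜 := ℝ)
  have hWball : W ⊆ Metric.closedBall (0 : L) 1 := by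
    rintro _ ⟨y, hy, rfl⟩
    rw [mem_closedBall_zero_iff]
    have h1 := hcδ y hy
    have h2 := hεB y (htK hy)
    have h3 : ‖c y‖ ≤ ‖ε • y‖ + ‖ε • y - c y‖ := by
      have : c y = ε • y - (ε • y - c y) := by abel
      calc ‖c y‖ = ‖ε • y - (ε • y - c y)‖ := by rw [← this]
        _ ≤ _ := norm_sub_le _ _
    rw [norm_smul, Real.norm_of_nonneg hε0.le] at h3
    linarith
  have hΔball : ∀ w ∈ Δ, ‖w‖ ≤ 1 := by
    intro w hw
    have := convexHull_min hWball (convex_closedBall (0 : L) 1) hw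
    rwa [mem_closedBall_zero_iff] at this
  -- minimisers
  choose! U hU using hmin
  have hUR : ∀ w, ‖w‖ ≤ 1 → ‖U w‖ ≤ R ∧ ρ ≤ ‖i (U w)‖ := fun w hw => hR w (U w) hw (hU w hw)
  have hUK : ∀ w, ‖w‖ ≤ 1 → i (U w) ∈ i '' Metric.closedBall (0 : H) R := by
    intro w hw
    exact ⟨U w, by rw [mem_closedBall_zero_iff]; exact (hUR w hw).1, rfl⟩
  have htne : t.Nonempty := by
    have h0 : i (U 0) ∈ i '' Metric.closedBall (0 : H) R := hUK 0 (by simp)
    have := hcov h0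
    simp only [mem_iUnion] at this
    obtain ⟨y, hy, -⟩ := this
    exact ⟨y, hy⟩
  have hΔne : Δ.Nonempty := by
    obtain ⟨y, hy⟩ := htne
    exact ⟨c y, subset_convexHull ℝ W ⟨y, hy, rfl⟩⟩
  set g : L → ℝ := fun w => f0 (U w) + ⟪i (U w), w⟫ with hg
  have hgcont : ContinuousOn g Δ := by
    have hLip : LipschitzOnWith B.toNNReal g Δ := by
      apply LipschitzOnWith.of_le_add_mul
      intro w hw w' hw'
      have h1 := hU w (hΔball w hw) (U w')
      have h2 : ⟪i (U w'), w⟫ = ⟪i (U w'), w'⟫ + ⟪i (U w'), w - w'⟫ := by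
        rw [inner_sub_right]; ring
      have h3 : ⟪i (U w'), w - w'⟫ ≤ B * ‖w - w'‖ :=
        (real_inner_le_norm _ _).trans
          (mul_le_mul_of_nonneg_right (hKB _ (hUK w' (hΔball w' hw'))) (norm_nonneg _))
      rw [Real.coe_toNNReal B hB0, dist_eq_norm]
      simp only [hg]
      linarith
    exact hLip.continuousOn
  obtain ⟨v, hvΔ, hvmax⟩ := hΔcpt.exists_isMaxOn hΔne hgcont
  have hv1 : ‖v‖ ≤ 1 := hΔball v hvΔ
  by_contra hcon
  push Not at hcon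
  have huniq : ∀ u, (∀ z, f0 u + ⟪i u, v⟫ ≤ f0 z + ⟪i z, v⟫) → u = U v := by
    intro u hu
    by_contra hne
    obtain ⟨z, hz⟩ := hcon v (hΔC hvΔ) hv1 u (U v) hne hu
    exact absurd (hU v hv1 z) (not_le.2 hz)
  -- the variational inequality
  have hvar : ∀ w ∈ Δ, ⟪i (U v), w - v⟫ ≤ 0 := by
    intro w hw
    set s : ℕ → ℝ := fun n => 1 / ((n : ℝ) + 1) with hs
    have hs0 : ∀ n, 0 < s n := fun n => by positivity
    have hs1 : ∀ n, s n ≤ 1 := fun n => by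
      rw [hs]; simp only; rw [div_le_one (by positivity)]; linarith [Nat.cast_nonneg (α := ℝ) n]
    have hslim : Tendsto s atTop (𝓝 0) := tendsto_one_div_add_atTop_nhds_zero_nat
    set wn : ℕ → L := fun n => v + s n • (w - v) with hwn
    have hwnΔ : ∀ n, wn n ∈ Δ := by
      intro n
      have := (convex_convexHull ℝ W).add_smul_sub_mem hvΔ hw ⟨(hs0 n).le, hs1 n⟩
      exact this
    have hwnlim : Tendsto wn atTop (𝓝 v) := by
      have := (hslim.smul_const (w - v)).const_add v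
      simpa using this
    have hle : ∀ n, ⟪i (U (wn n)), w - v⟫ ≤ 0 := by
      intro n
      have h1 : g (wn n) ≤ g v := hvmax (hwnΔ n)
      have h2 := hU v hv1 (U (wn n))
      have h3 : ⟪i (U (wn n)), wn n⟫ = ⟪i (U (wn n)), v⟫ + s n * ⟪i (U (wn n)), w - v⟫ := by
        rw [hwn]; simp only; rw [inner_add_right, inner_smul_right]
      simp only [hg] at h1
      rw [h3] at h1
      have h4 : s n * ⟪i (U (wn n)), w - v⟫ ≤ 0 := by linarith
      by_contra h5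
      push Not at h5
      have := mul_pos (hs0 n) h5
      linarith
    obtain ⟨y, φ, hφ, hy⟩ := hseq wn v (fun n => U (wn n)) (fun n => hΔball _ (hwnΔ n)) hwnlim
      (fun n z => hU (wn n) (hΔball _ (hwnΔ n)) z)
    have hymin : ∀ z, f0 y + ⟪i y, v⟫ ≤ f0 z + ⟪i z, v⟫ := by
      intro z
      have hwφ : Tendsto (fun n => wn (φ n)) atTop (𝓝 v) := hwnlim.comp hφ.tendsto_atTop
      have l1 : Tendsto (fun n => f0 (U (wn (φ n))) + ⟪i (U (wn (φ n))), wn (φ n)⟫) atTop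
          (𝓝 (f0 y + ⟪i y, v⟫)) :=
        ((hcont.tendsto y).comp hy).add (((i.continuous.tendsto y).comp hy).inner hwφ)
      have l2 : Tendsto (fun n => f0 z + ⟪i z, wn (φ n)⟫) atTop (𝓝 (f0 z + ⟪i z, v⟫)) :=
        (tendsto_const_nhds.inner hwφ).const_add _
      exact le_of_tendsto_of_tendsto' l1 l2 fun n => hU (wn (φ n)) (hΔball _ (hwnΔ _)) z
    have hyU : y = U v := huniq y hymin
    have l3 : Tendsto (fun n => ⟪i (U (wn (φ n))), w - v⟫) atTop (𝓝 ⟪i y, w - v⟫) :=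
      ((i.continuous.tendsto y).comp hy).inner tendsto_const_nhds
    rw [hyU] at l3
    exact le_of_tendsto' l3 fun n => hle (φ n)
  -- evenness
  have hle0 : ⟪i (U v), v⟫ ≤ 0 := by
    have h0 : ‖(0 : L)‖ ≤ 1 := by simp
    have h1 := hU v hv1 (U 0)
    have h2 := hU v hv1 (-(U 0))
    rw [heven, map_neg, inner_neg_left] at h2
    have h3 := hU 0 h0 (U v)
    rw [inner_zero_right, inner_zero_right] at h3
    linarith
  -- contradiction
  have hcv := hcov (hUK v hv1)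
  simp only [mem_iUnion] at hcv
  obtain ⟨y, hy, hyd⟩ := hcv
  rw [Metric.mem_ball, dist_eq_norm] at hyd
  have hcy : c y ∈ Δ := subset_convexHull ℝ W ⟨y, hy, rfl⟩
  have h1 := hvar (c y) hcy
  rw [inner_sub_right] at h1
  have h2 : ⟪i (U v), c y⟫ ≤ 0 := by linarith
  have hρU := (hUR v hv1).2
  set N : ℝ := ‖i (U v)‖ with hN
  have hNpos : 0 < N := by linarith
  have h3 : ⟪i (U v), c y⟫ = ε * N ^ 2 - ε * ⟪i (U v), i (U v) - y⟫ - ⟪i (U v), ε • y - c y⟫ := by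
    rw [inner_sub_right, inner_sub_right, inner_smul_right, real_inner_self_eq_norm_sq]
    ring
  have h4 : ⟪i (U v), i (U v) - y⟫ ≤ N * (ρ / 4) :=
    (real_inner_le_norm _ _).trans (mul_le_mul_of_nonneg_left hyd.le (norm_nonneg _))
  have h5 : ⟪i (U v), ε • y - c y⟫ ≤ N * δ :=
    (real_inner_le_norm _ _).trans (mul_le_mul_of_nonneg_left (hcδ y hy).le (norm_nonneg _))
  have h6 : ε * ⟪i (U v), i (U v) - y⟫ ≤ ε * (N * (ρ / 4)) := mul_le_mul_of_nonneg_left h4 hε0.le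
  have h7 : N * δ ≤ N * (ε * ρ / 2) := mul_le_mul_of_nonneg_left hδ2 hNpos.le
  have h8 : ε * (N * ρ) ≤ ε * N ^ 2 := by
    apply mul_le_mul_of_nonneg_left _ hε0.le
    nlinarith
  have h9 : 0 < ε * (N * ρ) := by positivity
  nlinarith

end Pool.Agent.Helper566.Kir
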