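import Pool.Agent.Helper566.KLow
import Pool.Agent.Helper566.KTwo

namespace Pool.Agent.Helper566.Kir

open scoped RealInnerProductSpace Topology
open Filter Set

variable {H : Type*} [NormedAddCommGroup H] [InnerProductSpace ℝ H]
variable {L : Type*} [NormedAddCommGroup L] [InnerProductSpace ℝ L]
variable {a b lam : ℝ} {i : H →L[ℝ] L} {J : H → ℝ} {DJ : H → H}

theorem lower (ha : 0 ≤ a) {A₁ : ℝ} (hA : ∀ u, J u ≤ b / 8 * ‖u‖ ^ 4 + A₁) {κ : ℝ}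
    (_hκ0 : 0 ≤ κ) (hκ : ∀ u, ‖i u‖ ≤ κ * ‖u‖) {w : L} (hw : ‖w‖ ≤ 1) (hl : 1 ≤ lam) (u : H) :
    b / 8 * ‖u‖ ^ 4 - lam * κ ^ 2 * ‖u‖ ^ 2 - A₁ - 1 / 2 ≤ ff a b lam i J w u := by
  have h1 := hA u
  have h2 : 0 ≤ a / 2 * ‖u‖ ^ 2 := by positivity
  have h3 : ‖i u‖ ^ 2 ≤ κ ^ 2 * ‖u‖ ^ 2 := by
    rw [← mul_pow]; exact pow_le_pow_left₀ (norm_nonneg _) (hκ u) 2
  have h4 : lam / 2 * ‖i u‖ ^ 2 ≤ lam / 2 * (κ ^ 2 * ‖u‖ ^ 2) :=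
    mul_le_mul_of_nonneg_left h3 (by positivity)
  have h5 : -(κ * ‖u‖) ≤ ⟪i u, w⟫ := by
    have e1 := abs_real_inner_le_norm (i u) w
    have e2 := neg_abs_le ⟪i u, w⟫
    have e3 := hκ u
    nlinarith [norm_nonneg (i u), norm_nonneg w]
  have h6 : κ * ‖u‖ ≤ 1 / 2 * (κ ^ 2 * ‖u‖ ^ 2) + 1 / 2 := by
    nlinarith [sq_nonneg (κ * ‖u‖ - 1)]
  have h7 : 1 / 2 * (κ ^ 2 * ‖u‖ ^ 2) ≤ lam / 2 * (κ ^ 2 * ‖u‖ ^ 2) :=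
    mul_le_mul_of_nonneg_right (by linarith) (by positivity)
  unfold ff
  nlinarith

theorem quart (hb : 0 < b) {σ P Q : ℝ} (hP : 0 ≤ P) (hQ : 0 ≤ Q)
    (h : b / 8 * σ ^ 2 ≤ P * σ + Q) : σ ≤ 8 * (P + Q) / b + 1 := by
  by_contra hc
  push Not at hc
  have h1 : 0 ≤ 8 * (P + Q) / b := by positivity
  have h2 : 1 < σ := by linarith
  have h3 : 8 * (P + Q) / b < σ - 1 := by linarith
  rw [div_lt_iff₀ hb] at h3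
  have h4 : b / 8 * σ > P + Q := by nlinarith
  have h5 : b / 8 * σ * σ > (P + Q) * σ := by nlinarith
  nlinarith

/-- norm bound on sublevel sets -/
theorem norm_sq_le (ha : 0 ≤ a) (hb : 0 < b) {A₁ : ℝ} (hA0 : 0 ≤ A₁)
    (hA : ∀ u, J u ≤ b / 8 * ‖u‖ ^ 4 + A₁) {κ : ℝ}
    (hκ0 : 0 ≤ κ) (hκ : ∀ u, ‖i u‖ ≤ κ * ‖u‖) {w : L} (hw : ‖w‖ ≤ 1) (hl : 1 ≤ lam) {u : H}
    {c : ℝ} (hc : 0 ≤ c) (hu : ff a b lam i J w u ≤ c) :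
    ‖u‖ ^ 2 ≤ 8 * (lam * κ ^ 2 + (c + A₁ + 1 / 2)) / b + 1 := by
  have h := lower ha hA hκ0 hκ hw hl u
  apply quart hb (by positivity) (by positivity)
  nlinarith

theorem norm_sq_le' (ha : 0 ≤ a) (hb : 0 < b) {A₁ : ℝ} (hA0 : 0 ≤ A₁)
    (hA : ∀ u, J u ≤ b / 8 * ‖u‖ ^ 4 + A₁) {κ : ℝ}
    (hκ0 : 0 ≤ κ) (hκ : ∀ u, ‖i u‖ ≤ κ * ‖u‖) {w : L} (hw : ‖w‖ ≤ 1) (hl : 1 ≤ lam) {u : H}
    (hu : ff a b lam i J w u ≤ 0) :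
    ‖u‖ ^ 2 ≤ (8 * κ ^ 2 / b + 8 * (A₁ + 1 / 2) / b + 1) * lam := by
  have h := norm_sq_le ha hb hA0 hA hκ0 hκ hw hl le_rfl hu
  refine h.trans ?_
  have e : 8 * (lam * κ ^ 2 + (0 + A₁ + 1 / 2)) / b + 1 =
      8 * κ ^ 2 / b * lam + 8 * (A₁ + 1 / 2) / b + 1 := by ring
  rw [e]
  have h2 : 0 ≤ 8 * (A₁ + 1 / 2) / b := by positivity
  nlinarith

/-- low values force large norm -/
theorem large_norm (ha : 0 ≤ a) (hb : 0 < b) {A₁ : ℝ} (hA0 : 0 ≤ A₁)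
    (hA : ∀ u, J u ≤ b / 8 * ‖u‖ ^ 4 + A₁) {κ : ℝ}
    (hκ0 : 0 ≤ κ) (hκ : ∀ u, ‖i u‖ ≤ κ * ‖u‖) {w : L} (hw : ‖w‖ ≤ 1) (hl : 1 ≤ lam) {u : H}
    {M : ℝ} (hu : ff a b lam i J w u < -((κ ^ 2 * M + A₁ + 1 / 2) * lam)) :
    M ≤ ‖u‖ ^ 2 := by
  by_contra hM
  push Not at hM
  have h := lower ha hA hκ0 hκ hw hl u
  have h1 : lam * κ ^ 2 * ‖u‖ ^ 2 ≤ lam * κ ^ 2 * M :=
    mul_le_mul_of_nonneg_left hM.le (by positivity)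
  have h2 : 0 ≤ b / 8 * ‖u‖ ^ 4 := by positivity
  nlinarith

theorem ratio (ha : 0 ≤ a) (hb : 0 < b) {A₁ : ℝ}
    (hA : ∀ u, J u ≤ b / 8 * ‖u‖ ^ 4 + A₁)
    {w : L} (hw : ‖w‖ ≤ 1) (hl : 1 ≤ lam) {u : H} {c : ℝ}
    (hc : A₁ + 1 / 2 ≤ c / 2 * lam ^ 2) (hu : ff a b lam i J w u ≤ -(c * lam ^ 2)) :
    c / 2 * lam ≤ ‖i u‖ ^ 2 := by
  have h1 := hA u
  have h2 : 0 ≤ a / 2 * ‖u‖ ^ 2 := by positivity
  have h3 : 0 ≤ b / 8 * ‖u‖ ^ 4 := by positivity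
  have h5 : -‖i u‖ ≤ ⟪i u, w⟫ := by
    have e1 := abs_real_inner_le_norm (i u) w
    have e2 := neg_abs_le ⟪i u, w⟫
    nlinarith [norm_nonneg (i u), norm_nonneg w]
  have h6 : ‖i u‖ ≤ lam / 2 * ‖i u‖ ^ 2 + 1 / 2 := by
    nlinarith [sq_nonneg (‖i u‖ - 1), sq_nonneg ‖i u‖]
  unfold ff at hu
  have h7 : c / 2 * lam ^ 2 ≤ lam * ‖i u‖ ^ 2 := by nlinarith
  have h8 : lam * (c / 2 * lam) ≤ lam * ‖i u‖ ^ 2 := by nlinarith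
  exact le_of_mul_le_mul_left h8 (by linarith)

variable [CompleteSpace H] [CompleteSpace L]

theorem fn (hJ : Pow J DJ) (hi : IsCompactOperator i) (ha : 0 ≤ a) (hb : 0 < b) {A₁ : ℝ}
    (hA0 : 0 ≤ A₁) (hA : ∀ u, J u ≤ b / 8 * ‖u‖ ^ 4 + A₁) {κ : ℝ}
    (hκ0 : 0 ≤ κ) (hκ : ∀ u, ‖i u‖ ≤ κ * ‖u‖) {M : ℝ}
    (hM : ∀ u w, M ≤ ‖u‖ ^ 2 → M ≤ ‖w‖ ^ 2 →
      b / 2 * ‖u - w‖ ^ 2 ≤ ⟪G0 a b DJ u - G0 a b DJ w, u - w⟫)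
    {w : L} (hw : ‖w‖ ≤ 1) (hl : 1 ≤ lam) :
    Fn (ff a b lam i J w) (GG a b lam i DJ w) (-((κ ^ 2 * M + A₁ + 1 / 2) * lam)) where
  grad := hasFDerivAt_ff hJ w
  lip := GG_lip hJ w
  coer := by
    intro c
    refine ⟨8 * (lam * κ ^ 2 + (|c| + A₁ + 1 / 2)) / b + 1, fun u hu => ?_⟩
    have h := norm_sq_le ha hb hA0 hA hκ0 hκ hw hl (abs_nonneg c) (hu.trans (le_abs_self c))
    have h2 : 0 ≤ 8 * (lam * κ ^ 2 + (|c| + A₁ + 1 / 2)) / b := by positivity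
    by_contra hc
    push Not at hc
    nlinarith
  ps := by
    intro x c hc hx hg
    have hev : ∀ᶠ n in atTop, ff a b lam i J w (x n) < -((κ ^ 2 * M + A₁ + 1 / 2) * lam) :=
      hx.eventually_lt_const hc
    have hev2 : ∀ᶠ n in atTop, ff a b lam i J w (x n) < |c| + 1 :=
      hx.eventually_lt_const (lt_of_le_of_lt (le_abs_self c) (by linarith))
    obtain ⟨N, hN⟩ := (hev.and hev2).exists_forall_of_atTop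
    have hsh : Tendsto (fun n => n + N) atTop atTop := tendsto_add_atTop_nat N
    obtain ⟨y, φ, hφ, hy⟩ := ps_seq (lam := lam) (i := i) (DJ := DJ) hb hM hi
      (x := fun n => x (n + N)) (w := fun _ => w) (w0 := w)
      (R := 8 * (lam * κ ^ 2 + (|c| + 1 + A₁ + 1 / 2)) / b + 1) tendsto_const_nhds
      (by
        intro n
        have h := norm_sq_le ha hb hA0 hA hκ0 hκ hw hl (by positivity : 0 ≤ |c| + 1)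
          (hN (n + N) (by omega)).2.le
        have h2 : 0 ≤ 8 * (lam * κ ^ 2 + (|c| + 1 + A₁ + 1 / 2)) / b := by positivity
        by_contra hc
        push Not at hc
        nlinarith)
      (fun n => large_norm ha hb hA0 hA hκ0 hκ hw hl (hN (n + N) (by omega)).1)
      (hg.comp hsh)
    exact ⟨y, fun n => φ n + N, hφ.add_const N, hy⟩

theorem poly_ev (A B : ℝ) {c : ℝ} (hc : 0 < c) :
    ∀ᶠ lam : ℝ in atTop, A + B * lam ≤ c * lam ^ 2 := by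
  filter_upwards [eventually_ge_atTop (max 1 ((|A| + |B|) / c))] with lam hl
  have h1 : 1 ≤ lam := (le_max_left _ _).trans hl
  have h2 : (|A| + |B|) / c ≤ lam := (le_max_right _ _).trans hl
  rw [div_le_iff₀ hc] at h2
  have h3 := le_abs_self A
  have h4 := le_abs_self B
  have h5 := abs_nonneg A
  have h6 := abs_nonneg B
  nlinarith

end Pool.Agent.Helper566.Kir
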