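import Pool.Agent.Helper566.KSob

namespace Pool.Agent.Helper566.Kir

open MeasureTheory Filter Set
open scoped InnerProductSpace Topology

variable {N : ℕ} {Ω : Set (E N)}

/-- a bump function of outer radius 2 s about c -/
noncomputable def bmp (c : E N) {s : ℝ} (hs : 0 < s) : ContDiffBump c :=
  ⟨s, 2 * s, hs, by linarith⟩

theorem bmp_isTest {c : E N} {s : ℝ} (hs : 0 < s) (h : Metric.closedBall c (2 * s) ⊆ Ω) :
    IsTest Ω (bmp c hs) := by
  refine ⟨(bmp c hs).contDiff, (bmp c hs).hasCompactSupport, ?_⟩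
  rw [(bmp c hs).tsupport_eq]
  exact h

theorem bmp_ne {c : E N} {s : ℝ} (hs : 0 < s) (h : Metric.closedBall c (2 * s) ⊆ Ω) :
    (tpair (bmp c hs) (bmp_isTest hs h)).1 ≠ 0 := by
  intro h0
  have h1 : (tpair (bmp c hs) (bmp_isTest hs h)).1 =ᵐ[volume.restrict Ω] (bmp c hs) :=
    ((bmp_isTest hs h).memLp 2).coeFn_toLp
  rw [h0] at h1
  have h2 : ∀ᵐ x ∂(volume.restrict Ω), bmp c hs x = 0 := by
    filter_upwards [h1, Lp.coeFn_zero ℝ 2 (volume.restrict Ω)] with x e1 e2
    rw [← e1, e2]; rfl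
  have hball : Metric.ball c s ⊆ Ω := by
    refine Subset.trans ?_ h
    refine Metric.ball_subset_closedBall.trans (Metric.closedBall_subset_closedBall (by linarith))
  have h3 : ∀ᵐ x ∂(volume.restrict (Metric.ball c s)), bmp c hs x = 0 :=
    ae_mono (Measure.restrict_mono_set _ hball) h2
  have h4 : ∀ᵐ x ∂(volume.restrict (Metric.ball c s)), False := by
    filter_upwards [h3, ae_restrict_mem measurableSet_ball] with x e1 e2
    rw [(bmp c hs).one_of_mem_closedBall (Metric.ball_subset_closedBall e2)] at e1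
    exact one_ne_zero e1
  rw [Filter.eventually_false_iff_eq_bot, ae_eq_bot, Measure.restrict_eq_zero] at h4
  exact (Metric.measure_ball_pos volume c hs).ne' h4

theorem exists_bumps (hN : 0 < N) (hΩo : IsOpen Ω) (hne : Ω.Nonempty) :
    ∃ p0 ∈ H01 Ω, ∃ p1 ∈ H01 Ω, p0.1 ≠ 0 ∧ p1.1 ≠ 0 ∧ ⟪p0.1, p1.1⟫_ℝ = 0 := by
  obtain ⟨x0, hx0⟩ := hne
  obtain ⟨r, hr, hball⟩ := Metric.isOpen_iff.1 hΩo x0 hx0
  set e : E N := EuclideanSpace.single ⟨0, hN⟩ (1 : ℝ) with he
  have hen : ‖e‖ = 1 := by rw [he]; simp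
  set c1 : E N := x0 + (r / 2) • e with hc1
  have hd : dist c1 x0 = r / 2 := by
    rw [dist_eq_norm, hc1, add_sub_cancel_left, norm_smul, hen, mul_one,
      Real.norm_of_nonneg (by positivity)]
  have hs : 0 < r / 10 := by positivity
  have hb0 : Metric.closedBall x0 (2 * (r / 10)) ⊆ Ω := by
    refine Subset.trans ?_ hball
    exact Metric.closedBall_subset_ball (by linarith)
  have hb1 : Metric.closedBall c1 (2 * (r / 10)) ⊆ Ω := by
    refine Subset.trans (fun x hx => ?_) hball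
    rw [Metric.mem_closedBall] at hx
    rw [Metric.mem_ball]
    have := dist_triangle x c1 x0
    linarith
  refine ⟨tpair _ (bmp_isTest hs hb0), subset_closure (tpair_mem _ _),
    tpair _ (bmp_isTest hs hb1), subset_closure (tpair_mem _ _), bmp_ne hs hb0, bmp_ne hs hb1, ?_⟩
  rw [L2.inner_def]
  have h1 : (tpair (bmp x0 hs) (bmp_isTest hs hb0)).1 =ᵐ[volume.restrict Ω] (bmp x0 hs) :=
    ((bmp_isTest hs hb0).memLp 2).coeFn_toLp
  have h2 : (tpair (bmp c1 hs) (bmp_isTest hs hb1)).1 =ᵐ[volume.restrict Ω] (bmp c1 hs) :=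
    ((bmp_isTest hs hb1).memLp 2).coeFn_toLp
  have h3 : ∫ x in Ω, ⟪(tpair (bmp x0 hs) (bmp_isTest hs hb0)).1 x,
      (tpair (bmp c1 hs) (bmp_isTest hs hb1)).1 x⟫_ℝ = ∫ x in Ω, (0 : ℝ) := by
    apply integral_congr_ae
    filter_upwards [h1, h2] with x e1 e2
    rw [e1, e2]
    by_cases hx : bmp x0 hs x = 0
    · rw [hx]; simp
    · have hx1 : x ∈ Metric.ball x0 (2 * (r / 10)) := by
        have := (bmp x0 hs).support_eq
        rw [← show (bmp x0 hs).rOut = 2 * (r / 10) from rfl, ← this]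
        exact hx
      have hx2 : bmp c1 hs x = 0 := by
        apply (bmp c1 hs).zero_of_le_dist
        rw [show (bmp c1 hs).rOut = 2 * (r / 10) from rfl]
        rw [Metric.mem_ball] at hx1
        have h5 := dist_triangle c1 x x0
        rw [dist_comm c1 x] at h5
        linarith
      rw [hx2]; simp
  rw [h3]; simp

end Pool.Agent.Helper566.Kir
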