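import Mathlib

namespace Pool.Agent.Helper566.Kir

open MeasureTheory
open scoped ContDiff InnerProductSpace Topology

/-- Euclidean space of dimension N. -/
abbrev E (N : ℕ) : Type := EuclideanSpace ℝ (Fin N)

/-- The Hilbert space L2(Omega) of real functions (Lebesgue measure restricted to Omega). -/
abbrev L2 {N : ℕ} (Ω : Set (E N)) : Type := Lp ℝ 2 (volume.restrict Ω)

/-- The Hilbert space L2(Omega; R^N) of vector fields. -/
abbrev L2v {N : ℕ} (Ω : Set (E N)) : Type := Lp (E N) 2 (volume.restrict Ω)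

/-- Test functions: smooth functions with compact support contained in Omega. -/
def IsTest {N : ℕ} (Ω : Set (E N)) (φ : E N → ℝ) : Prop :=
  ContDiff ℝ ∞ φ ∧ HasCompactSupport φ ∧ tsupport φ ⊆ Ω

/-- The pairs (phi, grad phi), phi a test function, as elements of L2 x L2. -/
def TestPairs {N : ℕ} (Ω : Set (E N)) : Set (L2 Ω × L2v Ω) :=
  {p | ∃ φ : E N → ℝ, IsTest Ω φ ∧ p.1 =ᵐ[volume.restrict Ω] φ ∧
    p.2 =ᵐ[volume.restrict Ω] gradient φ}

/-- The Sobolev space H^1_0(Omega): an element is the pair p = (u, grad u), a limit in L2 x L2 of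
pairs (phi, grad phi) with phi a test function. -/
def H01 {N : ℕ} (Ω : Set (E N)) : Set (L2 Ω × L2v Ω) := closure (TestPairs Ω)

/-- The critical Sobolev exponent 2N/(N-2). -/
noncomputable def critExp (N : ℕ) : ℝ := 2 * (N : ℝ) / ((N : ℝ) - 2)

/-- The squared gradient norm of u, for p = (u, grad u). -/
noncomputable def gradSq {N : ℕ} {Ω : Set (E N)} (p : L2 Ω × L2v Ω) : ℝ :=
  ∫ x in Ω, ‖p.2 x‖ ^ 2

/-- The energy functional at u, for p = (u, grad u). -/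
noncomputable def energy {N : ℕ} {Ω : Set (E N)} (a b lam : ℝ) (v : L2 Ω)
    (p : L2 Ω × L2v Ω) : ℝ :=
  a / 2 * gradSq p + b / 4 * gradSq p ^ 2
    - 1 / critExp N * (∫ x in Ω, |p.1 x| ^ critExp N)
    - lam / 2 * (∫ x in Ω, (p.1 x - v x) ^ 2)

/-- p = (u, grad u) with u a weak solution of the Kirchhoff problem. -/
def IsWeakSol {N : ℕ} {Ω : Set (E N)} (a b lam : ℝ) (v : L2 Ω) (p : L2 Ω × L2v Ω) : Prop :=
  p ∈ H01 Ω ∧ ∀ q ∈ H01 Ω,
    (a + b * gradSq p) * (∫ x in Ω, ⟪p.2 x, q.2 x⟫_ℝ) =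
      (∫ x in Ω, |p.1 x| ^ (critExp N - 2) * p.1 x * q.1 x)
        + lam * (∫ x in Ω, (p.1 x - v x) * q.1 x)

/-- p = (u, grad u) with u a global minimizer of the energy on H^1_0(Omega). -/
def IsGlobalMin {N : ℕ} {Ω : Set (E N)} (a b lam : ℝ) (v : L2 Ω) (p : L2 Ω × L2v Ω) : Prop :=
  p ∈ H01 Ω ∧ ∀ q ∈ H01 Ω, energy a b lam v p ≤ energy a b lam v q

/-- The multiplicity property of (a, b) on Omega. -/
def MultiplicityProperty {N : ℕ} (Ω : Set (E N)) (a b : ℝ) : Prop :=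
  ∃ lam₀ : ℝ, 0 < lam₀ ∧ ∀ lam : ℝ, lam₀ ≤ lam →
    ∀ C : Set (L2 Ω), Convex ℝ C → (∀ p ∈ H01 Ω, p.1 ∈ closure C) →
      ∃ v ∈ C, ∃ p₁ p₂ p₃ : L2 Ω × L2v Ω,
        p₁.1 ≠ p₂.1 ∧ p₁.1 ≠ p₃.1 ∧ p₂.1 ≠ p₃.1 ∧
        IsGlobalMin a b lam v p₁ ∧ IsGlobalMin a b lam v p₂ ∧
        IsWeakSol a b lam v p₁ ∧ IsWeakSol a b lam v p₂ ∧ IsWeakSol a b lam v p₃

end Pool.Agent.Helper566.Kir
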