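import Pool.Agent.Helper566.KSob

namespace Pool.Agent.Helper566.Kir

open MeasureTheory Filter Set
open scoped InnerProductSpace Topology

variable {N : ℕ} {Ω : Set (E N)}

theorem inner_gradient_left (φ : E N → ℝ) (x e : E N) :
    ⟪gradient φ x, e⟫_ℝ = fderiv ℝ φ x e := by
  rw [← toDual_gradient (𝕜 := ℝ), InnerProductSpace.toDual_apply_apply]

theorem integrable_mul_compact {f g : E N → ℝ} (hf : Continuous f) (hg : Continuous g)
    (hc : HasCompactSupport g) : Integrable (fun x => f x * g x) :=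
  (hf.mul hg).integrable_of_hasCompactSupport (hc.mul_left)

theorem test_ibp {φ χ : E N → ℝ} (hφ : IsTest Ω φ) (hχ : IsTest Ω χ) (e : E N) :
    ∫ x in Ω, ⟪χ x • e, gradient φ x⟫_ℝ = -∫ x in Ω, ⟪fderiv ℝ χ x e, φ x⟫_ℝ := by
  have h1 : ∫ x in Ω, ⟪χ x • e, gradient φ x⟫_ℝ = ∫ x, χ x * fderiv ℝ φ x e := by
    rw [setIntegral_eq_integral_of_forall_compl_eq_zero]
    · refine integral_congr_ae (Eventually.of_forall fun x => ?_)
      simp only
      rw [inner_smul_left, real_inner_comm, inner_gradient_left]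
      simp
    · intro x hx
      have : χ x = 0 := by
        by_contra h
        exact hx (hχ.2.2 (subset_tsupport _ h))
      rw [this]; simp
  have h2 : ∫ x in Ω, ⟪fderiv ℝ χ x e, φ x⟫_ℝ = ∫ x, fderiv ℝ χ x e * φ x := by
    rw [setIntegral_eq_integral_of_forall_compl_eq_zero]
    · refine integral_congr_ae (Eventually.of_forall fun x => ?_)
      simp [mul_comm]
    · intro x hx
      have : φ x = 0 := by
        by_contra h
        exact hx (hφ.2.2 (subset_tsupport _ h))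
      rw [this]; simp
  rw [h1, h2]
  have c1 := hφ.contDiff_one
  have c2 := hχ.contDiff_one
  have d1 : Continuous (fun x => fderiv ℝ φ x e) :=
    (c1.continuous_fderiv (by norm_num)).clm_apply continuous_const
  have d2 : Continuous (fun x => fderiv ℝ χ x e) :=
    (c2.continuous_fderiv (by norm_num)).clm_apply continuous_const
  apply integral_mul_fderiv_eq_neg_fderiv_mul_of_integrable
  · exact integrable_mul_compact d2 c1.continuous hφ.2.1
  · exact integrable_mul_compact c2.continuous d1 (hφ.2.1.fderiv_apply (𝕜 := ℝ) e)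
  · exact integrable_mul_compact c2.continuous c1.continuous hφ.2.1
  · intro x _; exact (c2.differentiable (by norm_num)) x
  · intro x _; exact (c1.differentiable (by norm_num)) x

theorem memLp_X {χ : E N → ℝ} (hχ : IsTest Ω χ) (e : E N) :
    MemLp (fun x => χ x • e) 2 (volume.restrict Ω) := by
  have hc : Continuous (fun x => χ x • e) := hχ.1.continuous.smul continuous_const
  have hs : HasCompactSupport (fun x => χ x • e) := hχ.2.1.smul_right
  exact (hc.memLp_of_hasCompactSupport hs (μ := volume)).restrict Ω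

theorem memLp_d {χ : E N → ℝ} (hχ : IsTest Ω χ) (e : E N) :
    MemLp (fun x => fderiv ℝ χ x e) 2 (volume.restrict Ω) := by
  have hc : Continuous (fun x => fderiv ℝ χ x e) :=
    (hχ.contDiff_one.continuous_fderiv (by norm_num)).clm_apply continuous_const
  exact (hc.memLp_of_hasCompactSupport (hχ.2.1.fderiv_apply (𝕜 := ℝ) e) (μ := volume)).restrict Ω

/-- integration by parts on H^1_0 -/
theorem H01_ibp {χ : E N → ℝ} (hχ : IsTest Ω χ) (e : E N) {p : L2 Ω × L2v Ω} (hp : p ∈ H01 Ω) :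
    ∫ x in Ω, ⟪χ x • e, p.2 x⟫_ℝ = -∫ x in Ω, ⟪fderiv ℝ χ x e, p.1 x⟫_ℝ := by
  set X : L2v Ω := (memLp_X hχ e).toLp _ with hX
  set d : L2 Ω := (memLp_d hχ e).toLp _ with hd
  have eX : ∀ g : L2v Ω, ⟪X, g⟫_ℝ = ∫ x in Ω, ⟪χ x • e, g x⟫_ℝ := by
    intro g
    rw [L2.inner_def]
    apply integral_congr_ae
    filter_upwards [(memLp_X hχ e).coeFn_toLp] with x hx
    rw [hX, hx]
  have ed : ∀ u : L2 Ω, ⟪d, u⟫_ℝ = ∫ x in Ω, ⟪fderiv ℝ χ x e, u x⟫_ℝ := by
    intro g
    rw [L2.inner_def]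
    apply integral_congr_ae
    filter_upwards [(memLp_d hχ e).coeFn_toLp] with x hx
    rw [hd, hx]
  have hclosed : IsClosed {p : L2 Ω × L2v Ω | ⟪X, p.2⟫_ℝ = -⟪d, p.1⟫_ℝ} := by
    apply isClosed_eq <;> fun_prop
  have hsub : TestPairs Ω ⊆ {p : L2 Ω × L2v Ω | ⟪X, p.2⟫_ℝ = -⟪d, p.1⟫_ℝ} := by
    rintro p ⟨φ, h, h1, h2⟩
    rw [Set.mem_ofPred_eq, eX, ed]
    have q1 : ∫ x in Ω, ⟪χ x • e, p.2 x⟫_ℝ = ∫ x in Ω, ⟪χ x • e, gradient φ x⟫_ℝ := by
      apply integral_congr_ae
      filter_upwards [h2] with x hx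
      rw [hx]
    have q2 : ∫ x in Ω, ⟪fderiv ℝ χ x e, p.1 x⟫_ℝ = ∫ x in Ω, ⟪fderiv ℝ χ x e, φ x⟫_ℝ := by
      apply integral_congr_ae
      filter_upwards [h1] with x hx
      rw [hx]
    rw [q1, q2]
    exact test_ibp h hχ e
  have := closure_minimal hsub hclosed hp
  rw [Set.mem_ofPred_eq, eX, ed] at this
  exact this

/-- the weak gradient is unique -/
theorem H01_unique (hΩo : IsOpen Ω) (hΩ : Bornology.IsBounded Ω) {p : L2 Ω × L2v Ω}
    (hp : p ∈ H01 Ω) (h0 : p.1 = 0) : p.2 = 0 := by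
  have : IsFiniteMeasure (volume.restrict Ω) := ⟨by
    rw [Measure.restrict_apply_univ]; exact hΩ.measure_lt_top⟩
  have hint : IntegrableOn (p.2 : E N → E N) Ω := (Lp.memLp p.2).integrable one_le_two
  have hae : ∀ᵐ x, x ∈ Ω → p.2 x = 0 := by
    apply hΩo.ae_eq_zero_of_integral_contDiff_smul_eq_zero hint.locallyIntegrableOn
    intro χ c1 c2 c3
    have hχ : IsTest Ω χ := ⟨c1, c2, c3⟩
    have e1 : ∫ x, χ x • p.2 x = ∫ x in Ω, χ x • p.2 x := by
      rw [setIntegral_eq_integral_of_forall_compl_eq_zero]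
      intro x hx
      have : χ x = 0 := by
        by_contra h
        exact hx (c3 (subset_tsupport _ h))
      rw [this, zero_smul]
    rw [e1]
    have hi : IntegrableOn (fun x => χ x • p.2 x) Ω :=
      hint.integrable.smul_of_top_right (hχ.memLp ⊤)
    rw [← inner_self_eq_zero (𝕜 := ℝ)]
    have e2 := integral_inner (𝕜 := ℝ) hi (∫ x in Ω, χ x • p.2 x)
    rw [← e2]
    have e3 := H01_ibp hχ (∫ x in Ω, χ x • p.2 x) hp
    have e4 : ∫ x in Ω, ⟪fderiv ℝ χ x (∫ x in Ω, χ x • p.2 x), p.1 x⟫_ℝ = 0 := by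
      rw [h0]
      have : ∫ x in Ω, ⟪fderiv ℝ χ x (∫ x in Ω, χ x • p.2 x), (0 : L2 Ω) x⟫_ℝ =
          ∫ x in Ω, (0 : ℝ) := by
        apply integral_congr_ae
        filter_upwards [Lp.coeFn_zero ℝ 2 (volume.restrict Ω)] with x hx
        rw [hx]; simp
      rw [this]; simp
    rw [e4, neg_zero] at e3
    rw [← e3]
    apply integral_congr_ae
    refine Eventually.of_forall fun x => ?_
    simp only
    rw [inner_smul_left, inner_smul_right]
    simp
  apply Lp.ext
  rw [← ae_restrict_iff' hΩo.measurableSet] at hae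
  filter_upwards [hae, Lp.coeFn_zero (E N) 2 (volume.restrict Ω)] with x h1 h2
  rw [h1, h2]
  rfl

end Pool.Agent.Helper566.Kir
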