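import Pool.Agent.Helper566.KMin2

namespace Pool.Agent.Helper566.Kir

open scoped RealInnerProductSpace Topology
open Filter Set

variable {H : Type*} [NormedAddCommGroup H] [InnerProductSpace ℝ H] [CompleteSpace H]
variable {L : Type*} [NormedAddCommGroup L] [InnerProductSpace ℝ L] [CompleteSpace L]

/-- hypotheses on the power term -/
structure Pow (J : H → ℝ) (DJ : H → H) : Prop where
  grad : ∀ u, HasFDerivAt J (innerSL ℝ (DJ u)) u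
  lip : ∀ R : ℝ, ∃ Λ : ℝ, ∀ u w, ‖u‖ ≤ R → ‖w‖ ≤ R → ‖DJ u - DJ w‖ ≤ Λ * ‖u - w‖
  nonneg : ∀ u, 0 ≤ J u
  small : ∀ ε : ℝ, 0 < ε → ∃ A : ℝ, ∀ u, J u ≤ ε * ‖u‖ ^ 4 + A
  mono : ∀ ε : ℝ, 0 < ε → ∃ M : ℝ, ∀ u w, M ≤ ‖u‖ ^ 2 + ‖w‖ ^ 2 →
    ⟪DJ u - DJ w, u - w⟫ ≤ ε * (‖u‖ ^ 2 + ‖w‖ ^ 2) * ‖u - w‖ ^ 2
  even : ∀ u, J (-u) = J u

variable (a b lam : ℝ) (i : H →L[ℝ] L) (J : H → ℝ) (DJ : H → H)

/-- the functional -/
noncomputable def ff (w : L) (u : H) : ℝ :=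
  a / 2 * ‖u‖ ^ 2 + b / 4 * ‖u‖ ^ 4 - J u - lam / 2 * ‖i u‖ ^ 2 + ⟪i u, w⟫

/-- monotone part of the gradient -/
noncomputable def G0 (u : H) : H := (a + b * ‖u‖ ^ 2) • u - DJ u

/-- the gradient -/
noncomputable def GG (w : L) (u : H) : H :=
  G0 a b DJ u - lam • (ContinuousLinearMap.adjoint i) (i u) +
    (ContinuousLinearMap.adjoint i) w

variable {a b lam i J DJ}

theorem hsq {K : Type*} [NormedAddCommGroup K] [InnerProductSpace ℝ K] (u : K) :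
    HasFDerivAt (fun u : K => ‖u‖ ^ 2) ((2 : ℝ) • innerSL ℝ u) u := by
  refine (hasStrictFDerivAt_norm_sq u).hasFDerivAt.congr_fderiv ?_
  rw [two_smul, two_smul]

set_option linter.unusedSimpArgs false in
theorem hasFDerivAt_ff (hJ : Pow J DJ) (w : L) (u : H) :
    HasFDerivAt (ff a b lam i J w) (innerSL ℝ (GG a b lam i DJ w u)) u := by
  have h1 := hsq u
  have h2 : HasFDerivAt (fun u : H => ‖u‖ ^ 4) ((4 * ‖u‖ ^ 2) • innerSL ℝ u) u := by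
    have := h1.pow 2
    have e : (fun u : H => ‖u‖ ^ 4) = fun u : H => (‖u‖ ^ 2) ^ 2 := by ext; ring
    rw [e]
    refine this.congr_fderiv ?_
    ext z
    simp
    ring
  have h3 : HasFDerivAt (fun u : H => i u) i u := i.hasFDerivAt
  have h4 : HasFDerivAt (fun u : H => ‖i u‖ ^ 2)
      (((2 : ℝ) • innerSL ℝ (i u)).comp i) u := by
    exact (hsq (i u)).comp u h3
  have h5 : HasFDerivAt (fun u : H => ⟪i u, w⟫) ((innerSL ℝ w).comp i) u := by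
    have := ((innerSL ℝ w).hasFDerivAt (x := i u)).comp u h3
    have e : (fun u : H => ⟪i u, w⟫) = (innerSL ℝ w) ∘ fun u => i u := by
      ext z; simp [real_inner_comm]
    rw [e]; exact this
  have h := ((((h1.const_mul (a / 2)).add (h2.const_mul (b / 4))).sub (hJ.grad u)).sub
    (h4.const_mul (lam / 2))).add h5
  refine h.congr_fderiv ?_
  ext z
  simp only [GG, G0, innerSL_apply_apply, inner_add_left, inner_sub_left, inner_smul_left,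
    ContinuousLinearMap.adjoint_inner_left, add_apply,
    sub_apply, smul_apply, ContinuousLinearMap.comp_apply,
    smul_eq_mul, map_add, map_sub, map_smul]
  simp
  ring

omit [CompleteSpace H] in
theorem cube_lip {R : ℝ} {u w : H} (hu : ‖u‖ ≤ R) (hw : ‖w‖ ≤ R) :
    ‖‖u‖ ^ 2 • u - ‖w‖ ^ 2 • w‖ ≤ 3 * R ^ 2 * ‖u - w‖ := by
  have hR : 0 ≤ R := (norm_nonneg u).trans hu
  have e : ‖u‖ ^ 2 • u - ‖w‖ ^ 2 • w = ‖u‖ ^ 2 • (u - w) + (‖u‖ ^ 2 - ‖w‖ ^ 2) • w := by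
    rw [smul_sub, sub_smul]; abel
  rw [e]
  refine (norm_add_le _ _).trans ?_
  rw [norm_smul, norm_smul, Real.norm_of_nonneg (sq_nonneg _), Real.norm_eq_abs]
  have h1 : |‖u‖ ^ 2 - ‖w‖ ^ 2| ≤ 2 * R * ‖u - w‖ := by
    have e1 : ‖u‖ ^ 2 - ‖w‖ ^ 2 = (‖u‖ + ‖w‖) * (‖u‖ - ‖w‖) := by ring
    rw [e1, abs_mul, abs_of_nonneg (by positivity)]
    have := abs_norm_sub_norm_le u w
    have n1 := norm_nonneg (u - w)
    have : (‖u‖ + ‖w‖) * |‖u‖ - ‖w‖| ≤ (2 * R) * ‖u - w‖ := by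
      apply mul_le_mul (by linarith) this (abs_nonneg _) (by positivity)
    exact this
  have h2 : ‖u‖ ^ 2 * ‖u - w‖ ≤ R ^ 2 * ‖u - w‖ :=
    mul_le_mul_of_nonneg_right (pow_le_pow_left₀ (norm_nonneg _) hu 2) (norm_nonneg _)
  have h3 : |‖u‖ ^ 2 - ‖w‖ ^ 2| * ‖w‖ ≤ (2 * R * ‖u - w‖) * R :=
    mul_le_mul h1 hw (norm_nonneg _) (by positivity)
  nlinarith

theorem GG_lip (hJ : Pow J DJ) (w : L) (R : ℝ) : ∃ Λ : ℝ, ∀ u z, ‖u‖ ≤ R → ‖z‖ ≤ R →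
    ‖GG a b lam i DJ w u - GG a b lam i DJ w z‖ ≤ Λ * ‖u - z‖ := by
  obtain ⟨Λ, hΛ⟩ := hJ.lip R
  set T := (ContinuousLinearMap.adjoint i).comp i with hT
  refine ⟨|a| + |b| * (3 * R ^ 2) + Λ + |lam| * ‖T‖, fun u z hu hz => ?_⟩
  have e : GG a b lam i DJ w u - GG a b lam i DJ w z =
      a • (u - z) + b • (‖u‖ ^ 2 • u - ‖z‖ ^ 2 • z) - (DJ u - DJ z) - lam • T (u - z) := by
    simp only [GG, G0, hT, ContinuousLinearMap.comp_apply, map_sub, add_smul, smul_sub, mul_smul]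
    abel
  rw [e]
  have h1 : ‖a • (u - z)‖ = |a| * ‖u - z‖ := by rw [norm_smul, Real.norm_eq_abs]
  have h2 : ‖b • (‖u‖ ^ 2 • u - ‖z‖ ^ 2 • z)‖ ≤ |b| * (3 * R ^ 2 * ‖u - z‖) := by
    rw [norm_smul, Real.norm_eq_abs]
    exact mul_le_mul_of_nonneg_left (cube_lip hu hz) (abs_nonneg _)
  have h3 := hΛ u z hu hz
  have h4 : ‖lam • T (u - z)‖ ≤ |lam| * (‖T‖ * ‖u - z‖) := by
    rw [norm_smul, Real.norm_eq_abs]
    exact mul_le_mul_of_nonneg_left (T.le_opNorm _) (abs_nonneg _)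
  calc _ ≤ ‖a • (u - z)‖ + ‖b • (‖u‖ ^ 2 • u - ‖z‖ ^ 2 • z)‖ + ‖DJ u - DJ z‖
        + ‖lam • T (u - z)‖ := by
        refine (norm_sub_le _ _).trans (add_le_add ?_ le_rfl)
        refine (norm_sub_le _ _).trans (add_le_add ?_ le_rfl)
        exact norm_add_le _ _
    _ ≤ |a| * ‖u - z‖ + |b| * (3 * R ^ 2 * ‖u - z‖) + Λ * ‖u - z‖ +
        |lam| * (‖T‖ * ‖u - z‖) := by linarith
    _ = _ := by ring

omit [CompleteSpace H] in
theorem cube_mono (u w : H) : ⟪‖u‖ ^ 2 • u - ‖w‖ ^ 2 • w, u - w⟫ =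
    (‖u‖ ^ 2 - ‖w‖ ^ 2) ^ 2 / 2 + (‖u‖ ^ 2 + ‖w‖ ^ 2) * ‖u - w‖ ^ 2 / 2 := by
  rw [norm_sub_sq_real, inner_sub_left, inner_sub_right, inner_sub_right]
  simp only [inner_smul_left, real_inner_self_eq_norm_sq, real_inner_comm w u]
  simp
  ring

omit [CompleteSpace H] in
/-- strong monotonicity outside a ball -/
theorem G0_mono (hJ : Pow J DJ) (ha : 0 ≤ a) (hb : 0 < b) : ∃ M : ℝ, 1 ≤ M ∧ ∀ u w,
    M ≤ ‖u‖ ^ 2 → M ≤ ‖w‖ ^ 2 → b / 2 * ‖u - w‖ ^ 2 ≤ ⟪G0 a b DJ u - G0 a b DJ w, u - w⟫ := by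
  obtain ⟨M, hM⟩ := hJ.mono (b / 4) (by positivity)
  refine ⟨max M 1, le_max_right _ _, fun u w hu hw => ?_⟩
  have hMu : M ≤ ‖u‖ ^ 2 + ‖w‖ ^ 2 := by
    have := le_max_left M 1
    nlinarith [sq_nonneg ‖w‖]
  have h1 := hM u w hMu
  have e : ⟪G0 a b DJ u - G0 a b DJ w, u - w⟫ = a * ‖u - w‖ ^ 2 +
      b * ⟪‖u‖ ^ 2 • u - ‖w‖ ^ 2 • w, u - w⟫ - ⟪DJ u - DJ w, u - w⟫ := by
    have e1 : G0 a b DJ u - G0 a b DJ w =
        a • (u - w) + b • (‖u‖ ^ 2 • u - ‖w‖ ^ 2 • w) - (DJ u - DJ w) := by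
      simp only [G0, add_smul, smul_sub, mul_smul]; abel
    rw [e1, inner_sub_left, inner_add_left, inner_smul_left, inner_smul_left,
      real_inner_self_eq_norm_sq]
    simp
  rw [e, cube_mono]
  have m1 := (le_max_right M 1).trans hu
  have m2 := (le_max_right M 1).trans hw
  have h2 : 0 ≤ ‖u - w‖ ^ 2 := sq_nonneg _
  have h3 : 0 ≤ a * ‖u - w‖ ^ 2 := mul_nonneg ha h2
  have h4 : 0 ≤ b * ((‖u‖ ^ 2 - ‖w‖ ^ 2) ^ 2 / 2) := by positivity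
  have h5 : 2 * ‖u - w‖ ^ 2 ≤ (‖u‖ ^ 2 + ‖w‖ ^ 2) * ‖u - w‖ ^ 2 :=
    mul_le_mul_of_nonneg_right (by linarith) h2
  have h6 : b / 4 * (2 * ‖u - w‖ ^ 2) ≤ b / 4 * ((‖u‖ ^ 2 + ‖w‖ ^ 2) * ‖u - w‖ ^ 2) :=
    mul_le_mul_of_nonneg_left h5 (by positivity)
  nlinarith

/-- compactness of almost critical sequences of large norm -/
theorem ps_seq (hb : 0 < b) {M : ℝ}
    (hM : ∀ u w, M ≤ ‖u‖ ^ 2 → M ≤ ‖w‖ ^ 2 →
      b / 2 * ‖u - w‖ ^ 2 ≤ ⟪G0 a b DJ u - G0 a b DJ w, u - w⟫)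
    (hi : IsCompactOperator i) {x : ℕ → H} {w : ℕ → L} {w0 : L} {R : ℝ}
    (hw : Tendsto w atTop (𝓝 w0)) (hx : ∀ n, ‖x n‖ ≤ R) (hxM : ∀ n, M ≤ ‖x n‖ ^ 2)
    (hg : Tendsto (fun n => GG a b lam i DJ (w n) (x n)) atTop (𝓝 0)) :
    ∃ (y : H) (φ : ℕ → ℕ), StrictMono φ ∧ Tendsto (fun n => x (φ n)) atTop (𝓝 y) := by
  have hK : IsCompact (closure (i '' Metric.closedBall (0 : H) R)) :=
    hi.isCompact_closure_image_closedBall R
  obtain ⟨y0, -, φ, hφ, hy0⟩ := hK.tendsto_subseq (x := fun n => i (x n))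
    (fun n => subset_closure ⟨x n, by simpa using hx n, rfl⟩)
  have hy0' : Tendsto (fun n => i (x (φ n))) atTop (𝓝 y0) := hy0
  set A := ContinuousLinearMap.adjoint i with hA
  have hlim : Tendsto (fun n => G0 a b DJ (x (φ n))) atTop (𝓝 (0 + lam • A y0 - A w0)) := by
    have l1 : Tendsto (fun n => GG a b lam i DJ (w (φ n)) (x (φ n))) atTop (𝓝 0) :=
      hg.comp hφ.tendsto_atTop
    have l2 : Tendsto (fun n => lam • A (i (x (φ n)))) atTop (𝓝 (lam • A y0)) :=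
      ((A.continuous.tendsto y0).comp hy0').const_smul lam
    have l3 : Tendsto (fun n => A (w (φ n))) atTop (𝓝 (A w0)) :=
      (A.continuous.tendsto w0).comp (hw.comp hφ.tendsto_atTop)
    refine ((l1.add l2).sub l3).congr fun n => ?_
    simp only [GG, ← hA]
    abel
  have hcau := hlim.cauchySeq
  have hkey : ∀ m n, b / 2 * ‖x (φ m) - x (φ n)‖ ≤
      ‖G0 a b DJ (x (φ m)) - G0 a b DJ (x (φ n))‖ := by
    intro m n
    rcases eq_or_ne (‖x (φ m) - x (φ n)‖) 0 with h0 | h0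
    · rw [h0, mul_zero]; exact norm_nonneg _
    · have hpos : 0 < ‖x (φ m) - x (φ n)‖ := lt_of_le_of_ne (norm_nonneg _) h0.symm
      have h1 := hM _ _ (hxM (φ m)) (hxM (φ n))
      have h2 := real_inner_le_norm (G0 a b DJ (x (φ m)) - G0 a b DJ (x (φ n)))
        (x (φ m) - x (φ n))
      have h3 : (b / 2 * ‖x (φ m) - x (φ n)‖) * ‖x (φ m) - x (φ n)‖ ≤
          ‖G0 a b DJ (x (φ m)) - G0 a b DJ (x (φ n))‖ * ‖x (φ m) - x (φ n)‖ := by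
        nlinarith
      exact le_of_mul_le_mul_right h3 hpos
  have hcx : CauchySeq (fun n => x (φ n)) := by
    rw [Metric.cauchySeq_iff] at hcau ⊢
    intro ε hε
    obtain ⟨N, hN⟩ := hcau (b / 2 * ε) (by positivity)
    refine ⟨N, fun m hm n hn => ?_⟩
    have h1 := hN m hm n hn
    rw [dist_eq_norm] at h1 ⊢
    have h2 := hkey m n
    have h3 : b / 2 * ‖x (φ m) - x (φ n)‖ < b / 2 * ε := lt_of_le_of_lt h2 h1
    exact lt_of_mul_lt_mul_left h3 (by positivity)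
  obtain ⟨y, hy⟩ := cauchySeq_tendsto_of_complete hcx
  exact ⟨y, φ, hφ, hy⟩

end Pool.Agent.Helper566.Kir
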