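import Pool.Agent.Helper566.KHol
import Pool.Agent.Helper566.KFun

namespace Pool.Agent.Helper566.Kir

open MeasureTheory Filter Set
open scoped Topology ENNReal NNReal RealInnerProductSpace

variable {α : Type*} [MeasurableSpace α] {μ : Measure α}
variable {H : Type*} [NormedAddCommGroup H] [InnerProductSpace ℝ H]
variable {q S : ℝ} {i : H →L[ℝ] Lp ℝ 2 μ}

/-- Sobolev hypothesis on the inclusion -/
def Sob (μ : Measure α) (q S : ℝ) (i : H →L[ℝ] Lp ℝ 2 μ) : Prop :=
  ∀ u, MemLp (i u) (ENNReal.ofReal q) μ ∧ nq μ q (i u) ≤ S * ‖u‖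

theorem measurable_kq (q : ℝ) : Measurable (kq q) := by
  unfold kq
  fun_prop

theorem int_k (hq : 2 < q) (h : Sob μ q S i) (u z : H) :
    Integrable (fun x => kq q (i u x) * i z x) μ := by
  have h1 := (holder3_real hq (h u).1 (h u).1 (h z).1).1
  refine h1.mono' ?_ (Eventually.of_forall fun x => ?_)
  · have a1 := (h u).1.1.aemeasurable
    have a2 := (h z).1.1.aemeasurable
    exact (((measurable_kq q).comp_aemeasurable a1).mul a2).aestronglyMeasurable
  · rw [Real.norm_eq_abs, abs_mul, abs_kq]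

theorem abs_ell_le (hq : 2 < q) (h : Sob μ q S i) (u z : H) :
    |∫ x, kq q (i u x) * i z x ∂μ| ≤ nq μ q (i u) ^ (q - 2) * nq μ q (i u) * (S * ‖z‖) := by
  have h1 := holder3_real hq (h u).1 (h u).1 (h z).1
  refine (abs_integral_le_integral_abs).trans ?_
  have e : (fun x => |kq q (i u x) * i z x|) =
      fun x => |i u x| ^ (q - 2) * |i u x| * |i z x| := by
    funext x; rw [abs_mul, abs_kq]
  rw [e]
  refine h1.2.trans ?_
  apply mul_le_mul_of_nonneg_left (h z).2
  have := nq_nonneg (μ := μ) q (i u)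
  positivity

/-- derivative of the power term as a linear functional -/
noncomputable def ell (hq : 2 < q) (h : Sob μ q S i) (u : H) : H →L[ℝ] ℝ :=
  LinearMap.mkContinuous
    { toFun := fun z => ∫ x, kq q (i u x) * i z x ∂μ
      map_add' := by
        intro z z'
        rw [← integral_add (int_k hq h u z) (int_k hq h u z')]
        apply integral_congr_ae
        rw [map_add]
        filter_upwards [Lp.coeFn_add (i z) (i z')] with x hx
        rw [hx, Pi.add_apply]; ring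
      map_smul' := by
        intro c z
        rw [RingHom.id_apply, smul_eq_mul, ← integral_const_mul]
        apply integral_congr_ae
        rw [map_smul]
        filter_upwards [Lp.coeFn_smul c (i z)] with x hx
        rw [hx, Pi.smul_apply, smul_eq_mul]; ring }
    (nq μ q (i u) ^ (q - 2) * nq μ q (i u) * S)
    (by
      intro z
      rw [Real.norm_eq_abs]
      refine (abs_ell_le hq h u z).trans (le_of_eq ?_)
      ring)

theorem ell_apply (hq : 2 < q) (h : Sob μ q S i) (u z : H) :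
    ell hq h u z = ∫ x, kq q (i u x) * i z x ∂μ := rfl

theorem memLp_abs {f : α → ℝ} {p : ℝ≥0∞} (hf : MemLp f p μ) : MemLp (fun x => |f x|) p μ :=
  hf.norm

theorem ell_lip (hq : 2 < q) (h : Sob μ q S i) (u w z : H) :
    |ell hq h u z - ell hq h w z| ≤
      (q - 1) * (S * ‖u‖ + S * ‖w‖) ^ (q - 2) * (S * ‖u - w‖) * (S * ‖z‖) := by
  rw [ell_apply, ell_apply, ← integral_sub (int_k hq h u z) (int_k hq h w z)]
  set f : α → ℝ := (fun x => |i u x|) + (fun x => |i w x|) with hf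
  have hfm : MemLp f (ENNReal.ofReal q) μ := (memLp_abs (h u).1).add (memLp_abs (h w).1)
  have hnf : nq μ q f ≤ S * ‖u‖ + S * ‖w‖ := by
    refine (nq_add (by linarith) (memLp_abs (h u).1) (memLp_abs (h w).1)).trans ?_
    rw [nq_abs, nq_abs]
    exact add_le_add (h u).2 (h w).2
  have h1 := holder3_real hq hfm (h (u - w)).1 (h z).1
  have hb : ∀ᵐ x ∂μ, ‖kq q (i u x) * i z x - kq q (i w x) * i z x‖ ≤
      (q - 1) * (|f x| ^ (q - 2) * |i (u - w) x| * |i z x|) := by
    rw [map_sub]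
    filter_upwards [Lp.coeFn_sub (i u) (i w)] with x hx
    rw [hx, Pi.sub_apply, ← sub_mul, Real.norm_eq_abs, abs_mul]
    have h2 := kq_lip hq (i u x) (i w x)
    have h3 : |f x| = |i u x| + |i w x| := by
      rw [hf, Pi.add_apply, abs_of_nonneg (by positivity)]
    rw [h3]
    have h4 := mul_le_mul_of_nonneg_right h2 (abs_nonneg (i z x))
    linarith
  have h5 := norm_integral_le_of_norm_le (h1.1.const_mul (q - 1)) hb
  rw [Real.norm_eq_abs, integral_const_mul] at h5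
  refine h5.trans ?_
  have n1 := nq_nonneg (μ := μ) q f
  have n2 := nq_nonneg (μ := μ) q (i (u - w))
  have n3 := nq_nonneg (μ := μ) q (i z)
  have h6 : nq μ q f ^ (q - 2) ≤ (S * ‖u‖ + S * ‖w‖) ^ (q - 2) :=
    Real.rpow_le_rpow n1 hnf (by linarith)
  have h7 : nq μ q f ^ (q - 2) * nq μ q (i (u - w)) ≤
      (S * ‖u‖ + S * ‖w‖) ^ (q - 2) * (S * ‖u - w‖) :=
    mul_le_mul h6 (h (u - w)).2 n2 (le_trans (by positivity) h6)
  have h8 : nq μ q f ^ (q - 2) * nq μ q (i (u - w)) * nq μ q (i z) ≤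
      (S * ‖u‖ + S * ‖w‖) ^ (q - 2) * (S * ‖u - w‖) * (S * ‖z‖) :=
    mul_le_mul h7 (h z).2 n3 (le_trans (by positivity) h7)
  calc (q - 1) * ∫ x, |f x| ^ (q - 2) * |i (u - w) x| * |i z x| ∂μ
      ≤ (q - 1) * ((S * ‖u‖ + S * ‖w‖) ^ (q - 2) * (S * ‖u - w‖) * (S * ‖z‖)) :=
        mul_le_mul_of_nonneg_left (h1.2.trans h8) (by linarith)
    _ = _ := by ring

/-- the power term -/
noncomputable def JJ (μ : Measure α) (q : ℝ) (i : H →L[ℝ] Lp ℝ 2 μ) (u : H) : ℝ :=
  1 / q * ∫ x, |i u x| ^ q ∂μ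

theorem JJ_exp (hq : 2 < q) (h : Sob μ q S i) (u z : H) :
    |JJ μ q i (u + z) - JJ μ q i u - ell hq h u z| ≤
      (q - 1) * (2 * (S * ‖u‖) + S * ‖z‖) ^ (q - 2) * (S * ‖z‖) * (S * ‖z‖) := by
  have e : JJ μ q i (u + z) - JJ μ q i u - ell hq h u z =
      ∫ x, (1 / q * |i u x + i z x| ^ q - 1 / q * |i u x| ^ q - kq q (i u x) * i z x) ∂μ := by
    have i1 : Integrable (fun x => |i u x + i z x| ^ q) μ := by
      have := (integral_pow hq ((h u).1.add (h z).1)).1
      exact this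
    have i2 := (integral_pow hq (h u).1).1
    have i3 := int_k hq h u z
    have e1 : ∫ x, |i (u + z) x| ^ q ∂μ = ∫ x, |i u x + i z x| ^ q ∂μ := by
      apply integral_congr_ae
      rw [map_add]
      filter_upwards [Lp.coeFn_add (i u) (i z)] with x hx
      rw [hx, Pi.add_apply]
    have i12 : Integrable (fun x => 1 / q * |i u x + i z x| ^ q - 1 / q * |i u x| ^ q) μ :=
      (i1.const_mul (1 / q)).sub (i2.const_mul (1 / q))
    rw [integral_sub i12 i3,
      integral_sub (i1.const_mul (1 / q)) (i2.const_mul (1 / q)), integral_const_mul,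
      integral_const_mul, JJ, JJ, ell_apply, e1]
  rw [e]
  set f : α → ℝ := ((fun x => |i u x|) + (fun x => |i u x|)) + (fun x => |i z x|) with hf
  have hfm0 := (memLp_abs (h u).1).add (memLp_abs (h u).1)
  have hfm : MemLp f (ENNReal.ofReal q) μ := hfm0.add (memLp_abs (h z).1)
  have hnf : nq μ q f ≤ 2 * (S * ‖u‖) + S * ‖z‖ := by
    refine (nq_add (by linarith) hfm0 (memLp_abs (h z).1)).trans ?_
    have h2 := nq_add (by linarith) (memLp_abs (h u).1) (memLp_abs (h u).1)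
    rw [nq_abs] at h2
    rw [nq_abs]
    have h3 := (h u).2
    have h4 := (h z).2
    linarith
  have h1 := holder3_real hq hfm (h z).1 (h z).1
  have hb : ∀ᵐ x ∂μ, ‖1 / q * |i u x + i z x| ^ q - 1 / q * |i u x| ^ q -
      kq q (i u x) * i z x‖ ≤ (q - 1) * (|f x| ^ (q - 2) * |i z x| * |i z x|) := by
    refine Eventually.of_forall fun x => ?_
    rw [Real.norm_eq_abs]
    have h2 := K_exp hq (i u x) (i z x)
    have h3 : |f x| = 2 * |i u x| + |i z x| := by
      rw [hf, Pi.add_apply, Pi.add_apply, abs_of_nonneg (by positivity)]; ring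
    rw [h3]
    linarith
  have h5 := norm_integral_le_of_norm_le (h1.1.const_mul (q - 1)) hb
  rw [Real.norm_eq_abs, integral_const_mul] at h5
  refine h5.trans ?_
  have n1 := nq_nonneg (μ := μ) q f
  have n3 := nq_nonneg (μ := μ) q (i z)
  have h6 : nq μ q f ^ (q - 2) ≤ (2 * (S * ‖u‖) + S * ‖z‖) ^ (q - 2) :=
    Real.rpow_le_rpow n1 hnf (by linarith)
  have h7 : nq μ q f ^ (q - 2) * nq μ q (i z) ≤
      (2 * (S * ‖u‖) + S * ‖z‖) ^ (q - 2) * (S * ‖z‖) :=
    mul_le_mul h6 (h z).2 n3 (le_trans (by positivity) h6)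
  have h8 : nq μ q f ^ (q - 2) * nq μ q (i z) * nq μ q (i z) ≤
      (2 * (S * ‖u‖) + S * ‖z‖) ^ (q - 2) * (S * ‖z‖) * (S * ‖z‖) :=
    mul_le_mul h7 (h z).2 n3 (le_trans (by positivity) h7)
  calc (q - 1) * ∫ x, |f x| ^ (q - 2) * |i z x| * |i z x| ∂μ
      ≤ (q - 1) * ((2 * (S * ‖u‖) + S * ‖z‖) ^ (q - 2) * (S * ‖z‖) * (S * ‖z‖)) :=
        mul_le_mul_of_nonneg_left (h1.2.trans h8) (by linarith)
    _ = _ := by ring

variable [CompleteSpace H]

/-- gradient of the power term -/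
noncomputable def DJJ (hq : 2 < q) (h : Sob μ q S i) (u : H) : H :=
  (InnerProductSpace.toDual ℝ H).symm (ell hq h u)

theorem inner_DJJ (hq : 2 < q) (h : Sob μ q S i) (u z : H) :
    ⟪DJJ hq h u, z⟫ = ∫ x, kq q (i u x) * i z x ∂μ := by
  rw [DJJ, InnerProductSpace.toDual_symm_apply, ell_apply]

theorem DJJ_lip (hq : 2 < q) (hS : 0 ≤ S) (h : Sob μ q S i) (u w : H) :
    ‖DJJ hq h u - DJJ hq h w‖ ≤
      (q - 1) * (S * ‖u‖ + S * ‖w‖) ^ (q - 2) * (S * ‖u - w‖) * S := by
  rw [DJJ, DJJ, ← map_sub, LinearIsometryEquiv.norm_map]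
  apply ContinuousLinearMap.opNorm_le_bound
  · have : 0 ≤ q - 1 := by linarith
    positivity
  · intro z
    rw [sub_apply, Real.norm_eq_abs]
    refine (ell_lip hq h u w z).trans (le_of_eq ?_)
    ring

theorem JJ_hasFDerivAt (hq : 2 < q) (hS : 0 ≤ S) (h : Sob μ q S i) (u : H) :
    HasFDerivAt (JJ μ q i) (innerSL ℝ (DJJ hq h u)) u := by
  rw [hasFDerivAt_iff_isLittleO_nhds_zero]
  have hbig : (fun z : H => JJ μ q i (u + z) - JJ μ q i u - innerSL ℝ (DJJ hq h u) z) =O[𝓝 0]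
      fun z => ‖z‖ ^ 2 := by
    refine Asymptotics.IsBigO.of_bound
      ((q - 1) * (2 * (S * ‖u‖) + S * 1) ^ (q - 2) * (S * S)) ?_
    have hev : ∀ᶠ z : H in 𝓝 0, ‖z‖ < 1 := by
      have : Tendsto (fun z : H => ‖z‖) (𝓝 0) (𝓝 0) := by
        simpa using (continuous_norm (E := H)).tendsto 0
      exact this.eventually_lt_const one_pos
    filter_upwards [hev] with z hz
    have h1 := JJ_exp hq h u z
    have e : innerSL ℝ (DJJ hq h u) z = ell hq h u z := by
      rw [innerSL_apply_apply, inner_DJJ, ell_apply]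
    rw [e, Real.norm_eq_abs]
    refine h1.trans ?_
    have h2 : (2 * (S * ‖u‖) + S * ‖z‖) ^ (q - 2) ≤ (2 * (S * ‖u‖) + S * 1) ^ (q - 2) := by
      apply Real.rpow_le_rpow (by positivity) _ (by linarith)
      have := mul_le_mul_of_nonneg_left hz.le hS
      linarith
    have h3 : 0 ≤ (S * ‖z‖) * (S * ‖z‖) := by positivity
    have h4 : 0 ≤ q - 1 := by linarith
    rw [norm_pow, norm_norm]
    calc (q - 1) * (2 * (S * ‖u‖) + S * ‖z‖) ^ (q - 2) * (S * ‖z‖) * (S * ‖z‖)
        = (q - 1) * (2 * (S * ‖u‖) + S * ‖z‖) ^ (q - 2) * ((S * ‖z‖) * (S * ‖z‖)) := by ring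
      _ ≤ (q - 1) * (2 * (S * ‖u‖) + S * 1) ^ (q - 2) * ((S * ‖z‖) * (S * ‖z‖)) := by
        apply mul_le_mul_of_nonneg_right _ h3
        exact mul_le_mul_of_nonneg_left h2 h4
      _ = _ := by ring
  refine hbig.trans_isLittleO ?_
  exact Asymptotics.isLittleO_norm_pow_id one_lt_two

theorem pow_JJ (hq : 2 < q) (hq4 : q < 4) (hS : 0 ≤ S) (h : Sob μ q S i) :
    Pow (JJ μ q i) (DJJ hq h) where
  grad := JJ_hasFDerivAt hq hS h
  lip := by
    intro R
    refine ⟨(q - 1) * (S * R + S * R) ^ (q - 2) * S * S, fun u w hu hw => ?_⟩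
    refine (DJJ_lip hq hS h u w).trans ?_
    have h2 : (S * ‖u‖ + S * ‖w‖) ^ (q - 2) ≤ (S * R + S * R) ^ (q - 2) := by
      apply Real.rpow_le_rpow (by positivity) _ (by linarith)
      exact add_le_add (mul_le_mul_of_nonneg_left hu hS) (mul_le_mul_of_nonneg_left hw hS)
    have h4 : 0 ≤ q - 1 := by linarith
    calc (q - 1) * (S * ‖u‖ + S * ‖w‖) ^ (q - 2) * (S * ‖u - w‖) * S
        = (q - 1) * (S * ‖u‖ + S * ‖w‖) ^ (q - 2) * (S * ‖u - w‖ * S) := by ring
      _ ≤ (q - 1) * (S * R + S * R) ^ (q - 2) * (S * ‖u - w‖ * S) := by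
        apply mul_le_mul_of_nonneg_right _ (by positivity)
        exact mul_le_mul_of_nonneg_left h2 h4
      _ = _ := by ring
  nonneg := by
    intro u
    unfold JJ
    have : 0 ≤ ∫ x, |i u x| ^ q ∂μ := integral_nonneg fun x => by positivity
    have : 0 < q := by linarith
    positivity
  small := by
    intro ε hε
    obtain ⟨A, hA⟩ := growth_small (q := q) (c := 1 / q * S ^ q) (by
      have : 0 < q := by linarith
      positivity) (by linarith) hq4 hε
    refine ⟨A, fun u => ?_⟩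
    refine le_trans ?_ (hA ‖u‖ (norm_nonneg _))
    unfold JJ
    have hq0 : 0 < q := by linarith
    have h1 : ∫ x, |i u x| ^ q ∂μ ≤ (S * ‖u‖) ^ q :=
      (integral_pow hq (h u).1).2.trans
        (Real.rpow_le_rpow (nq_nonneg _ _) (h u).2 hq0.le)
    rw [Real.mul_rpow hS (norm_nonneg _)] at h1
    calc 1 / q * ∫ x, |i u x| ^ q ∂μ ≤ 1 / q * (S ^ q * ‖u‖ ^ q) :=
          mul_le_mul_of_nonneg_left h1 (by positivity)
      _ = _ := by ring
  mono := by
    intro ε hε
    obtain ⟨M, hM⟩ := growth_mono (s := q - 2) (c := (q - 1) * S ^ (q - 2) * S * S) (by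
      have : 0 ≤ q - 1 := by linarith
      positivity) (by linarith) (by linarith) hε
    refine ⟨M, fun u w huw => ?_⟩
    have h1 := hM ‖u‖ ‖w‖ (norm_nonneg _) (norm_nonneg _) huw
    have h2 := real_inner_le_norm (DJJ hq h u - DJJ hq h w) (u - w)
    have h3 := DJJ_lip hq hS h u w
    have h4 : ‖DJJ hq h u - DJJ hq h w‖ * ‖u - w‖ ≤
        ((q - 1) * (S * ‖u‖ + S * ‖w‖) ^ (q - 2) * (S * ‖u - w‖) * S) * ‖u - w‖ :=
      mul_le_mul_of_nonneg_right h3 (norm_nonneg _)
    have h5 : (S * ‖u‖ + S * ‖w‖) ^ (q - 2) = S ^ (q - 2) * (‖u‖ + ‖w‖) ^ (q - 2) := by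
      rw [← mul_add, Real.mul_rpow hS (by positivity)]
    rw [h5] at h4
    have h6 := mul_le_mul_of_nonneg_right h1 (sq_nonneg ‖u - w‖)
    calc ⟪DJJ hq h u - DJJ hq h w, u - w⟫ ≤ _ := h2
      _ ≤ _ := h4
      _ = (q - 1) * S ^ (q - 2) * S * S * (‖u‖ + ‖w‖) ^ (q - 2) * ‖u - w‖ ^ 2 := by ring
      _ ≤ _ := h6
  even := by
    intro u
    unfold JJ
    congr 1
    apply integral_congr_ae
    rw [map_neg]
    filter_upwards [Lp.coeFn_neg (i u)] with x hx
    rw [hx, Pi.neg_apply, abs_neg]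

end Pool.Agent.Helper566.Kir
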