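import Pool.Agent.Helper566.KRel4

namespace Pool.Agent.Helper566.Kir

open MeasureTheory Filter Set
open scoped InnerProductSpace Topology ENNReal NNReal

section abs
variable {X Y : Type*} [NormedAddCommGroup X] [NormedSpace ℝ X] [NormedAddCommGroup Y]
  [NormedSpace ℝ Y]

/-- second components -/
def SG (T : Submodule ℝ (X × Y)) : Submodule ℝ Y := T.map (LinearMap.snd ℝ X Y)

theorem mem_SG {T : Submodule ℝ (X × Y)} {g : Y} : g ∈ SG T ↔ ∃ u, (u, g) ∈ T := by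
  simp [SG, Submodule.mem_map]

theorem exists_inv (T : Submodule ℝ (X × Y)) {S : ℝ}
    (hb : ∀ p ∈ T, ‖p.1‖ ≤ S * ‖p.2‖) :
    ∃ i : SG T →L[ℝ] X, (∀ g : SG T, (i g, (g : Y)) ∈ T) ∧
      ∀ (p : X × Y) (_ : p ∈ T) (hp2 : p.2 ∈ SG T), i ⟨p.2, hp2⟩ = p.1 := by
  have hex : ∀ g : SG T, ∃ u, (u, (g : Y)) ∈ T := fun g => mem_SG.1 g.2
  choose f hf using hex
  have huniq : ∀ (u v : X) (g : Y), (u, g) ∈ T → (v, g) ∈ T → u = v := by
    intro u v g h1 h2
    have h3 := T.sub_mem h1 h2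
    have h4 := hb _ h3
    simp only [Prod.mk_sub_mk, sub_self, norm_zero, mul_zero] at h4
    exact sub_eq_zero.1 (norm_le_zero_iff.1 h4)
  let iL : SG T →ₗ[ℝ] X :=
    { toFun := f
      map_add' := fun g h => huniq _ _ _ (hf (g + h)) (T.add_mem (hf g) (hf h))
      map_smul' := fun c g => huniq _ _ _ (hf (c • g)) (T.smul_mem c (hf g)) }
  refine ⟨iL.mkContinuous S fun g => hb _ (hf g), fun g => hf g, fun p hp hp2 => ?_⟩
  exact huniq _ _ _ (hf ⟨p.2, hp2⟩) hp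

theorem isCompactOperator_of_approx [CompleteSpace X] {i : Y →L[ℝ] X} {P : ℕ → X →L[ℝ] X}
    {e : ℕ → ℝ} (he : Tendsto e atTop (𝓝 0)) (he0 : ∀ n, 0 ≤ e n)
    (hP : ∀ n, IsCompactOperator (P n)) (h : ∀ n g, ‖i g - P n (i g)‖ ≤ e n * ‖g‖) :
    IsCompactOperator i := by
  have hlim : Tendsto (fun n => (P n).comp i) atTop (𝓝 i) := by
    refine (tendsto_iff_norm_sub_tendsto_zero (E := Y →L[ℝ] X)).2 ?_
    refine squeeze_zero (fun n => norm_nonneg _) (fun n => ?_) he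
    refine ContinuousLinearMap.opNorm_le_bound _ (he0 n) fun g => ?_
    rw [sub_apply, ContinuousLinearMap.comp_apply, norm_sub_rev]
    exact h n g
  exact isCompactOperator_of_tendsto hlim (Eventually.of_forall fun n => (hP n).comp_clm i)

theorem isClosed_SG [CompleteSpace X] (T : Submodule ℝ (X × Y))
    (hT : IsClosed (T : Set (X × Y))) {S : ℝ} (hb : ∀ p ∈ T, ‖p.1‖ ≤ S * ‖p.2‖) :
    IsClosed (SG T : Set Y) := by
  obtain ⟨i, hi, -⟩ := exists_inv T hb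
  apply IsSeqClosed.isClosed
  intro g g0 hg hlim
  set w : ℕ → SG T := fun n => ⟨g n, hg n⟩ with hw
  have hcau : CauchySeq g := hlim.cauchySeq
  have hcw : CauchySeq (fun n => i (w n)) := by
    rw [Metric.cauchySeq_iff] at hcau ⊢
    intro ε hε
    obtain ⟨N, hN⟩ := hcau (ε / (‖i‖ + 1)) (by positivity)
    refine ⟨N, fun m hm n hn => ?_⟩
    have h1 := hN m hm n hn
    rw [dist_eq_norm] at h1 ⊢
    rw [← map_sub]
    have h2 := i.le_opNorm (w m - w n)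
    have h3 : ‖w m - w n‖ = ‖g m - g n‖ := rfl
    rw [h3] at h2
    rw [lt_div_iff₀ (by positivity)] at h1
    have h4 : ‖i‖ * ‖g m - g n‖ ≤ ‖g m - g n‖ * (‖i‖ + 1) := by
      nlinarith [norm_nonneg (g m - g n), norm_nonneg i]
    linarith
  obtain ⟨u, hu⟩ := cauchySeq_tendsto_of_complete hcw
  have h5 : Tendsto (fun n => (i (w n), g n)) atTop (𝓝 (u, g0)) := hu.prodMk_nhds hlim
  have h6 : (u, g0) ∈ (T : Set (X × Y)) :=
    hT.mem_of_tendsto h5 (Eventually.of_forall fun n => hi (w n))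
  exact mem_SG.2 ⟨u, h6⟩

end abs

variable {N : ℕ} {Ω : Set (E N)}

/-- the space of gradients of functions in H^1_0 -/
noncomputable def GS (Ω : Set (E N)) : Submodule ℝ (L2v Ω) := SG (TP Ω).topologicalClosure

theorem mem_H01_iff {p : L2 Ω × L2v Ω} : p ∈ H01 Ω ↔ p ∈ (TP Ω).topologicalClosure := Iff.rfl

/-- the inclusion of H^1_0 in L2, with domain the space of gradients, is compact -/
theorem exists_incl (hN : 2 < N) (hΩo : MeasurableSet Ω) (hΩ : Bornology.IsBounded Ω) :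
    CompleteSpace (GS Ω) ∧ ∃ i : GS Ω →L[ℝ] L2 Ω, IsCompactOperator i ∧
      (∀ g : GS Ω, (i g, (g : L2v Ω)) ∈ H01 Ω) ∧
      ∀ (p : L2 Ω × L2v Ω), p ∈ H01 Ω → ∃ hp2 : p.2 ∈ GS Ω, i ⟨p.2, hp2⟩ = p.1 := by
  obtain ⟨S, hS0, hS⟩ := H01_poincare (Ω := Ω) hN hΩ
  have hS' : ∀ p ∈ (TP Ω).topologicalClosure, ‖p.1‖ ≤ S * ‖p.2‖ := hS
  obtain ⟨i, hi, hi2⟩ := exists_inv _ hS'
  have hcl : IsClosed (GS Ω : Set (L2v Ω)) :=
    isClosed_SG _ (Submodule.isClosed_topologicalClosure _) hS'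
  refine ⟨hcl.completeSpace_coe, i, ?_, hi, fun p hp => ?_⟩
  · have hP : ∀ n : ℕ, ∃ P : L2 Ω →L[ℝ] L2 Ω, IsCompactOperator P ∧ ∀ p ∈ H01 Ω,
        ‖p.1 - P p.1‖ ≤ √(KK N).toReal * (1 / ((n : ℝ) + 1)) * ‖p.2‖ :=
      fun n => exists_P' hΩo hΩ (by positivity)
    choose P hPc hPe using hP
    have hz : Tendsto (fun n : ℕ => √(KK N).toReal * (1 / ((n : ℝ) + 1))) atTop (𝓝 0) := by
      simpa using tendsto_one_div_add_atTop_nhds_zero_nat.const_mul √(KK N).toReal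
    have hfin : ∀ (n : ℕ) (g : SG (TP Ω).topologicalClosure),
        ‖i g - P n (i g)‖ ≤ √(KK N).toReal * (1 / ((n : ℝ) + 1)) * ‖g‖ := by
      intro n g
      have h1 := hPe n (i g, (g : L2v Ω)) (mem_H01_iff.2 (hi g))
      rw [Submodule.coe_norm]
      exact h1
    exact isCompactOperator_of_approx hz (fun n => by positivity) hPc hfin
  · have hp2 : p.2 ∈ GS Ω := mem_SG.2 ⟨p.1, hp⟩
    exact ⟨hp2, hi2 p hp hp2⟩

end Pool.Agent.Helper566.Kir
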