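import Pool.Agent.Helper566.KMain
import Pool.Agent.Helper566.KPow
import Pool.Agent.Helper566.KSpace
import Pool.Agent.Helper566.KIbp
import Pool.Agent.Helper566.KBump

namespace Pool.Agent.Helper566.Kir

open MeasureTheory Filter Set
open scoped RealInnerProductSpace Topology ENNReal NNReal Pointwise

variable {N : ℕ} {Ω : Set (E N)}

theorem critExp_bounds (hN : 4 < N) : 2 < critExp N ∧ critExp N < 4 := by
  have h : (4 : ℝ) < N := by exact_mod_cast hN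
  have h2 : (0 : ℝ) < N - 2 := by linarith
  unfold critExp
  rw [lt_div_iff₀ h2, div_lt_iff₀ h2]
  constructor <;> linarith

theorem critExp_inv (hN : 4 < N) : (critExp N)⁻¹ = (2 : ℝ)⁻¹ - (N : ℝ)⁻¹ := by
  have h : (4 : ℝ) < N := by exact_mod_cast hN
  have h2 : (N : ℝ) - 2 ≠ 0 := by
    have : (0 : ℝ) < N - 2 := by linarith
    exact this.ne'
  have h3 : (N : ℝ) ≠ 0 := by
    have : (0 : ℝ) < N := by linarith
    exact this.ne'
  unfold critExp
  field_simp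

theorem exists_Sob (hN : 4 < N) (hΩ : Bornology.IsBounded Ω) {i : GS Ω →L[ℝ] L2 Ω}
    (hi : ∀ g : GS Ω, (i g, (g : L2v Ω)) ∈ H01 Ω) :
    ∃ S : ℝ, 0 ≤ S ∧ Sob (volume.restrict Ω) (critExp N) S i := by
  have hq := (critExp_bounds hN).1
  obtain ⟨S, hS⟩ := H01_sobolev (Ω := Ω) (by omega) hΩ (q := Real.toNNReal (critExp N)) (by
    rw [Real.coe_toNNReal _ (by linarith), critExp_inv hN])
  refine ⟨S, S.2, fun u => ?_⟩
  have h1 := hS _ (hi u)
  have h1' : eLpNorm (i u) (ENNReal.ofReal (critExp N)) (volume.restrict Ω) ≤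
      S * eLpNorm (u : L2v Ω) 2 (volume.restrict Ω) := h1
  have hfin : (S : ℝ≥0∞) * eLpNorm (u : L2v Ω) 2 (volume.restrict Ω) ≠ ∞ :=
    ENNReal.mul_ne_top ENNReal.coe_ne_top (Lp.eLpNorm_ne_top _)
  refine ⟨⟨(Lp.memLp (i u)).1, lt_of_le_of_lt h1' hfin.lt_top⟩, ?_⟩
  rw [nq, Submodule.coe_norm, Lp.norm_def, ← ENNReal.coe_toReal S, ← ENNReal.toReal_mul]
  exact ENNReal.toReal_mono hfin h1'

theorem integral_inner_L2 (f g : L2 Ω) : ⟪f, g⟫ = ∫ x in Ω, f x * g x := by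
  rw [L2.inner_def]
  refine integral_congr_ae (Eventually.of_forall fun x => ?_)
  simp [mul_comm]

theorem integral_sub_mul (f v g : L2 Ω) : ⟪f - v, g⟫ = ∫ x in Ω, (f x - v x) * g x := by
  rw [integral_inner_L2]
  apply integral_congr_ae
  filter_upwards [Lp.coeFn_sub f v] with x hx
  rw [hx, Pi.sub_apply]

theorem integral_sub_sq (f v : L2 Ω) : ‖f - v‖ ^ 2 = ∫ x in Ω, (f x - v x) ^ 2 := by
  rw [← real_inner_self_eq_norm_sq, integral_inner_L2]
  apply integral_congr_ae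
  filter_upwards [Lp.coeFn_sub f v] with x hx
  rw [hx, Pi.sub_apply, sq]

theorem gradSq_eq (p : L2 Ω × L2v Ω) : gradSq p = ‖p.2‖ ^ 2 := by
  rw [← real_inner_self_eq_norm_sq, L2.inner_def, gradSq]
  refine integral_congr_ae (Eventually.of_forall fun x => ?_)
  simp

theorem energy_eq {i : GS Ω →L[ℝ] L2 Ω} (a b lam : ℝ) (v : L2 Ω) (p : L2 Ω × L2v Ω)
    (g : GS Ω) (h1 : i g = p.1) (h2 : (g : L2v Ω) = p.2) :
    energy a b lam v p = ff a b lam i (JJ (volume.restrict Ω) (critExp N) i) (lam • v) g -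
      lam / 2 * ‖v‖ ^ 2 := by
  have e1 : gradSq p = ‖g‖ ^ 2 := by rw [gradSq_eq, ← h2, Submodule.coe_norm]
  unfold energy ff JJ
  rw [e1, ← integral_sub_sq, h1, norm_sub_sq_real, inner_smul_right]
  ring

theorem weak_eq {i : GS Ω →L[ℝ] L2 Ω} [CompleteSpace (GS Ω)] {S : ℝ}
    (hq : 2 < critExp N) (hS : Sob (volume.restrict Ω) (critExp N) S i)
    (a b lam : ℝ) (v : L2 Ω) (u z : GS Ω)
    (h : GG a b lam i (DJJ hq hS) (lam • v) u = 0) :
    (a + b * gradSq (i u, (u : L2v Ω))) * (∫ x in Ω, ⟪(u : L2v Ω) x, (z : L2v Ω) x⟫) =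
      (∫ x in Ω, |i u x| ^ (critExp N - 2) * i u x * i z x)
        + lam * (∫ x in Ω, (i u x - v x) * i z x) := by
  have h0 : ⟪GG a b lam i (DJJ hq hS) (lam • v) u, z⟫ = 0 := by rw [h, inner_zero_left]
  have e1 : gradSq (i u, (u : L2v Ω)) = ‖u‖ ^ 2 := by rw [gradSq_eq, Submodule.coe_norm]
  have e2 : ∫ x in Ω, ⟪(u : L2v Ω) x, (z : L2v Ω) x⟫ = ⟪u, z⟫ := by
    rw [Submodule.coe_inner, L2.inner_def]
  have e3 : ∫ x in Ω, |i u x| ^ (critExp N - 2) * i u x * i z x = ⟪DJJ hq hS u, z⟫ := by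
    rw [inner_DJJ]
    rfl
  rw [e1, e2, e3, ← integral_sub_mul]
  rw [GG, G0, inner_add_left, inner_sub_left, inner_sub_left, inner_smul_left, inner_smul_left,
    ContinuousLinearMap.adjoint_inner_left, ContinuousLinearMap.adjoint_inner_left,
    inner_smul_left] at h0
  simp only [conj_trivial] at h0
  rw [inner_sub_left]
  linarith

/-- the multiplicity property holds for all a ≥ 0, b > 0 -/
theorem multiplicity (hN : 4 < N) (hΩo : IsOpen Ω) (hne : Ω.Nonempty)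
    (hΩb : Bornology.IsBounded Ω) {a b : ℝ} (ha : 0 ≤ a) (hb : 0 < b) :
    MultiplicityProperty Ω a b := by
  obtain ⟨hcomp, i, hic, hi, hi2⟩ := exists_incl (Ω := Ω) (by omega) hΩo.measurableSet hΩb
  obtain ⟨S, hS0, hS⟩ := exists_Sob hN hΩb hi
  obtain ⟨hq2, hq4⟩ := critExp_bounds hN
  have hJ := pow_JJ hq2 hq4 hS0 hS
  obtain ⟨p0, hp0, p1, hp1, hn0, hn1, h01⟩ := exists_bumps (by omega) hΩo hne
  obtain ⟨m0, hm0⟩ := hi2 p0 hp0
  obtain ⟨m1, hm1⟩ := hi2 p1 hp1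
  have hmain := main_abs (a := a) (b := b) hJ hic ha hb (e0 := ⟨p0.2, m0⟩) (e1 := ⟨p1.2, m1⟩)
    (by rw [hm0]; exact hn0) (by rw [hm1]; exact hn1) (by rw [hm0, hm1]; exact h01)
  obtain ⟨l0, hl0⟩ := eventually_atTop.1 hmain
  refine ⟨max l0 1, lt_of_lt_of_le one_pos (le_max_right _ _), fun lam hlam C hC hdense => ?_⟩
  have hl1 : l0 ≤ lam := (le_max_left _ _).trans hlam
  have hlpos : 0 < lam := lt_of_lt_of_le one_pos ((le_max_right _ _).trans hlam)
  have hsub : range i ⊆ closure (lam • C) := by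
    rintro _ ⟨g, rfl⟩
    rw [closure_smul₀ lam C]
    refine ⟨i (lam⁻¹ • g), hdense _ (hi (lam⁻¹ • g)), ?_⟩
    simp only
    rw [← map_smul, smul_inv_smul₀ hlpos.ne']
  obtain ⟨w, hw, u1, u2, u3, h12, h31, h32, k1, k2, g1, g2, g3⟩ :=
    hl0 lam hl1 (lam • C) (hC.smul lam) hsub
  obtain ⟨v, hvC, rfl⟩ := hw
  have hinj : ∀ u u' : GS Ω, u ≠ u' → i u ≠ i u' := by
    intro u u' hne h
    have h1 : i (u - u') = 0 := by rw [map_sub, h, sub_self]
    have h2 := H01_unique hΩo hΩb (hi (u - u')) h1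
    apply hne
    have h3 : u - u' = 0 := Subtype.ext h2
    exact sub_eq_zero.1 h3
  have hmin : ∀ u : GS Ω, (∀ z, ff a b lam i (JJ (volume.restrict Ω) (critExp N) i) (lam • v) u ≤
      ff a b lam i (JJ (volume.restrict Ω) (critExp N) i) (lam • v) z) →
      IsGlobalMin a b lam v (i u, (u : L2v Ω)) := by
    intro u hu
    refine ⟨hi u, fun p hp => ?_⟩
    obtain ⟨m, hm⟩ := hi2 p hp
    rw [energy_eq (i := i) a b lam v (i u, (u : L2v Ω)) u rfl rfl,
      energy_eq (i := i) a b lam v p ⟨p.2, m⟩ hm rfl]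
    linarith [hu ⟨p.2, m⟩]
  have hweak : ∀ u : GS Ω, GG a b lam i (DJJ hq2 hS) (lam • v) u = 0 →
      IsWeakSol a b lam v (i u, (u : L2v Ω)) := by
    intro u hu
    refine ⟨hi u, fun p hp => ?_⟩
    obtain ⟨m, hm⟩ := hi2 p hp
    have h := weak_eq hq2 hS a b lam v u ⟨p.2, m⟩ hu
    rw [hm] at h
    exact h
  exact ⟨v, hvC, (i u1, (u1 : L2v Ω)), (i u2, (u2 : L2v Ω)), (i u3, (u3 : L2v Ω)),
    hinj _ _ h12, hinj _ _ h31.symm, hinj _ _ h32.symm, hmin _ k1, hmin _ k2,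
    hweak _ g1, hweak _ g2, hweak _ g3⟩

end Pool.Agent.Helper566.Kir
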