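import Pool.Agent.Helper566.KReal

namespace Pool.Agent.Helper566.Kir

open MeasureTheory Filter Set
open scoped Topology ENNReal NNReal

variable {α : Type*} [MeasurableSpace α] {μ : Measure α}

/-- the L^q norm as a real number -/
noncomputable def nq (μ : Measure α) (q : ℝ) (f : α → ℝ) : ℝ :=
  (eLpNorm f (ENNReal.ofReal q) μ).toReal

theorem nq_nonneg (q : ℝ) (f : α → ℝ) : 0 ≤ nq μ q f := ENNReal.toReal_nonneg

theorem nq_add {q : ℝ} (hq : 1 ≤ q) {f g : α → ℝ} (hf : MemLp f (ENNReal.ofReal q) μ)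
    (hg : MemLp g (ENNReal.ofReal q) μ) : nq μ q (f + g) ≤ nq μ q f + nq μ q g := by
  rw [nq, nq, nq, ← ENNReal.toReal_add hf.2.ne hg.2.ne]
  refine ENNReal.toReal_mono (ENNReal.add_ne_top.2 ⟨hf.2.ne, hg.2.ne⟩) ?_
  exact eLpNorm_add_le hf.1 hg.1 (by simpa using hq)

theorem nq_abs (q : ℝ) (f : α → ℝ) : nq μ q (fun x => |f x|) = nq μ q f := by
  rw [nq, nq]
  congr 1
  exact eLpNorm_norm f

theorem eLpNorm_ofReal {q : ℝ} (hq : 0 < q) (f : α → ℝ) :
    eLpNorm f (ENNReal.ofReal q) μ = (∫⁻ x, ‖f x‖ₑ ^ q ∂μ) ^ (1 / q) := by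
  rw [eLpNorm_eq_lintegral_rpow_enorm_toReal (by simpa using hq) ENNReal.ofReal_ne_top,
    ENNReal.toReal_ofReal hq.le]

/-- three factor Hoelder inequality -/
theorem holder3 {q : ℝ} (hq : 2 < q) {f g h : α → ℝ} (hf : AEMeasurable f μ)
    (hg : AEMeasurable g μ) (hh : AEMeasurable h μ) :
    ∫⁻ x, ‖f x‖ₑ ^ (q - 2) * ‖g x‖ₑ * ‖h x‖ₑ ∂μ ≤
      eLpNorm f (ENNReal.ofReal q) μ ^ (q - 2) * eLpNorm g (ENNReal.ofReal q) μ *
        eLpNorm h (ENNReal.ofReal q) μ := by
  have hq0 : 0 < q := by linarith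
  have hqn : q ≠ 0 := hq0.ne'
  have key := ENNReal.lintegral_prod_norm_pow_le (μ := μ) (Finset.univ : Finset (Fin 3))
    (f := ![fun x => ‖f x‖ₑ ^ q, fun x => ‖g x‖ₑ ^ q, fun x => ‖h x‖ₑ ^ q])
    (by
      intro i _
      fin_cases i
      · exact hf.enorm.pow_const q
      · exact hg.enorm.pow_const q
      · exact hh.enorm.pow_const q)
    (p := ![(q - 2) / q, 1 / q, 1 / q])
    (by
      rw [Fin.sum_univ_three]
      simp
      field_simp
      ring)
    (by
      intro i _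
      fin_cases i
      · simp; exact div_nonneg (by linarith) hq0.le
      · simp; exact hq0.le
      · simp; exact hq0.le)
  simp only [Fin.prod_univ_three, Matrix.cons_val_zero, Matrix.cons_val_one, Matrix.cons_val] at key
  rw [eLpNorm_ofReal hq0, eLpNorm_ofReal hq0, eLpNorm_ofReal hq0, ← ENNReal.rpow_mul]
  have e1 : 1 / q * (q - 2) = (q - 2) / q := by ring
  rw [e1]
  refine le_trans (le_of_eq ?_) key
  refine lintegral_congr fun x => ?_
  rw [← ENNReal.rpow_mul, ← ENNReal.rpow_mul, ← ENNReal.rpow_mul]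
  have e2 : q * ((q - 2) / q) = q - 2 := by field_simp
  have e3 : q * (1 / q) = 1 := by field_simp
  rw [e2, e3, ENNReal.rpow_one, ENNReal.rpow_one]

/-- real version -/
theorem holder3_real {q : ℝ} (hq : 2 < q) {f g h : α → ℝ} (hf : MemLp f (ENNReal.ofReal q) μ)
    (hg : MemLp g (ENNReal.ofReal q) μ) (hh : MemLp h (ENNReal.ofReal q) μ) :
    Integrable (fun x => |f x| ^ (q - 2) * |g x| * |h x|) μ ∧
      ∫ x, |f x| ^ (q - 2) * |g x| * |h x| ∂μ ≤ nq μ q f ^ (q - 2) * nq μ q g * nq μ q h := by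
  have hq2 : 0 ≤ q - 2 := by linarith
  have hm : AEStronglyMeasurable (fun x => |f x| ^ (q - 2) * |g x| * |h x|) μ := by
    have h1 : AEMeasurable (fun x => |f x| ^ (q - 2) * |g x| * |h x|) μ := by
      have a1 := hf.1.aemeasurable
      have a2 := hg.1.aemeasurable
      have a3 := hh.1.aemeasurable
      have b1 : AEMeasurable (fun x => |f x|) μ := a1.norm
      have b2 : AEMeasurable (fun x => |g x|) μ := a2.norm
      have b3 : AEMeasurable (fun x => |h x|) μ := a3.norm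
      exact ((b1.pow_const (q - 2)).mul b2).mul b3
    exact h1.aestronglyMeasurable
  have he : ∀ x, ‖|f x| ^ (q - 2) * |g x| * |h x|‖ₑ = ‖f x‖ₑ ^ (q - 2) * ‖g x‖ₑ * ‖h x‖ₑ := by
    intro x
    rw [enorm_mul, enorm_mul, Real.enorm_rpow_of_nonneg (abs_nonneg _) hq2, Real.enorm_abs,
      Real.enorm_abs, Real.enorm_abs]
  have hle := holder3 (μ := μ) hq hf.1.aemeasurable hg.1.aemeasurable hh.1.aemeasurable
  have hfin : eLpNorm f (ENNReal.ofReal q) μ ^ (q - 2) * eLpNorm g (ENNReal.ofReal q) μ *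
        eLpNorm h (ENNReal.ofReal q) μ ≠ ∞ :=
    ENNReal.mul_ne_top (ENNReal.mul_ne_top (ENNReal.rpow_ne_top_of_nonneg hq2 hf.2.ne) hg.2.ne)
      hh.2.ne
  have hint : Integrable (fun x => |f x| ^ (q - 2) * |g x| * |h x|) μ := by
    refine ⟨hm, ?_⟩
    rw [hasFiniteIntegral_iff_enorm]
    simp only [he]
    exact lt_of_le_of_lt hle hfin.lt_top
  refine ⟨hint, ?_⟩
  have hnn : ∀ x, 0 ≤ |f x| ^ (q - 2) * |g x| * |h x| := fun x => by positivity
  have e1 : ∫ x, |f x| ^ (q - 2) * |g x| * |h x| ∂μ =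
      (∫⁻ x, ‖f x‖ₑ ^ (q - 2) * ‖g x‖ₑ * ‖h x‖ₑ ∂μ).toReal := by
    have h1 := integral_norm_eq_lintegral_enorm hm
    simp only [he] at h1
    rw [← h1]
    refine integral_congr_ae (Eventually.of_forall fun x => ?_)
    exact (Real.norm_of_nonneg (hnn x)).symm
  rw [e1, nq, nq, nq, ENNReal.toReal_rpow, ← ENNReal.toReal_mul, ← ENNReal.toReal_mul]
  exact ENNReal.toReal_mono hfin hle

/-- q-th power integral -/
theorem integral_pow {q : ℝ} (hq : 2 < q) {f : α → ℝ} (hf : MemLp f (ENNReal.ofReal q) μ) :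
    Integrable (fun x => |f x| ^ q) μ ∧ ∫ x, |f x| ^ q ∂μ ≤ nq μ q f ^ q := by
  have h := holder3_real hq hf hf hf
  have e : ∀ t : ℝ, 0 ≤ t → t ^ (q - 2) * t * t = t ^ q := by
    intro t ht
    rcases eq_or_lt_of_le ht with h | h
    · rw [← h, Real.zero_rpow (by linarith : q ≠ 0)]; simp
    · have : t ^ q = t ^ ((q - 2) + 2) := by congr 1; ring
      rw [this, Real.rpow_add h]
      norm_cast
      ring
  have e1 : (fun x => |f x| ^ (q - 2) * |f x| * |f x|) = fun x => |f x| ^ q := by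
    funext x; exact e _ (abs_nonneg _)
  rw [e1, e _ (nq_nonneg q f)] at h
  exact h

end Pool.Agent.Helper566.Kir
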