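import Pool.Agent.Helper566.KFun

namespace Pool.Agent.Helper566.Kir

open scoped RealInnerProductSpace Topology
open Filter Set

/-- connectedness inside a sublevel set -/
def Conn {H : Type*} [TopologicalSpace H] (f : H → ℝ) (c : ℝ) (x y : H) : Prop :=
  ∃ S : Set H, IsPreconnected S ∧ x ∈ S ∧ y ∈ S ∧ ∀ z ∈ S, f z ≤ c

theorem Conn.trans {H : Type*} [TopologicalSpace H] {f : H → ℝ} {c : ℝ} {x y z : H}
    (h1 : Conn f c x y) (h2 : Conn f c y z) : Conn f c x z := by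
  obtain ⟨S, hS, hx, hy, hf⟩ := h1
  obtain ⟨T, hT, hy', hz, hg⟩ := h2
  refine ⟨S ∪ T, hS.union y hy hy' hT, Or.inl hx, Or.inr hz, ?_⟩
  rintro u (hu | hu)
  exacts [hf u hu, hg u hu]

theorem Conn.symm {H : Type*} [TopologicalSpace H] {f : H → ℝ} {c : ℝ} {x y : H}
    (h1 : Conn f c x y) : Conn f c y x := by
  obtain ⟨S, hS, hx, hy, hf⟩ := h1
  exact ⟨S, hS, hy, hx, hf⟩

variable {H : Type*} [NormedAddCommGroup H] [InnerProductSpace ℝ H]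
variable {L : Type*} [NormedAddCommGroup L] [InnerProductSpace ℝ L]
variable {a b lam : ℝ} {i : H →L[ℝ] L} {J : H → ℝ} {DJ : H → H}

/-- scaling to the optimal radius -/
noncomputable def RR (b lam : ℝ) (i : H →L[ℝ] L) (z : H) : H :=
  (√(lam / b) * (‖i z‖ / ‖z‖ ^ 2)) • z

theorem RR_norm_sq (hb : 0 < b) (hl : 0 ≤ lam) {z : H} (hz : z ≠ 0) :
    ‖RR b lam i z‖ ^ 2 = lam / b * (‖i z‖ ^ 2 / ‖z‖ ^ 2) := by
  have hz' : ‖z‖ ≠ 0 := norm_ne_zero_iff.2 hz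
  rw [RR, norm_smul, Real.norm_of_nonneg (by positivity), mul_pow, mul_pow,
    Real.sq_sqrt (by positivity)]
  field_simp

theorem RR_i_norm_sq (hb : 0 < b) (hl : 0 ≤ lam) {z : H} (hz : z ≠ 0) :
    ‖i (RR b lam i z)‖ ^ 2 = lam / b * (‖i z‖ ^ 2 / ‖z‖ ^ 2) ^ 2 := by
  have hz' : ‖z‖ ≠ 0 := norm_ne_zero_iff.2 hz
  rw [RR, map_smul, norm_smul, Real.norm_of_nonneg (by positivity), mul_pow, mul_pow,
    Real.sq_sqrt (by positivity)]
  field_simp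

/-- the value of the functional is bounded by the polynomial part plus a linear term -/
theorem ff_le (hJ : ∀ u, 0 ≤ J u) {κ : ℝ} (hκ : ∀ u, ‖i u‖ ≤ κ * ‖u‖) {w : L} (hw : ‖w‖ ≤ 1)
    (u : H) : ff a b lam i J w u ≤
      a / 2 * ‖u‖ ^ 2 + b / 4 * ‖u‖ ^ 4 - lam / 2 * ‖i u‖ ^ 2 + κ * ‖u‖ := by
  have h1 : ⟪i u, w⟫ ≤ κ * ‖u‖ := by
    refine (real_inner_le_norm _ _).trans ?_
    have := hκ u
    nlinarith [norm_nonneg (i u), norm_nonneg w]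
  have := hJ u
  unfold ff
  linarith

theorem lin_le_sq {κ x : ℝ} (hκ : 0 ≤ κ) : κ * x ≤ κ * (1 + x ^ 2) := by
  apply mul_le_mul_of_nonneg_left _ hκ
  nlinarith [sq_nonneg (x - 1)]

/-- low values on optimally scaled points -/
theorem ff_RR_le (ha : 0 ≤ a) (hb : 0 < b) (hl : 0 ≤ lam) (hJ : ∀ u, 0 ≤ J u) {κ : ℝ}
    (hκ0 : 0 ≤ κ) (hκ : ∀ u, ‖i u‖ ≤ κ * ‖u‖) {w : L} (hw : ‖w‖ ≤ 1) {r : ℝ} (hr : 0 ≤ r)
    (hlarge : a * lam * κ ^ 2 / (2 * b) + κ * (1 + lam * κ ^ 2 / b) ≤ r ^ 2 / (8 * b) * lam ^ 2)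
    {z : H} (hz : z ≠ 0) (hzr : r * ‖z‖ ^ 2 ≤ ‖i z‖ ^ 2) :
    ff a b lam i J w (RR b lam i z) ≤ -(r ^ 2 / (8 * b) * lam ^ 2) := by
  have hz' : 0 < ‖z‖ := norm_pos_iff.2 hz
  set q : ℝ := ‖i z‖ ^ 2 / ‖z‖ ^ 2 with hq
  have hqr : r ≤ q := by rw [hq, le_div_iff₀ (by positivity)]; exact hzr
  have hqκ : q ≤ κ ^ 2 := by
    rw [hq, div_le_iff₀ (by positivity), ← mul_pow]
    exact pow_le_pow_left₀ (norm_nonneg _) (hκ z) 2
  have h0 := ff_le (a := a) (b := b) (lam := lam) hJ hκ hw (RR b lam i z)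
  have e1 := RR_norm_sq (i := i) hb hl hz
  have e2 := RR_i_norm_sq (i := i) hb hl hz
  rw [← hq] at e1 e2
  have e3 : ‖RR b lam i z‖ ^ 4 = (lam / b * q) ^ 2 := by rw [← e1]; ring
  have h1 := lin_le_sq (x := ‖RR b lam i z‖) hκ0
  rw [e1] at h1
  rw [e1, e2, e3] at h0
  have h2 : lam * q ≤ lam * κ ^ 2 := mul_le_mul_of_nonneg_left hqκ hl
  have h3 : κ * (1 + lam / b * q) ≤ κ * (1 + lam * κ ^ 2 / b) := by
    apply mul_le_mul_of_nonneg_left _ hκ0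
    have : lam / b * q = lam * q / b := by ring
    rw [this]
    have := div_le_div_of_nonneg_right h2 hb.le
    linarith
  have h4 : a / 2 * (lam / b * q) ≤ a * lam * κ ^ 2 / (2 * b) := by
    have e : a / 2 * (lam / b * q) = (a / (2 * b)) * (lam * q) := by field_simp
    have e' : a * lam * κ ^ 2 / (2 * b) = (a / (2 * b)) * (lam * κ ^ 2) := by field_simp
    rw [e, e']
    exact mul_le_mul_of_nonneg_left h2 (by positivity)
  have h5 : b / 4 * (lam / b * q) ^ 2 - lam / 2 * (lam / b * q ^ 2) =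
      -(q ^ 2 / (4 * b) * lam ^ 2) := by
    field_simp; ring
  have h6 : r ^ 2 / (4 * b) * lam ^ 2 ≤ q ^ 2 / (4 * b) * lam ^ 2 := by
    apply mul_le_mul_of_nonneg_right _ (sq_nonneg _)
    apply div_le_div_of_nonneg_right _ (by positivity)
    exact pow_le_pow_left₀ hr hqr 2
  have h7 : r ^ 2 / (4 * b) * lam ^ 2 = 2 * (r ^ 2 / (8 * b) * lam ^ 2) := by
    field_simp; ring
  linarith

theorem RR_continuousOn {s : Set H} (hs : ∀ z ∈ s, z ≠ 0) : ContinuousOn (RR b lam i) s := by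
  unfold RR
  apply ContinuousOn.smul _ continuousOn_id
  apply ContinuousOn.mul continuousOn_const
  apply ContinuousOn.div (by fun_prop) (by fun_prop)
  intro z hz
  have := norm_pos_iff.2 (hs z hz)
  positivity

/-- moving the direction along a segment -/
theorem conn_RR (ha : 0 ≤ a) (hb : 0 < b) (hl : 0 ≤ lam) (hJ : ∀ u, 0 ≤ J u) {κ : ℝ}
    (hκ0 : 0 ≤ κ) (hκ : ∀ u, ‖i u‖ ≤ κ * ‖u‖) {w : L} (hw : ‖w‖ ≤ 1) {r : ℝ} (hr : 0 < r)
    (hlarge : a * lam * κ ^ 2 / (2 * b) + κ * (1 + lam * κ ^ 2 / b) ≤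
      (r / 2) ^ 2 / (8 * b) * lam ^ 2)
    {x y : H} (hx : ‖x‖ ≤ 1) (hy : ‖y‖ ≤ 1) (hix : r ≤ ‖i x‖ ^ 2) (hiy : r ≤ ‖i y‖ ^ 2)
    (hxy : 0 ≤ ⟪i x, i y⟫) :
    Conn (ff a b lam i J w) (-((r / 2) ^ 2 / (8 * b) * lam ^ 2))
      (RR b lam i x) (RR b lam i y) := by
  have key : ∀ z ∈ segment ℝ x y, ‖z‖ ≤ 1 ∧ r / 2 ≤ ‖i z‖ ^ 2 := by
    rintro z ⟨s, t, hs, ht, hst, rfl⟩
    constructor
    · calc ‖s • x + t • y‖ ≤ ‖s • x‖ + ‖t • y‖ := norm_add_le _ _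
        _ = s * ‖x‖ + t * ‖y‖ := by
          rw [norm_smul, norm_smul, Real.norm_of_nonneg hs, Real.norm_of_nonneg ht]
        _ ≤ s * 1 + t * 1 := add_le_add (mul_le_mul_of_nonneg_left hx hs)
          (mul_le_mul_of_nonneg_left hy ht)
        _ = 1 := by linarith
    · have e : ‖i (s • x + t • y)‖ ^ 2 = s ^ 2 * ‖i x‖ ^ 2 + 2 * (s * t * ⟪i x, i y⟫) +
          t ^ 2 * ‖i y‖ ^ 2 := by
        rw [map_add, map_smul, map_smul, norm_add_sq_real, norm_smul, norm_smul,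
          inner_smul_left, inner_smul_right, Real.norm_of_nonneg hs, Real.norm_of_nonneg ht]
        simp; ring
      rw [e]
      have h1 : s ^ 2 * r ≤ s ^ 2 * ‖i x‖ ^ 2 := mul_le_mul_of_nonneg_left hix (sq_nonneg _)
      have h2 : t ^ 2 * r ≤ t ^ 2 * ‖i y‖ ^ 2 := mul_le_mul_of_nonneg_left hiy (sq_nonneg _)
      have h3 : 0 ≤ s * t * ⟪i x, i y⟫ := mul_nonneg (mul_nonneg hs ht) hxy
      have h4 : (1 : ℝ) / 2 ≤ s ^ 2 + t ^ 2 := by
        have : t = 1 - s := by linarith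
        subst this
        nlinarith [sq_nonneg (2 * s - 1)]
      nlinarith
  have hne : ∀ z ∈ segment ℝ x y, z ≠ 0 := by
    rintro z hz rfl
    have := (key 0 hz).2
    simp at this
    linarith
  refine ⟨RR b lam i '' segment ℝ x y, ?_, ⟨x, left_mem_segment ℝ x y, rfl⟩,
    ⟨y, right_mem_segment ℝ x y, rfl⟩, ?_⟩
  · exact (convex_segment x y).isPreconnected.image _ (RR_continuousOn hne)
  · rintro _ ⟨z, hz, rfl⟩
    apply ff_RR_le ha hb hl hJ hκ0 hκ hw (by positivity) hlarge (hne z hz)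
    obtain ⟨k1, k2⟩ := key z hz
    have : ‖z‖ ^ 2 ≤ 1 := pow_le_one₀ (norm_nonneg _) k1
    nlinarith

theorem quad_between {B A x y σ : ℝ} (hB : 0 ≤ B) (hx : x ≤ σ) (hy : σ ≤ y) :
    B * σ ^ 2 + A * σ ≤ max (B * x ^ 2 + A * x) (B * y ^ 2 + A * y) := by
  by_cases h : B * (σ + x) + A ≤ 0
  · refine le_max_of_le_left ?_
    have : (σ - x) * (B * (σ + x) + A) ≤ 0 :=
      mul_nonpos_of_nonneg_of_nonpos (by linarith) h
    nlinarith
  · refine le_max_of_le_right ?_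
    push Not at h
    have h2 : B * (σ + x) ≤ B * (y + σ) := mul_le_mul_of_nonneg_left (by linarith) hB
    have : 0 ≤ (y - σ) * (B * (y + σ) + A) := mul_nonneg (by linarith) (by linarith)
    nlinarith

theorem quad_between' {B A x y σ : ℝ} (hB : 0 ≤ B) (h : min x y ≤ σ) (h' : σ ≤ max x y) :
    B * σ ^ 2 + A * σ ≤ max (B * x ^ 2 + A * x) (B * y ^ 2 + A * y) := by
  rcases le_total x y with hxy | hxy
  · rw [min_eq_left hxy] at h; rw [max_eq_right hxy] at h'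
    exact quad_between hB h h'
  · rw [min_eq_right hxy] at h; rw [max_eq_left hxy] at h'
    rw [max_comm]
    exact quad_between hB h h'

/-- radial segment -/
theorem conn_radial (hb : 0 < b) (hJ : ∀ u, 0 ≤ J u) {κ : ℝ}
    (hκ0 : 0 ≤ κ) (hκ : ∀ u, ‖i u‖ ≤ κ * ‖u‖) {w : L} (hw : ‖w‖ ≤ 1) {c d : ℝ} {u : H} {s : ℝ}
    (hs : 0 ≤ s)
    (h1 : a / 2 * ‖u‖ ^ 2 + b / 4 * ‖u‖ ^ 4 - lam / 2 * ‖i u‖ ^ 2 ≤ -c)
    (h2 : a / 2 * ‖s • u‖ ^ 2 + b / 4 * ‖s • u‖ ^ 4 - lam / 2 * ‖i (s • u)‖ ^ 2 ≤ -c)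
    (hd1 : ‖u‖ ^ 2 ≤ d) (hd2 : ‖s • u‖ ^ 2 ≤ d) :
    Conn (ff a b lam i J w) (-c + κ * (1 + d)) u (s • u) := by
  refine ⟨segment ℝ u (s • u), (convex_segment _ _).isPreconnected, left_mem_segment ℝ _ _,
    right_mem_segment ℝ _ _, ?_⟩
  rintro z ⟨p, q, hp, hq, hpq, rfl⟩
  set τ : ℝ := p + q * s with hτ
  have hz : p • u + q • s • u = τ • u := by rw [hτ, add_smul, mul_smul]
  rw [hz]
  have hτ0 : 0 ≤ τ := by positivity
  have hp1 : p = 1 - q := by linarith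
  have hτb : min 1 (s ^ 2) ≤ τ ^ 2 ∧ τ ^ 2 ≤ max 1 (s ^ 2) := by
    rcases le_total 1 s with hs1 | hs1
    · have a1 : 1 ≤ τ := by rw [hτ, hp1]; nlinarith
      have a2 : τ ≤ s := by rw [hτ, hp1]; nlinarith
      constructor
      · exact (min_le_left _ _).trans (by nlinarith)
      · exact le_max_of_le_right (pow_le_pow_left₀ hτ0 a2 2)
    · have a1 : τ ≤ 1 := by rw [hτ, hp1]; nlinarith
      have a2 : s ≤ τ := by rw [hτ, hp1]; nlinarith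
      constructor
      · exact (min_le_right _ _).trans (pow_le_pow_left₀ hs a2 2)
      · exact le_max_of_le_left (pow_le_one₀ hτ0 a1)
  have hpoly : ∀ t : ℝ, 0 ≤ t →
      a / 2 * ‖t • u‖ ^ 2 + b / 4 * ‖t • u‖ ^ 4 - lam / 2 * ‖i (t • u)‖ ^ 2 =
      (b / 4 * ‖u‖ ^ 4) * (t ^ 2) ^ 2 + (a / 2 * ‖u‖ ^ 2 - lam / 2 * ‖i u‖ ^ 2) * t ^ 2 := by
    intro t ht
    rw [map_smul, norm_smul, norm_smul, Real.norm_of_nonneg ht]
    ring
  have hq1 := quad_between' (B := b / 4 * ‖u‖ ^ 4) (A := a / 2 * ‖u‖ ^ 2 - lam / 2 * ‖i u‖ ^ 2)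
    (by positivity) hτb.1 hτb.2
  have hfin : a / 2 * ‖τ • u‖ ^ 2 + b / 4 * ‖τ • u‖ ^ 4 - lam / 2 * ‖i (τ • u)‖ ^ 2 ≤ -c := by
    rw [hpoly τ hτ0]
    refine hq1.trans (max_le ?_ ?_)
    · linarith
    · rw [hpoly s hs] at h2; exact h2
  have h3 := ff_le (a := a) (b := b) (lam := lam) hJ hκ hw (τ • u)
  have h4 := lin_le_sq (x := ‖τ • u‖) hκ0
  have h5 : ‖τ • u‖ ^ 2 ≤ d := by
    rw [norm_smul, Real.norm_of_nonneg hτ0, mul_pow]
    rw [norm_smul, Real.norm_of_nonneg hs, mul_pow] at hd2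
    rcases le_total 1 (s ^ 2) with hh | hh
    · have := hτb.2; rw [max_eq_right hh] at this
      exact (mul_le_mul_of_nonneg_right this (sq_nonneg _)).trans hd2
    · have := hτb.2; rw [max_eq_left hh] at this
      have := mul_le_mul_of_nonneg_right this (sq_nonneg ‖u‖)
      linarith
  have h6 : κ * (1 + ‖τ • u‖ ^ 2) ≤ κ * (1 + d) := mul_le_mul_of_nonneg_left (by linarith) hκ0
  linarith

end Pool.Agent.Helper566.Kir
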