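import Pool.Agent.Helper566.KAbs

namespace Pool.Agent.Helper566.Kir

open scoped RealInnerProductSpace Topology
open Filter Set

variable {H : Type*} [NormedAddCommGroup H] [InnerProductSpace ℝ H]
variable {L : Type*} [NormedAddCommGroup L] [InnerProductSpace ℝ L]
variable {a b lam : ℝ} {i : H →L[ℝ] L} {J : H → ℝ} {DJ : H → H}

omit [InnerProductSpace ℝ H] in
theorem Conn.mono {f : H → ℝ} {c c' : ℝ} {x y : H} (h : Conn f c x y) (hc : c ≤ c') :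
    Conn f c' x y := by
  obtain ⟨S, h1, h2, h3, h4⟩ := h
  exact ⟨S, h1, h2, h3, fun z hz => (h4 z hz).trans hc⟩

theorem RR_smul {t : ℝ} (ht : 0 < t) (z : H) : RR b lam i (t • z) = RR b lam i z := by
  rcases eq_or_ne z 0 with rfl | hz
  · simp
  have hz' : ‖z‖ ≠ 0 := norm_ne_zero_iff.2 hz
  unfold RR
  rw [map_smul, norm_smul, norm_smul, Real.norm_of_nonneg ht.le, smul_smul]
  congr 1
  field_simp

theorem le_of_sq_le' {x A : ℝ} (h : x ^ 2 ≤ A) : x ≤ A + 1 := by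
  nlinarith [sq_nonneg (x - 1)]

theorem inner_lower {κ : ℝ} (hκ : ∀ u, ‖i u‖ ≤ κ * ‖u‖) {w : L} (hw : ‖w‖ ≤ 1) (u : H) :
    -(κ * ‖u‖) ≤ ⟪i u, w⟫ := by
  have e1 := abs_real_inner_le_norm (i u) w
  have e2 := neg_abs_le ⟪i u, w⟫
  have e3 := hκ u
  have e4 : ‖i u‖ * ‖w‖ ≤ ‖i u‖ := mul_le_of_le_one_right (norm_nonneg _) hw
  linarith

/-- connecting a low point to the reference direction -/
theorem to_ref (ha : 0 ≤ a) (hb : 0 < b) (hl : 1 ≤ lam) (hJ : ∀ u, 0 ≤ J u) {κ : ℝ}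
    (hκ0 : 0 ≤ κ) (hκ : ∀ u, ‖i u‖ ≤ κ * ‖u‖) {w : L} (hw : ‖w‖ ≤ 1)
    {e0 e1 : H} (he0 : ‖e0‖ ≤ 1) (he1 : ‖e1‖ ≤ 1) (h01 : ⟪i e0, i e1⟫ = 0)
    {A₂ r r₁ c₁ c₃ c₄ : ℝ} (hr : 0 < r) (hrr : r ≤ r₁)
    (hr0 : r ≤ ‖i e0‖ ^ 2) (hr1 : r ≤ ‖i e1‖ ^ 2)
    {u : H} (hu0 : u ≠ 0) (hu2 : ‖u‖ ^ 2 ≤ A₂ * lam) (hiu : r₁ * ‖u‖ ^ 2 ≤ ‖i u‖ ^ 2)
    (hfu : ff a b lam i J w u ≤ -(c₁ * lam ^ 2))
    {ε Aε : ℝ} (hε : 0 ≤ ε) (hJε : J u ≤ ε * ‖u‖ ^ 4 + Aε)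
    (I3 : ε * A₂ ^ 2 * lam ^ 2 + Aε + κ * (1 + A₂ * lam) ≤ (c₁ - c₃) * lam ^ 2)
    (I4 : a * lam * κ ^ 2 / (2 * b) + κ * (1 + lam * κ ^ 2 / b) ≤ r₁ ^ 2 / (8 * b) * lam ^ 2)
    (hc₃ : c₃ ≤ r₁ ^ 2 / (8 * b))
    (I5 : κ * (1 + (A₂ + κ ^ 2 / b) * lam) ≤ (c₃ - c₄) * lam ^ 2)
    (I6 : a * lam * κ ^ 2 / (2 * b) + κ * (1 + lam * κ ^ 2 / b) ≤
      (r / 2) ^ 2 / (8 * b) * lam ^ 2)
    (hc₄ : c₄ ≤ (r / 2) ^ 2 / (8 * b)) :
    Conn (ff a b lam i J w) (-(c₄ * lam ^ 2)) u (RR b lam i e1) := by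
  have hl0 : 0 ≤ lam := by linarith
  have hun : 0 < ‖u‖ := norm_pos_iff.2 hu0
  have hr₁ : 0 < r₁ := by linarith
  -- radial part
  have hrad : Conn (ff a b lam i J w) (-(c₄ * lam ^ 2)) u (RR b lam i u) := by
    have hs : 0 ≤ √(lam / b) * (‖i u‖ / ‖u‖ ^ 2) := by positivity
    have q1 : a / 2 * ‖u‖ ^ 2 + b / 4 * ‖u‖ ^ 4 - lam / 2 * ‖i u‖ ^ 2 ≤ -(c₃ * lam ^ 2) := by
      have e1 : -(κ * ‖u‖) ≤ ⟪i u, w⟫ := inner_lower hκ hw u
      have e2 := lin_le_sq (x := ‖u‖) hκ0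
      have e3 : κ * (1 + ‖u‖ ^ 2) ≤ κ * (1 + A₂ * lam) :=
        mul_le_mul_of_nonneg_left (by linarith) hκ0
      have e4 : ε * ‖u‖ ^ 4 ≤ ε * A₂ ^ 2 * lam ^ 2 := by
        have : ‖u‖ ^ 4 ≤ (A₂ * lam) ^ 2 := by
          have := pow_le_pow_left₀ (sq_nonneg ‖u‖) hu2 2
          calc ‖u‖ ^ 4 = (‖u‖ ^ 2) ^ 2 := by ring
            _ ≤ _ := this
        calc ε * ‖u‖ ^ 4 ≤ ε * (A₂ * lam) ^ 2 := mul_le_mul_of_nonneg_left this hε
          _ = _ := by ring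
      unfold ff at hfu
      rw [sub_mul] at I3
      linarith
    have q2 : a / 2 * ‖RR b lam i u‖ ^ 2 + b / 4 * ‖RR b lam i u‖ ^ 4 -
        lam / 2 * ‖i (RR b lam i u)‖ ^ 2 ≤ -(c₃ * lam ^ 2) := by
      have := ff_RR_le (J := fun _ => 0) (w := (0 : L)) ha hb hl0 (fun _ => le_rfl) hκ0 hκ
        (by simp) hr₁.le I4 hu0 hiu
      unfold ff at this
      simp only [inner_zero_right, sub_zero, add_zero] at this
      have h2 : c₃ * lam ^ 2 ≤ r₁ ^ 2 / (8 * b) * lam ^ 2 :=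
        mul_le_mul_of_nonneg_right hc₃ (sq_nonneg _)
      linarith
    have hd2 : ‖RR b lam i u‖ ^ 2 ≤ (A₂ + κ ^ 2 / b) * lam := by
      rw [RR_norm_sq hb hl0 hu0]
      have : ‖i u‖ ^ 2 / ‖u‖ ^ 2 ≤ κ ^ 2 := by
        rw [div_le_iff₀ (by positivity), ← mul_pow]
        exact pow_le_pow_left₀ (norm_nonneg _) (hκ u) 2
      have h3 : lam / b * (‖i u‖ ^ 2 / ‖u‖ ^ 2) ≤ lam / b * κ ^ 2 :=
        mul_le_mul_of_nonneg_left this (by positivity)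
      have h4 : lam / b * κ ^ 2 = κ ^ 2 / b * lam := by ring
      have h5 : 0 ≤ A₂ * lam := (sq_nonneg _).trans hu2
      rw [add_mul]
      linarith
    have hd1 : ‖u‖ ^ 2 ≤ (A₂ + κ ^ 2 / b) * lam := by
      have : 0 ≤ κ ^ 2 / b * lam := by positivity
      rw [add_mul]
      linarith
    have h := conn_radial (a := a) (b := b) (lam := lam) hb hJ hκ0 hκ hw hs q1 q2 hd1 hd2
    refine h.mono ?_
    rw [sub_mul] at I5
    linarith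
  -- direction
  set x : H := ‖u‖⁻¹ • u with hx
  have hxn : ‖x‖ ≤ 1 := by
    rw [hx, norm_smul, norm_inv, norm_norm, inv_mul_cancel₀ hun.ne']
  have hix : r ≤ ‖i x‖ ^ 2 := by
    rw [hx, map_smul, norm_smul, norm_inv, norm_norm, mul_pow]
    have : r₁ ≤ (‖u‖⁻¹) ^ 2 * ‖i u‖ ^ 2 := by
      rw [inv_pow, inv_mul_eq_div, le_div_iff₀ (by positivity)]
      exact hiu
    linarith
  have hRx : RR b lam i x = RR b lam i u := RR_smul (inv_pos.2 hun) u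
  have hlev : -((r / 2) ^ 2 / (8 * b) * lam ^ 2) ≤ -(c₄ * lam ^ 2) := by
    have := mul_le_mul_of_nonneg_right hc₄ (sq_nonneg lam)
    linarith
  have hdir : ∃ e : H, ‖e‖ ≤ 1 ∧ r ≤ ‖i e‖ ^ 2 ∧ 0 ≤ ⟪i x, i e⟫ ∧ 0 ≤ ⟪i e, i e1⟫ := by
    rcases le_total 0 ⟪i x, i e0⟫ with h | h
    · exact ⟨e0, he0, hr0, h, h01.symm.le⟩
    · refine ⟨-e0, by simpa using he0, by simpa using hr0, ?_, ?_⟩
      · rw [map_neg, inner_neg_right]; linarith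
      · rw [map_neg, inner_neg_left]; linarith
  obtain ⟨e, he, hre, hxe, hee⟩ := hdir
  have c1 := (conn_RR (a := a) ha hb hl0 hJ hκ0 hκ hw hr I6 hxn he hix hre hxe).mono hlev
  have c2 := (conn_RR (a := a) ha hb hl0 hJ hκ0 hκ hw hr I6 he he1 hre hr1 hee).mono hlev
  rw [hRx] at c1
  exact (hrad.trans c1).trans c2

variable [CompleteSpace H] [CompleteSpace L]

theorem main_unit (hJ : Pow J DJ) (hi : IsCompactOperator i) (ha : 0 ≤ a) (hb : 0 < b)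
    {e0 e1 : H} (he0 : i e0 ≠ 0) (he1 : i e1 ≠ 0) (h01 : ⟪i e0, i e1⟫ = 0)
    (hn0 : ‖e0‖ ≤ 1) (hn1 : ‖e1‖ ≤ 1) :
    ∀ᶠ lam : ℝ in atTop, ∀ C : Set L, Convex ℝ C → range i ⊆ closure C →
      ∃ w ∈ C, ∃ u1 u2 u3 : H, u1 ≠ u2 ∧ u3 ≠ u1 ∧ u3 ≠ u2 ∧
        (∀ z, ff a b lam i J w u1 ≤ ff a b lam i J w z) ∧
        (∀ z, ff a b lam i J w u2 ≤ ff a b lam i J w z) ∧
        GG a b lam i DJ w u1 = 0 ∧ GG a b lam i DJ w u2 = 0 ∧ GG a b lam i DJ w u3 = 0 := by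
  obtain ⟨M, hM1, hM⟩ := G0_mono hJ ha hb
  obtain ⟨A₁, hA⟩ := hJ.small (b / 8) (by positivity)
  have hA0 : 0 ≤ A₁ := by
    have h1 := hA 0
    have h2 := hJ.nonneg 0
    simp at h1
    linarith
  set κ : ℝ := ‖i‖ + 1 with hκdef
  have hκ0 : 0 < κ := by positivity
  have hκ : ∀ u, ‖i u‖ ≤ κ * ‖u‖ := fun u => (i.le_opNorm u).trans
    (mul_le_mul_of_nonneg_right (by linarith) (norm_nonneg _))
  set r0 : ℝ := ‖i e0‖ ^ 2 with hr0
  have hr0p : 0 < r0 := by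
    have := norm_pos_iff.2 he0
    positivity
  have hr1p : 0 < ‖i e1‖ ^ 2 := by
    have := norm_pos_iff.2 he1
    positivity
  set c₁ : ℝ := r0 ^ 2 / (8 * b) with hc₁
  have hc₁p : 0 < c₁ := by positivity
  set A₂ : ℝ := 8 * κ ^ 2 / b + 8 * (A₁ + 1 / 2) / b + 1 with hA₂
  have hA₂p : 0 < A₂ := by positivity
  set A₃ : ℝ := κ ^ 2 * M + A₁ + 1 / 2 with hA₃
  set r₁ : ℝ := (c₁ / 2) / A₂ with hr₁
  have hr₁p : 0 < r₁ := by positivity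
  set ε : ℝ := c₁ / 4 / A₂ ^ 2 with hε
  have hεp : 0 < ε := by positivity
  have hεA : ε * A₂ ^ 2 = c₁ / 4 := by rw [hε]; field_simp
  obtain ⟨Aε, hAε⟩ := hJ.small ε hεp
  set c₃ : ℝ := min (c₁ / 2) (r₁ ^ 2 / (8 * b)) with hc₃
  have hc₃p : 0 < c₃ := lt_min (by positivity) (by positivity)
  have hc₃a : c₃ ≤ c₁ / 2 := min_le_left _ _
  have hc₃b : c₃ ≤ r₁ ^ 2 / (8 * b) := min_le_right _ _
  set r : ℝ := min r₁ (min r0 (‖i e1‖ ^ 2)) with hrdef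
  have hrp : 0 < r := lt_min hr₁p (lt_min hr0p hr1p)
  have hra : r ≤ r₁ := min_le_left _ _
  have hrb : r ≤ r0 := (min_le_right _ _).trans (min_le_left _ _)
  have hrc : r ≤ ‖i e1‖ ^ 2 := (min_le_right _ _).trans (min_le_right _ _)
  set c₄ : ℝ := min (c₃ / 2) ((r / 2) ^ 2 / (8 * b)) with hc₄
  have hc₄p : 0 < c₄ := lt_min (by positivity) (by positivity)
  have hc₄a : c₄ ≤ c₃ / 2 := min_le_left _ _
  have hc₄b : c₄ ≤ (r / 2) ^ 2 / (8 * b) := min_le_right _ _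
  have hrec : ∀ l : ℝ, a * l * κ ^ 2 / (2 * b) + κ * (1 + l * κ ^ 2 / b) =
      κ + (a * κ ^ 2 / (2 * b) + κ * κ ^ 2 / b) * l := by intro l; ring
  have E1 := poly_ev κ (a * κ ^ 2 / (2 * b) + κ * κ ^ 2 / b) hc₁p
  have E2 := poly_ev (A₁ + 1 / 2) 0 (by positivity : 0 < c₁ / 2)
  have E3 := poly_ev (Aε + κ) (κ * A₂) (by positivity : 0 < c₁ / 4)
  have E4 := poly_ev κ (a * κ ^ 2 / (2 * b) + κ * κ ^ 2 / b)
    (by positivity : 0 < r₁ ^ 2 / (8 * b))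
  have E5 := poly_ev κ (κ * (A₂ + κ ^ 2 / b)) (by positivity : 0 < c₃ / 2)
  have E6 := poly_ev κ (a * κ ^ 2 / (2 * b) + κ * κ ^ 2 / b)
    (by positivity : 0 < (r / 2) ^ 2 / (8 * b))
  have E7 := poly_ev 1 A₃ hc₄p
  have E8 := poly_ev 1 A₃ hc₁p
  filter_upwards [E1, E2, E3, E4, E5, E6, E7, E8, eventually_ge_atTop 1] with
    lam F1 F2 F3 F4 F5 F6 F7 F8 hl C hC hdense
  have hl0 : 0 ≤ lam := by linarith
  rw [← hrec] at F1 F4 F6
  have hFn : ∀ w : L, ‖w‖ ≤ 1 → Fn (ff a b lam i J w) (GG a b lam i DJ w) (-(A₃ * lam)) :=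
    fun w hw => fn hJ hi ha hb hA0 hA hκ0.le hκ hM hw hl
  have htest : ∀ w : L, ‖w‖ ≤ 1 → ff a b lam i J w (RR b lam i e0) ≤ -(c₁ * lam ^ 2) := by
    intro w hw
    have hne : e0 ≠ 0 := by rintro rfl; simp at he0
    apply ff_RR_le ha hb hl0 hJ.nonneg hκ0.le hκ hw hr0p.le F1 hne
    have : ‖e0‖ ^ 2 ≤ 1 := pow_le_one₀ (norm_nonneg _) hn0
    exact mul_le_of_le_one_right hr0p.le this
  have hbelow : ∀ w : L, ‖w‖ ≤ 1 → ∃ m0, ∀ u, m0 ≤ ff a b lam i J w u := by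
    intro w hw
    refine ⟨-(2 * (lam * κ ^ 2) ^ 2 / b) - A₁ - 1 / 2, fun u => ?_⟩
    have h := lower (J := J) ha hA hκ0.le hκ hw hl u
    have h2 : 0 ≤ b / 8 * ‖u‖ ^ 4 - lam * κ ^ 2 * ‖u‖ ^ 2 + 2 * (lam * κ ^ 2) ^ 2 / b := by
      have : b / 8 * ‖u‖ ^ 4 - lam * κ ^ 2 * ‖u‖ ^ 2 + 2 * (lam * κ ^ 2) ^ 2 / b =
          b / 8 * (‖u‖ ^ 2 - 4 * (lam * κ ^ 2) / b) ^ 2 := by
        field_simp
        ring
      rw [this]
      positivity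
    linarith
  have hmin : ∀ w : L, ‖w‖ ≤ 1 → ∃ u, ∀ z, ff a b lam i J w u ≤ ff a b lam i J w z := by
    intro w hw
    obtain ⟨m0, hm0⟩ := hbelow w hw
    apply (hFn w hw).exists_min hm0 (u0 := RR b lam i e0)
    have := htest w hw
    linarith
  -- properties of minimisers
  have hprop : ∀ w : L, ‖w‖ ≤ 1 → ∀ u, (∀ z, ff a b lam i J w u ≤ ff a b lam i J w z) →
      ff a b lam i J w u ≤ -(c₁ * lam ^ 2) ∧ ‖u‖ ^ 2 ≤ A₂ * lam ∧
      c₁ / 2 * lam ≤ ‖i u‖ ^ 2 := by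
    intro w hw u hu
    have h1 : ff a b lam i J w u ≤ -(c₁ * lam ^ 2) := (hu _).trans (htest w hw)
    have h0 : ff a b lam i J w u ≤ 0 := h1.trans (by
      have : 0 ≤ c₁ * lam ^ 2 := by positivity
      linarith)
    refine ⟨h1, norm_sq_le' ha hb hA0 hA hκ0.le hκ hw hl h0, ?_⟩
    exact ratio ha hb hA hw hl (by linarith) h1
  have hconv : ∀ w u, ff a b lam i J w u = ff a b lam i J 0 u + ⟪i u, w⟫ := by
    intro w u; unfold ff; simp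
  have heven : ∀ u, ff a b lam i J 0 (-u) = ff a b lam i J 0 u := by
    intro u; unfold ff; simp [hJ.even]
  have hcont : Continuous (ff a b lam i J 0) := (hFn 0 (by simp)).cont
  obtain ⟨w, hwC, hw1, u1, u2, hne, hu1, hu2⟩ := two_min (f0 := ff a b lam i J 0) (i := i)
    (R := A₂ * lam + 1) (ρ := √(c₁ / 2 * lam)) hi heven hcont
    (by
      intro w hw
      obtain ⟨u, hu⟩ := hmin w hw
      exact ⟨u, fun z => by rw [← hconv, ← hconv]; exact hu z⟩)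
    (by
      intro w w0 u hw hlim hu
      have hu' : ∀ n z, ff a b lam i J (w n) (u n) ≤ ff a b lam i J (w n) z := by
        intro n z; rw [hconv, hconv (w n) z]; exact hu n z
      apply ps_seq (lam := lam) (i := i) (DJ := DJ) hb hM hi (x := u) (w := w) (w0 := w0)
        (R := A₂ * lam + 1) hlim
      · intro n
        exact le_of_sq_le' (hprop (w n) (hw n) (u n) (hu' n)).2.1
      · intro n
        have h1 := (hprop (w n) (hw n) (u n) (hu' n)).1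
        have h2 : ff a b lam i J (w n) (u n) < -(A₃ * lam) := by linarith
        exact large_norm (J := J) (M := M) ha hb hA0 hA hκ0.le hκ (hw n) hl h2
      · have : ∀ n, GG a b lam i DJ (w n) (u n) = 0 :=
          fun n => (hFn (w n) (hw n)).crit_of_min (hu' n)
        simp only [this]
        exact tendsto_const_nhds)
    (by positivity)
    (by
      intro w u hw hu
      have hu' : ∀ z, ff a b lam i J w u ≤ ff a b lam i J w z := by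
        intro z; rw [hconv, hconv w z]; exact hu z
      have hp := hprop w hw u hu'
      constructor
      · exact le_of_sq_le' hp.2.1
      · have := Real.sqrt_le_sqrt hp.2.2
        rwa [Real.sqrt_sq (norm_nonneg _)] at this)
    hC hdense
  have hu1' : ∀ z, ff a b lam i J w u1 ≤ ff a b lam i J w z := by
    intro z; rw [hconv, hconv w z]; exact hu1 z
  have hu2' : ∀ z, ff a b lam i J w u2 ≤ ff a b lam i J w z := by
    intro z; rw [hconv, hconv w z]; exact hu2 z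
  have hconn : ∀ u, (∀ z, ff a b lam i J w u ≤ ff a b lam i J w z) →
      Conn (ff a b lam i J w) (-(c₄ * lam ^ 2)) u (RR b lam i e1) := by
    intro u hu
    obtain ⟨p1, p2, p3⟩ := hprop w hw1 u hu
    have hu0 : u ≠ 0 := by
      rintro rfl
      simp at p3
      have : 0 < c₁ / 2 * lam := by positivity
      linarith
    have hr₁A : r₁ * A₂ = c₁ / 2 := by rw [hr₁]; field_simp
    apply to_ref ha hb hl hJ.nonneg hκ0.le hκ hw1 hn0 hn1 h01 hrp hra hrb hrc hu0 p2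
      (r₁ := r₁) (c₁ := c₁) (c₃ := c₃) (ε := ε) (Aε := Aε) _ p1 hεp.le (hAε u) _ F4 hc₃b _ F6
      hc₄b
    · have : r₁ * ‖u‖ ^ 2 ≤ r₁ * (A₂ * lam) := mul_le_mul_of_nonneg_left p2 hr₁p.le
      rw [← mul_assoc, hr₁A] at this
      linarith
    · rw [hεA]
      have : (c₁ / 2) * lam ^ 2 ≤ (c₁ - c₃) * lam ^ 2 :=
        mul_le_mul_of_nonneg_right (by linarith) (sq_nonneg _)
      linarith
    · have : (c₃ / 2) * lam ^ 2 ≤ (c₃ - c₄) * lam ^ 2 :=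
        mul_le_mul_of_nonneg_right (by linarith) (sq_nonneg _)
      linarith
  obtain ⟨S, hS, hS1, hS2, hSf⟩ := (hconn u1 hu1').trans (hconn u2 hu2').symm
  obtain ⟨u3, h31, h32, h3⟩ := (hFn w hw1).third hne hu1' hu2' hS hS1 hS2
    (c₁ := -(c₄ * lam ^ 2)) (by linarith) hSf
  exact ⟨w, hwC, u1, u2, u3, hne, h31, h32, hu1', hu2', (hFn w hw1).crit_of_min hu1',
    (hFn w hw1).crit_of_min hu2', h3⟩

/-- main abstract theorem -/
theorem main_abs (hJ : Pow J DJ) (hi : IsCompactOperator i) (ha : 0 ≤ a) (hb : 0 < b)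
    {e0 e1 : H} (he0 : i e0 ≠ 0) (he1 : i e1 ≠ 0) (h01 : ⟪i e0, i e1⟫ = 0) :
    ∀ᶠ lam : ℝ in atTop, ∀ C : Set L, Convex ℝ C → range i ⊆ closure C →
      ∃ w ∈ C, ∃ u1 u2 u3 : H, u1 ≠ u2 ∧ u3 ≠ u1 ∧ u3 ≠ u2 ∧
        (∀ z, ff a b lam i J w u1 ≤ ff a b lam i J w z) ∧
        (∀ z, ff a b lam i J w u2 ≤ ff a b lam i J w z) ∧
        GG a b lam i DJ w u1 = 0 ∧ GG a b lam i DJ w u2 = 0 ∧ GG a b lam i DJ w u3 = 0 := by
  have n0 : e0 ≠ 0 := by rintro rfl; simp at he0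
  have n1 : e1 ≠ 0 := by rintro rfl; simp at he1
  have p0 : 0 < ‖e0‖ := norm_pos_iff.2 n0
  have p1 : 0 < ‖e1‖ := norm_pos_iff.2 n1
  apply main_unit (e0 := ‖e0‖⁻¹ • e0) (e1 := ‖e1‖⁻¹ • e1) hJ hi ha hb
  · rw [map_smul]; exact smul_ne_zero (inv_ne_zero p0.ne') he0
  · rw [map_smul]; exact smul_ne_zero (inv_ne_zero p1.ne') he1
  · rw [map_smul, map_smul, inner_smul_left, inner_smul_right, h01]; simp
  · rw [norm_smul, norm_inv, norm_norm, inv_mul_cancel₀ p0.ne']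
  · rw [norm_smul, norm_inv, norm_norm, inv_mul_cancel₀ p1.ne']

end Pool.Agent.Helper566.Kir
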