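import Mathlib

namespace Pool.Agent.Helper566.Kir

open scoped RealInnerProductSpace Topology
open Filter Set

variable {H : Type*} [NormedAddCommGroup H] [InnerProductSpace ℝ H]

/-- one gradient step decreases the functional -/
theorem step {f : H → ℝ} {G : H → H}
    (hG : ∀ u, HasFDerivAt f (innerSL ℝ (G u)) u) {R Λ : ℝ}
    (hL : ∀ u w, ‖u‖ ≤ R + 1 → ‖w‖ ≤ R + 1 → ‖G u - G w‖ ≤ Λ * ‖u - w‖)
    {u : H} (hu : ‖u‖ ≤ R) {t : ℝ} (ht : 0 ≤ t) (htG : t * ‖G u‖ ≤ 1) (hΛ : 0 ≤ Λ)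
    (htΛ : t * Λ ≤ 1 / 2) :
    f (u - t • G u) ≤ f u - t / 2 * ‖G u‖ ^ 2 := by
  rcases eq_or_lt_of_le ht with h0 | h0
  · subst h0; simp
  · have hder : ∀ s : ℝ, HasDerivAt (fun s : ℝ => f (u - s • G u))
        (-⟪G (u - s • G u), G u⟫) s := by
      intro s
      have h1 : HasDerivAt (fun s : ℝ => u - s • G u) (-(G u)) s := by
        simpa using ((hasDerivAt_id s).smul_const (G u)).const_sub u
      have h2 := (hG (u - s • G u)).comp_hasDerivAt s h1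
      simpa [Function.comp_def, inner_neg_right] using h2
    have hcont : ContinuousOn (fun s : ℝ => f (u - s • G u)) (Icc 0 t) :=
      fun s _ => (hder s).continuousAt.continuousWithinAt
    obtain ⟨s, hs, hs'⟩ := exists_hasDerivAt_eq_slope (fun s : ℝ => f (u - s • G u))
      (fun s => -⟪G (u - s • G u), G u⟫) h0 hcont (fun s _ => hder s)
    have hsR : ‖u - s • G u‖ ≤ R + 1 := by
      have : ‖s • G u‖ ≤ 1 := by
        rw [norm_smul, Real.norm_of_nonneg hs.1.le]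
        exact (mul_le_mul_of_nonneg_right hs.2.le (norm_nonneg _)).trans htG
      exact (norm_sub_le _ _).trans (add_le_add hu this)
    have hdiff : ‖G (u - s • G u) - G u‖ ≤ Λ * (s * ‖G u‖) := by
      have := hL _ _ hsR (by linarith : ‖u‖ ≤ R + 1)
      have h3 : u - s • G u - u = -(s • G u) := by abel
      rw [h3, norm_neg, norm_smul, Real.norm_of_nonneg hs.1.le] at this
      exact this
    have hin : ‖G u‖ ^ 2 - Λ * s * ‖G u‖ ^ 2 ≤ ⟪G (u - s • G u), G u⟫ := by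
      have e : ⟪G (u - s • G u), G u⟫ = ‖G u‖ ^ 2 + ⟪G (u - s • G u) - G u, G u⟫ := by
        rw [inner_sub_left, real_inner_self_eq_norm_sq]; ring
      have e2 := abs_real_inner_le_norm (G (u - s • G u) - G u) (G u)
      have e3 : ‖G (u - s • G u) - G u‖ * ‖G u‖ ≤ Λ * (s * ‖G u‖) * ‖G u‖ :=
        mul_le_mul_of_nonneg_right hdiff (norm_nonneg _)
      have e4 := neg_abs_le (⟪G (u - s • G u) - G u, G u⟫)
      rw [e]; nlinarith
    have hs2 : f (u - t • G u) - f u = t * (-⟪G (u - s • G u), G u⟫) := by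
      rw [hs']; simp; field_simp
    have hsn : Λ * s * ‖G u‖ ^ 2 ≤ 1 / 2 * ‖G u‖ ^ 2 := by
      apply mul_le_mul_of_nonneg_right _ (sq_nonneg _)
      have : Λ * s ≤ Λ * t := mul_le_mul_of_nonneg_left hs.2.le hΛ
      linarith [mul_comm Λ t]
    have : t * (-⟪G (u - s • G u), G u⟫) ≤ t * (-(1 / 2 * ‖G u‖ ^ 2)) := by
      apply mul_le_mul_of_nonneg_left _ ht
      linarith
    linarith

/-- hypotheses on a functional with locally Lipschitz gradient -/
structure Fn (f : H → ℝ) (G : H → H) (ell : ℝ) : Prop where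
  grad : ∀ u, HasFDerivAt f (innerSL ℝ (G u)) u
  lip : ∀ R : ℝ, ∃ Λ : ℝ, ∀ u w, ‖u‖ ≤ R → ‖w‖ ≤ R → ‖G u - G w‖ ≤ Λ * ‖u - w‖
  coer : ∀ c : ℝ, ∃ R : ℝ, ∀ u, f u ≤ c → ‖u‖ ≤ R
  ps : ∀ (x : ℕ → H) (c : ℝ), c < ell → Tendsto (fun n => f (x n)) atTop (𝓝 c) →
    Tendsto (fun n => G (x n)) atTop (𝓝 0) →
    ∃ y : H, ∃ φ : ℕ → ℕ, StrictMono φ ∧ Tendsto (fun n => x (φ n)) atTop (𝓝 y)

variable {f : H → ℝ} {G : H → H} {ell : ℝ}

theorem Fn.cont (h : Fn f G ell) : Continuous f :=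
  continuous_iff_continuousAt.2 fun u => (h.grad u).continuousAt

theorem Fn.contG (h : Fn f G ell) : Continuous G := by
  rw [continuous_iff_continuousAt]
  intro u
  obtain ⟨Λ, hΛ⟩ := h.lip (‖u‖ + 1)
  have hev : ∀ᶠ w in 𝓝 u, ‖G w - G u‖ ≤ Λ * ‖w - u‖ := by
    have : ∀ᶠ w in 𝓝 u, ‖w‖ < ‖u‖ + 1 :=
      continuous_norm.continuousAt.eventually_lt_const (by linarith)
    filter_upwards [this] with w hw
    exact hΛ w u hw.le (by linarith)
  rw [ContinuousAt, tendsto_iff_norm_sub_tendsto_zero]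
  have h2 : Tendsto (fun w => Λ * ‖w - u‖) (𝓝 u) (𝓝 0) := by
    have : Continuous (fun w => Λ * ‖w - u‖) := by fun_prop
    simpa using this.tendsto u
  exact squeeze_zero' (Eventually.of_forall fun w => norm_nonneg _) hev h2

/-- uniform step size on a sublevel set -/
theorem Fn.unif (h : Fn f G ell) (c : ℝ) : ∃ t : ℝ, 0 < t ∧ ∀ u, f u ≤ c →
    ∀ s : ℝ, 0 ≤ s → s ≤ t → f (u - s • G u) ≤ f u - s / 2 * ‖G u‖ ^ 2 := by
  obtain ⟨R, hR⟩ := h.coer c
  obtain ⟨Λ, hΛ⟩ := h.lip (|R| + 1)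
  have hΛ' : ∀ u w, ‖u‖ ≤ |R| + 1 → ‖w‖ ≤ |R| + 1 → ‖G u - G w‖ ≤ |Λ| * ‖u - w‖ :=
    fun u w hu hw => (hΛ u w hu hw).trans
      (mul_le_mul_of_nonneg_right (le_abs_self _) (norm_nonneg _))
  have hB : ∀ u, ‖u‖ ≤ |R| → ‖G u‖ ≤ ‖G 0‖ + |Λ| * |R| := by
    intro u hu
    have h1 := hΛ' u 0 (by linarith) (by simp; positivity)
    have h2 : ‖G u‖ ≤ ‖G u - G 0‖ + ‖G 0‖ := by
      simpa using norm_add_le (G u - G 0) (G 0)
    have h3 : |Λ| * ‖u - 0‖ ≤ |Λ| * |R| := by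
      rw [sub_zero]; exact mul_le_mul_of_nonneg_left hu (abs_nonneg _)
    linarith
  refine ⟨1 / (2 * (|Λ| + 1) + (‖G 0‖ + |Λ| * |R|)), by positivity, ?_⟩
  intro u hu s hs hst
  have hD : 0 < 2 * (|Λ| + 1) + (‖G 0‖ + |Λ| * |R|) := by positivity
  have hst' : s * (2 * (|Λ| + 1) + (‖G 0‖ + |Λ| * |R|)) ≤ 1 := by
    rwa [le_div_iff₀ hD] at hst
  have huR : ‖u‖ ≤ |R| := (hR u hu).trans (le_abs_self _)
  have n1 : 0 ≤ s * |Λ| := mul_nonneg hs (abs_nonneg _)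
  have n2 : 0 ≤ s * (‖G 0‖ + |Λ| * |R|) := mul_nonneg hs (by positivity)
  apply step h.grad hΛ' huR hs _ (abs_nonneg _) _
  · have : s * ‖G u‖ ≤ s * (‖G 0‖ + |Λ| * |R|) := mul_le_mul_of_nonneg_left (hB u huR) hs
    nlinarith
  · nlinarith

/-- almost minimisers are almost critical -/
theorem Fn.grad_tendsto (h : Fn f G ell) {m : ℝ} (hm : ∀ u, m ≤ f u) {x : ℕ → H}
    (hx : Tendsto (fun n => f (x n)) atTop (𝓝 m)) :
    Tendsto (fun n => G (x n)) atTop (𝓝 0) := by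
  obtain ⟨t, ht, hst⟩ := h.unif (m + 1)
  rw [tendsto_zero_iff_norm_tendsto_zero]
  have hev : ∀ᶠ n in atTop, f (x n) ≤ m + 1 :=
    (hx.eventually_lt_const (by linarith : m < m + 1)).mono fun n hn => hn.le
  have h1 : ∀ᶠ n in atTop, ‖G (x n)‖ ^ 2 ≤ 2 / t * (f (x n) - m) := by
    filter_upwards [hev] with n hn
    have := hst (x n) hn t ht.le le_rfl
    have h2 := hm (x n - t • G (x n))
    rw [div_mul_eq_mul_div, le_div_iff₀ ht]
    nlinarith
  have h2 : Tendsto (fun n => 2 / t * (f (x n) - m)) atTop (𝓝 0) := by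
    have := (hx.sub_const m).const_mul (2 / t)
    simpa using this
  have h3 : Tendsto (fun n => ‖G (x n)‖ ^ 2) atTop (𝓝 0) :=
    squeeze_zero' (Eventually.of_forall fun n => sq_nonneg _) h1 h2
  have h4 := (Real.continuous_sqrt.tendsto 0).comp h3
  simpa [Function.comp_def, Real.sqrt_sq (norm_nonneg _)] using h4

/-- existence of a minimiser -/
theorem Fn.exists_min (h : Fn f G ell) {m0 : ℝ} (hm : ∀ u, m0 ≤ f u) {u0 : H}
    (hu0 : f u0 < ell) : ∃ u, ∀ w, f u ≤ f w := by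
  have hne : (range f).Nonempty := ⟨f u0, mem_range_self _⟩
  have hbd : BddBelow (range f) := ⟨m0, by rintro _ ⟨u, rfl⟩; exact hm u⟩
  set m := sInf (range f) with hmdef
  have hmle : ∀ u, m ≤ f u := fun u => csInf_le hbd (mem_range_self u)
  have hseq : ∀ n : ℕ, ∃ u, f u < m + 1 / (n + 1) := by
    intro n
    have : m < m + 1 / ((n : ℝ) + 1) := by
      have : 0 < 1 / ((n : ℝ) + 1) := by positivity
      linarith
    obtain ⟨_, ⟨u, rfl⟩, hu⟩ := exists_lt_of_csInf_lt hne this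
    exact ⟨u, hu⟩
  choose x hx using hseq
  have hlim : Tendsto (fun n => f (x n)) atTop (𝓝 m) := by
    refine tendsto_of_tendsto_of_tendsto_of_le_of_le tendsto_const_nhds ?_
      (fun n => hmle (x n)) (fun n => (hx n).le)
    simpa using tendsto_one_div_add_atTop_nhds_zero_nat.const_add m
  have hGl := h.grad_tendsto hmle hlim
  have hmell : m < ell := lt_of_le_of_lt (hmle u0) hu0
  obtain ⟨y, φ, hφ, hy⟩ := h.ps x m hmell hlim hGl
  refine ⟨y, fun w => ?_⟩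
  have h1 : Tendsto (fun n => f (x (φ n))) atTop (𝓝 (f y)) :=
    (h.cont.tendsto y).comp hy
  have h2 : Tendsto (fun n => f (x (φ n))) atTop (𝓝 m) := hlim.comp hφ.tendsto_atTop
  rw [tendsto_nhds_unique h1 h2]
  exact hmle w

theorem Fn.crit_of_min (h : Fn f G ell) {u : H} (hu : ∀ w, f u ≤ f w) : G u = 0 := by
  have h1 := (h.grad u)
  have h2 : IsLocalMin f u := Eventually.of_forall hu
  have h3 := h2.hasFDerivAt_eq_zero h1
  have h4 := congrArg (fun T => T (G u)) h3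
  simpa using h4

end Pool.Agent.Helper566.Kir
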