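import Pool.Agent.Helper566.KMin

namespace Pool.Agent.Helper566.Kir

open scoped RealInnerProductSpace Topology
open Filter Set

variable {H : Type*} [NormedAddCommGroup H] [InnerProductSpace ℝ H]
variable {f : H → ℝ} {G : H → H} {ell : ℝ}

/-- from a Palais-Smale sequence at a level below ell we get a critical point at that level -/
theorem Fn.crit_of_ps (h : Fn f G ell) {x : ℕ → H} {c : ℝ} (hc : c < ell)
    (hx : Tendsto (fun n => f (x n)) atTop (𝓝 c))
    (hg : Tendsto (fun n => G (x n)) atTop (𝓝 0)) :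
    ∃ y : H, ∃ φ : ℕ → ℕ, StrictMono φ ∧ Tendsto (fun n => x (φ n)) atTop (𝓝 y) ∧
      f y = c ∧ G y = 0 := by
  obtain ⟨y, φ, hφ, hy⟩ := h.ps x c hc hx hg
  refine ⟨y, φ, hφ, hy, ?_, ?_⟩
  · exact tendsto_nhds_unique ((h.cont.tendsto y).comp hy) (hx.comp hφ.tendsto_atTop)
  · exact tendsto_nhds_unique ((h.contG.tendsto y).comp hy) (hg.comp hφ.tendsto_atTop)

/-- if the minimal level is attained through sphere crossings there is a third minimiser -/
theorem Fn.third_of_eq (h : Fn f G ell) {u1 u2 : H} (hne : u1 ≠ u2)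
    (h1 : ∀ w, f u1 ≤ f w) (hell : f u1 < ell)
    (hS : ∀ n : ℕ, ∃ S : Set H, IsPreconnected S ∧ u1 ∈ S ∧ u2 ∈ S ∧
      ∀ x ∈ S, f x ≤ f u1 + 1 / ((n : ℝ) + 1)) :
    ∃ u3, u3 ≠ u1 ∧ u3 ≠ u2 ∧ G u3 = 0 := by
  set r := ‖u2 - u1‖ / 2 with hr
  have hr0 : 0 < r := by
    have : 0 < ‖u2 - u1‖ := norm_pos_iff.2 (sub_ne_zero.2 hne.symm)
    positivity
  have hz : ∀ n : ℕ, ∃ z : H, ‖z - u1‖ = r ∧ f z ≤ f u1 + 1 / ((n : ℝ) + 1) := by
    intro n
    obtain ⟨S, hSc, hS1, hS2, hSf⟩ := hS n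
    have hcont : ContinuousOn (fun z : H => ‖z - u1‖) S := by fun_prop
    have := hSc.intermediate_value hS1 hS2 hcont
    have hmem : r ∈ Icc (‖u1 - u1‖) (‖u2 - u1‖) := by
      constructor
      · simp [hr0.le]
      · rw [hr]; linarith [norm_nonneg (u2 - u1)]
    obtain ⟨z, hzS, hzr⟩ := this hmem
    exact ⟨z, hzr, hSf z hzS⟩
  choose z hzr hzf using hz
  have hlim : Tendsto (fun n => f (z n)) atTop (𝓝 (f u1)) := by
    refine tendsto_of_tendsto_of_tendsto_of_le_of_le tendsto_const_nhds ?_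
      (fun n => h1 (z n)) hzf
    simpa using tendsto_one_div_add_atTop_nhds_zero_nat.const_add (f u1)
  obtain ⟨y, φ, hφ, hy, hfy, hGy⟩ := h.crit_of_ps hell hlim (h.grad_tendsto h1 hlim)
  have hny : ‖y - u1‖ = r := by
    have e1 : Tendsto (fun n => ‖z (φ n) - u1‖) atTop (𝓝 ‖y - u1‖) :=
      (hy.sub_const u1).norm
    have e2 : Tendsto (fun n => ‖z (φ n) - u1‖) atTop (𝓝 r) := by
      simp only [hzr]; exact tendsto_const_nhds
    exact tendsto_nhds_unique e1 e2
  refine ⟨y, ?_, ?_, hGy⟩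
  · rintro rfl
    simp at hny; linarith
  · rintro rfl
    rw [hr] at hny; linarith

/-- mountain pass: third critical point when the pass level is above the minimum -/
theorem Fn.third (h : Fn f G ell) {u1 u2 : H} (hne : u1 ≠ u2)
    (h1 : ∀ w, f u1 ≤ f w) (h2 : ∀ w, f u2 ≤ f w)
    {S : Set H} (hS : IsPreconnected S) (h1S : u1 ∈ S) (h2S : u2 ∈ S) {c₁ : ℝ}
    (hc₁ : c₁ < ell) (hSc : ∀ x ∈ S, f x ≤ c₁) :
    ∃ u3, u3 ≠ u1 ∧ u3 ≠ u2 ∧ G u3 = 0 := by
  have h12 : f u2 = f u1 := le_antisymm (h2 u1) (h1 u2)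
  set A : Set ℝ := {c | ∃ S : Set H, IsPreconnected S ∧ u1 ∈ S ∧ u2 ∈ S ∧ ∀ x ∈ S, f x ≤ c}
    with hA
  have hc₁A : c₁ ∈ A := ⟨S, hS, h1S, h2S, hSc⟩
  have hbd : BddBelow A := ⟨f u1, by rintro c ⟨T, -, hT, -, hTc⟩; exact hTc u1 hT⟩
  set cs := sInf A with hcs
  have hcsle : cs ≤ c₁ := csInf_le hbd hc₁A
  have hmle : f u1 ≤ cs := by
    apply le_csInf ⟨c₁, hc₁A⟩
    rintro c ⟨T, -, hT, -, hTc⟩; exact hTc u1 hT
  have hcsell : cs < ell := lt_of_le_of_lt hcsle hc₁
  rcases eq_or_lt_of_le hmle with heq | hlt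
  · apply h.third_of_eq hne h1 (by rw [heq]; exact hcsell)
    intro n
    have hpos : (0 : ℝ) < 1 / ((n : ℝ) + 1) := by positivity
    obtain ⟨c, ⟨T, hT1, hT2, hT3, hT4⟩, hc⟩ :=
      exists_lt_of_csInf_lt ⟨c₁, hc₁A⟩ (by linarith : sInf A < f u1 + 1 / ((n : ℝ) + 1))
    exact ⟨T, hT1, hT2, hT3, fun x hx => (hT4 x hx).trans hc.le⟩
  · by_contra hcon
    push Not at hcon
    -- no critical point at level cs
    have hno : ∀ y, f y = cs → G y ≠ 0 := by
      intro y hy hGy
      have e1 : y ≠ u1 := by rintro rfl; linarith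
      have e2 : y ≠ u2 := by rintro rfl; linarith
      exact hcon y e1 e2 hGy
    have hδ : ∃ n : ℕ, ∀ u, |f u - cs| ≤ 1 / ((n : ℝ) + 1) → 1 / ((n : ℝ) + 1) ≤ ‖G u‖ := by
      by_contra hc
      push Not at hc
      choose x hx1 hx2 using hc
      have l1 : Tendsto (fun n => f (x n)) atTop (𝓝 cs) := by
        rw [tendsto_iff_norm_sub_tendsto_zero]
        exact squeeze_zero (fun n => norm_nonneg _) hx1 tendsto_one_div_add_atTop_nhds_zero_nat
      have l2 : Tendsto (fun n => G (x n)) atTop (𝓝 0) := by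
        rw [tendsto_zero_iff_norm_tendsto_zero]
        exact squeeze_zero (fun n => norm_nonneg _) (fun n => (hx2 n).le)
          tendsto_one_div_add_atTop_nhds_zero_nat
      obtain ⟨y, φ, hφ, hy, hfy, hGy⟩ := h.crit_of_ps hcsell l1 l2
      exact hno y hfy hGy
    obtain ⟨n, hn⟩ := hδ
    set δ : ℝ := 1 / ((n : ℝ) + 1) with hδdef
    have hδ0 : 0 < δ := by positivity
    obtain ⟨t, ht, hst⟩ := h.unif (cs + 1)
    set e : ℝ := min δ (cs - f u1) with he
    have he0 : 0 < e := lt_min hδ0 (by linarith)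
    set ξ : ℝ → ℝ := fun s => max 0 (min 1 (2 - 2 * |s - cs| / e)) with hξ
    have hξc : Continuous ξ := by fun_prop
    have hξ0 : ∀ s, 0 ≤ ξ s := fun s => le_max_left _ _
    have hξ1 : ∀ s, ξ s ≤ 1 := fun s => max_le zero_le_one (min_le_left _ _)
    have hξin : ∀ s, |s - cs| ≤ e / 2 → ξ s = 1 := by
      intro s hs
      have : 1 ≤ 2 - 2 * |s - cs| / e := by
        have : 2 * |s - cs| / e ≤ 1 := by rw [div_le_one he0]; linarith
        linarith
      simp only [hξ]
      rw [min_eq_left this]; simp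
    have hξout : ∀ s, e ≤ |s - cs| → ξ s = 0 := by
      intro s hs
      have : 2 - 2 * |s - cs| / e ≤ 0 := by
        have : 2 ≤ 2 * |s - cs| / e := by rw [le_div_iff₀ he0]; linarith
        linarith
      simp only [hξ]
      exact max_eq_left ((min_le_right _ _).trans this)
    set η : H → H := fun u => u - (t * ξ (f u)) • G u with hη
    have hηc : Continuous η := by
      have c1 := h.cont
      have c2 := h.contG
      simp only [hη]
      fun_prop
    have hη1 : ∀ u, f u = f u1 → η u = u := by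
      intro u hu
      have : e ≤ |f u - cs| := by
        rw [hu, abs_sub_comm, abs_of_pos (by linarith)]; exact min_le_right _ _
      simp only [hη]
      rw [hξout _ this]; simp
    set e' : ℝ := min (min (e / 2) (t * δ ^ 2 / 4)) 1 with he'
    have he'0 : 0 < e' := lt_min (lt_min (by positivity) (by positivity)) one_pos
    have e1 : e' ≤ e / 2 := (min_le_left _ _).trans (min_le_left _ _)
    have e2 : e' ≤ t * δ ^ 2 / 4 := (min_le_left _ _).trans (min_le_right _ _)
    have e3 : e' ≤ 1 := min_le_right _ _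
    obtain ⟨c, ⟨T, hT1, hT2, hT3, hT4⟩, hc⟩ :=
      exists_lt_of_csInf_lt ⟨c₁, hc₁A⟩ (by linarith : sInf A < cs + e')
    have hnew : cs - min (e / 2) (t * δ ^ 2 / 4) ∈ A := by
      refine ⟨η '' T, hT1.image η hηc.continuousOn, ⟨u1, hT2, hη1 u1 rfl⟩,
        ⟨u2, hT3, hη1 u2 h12⟩, ?_⟩
      rintro _ ⟨x, hx, rfl⟩
      have hxc : f x < cs + e' := lt_of_le_of_lt (hT4 x hx) hc
      have hxc1 : f x ≤ cs + 1 := by linarith
      have hs := hst x hxc1 (t * ξ (f x)) (mul_nonneg ht.le (hξ0 _))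
        (by nlinarith [hξ1 (f x)])
      by_cases hlow : f x < cs - e / 2
      · have : 0 ≤ t * ξ (f x) / 2 * ‖G x‖ ^ 2 := by
          have := mul_nonneg ht.le (hξ0 (f x))
          positivity
        have hmin := min_le_left (e / 2) (t * δ ^ 2 / 4)
        show f (x - (t * ξ (f x)) • G x) ≤ _
        linarith
      · push Not at hlow
        have habs : |f x - cs| ≤ e / 2 := by rw [abs_le]; constructor <;> linarith
        have hone := hξin _ habs
        rw [hone] at hs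
        have hG2 : δ ≤ ‖G x‖ := by
          apply hn
          have : e ≤ δ := min_le_left _ _
          linarith
        have hG3 : δ ^ 2 ≤ ‖G x‖ ^ 2 := pow_le_pow_left₀ hδ0.le hG2 2
        have hG4 : t * 1 / 2 * δ ^ 2 ≤ t * 1 / 2 * ‖G x‖ ^ 2 :=
          mul_le_mul_of_nonneg_left hG3 (by positivity)
        have hmin := min_le_right (e / 2) (t * δ ^ 2 / 4)
        show f (x - (t * ξ (f x)) • G x) ≤ _
        rw [hone]
        linarith
    have := csInf_le hbd hnew
    have hpos : 0 < min (e / 2) (t * δ ^ 2 / 4) := lt_min (by positivity) (by positivity)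
    linarith

end Pool.Agent.Helper566.Kir
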