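import Mathlib

namespace Pool.Agent.Helper566.Kir

open Filter Set
open scoped Topology

/-- the power nonlinearity -/
noncomputable def kq (q x : ℝ) : ℝ := |x| ^ (q - 2) * x

theorem abs_kq (q x : ℝ) : |kq q x| = |x| ^ (q - 2) * |x| := by
  rw [kq, abs_mul, abs_of_nonneg (by positivity)]

theorem kq_neg (q x : ℝ) : kq q (-x) = -kq q x := by simp [kq]

/-- one-sided case -/
theorem kq_lip_pos {q : ℝ} (hq : 2 < q) {x y : ℝ} (hy : 0 ≤ y) (hyx : y ≤ x) :
    |kq q x - kq q y| ≤ (q - 1) * (|x| + |y|) ^ (q - 2) * |x - y| := by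
  have hx : 0 ≤ x := hy.trans hyx
  rcases eq_or_lt_of_le hx with h0 | hx0
  · have : y = 0 := le_antisymm (by linarith) hy
    subst this; rw [← h0]; simp
  have e : ∀ z : ℝ, 0 ≤ z → kq q z = z ^ (q - 1) := by
    intro z hz
    rcases eq_or_lt_of_le hz with h | h
    · rw [← h, kq, Real.zero_rpow (by linarith)]; simp
    · rw [kq, abs_of_pos h, ← Real.rpow_add_one h.ne']; congr 1; ring
  rw [e x hx, e y hy, abs_of_nonneg hx, abs_of_nonneg hy, abs_of_nonneg (sub_nonneg.2 hyx),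
    abs_of_nonneg (sub_nonneg.2 (Real.rpow_le_rpow hy hyx (by linarith)))]
  have hb := one_add_mul_self_le_rpow_one_add (s := y / x - 1) (by
    have : 0 ≤ y / x := div_nonneg hy hx
    linarith) (p := q - 1) (by linarith)
  have e2 : 1 + (y / x - 1) = y / x := by ring
  rw [e2, Real.div_rpow hy hx, le_div_iff₀ (Real.rpow_pos_of_pos hx0 _)] at hb
  have e3 : x ^ (q - 1) = x ^ (q - 2) * x := by
    rw [← Real.rpow_add_one hx0.ne']; congr 1; ring
  have hb2 : x ^ (q - 1) - y ^ (q - 1) ≤ (q - 1) * x ^ (q - 2) * (x - y) := by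
    have : (1 + (q - 1) * (y / x - 1)) * x ^ (q - 1) =
        x ^ (q - 1) - (q - 1) * x ^ (q - 2) * (x - y) := by
      rw [e3]; field_simp; ring
    linarith
  refine hb2.trans ?_
  apply mul_le_mul_of_nonneg_right _ (sub_nonneg.2 hyx)
  apply mul_le_mul_of_nonneg_left _ (by linarith)
  exact Real.rpow_le_rpow hx (by linarith) (by linarith)

theorem kq_lip_opp {q : ℝ} (hq : 2 < q) {x y : ℝ} (hx : 0 ≤ x) (hy : y ≤ 0) :
    |kq q x - kq q y| ≤ (q - 1) * (|x| + |y|) ^ (q - 2) * |x - y| := by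
  have h1 : |x| ^ (q - 2) ≤ (|x| + |y|) ^ (q - 2) :=
    Real.rpow_le_rpow (abs_nonneg _) (by linarith [abs_nonneg y]) (by linarith)
  have h2 : |y| ^ (q - 2) ≤ (|x| + |y|) ^ (q - 2) :=
    Real.rpow_le_rpow (abs_nonneg _) (by linarith [abs_nonneg x]) (by linarith)
  have h3 : |x - y| = |x| + |y| := by
    rw [abs_of_nonneg hx, abs_of_nonpos hy, abs_of_nonneg (by linarith)]; ring
  have h4 : |kq q x - kq q y| ≤ |kq q x| + |kq q y| := abs_sub _ _
  rw [abs_kq, abs_kq] at h4
  rw [h3]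
  have hT : 0 ≤ (|x| + |y|) ^ (q - 2) := by positivity
  have h5 : |x| ^ (q - 2) * |x| ≤ (|x| + |y|) ^ (q - 2) * |x| :=
    mul_le_mul_of_nonneg_right h1 (abs_nonneg _)
  have h6 : |y| ^ (q - 2) * |y| ≤ (|x| + |y|) ^ (q - 2) * |y| :=
    mul_le_mul_of_nonneg_right h2 (abs_nonneg _)
  have h7 : (|x| + |y|) ^ (q - 2) * (|x| + |y|) ≤
      (q - 1) * ((|x| + |y|) ^ (q - 2) * (|x| + |y|)) := by
    have : 0 ≤ (|x| + |y|) ^ (q - 2) * (|x| + |y|) := by positivity
    nlinarith
  nlinarith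

theorem kq_lip {q : ℝ} (hq : 2 < q) (x y : ℝ) :
    |kq q x - kq q y| ≤ (q - 1) * (|x| + |y|) ^ (q - 2) * |x - y| := by
  -- reduce to y ≤ x
  have main : ∀ x y : ℝ, y ≤ x →
      |kq q x - kq q y| ≤ (q - 1) * (|x| + |y|) ^ (q - 2) * |x - y| := by
    intro x y hyx
    rcases le_total 0 y with hy | hy
    · exact kq_lip_pos hq hy hyx
    · rcases le_total 0 x with hx | hx
      · exact kq_lip_opp hq hx hy
      · have h := kq_lip_pos hq (x := -y) (y := -x) (by linarith) (by linarith)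
        rw [kq_neg, kq_neg, abs_neg, abs_neg] at h
        have e1 : -kq q y - -kq q x = kq q x - kq q y := by ring
        have e2 : -y - -x = x - y := by ring
        rw [e1, e2, add_comm |y|] at h
        exact h
  rcases le_total y x with h | h
  · exact main x y h
  · have := main y x h
    rw [abs_sub_comm, abs_sub_comm x y, add_comm |x|]
    exact this

theorem K_exp {q : ℝ} (hq : 2 < q) (x y : ℝ) :
    |1 / q * |x + y| ^ q - 1 / q * |x| ^ q - kq q x * y| ≤
      (q - 1) * (2 * |x| + |y|) ^ (q - 2) * |y| * |y| := by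
  have hd : ∀ t : ℝ, HasDerivAt (fun t : ℝ => 1 / q * |x + t * y| ^ q - kq q x * (t * y))
      ((kq q (x + t * y) - kq q x) * y) t := by
    intro t
    have h1 : HasDerivAt (fun t : ℝ => x + t * y) y t := by
      simpa using ((hasDerivAt_id t).mul_const y).const_add x
    have h2 := (hasDerivAt_abs_rpow (x + t * y) (by linarith : 1 < q)).comp t h1
    have h3 := (h2.const_mul (1 / q)).sub (((hasDerivAt_id t).mul_const y).const_mul (kq q x))
    refine h3.congr_deriv ?_
    have hq0 : q ≠ 0 := by linarith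
    simp only [kq]
    field_simp
  have hb := norm_image_sub_le_of_norm_deriv_le_segment_01'
    (f := fun t : ℝ => 1 / q * |x + t * y| ^ q - kq q x * (t * y))
    (f' := fun t => (kq q (x + t * y) - kq q x) * y)
    (C := (q - 1) * (2 * |x| + |y|) ^ (q - 2) * |y| * |y|)
    (fun t _ => (hd t).hasDerivWithinAt) (by
      intro t ht
      rw [Real.norm_eq_abs, abs_mul]
      apply mul_le_mul_of_nonneg_right _ (abs_nonneg _)
      refine (kq_lip hq _ _).trans ?_
      have e1 : |x + t * y - x| ≤ |y| := by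
        have : x + t * y - x = t * y := by ring
        rw [this, abs_mul, abs_of_nonneg ht.1]
        exact mul_le_of_le_one_left (abs_nonneg _) ht.2.le
      have e2 : |x + t * y| + |x| ≤ 2 * |x| + |y| := by
        have : |x + t * y| ≤ |x| + |t * y| := abs_add_le _ _
        have h3 : |t * y| ≤ |y| := by
          rw [abs_mul, abs_of_nonneg ht.1]
          exact mul_le_of_le_one_left (abs_nonneg _) ht.2.le
        linarith
      apply mul_le_mul _ e1 (abs_nonneg _) (by
        have : 0 ≤ (2 * |x| + |y|) ^ (q - 2) := by positivity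
        nlinarith)
      apply mul_le_mul_of_nonneg_left _ (by linarith)
      exact Real.rpow_le_rpow (by positivity) e2 (by linarith))
  simp only [Real.norm_eq_abs, one_mul, zero_mul, add_zero, mul_zero, sub_zero] at hb
  have e : 1 / q * |x + y| ^ q - 1 / q * |x| ^ q - kq q x * y =
      1 / q * |x + y| ^ q - kq q x * y - 1 / q * |x| ^ q := by ring
  rw [e]
  exact hb

/-- growth comparisons -/
theorem growth_small {q c : ℝ} (hc : 0 ≤ c) (hq0 : 0 < q) (hq : q < 4) {ε : ℝ} (hε : 0 < ε) :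
    ∃ A : ℝ, ∀ t : ℝ, 0 ≤ t → c * t ^ q ≤ ε * t ^ 4 + A := by
  have h1 : Tendsto (fun t : ℝ => ε * t ^ (4 - q)) atTop atTop :=
    (tendsto_rpow_atTop (by linarith)).const_mul_atTop hε
  obtain ⟨T, hT⟩ := (h1.eventually_ge_atTop c).exists_forall_of_atTop
  set T' := max T 1 with hT'
  have hT'1 : 1 ≤ T' := le_max_right _ _
  refine ⟨c * T' ^ q, fun t ht => ?_⟩
  rcases le_total T' t with h | h
  · have htpos : 0 < t := by linarith
    have h2 : c ≤ ε * t ^ (4 - q) := hT t ((le_max_left _ _).trans h)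
    have h3 : c * t ^ q ≤ ε * t ^ (4 - q) * t ^ q :=
      mul_le_mul_of_nonneg_right h2 (by positivity)
    have h4 : t ^ (4 - q) * t ^ q = t ^ 4 := by
      rw [← Real.rpow_add htpos, sub_add_cancel]
      exact_mod_cast Real.rpow_natCast t 4
    have h5 : 0 ≤ c * T' ^ q := by positivity
    calc c * t ^ q ≤ ε * (t ^ (4 - q) * t ^ q) := by linarith
      _ = ε * t ^ 4 := by rw [h4]
      _ ≤ _ := by linarith
  · have h2 : c * t ^ q ≤ c * T' ^ q :=
      mul_le_mul_of_nonneg_left (Real.rpow_le_rpow ht h hq0.le) hc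
    have h3 : 0 ≤ ε * t ^ 4 := by positivity
    linarith

theorem growth_mono {s c : ℝ} (hc : 0 ≤ c) (hs0 : 0 < s) (hs : s < 2) {ε : ℝ} (hε : 0 < ε) :
    ∃ M : ℝ, ∀ x y : ℝ, 0 ≤ x → 0 ≤ y → M ≤ x ^ 2 + y ^ 2 →
      c * (x + y) ^ s ≤ ε * (x ^ 2 + y ^ 2) := by
  have h1 : Tendsto (fun t : ℝ => ε / 2 * t ^ (1 - s / 2)) atTop atTop :=
    (tendsto_rpow_atTop (by linarith)).const_mul_atTop (by positivity)
  obtain ⟨T, hT⟩ := (h1.eventually_ge_atTop c).exists_forall_of_atTop
  refine ⟨max T 1, fun x y hx hy hM => ?_⟩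
  set σ := 2 * (x ^ 2 + y ^ 2) with hσ
  have hσT : T ≤ σ := by
    have := (le_max_left T 1).trans hM
    have := (le_max_right T 1).trans hM
    rw [hσ]; linarith
  have hσ1 : 1 ≤ σ := by
    have := (le_max_right T 1).trans hM
    rw [hσ]; linarith
  have hσ0 : 0 < σ := by linarith
  have h2 : c ≤ ε / 2 * σ ^ (1 - s / 2) := hT σ hσT
  have h3 : (x + y) ^ s ≤ σ ^ (s / 2) := by
    have e1 : (x + y) ^ s = ((x + y) ^ 2) ^ (s / 2) := by
      rw [← Real.rpow_natCast, ← Real.rpow_mul (by positivity)]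
      congr 1
      push_cast
      ring
    rw [e1]
    apply Real.rpow_le_rpow (by positivity) _ (by positivity)
    rw [hσ]
    nlinarith [sq_nonneg (x - y)]
  have h4 : σ ^ (1 - s / 2) * σ ^ (s / 2) = σ := by
    rw [← Real.rpow_add hσ0, sub_add_cancel, Real.rpow_one]
  calc c * (x + y) ^ s ≤ c * σ ^ (s / 2) := mul_le_mul_of_nonneg_left h3 hc
    _ ≤ ε / 2 * σ ^ (1 - s / 2) * σ ^ (s / 2) := mul_le_mul_of_nonneg_right h2 (by positivity)
    _ = ε / 2 * σ := by rw [mul_assoc, h4]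
    _ = _ := by rw [hσ]; ring

end Pool.Agent.Helper566.Kir
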