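import Pool.Agent.Helper566.KSob

namespace Pool.Agent.Helper566.Kir

open MeasureTheory Filter Set
open scoped ContDiff InnerProductSpace Topology ENNReal NNReal

variable {N : ℕ} {Ω : Set (E N)}

/-- Cauchy-Schwarz against the constant one -/
theorem jens {α : Type*} [MeasurableSpace α] (ν : Measure α) {g : α → ℝ≥0∞}
    (hg : AEMeasurable g ν) : (∫⁻ x, g x ∂ν) ^ 2 ≤ ν univ * ∫⁻ x, g x ^ 2 ∂ν := by
  have h := ENNReal.lintegral_mul_le_Lp_mul_Lq ν Real.HolderConjugate.two_two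
    (aemeasurable_const (b := (1 : ℝ≥0∞))) hg
  simp only [Pi.mul_apply, one_mul, ENNReal.one_rpow, lintegral_one] at h
  have h2 := ENNReal.rpow_le_rpow h (by norm_num : (0 : ℝ) ≤ 2)
  rw [ENNReal.mul_rpow_of_nonneg _ _ (by norm_num), ← ENNReal.rpow_mul, ← ENNReal.rpow_mul] at h2
  simpa using h2

/-- translation estimate -/
theorem transl {φ : E N → ℝ} (hφ : ContDiff ℝ 1 φ) (h : E N) :
    ∫⁻ x, ‖φ (x + h) - φ x‖ₑ ^ 2 ≤ ‖h‖ₑ ^ 2 * ∫⁻ x, ‖fderiv ℝ φ x‖ₑ ^ 2 := by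
  have hc : Continuous (fderiv ℝ φ) := hφ.continuous_fderiv (by norm_num)
  have key : ∀ x, ‖φ (x + h) - φ x‖ₑ ^ 2 ≤
      ∫⁻ t in Ioc (0 : ℝ) 1, ‖h‖ₑ ^ 2 * ‖fderiv ℝ φ (x + t • h)‖ₑ ^ 2 := by
    intro x
    have hd : ∀ t ∈ uIcc (0 : ℝ) 1, HasDerivAt (fun t : ℝ => φ (x + t • h))
        (fderiv ℝ φ (x + t • h) h) t := by
      intro t _
      have h1 : HasDerivAt (fun t : ℝ => x + t • h) h t := by
        simpa using ((hasDerivAt_id t).smul_const h).const_add x
      exact ((hφ.differentiable (by norm_num)) (x + t • h)).hasFDerivAt.comp_hasDerivAt t h1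
    have hci : Continuous (fun t : ℝ => fderiv ℝ φ (x + t • h) h) := by fun_prop
    have h2 := intervalIntegral.integral_eq_sub_of_hasDerivAt hd (hci.intervalIntegrable 0 1)
    simp only [one_smul, zero_smul, add_zero] at h2
    rw [← h2, intervalIntegral.integral_of_le zero_le_one]
    have h3 : ‖∫ t in Ioc (0 : ℝ) 1, fderiv ℝ φ (x + t • h) h‖ₑ ≤
        ∫⁻ t in Ioc (0 : ℝ) 1, ‖h‖ₑ * ‖fderiv ℝ φ (x + t • h)‖ₑ := by
      refine (enorm_integral_le_lintegral_enorm _).trans (lintegral_mono fun t => ?_)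
      rw [mul_comm]
      exact ContinuousLinearMap.le_opENorm _ _
    have hm : Measurable (fun t : ℝ => ‖h‖ₑ * ‖fderiv ℝ φ (x + t • h)‖ₑ) := by
      have : Continuous (fun t : ℝ => fderiv ℝ φ (x + t • h)) := by fun_prop
      exact measurable_const.mul this.enorm.measurable
    refine (pow_le_pow_left₀ (zero_le) h3 2).trans ?_
    refine (jens _ hm.aemeasurable).trans ?_
    simp [mul_pow]
  refine (lintegral_mono key).trans ?_
  have hmeas : Measurable (Function.uncurry fun (x : E N) (t : ℝ) =>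
      ‖h‖ₑ ^ 2 * ‖fderiv ℝ φ (x + t • h)‖ₑ ^ 2) := by
    have : Continuous (fun p : E N × ℝ => fderiv ℝ φ (p.1 + p.2 • h)) := by fun_prop
    exact measurable_const.mul (this.enorm.measurable.pow_const 2)
  rw [lintegral_lintegral_swap hmeas.aemeasurable]
  have hin : ∀ t : ℝ, ∫⁻ x, ‖h‖ₑ ^ 2 * ‖fderiv ℝ φ (x + t • h)‖ₑ ^ 2 =
      ‖h‖ₑ ^ 2 * ∫⁻ x, ‖fderiv ℝ φ x‖ₑ ^ 2 := by
    intro t
    rw [lintegral_const_mul]
    · congr 1
      exact lintegral_add_right_eq_self (fun x => ‖fderiv ℝ φ x‖ₑ ^ 2) (t • h)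
    · have : Continuous (fun x : E N => fderiv ℝ φ (x + t • h)) := by fun_prop
      exact this.enorm.measurable.pow_const 2
  simp only [hin]
  simp

/-- cell index -/
noncomputable def cidx (δ : ℝ) (x : E N) : Fin N → ℤ := fun j => ⌊x j / δ⌋

/-- cells of a grid -/
def cell (δ : ℝ) (k : Fin N → ℤ) : Set (E N) := {x | cidx δ x = k}

theorem measurable_cidx (δ : ℝ) : Measurable (cidx δ : E N → Fin N → ℤ) := by
  rw [measurable_pi_iff]
  intro j
  have : Measurable (fun x : E N => x j / δ) := by fun_prop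
  exact Int.measurable_floor.comp this

theorem measurableSet_cell (δ : ℝ) (k : Fin N → ℤ) : MeasurableSet (cell δ k) :=
  measurable_cidx δ (measurableSet_singleton k)

theorem mem_cell {δ : ℝ} (hδ : 0 < δ) {k : Fin N → ℤ} {x : E N} :
    x ∈ cell δ k ↔ ∀ j, x j ∈ Ico (k j * δ) ((k j + 1) * δ) := by
  simp only [cell, Set.mem_ofPred_eq, cidx, funext_iff, Int.floor_eq_iff, mem_Ico,
    le_div_iff₀ hδ, div_lt_iff₀ hδ]

theorem volume_cell {δ : ℝ} (hδ : 0 < δ) (k : Fin N → ℤ) :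
    volume (cell δ k) = ENNReal.ofReal (δ ^ N) := by
  have e : cell δ k = (@WithLp.ofLp 2 (Fin N → ℝ)) ⁻¹'
      (Set.pi univ fun j => Ico (k j * δ) ((k j + 1) * δ)) := by
    ext x
    rw [mem_cell hδ]
    simp
  rw [e, (PiLp.volume_preserving_ofLp (Fin N)).measure_preimage
    (MeasurableSet.univ_pi fun j => measurableSet_Ico).nullMeasurableSet, Real.volume_pi_Ico]
  have : ∀ j : Fin N, ((k j : ℝ) + 1) * δ - k j * δ = δ := by intro j; ring
  simp only [this, Finset.prod_const, Finset.card_univ, Fintype.card_fin]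
  rw [ENNReal.ofReal_pow hδ.le]

theorem norm_le_sum (x : E N) : ‖x‖ ≤ ∑ j, ‖x j‖ := by
  rw [EuclideanSpace.norm_eq]
  apply Real.sqrt_le_iff.2
  constructor
  · positivity
  · exact Finset.sum_sq_le_sq_sum_of_nonneg fun j _ => norm_nonneg _

theorem cell_dist {δ : ℝ} (hδ : 0 < δ) {k : Fin N → ℤ} {x y : E N} (hx : x ∈ cell δ k)
    (hy : y ∈ cell δ k) : ‖y - x‖ ≤ N * δ := by
  rw [mem_cell hδ] at hx hy
  refine (norm_le_sum _).trans ?_
  have : ∀ j : Fin N, ‖(y - x) j‖ ≤ δ := by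
    intro j
    have h1 := hx j
    have h2 := hy j
    rw [mem_Ico] at h1 h2
    simp only [PiLp.sub_apply, Real.norm_eq_abs, abs_le]
    constructor <;> nlinarith
  refine (Finset.sum_le_sum fun j _ => this j).trans ?_
  simp

end Pool.Agent.Helper566.Kir
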