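import Pool.Agent.Helper566.KRel

namespace Pool.Agent.Helper566.Kir

open MeasureTheory Filter Set
open scoped InnerProductSpace Topology ENNReal NNReal

variable {N : ℕ} {Ω : Set (E N)}

/-- average over the cell of the point -/
noncomputable def avg (δ : ℝ) (φ : E N → ℝ) (x : E N) : ℝ :=
  (δ ^ N)⁻¹ * ∫ y in cell δ (cidx δ x), φ y

/-- the constant -/
noncomputable def KK (N : ℕ) : ℝ≥0∞ :=
  ENNReal.ofReal ((N : ℝ) ^ N) * volume (Metric.ball (0 : E N) 1) * ENNReal.ofReal ((N : ℝ) ^ 2)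

theorem KK_ne_top (N : ℕ) : KK N ≠ ∞ :=
  ENNReal.mul_ne_top (ENNReal.mul_ne_top ENNReal.ofReal_ne_top measure_ball_lt_top.ne)
    ENNReal.ofReal_ne_top

theorem avg_point {δ : ℝ} (hδ : 0 < δ) {φ : E N → ℝ} (hφ : Continuous φ)
    (hc : HasCompactSupport φ) (x : E N) :
    ENNReal.ofReal (δ ^ N) * ‖φ x - avg δ φ x‖ₑ ^ 2 ≤
      ∫⁻ h, (Metric.closedBall (0 : E N) (N * δ)).indicator
        (fun h => ‖φ (x + h) - φ x‖ₑ ^ 2) h := by
  have hx : x ∈ cell δ (cidx δ x) := rfl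
  have hV : volume (cell δ (cidx δ x)) = ENNReal.ofReal (δ ^ N) := volume_cell hδ _
  have hV0 : ENNReal.ofReal (δ ^ N) ≠ 0 := by
    rw [Ne, ENNReal.ofReal_eq_zero, not_le]; positivity
  have hVt : ENNReal.ofReal (δ ^ N) ≠ ∞ := ENNReal.ofReal_ne_top
  have hint : IntegrableOn φ (cell δ (cidx δ x)) :=
    (hφ.integrable_of_hasCompactSupport hc).integrableOn
  have hcint : IntegrableOn (fun _ : E N => φ x) (cell δ (cidx δ x)) :=
    integrableOn_const (by rw [hV]; exact hVt) (by simp)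
  have hreal : volume.real (cell δ (cidx δ x)) = δ ^ N := by
    rw [Measure.real, hV, ENNReal.toReal_ofReal (by positivity)]
  have e1 : δ ^ N * (φ x - avg δ φ x) = ∫ y in cell δ (cidx δ x), (φ x - φ y) := by
    rw [integral_sub hcint hint, setIntegral_const, hreal, avg, smul_eq_mul]
    field_simp
  have e2 : ENNReal.ofReal (δ ^ N) * ‖φ x - avg δ φ x‖ₑ ≤
      ∫⁻ y in cell δ (cidx δ x), ‖φ x - φ y‖ₑ := by
    have h1 : ENNReal.ofReal (δ ^ N) * ‖φ x - avg δ φ x‖ₑ = ‖δ ^ N * (φ x - avg δ φ x)‖ₑ := by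
      rw [enorm_mul]
      congr 1
      rw [Real.enorm_of_nonneg (by positivity)]
    rw [h1, e1]
    exact enorm_integral_le_lintegral_enorm _
  have e3 : (ENNReal.ofReal (δ ^ N) * ‖φ x - avg δ φ x‖ₑ) ^ 2 ≤
      ENNReal.ofReal (δ ^ N) * ∫⁻ y in cell δ (cidx δ x), ‖φ x - φ y‖ₑ ^ 2 := by
    refine (pow_le_pow_left₀ (zero_le) e2 2).trans ?_
    have hm : Measurable (fun y => ‖φ x - φ y‖ₑ) :=
      (continuous_const.sub hφ).enorm.measurable
    have := jens (volume.restrict (cell δ (cidx δ x))) hm.aemeasurable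
    rwa [Measure.restrict_apply_univ, hV] at this
  have e4 : ENNReal.ofReal (δ ^ N) * (ENNReal.ofReal (δ ^ N) * ‖φ x - avg δ φ x‖ₑ ^ 2) ≤
      ENNReal.ofReal (δ ^ N) * ∫⁻ y in cell δ (cidx δ x), ‖φ x - φ y‖ₑ ^ 2 := by
    refine le_trans (le_of_eq ?_) e3
    ring
  have e5 := (ENNReal.mul_le_mul_iff_right hV0 hVt).1 e4
  refine e5.trans ?_
  rw [← lintegral_indicator (measurableSet_cell _ _),
    ← lintegral_add_left_eq_self (μ := (volume : Measure (E N))) _ x]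
  refine lintegral_mono fun h => ?_
  by_cases hh : x + h ∈ cell δ (cidx δ x)
  · rw [indicator_of_mem hh, indicator_of_mem, ← enorm_neg, neg_sub]
    have := cell_dist hδ hx hh
    rw [mem_closedBall_zero_iff]
    simpa using this
  · rw [indicator_of_notMem hh]
    exact zero_le

theorem avg_est {δ : ℝ} (hδ : 0 < δ) {φ : E N → ℝ} (hφ : ContDiff ℝ 1 φ)
    (hc : HasCompactSupport φ) :
    ∫⁻ x, ‖φ x - avg δ φ x‖ₑ ^ 2 ≤
      KK N * ENNReal.ofReal (δ ^ 2) * ∫⁻ x, ‖fderiv ℝ φ x‖ₑ ^ 2 := by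
  set G := ∫⁻ x, ‖fderiv ℝ φ x‖ₑ ^ 2 with hG
  have hV0 : ENNReal.ofReal (δ ^ N) ≠ 0 := by
    rw [Ne, ENNReal.ofReal_eq_zero, not_le]; positivity
  have hVt : ENNReal.ofReal (δ ^ N) ≠ ∞ := ENNReal.ofReal_ne_top
  have h1 : ENNReal.ofReal (δ ^ N) * ∫⁻ x, ‖φ x - avg δ φ x‖ₑ ^ 2 ≤
      ∫⁻ h in Metric.closedBall (0 : E N) (N * δ), ∫⁻ x, ‖φ (x + h) - φ x‖ₑ ^ 2 := by
    rw [← lintegral_const_mul' _ _ hVt]
    refine (lintegral_mono fun x => avg_point hδ hφ.continuous hc x).trans ?_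
    have hmeas : Measurable (Function.uncurry fun (x h : E N) => ‖φ (x + h) - φ x‖ₑ ^ 2) := by
      have : Continuous (fun p : E N × E N => φ (p.1 + p.2) - φ p.1) := by
        have := hφ.continuous
        fun_prop
      exact this.enorm.measurable.pow_const 2
    have e : ∀ x, ∫⁻ h, (Metric.closedBall (0 : E N) (N * δ)).indicator
        (fun h => ‖φ (x + h) - φ x‖ₑ ^ 2) h =
        ∫⁻ h in Metric.closedBall (0 : E N) (N * δ), ‖φ (x + h) - φ x‖ₑ ^ 2 :=
      fun x => lintegral_indicator Metric.isClosed_closedBall.measurableSet _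
    simp only [e]
    exact (lintegral_lintegral_swap hmeas.aemeasurable).le
  have h2 : ∫⁻ h in Metric.closedBall (0 : E N) (N * δ), ∫⁻ x, ‖φ (x + h) - φ x‖ₑ ^ 2 ≤
      ENNReal.ofReal ((N * δ) ^ 2) * G * volume (Metric.closedBall (0 : E N) (N * δ)) := by
    rw [← setLIntegral_const]
    refine setLIntegral_mono measurable_const fun h hh => ?_
    refine (transl hφ h).trans ?_
    gcongr
    rw [mem_closedBall_zero_iff] at hh
    rw [← ofReal_norm, ← ENNReal.ofReal_pow (norm_nonneg _)]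
    exact ENNReal.ofReal_le_ofReal (pow_le_pow_left₀ (norm_nonneg _) hh 2)
  have h3 : volume (Metric.closedBall (0 : E N) (N * δ)) =
      ENNReal.ofReal (δ ^ N) * (ENNReal.ofReal ((N : ℝ) ^ N) * volume (Metric.ball (0 : E N) 1)) := by
    rw [Measure.addHaar_closedBall _ _ (by positivity), finrank_euclideanSpace_fin, mul_pow,
      ENNReal.ofReal_mul (by positivity)]
    ring
  have h4 : ENNReal.ofReal ((N * δ) ^ 2) =
      ENNReal.ofReal ((N : ℝ) ^ 2) * ENNReal.ofReal (δ ^ 2) := by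
    rw [mul_pow, ENNReal.ofReal_mul (by positivity)]
  have h5 := h1.trans h2
  rw [h3, h4] at h5
  have h6 : ENNReal.ofReal (δ ^ N) * ∫⁻ x, ‖φ x - avg δ φ x‖ₑ ^ 2 ≤
      ENNReal.ofReal (δ ^ N) * (KK N * ENNReal.ofReal (δ ^ 2) * G) := by
    refine h5.trans (le_of_eq ?_)
    rw [KK]
    ring
  exact (ENNReal.mul_le_mul_iff_right hV0 hVt).1 h6

end Pool.Agent.Helper566.Kir
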