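import Pool.Agent.Helper566.KRel2

namespace Pool.Agent.Helper566.Kir

open MeasureTheory Filter Set
open scoped InnerProductSpace Topology ENNReal NNReal

variable {N : ℕ} {Ω : Set (E N)}

theorem eLpNorm_two_sq {α F : Type*} [MeasurableSpace α] [NormedAddCommGroup F] (μ : Measure α)
    (f : α → F) : eLpNorm f 2 μ ^ 2 = ∫⁻ x, ‖f x‖ₑ ^ 2 ∂μ := by
  have := eLpNorm_nnreal_pow_eq_lintegral (μ := μ) (f := f) (p := 2) (by norm_num)
  simpa using this

/-- finitely many cells cover a bounded set -/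
theorem finite_cells {δ : ℝ} (hδ : 0 < δ) (hΩ : Bornology.IsBounded Ω) :
    ∃ F : Finset (Fin N → ℤ), ∀ x ∈ Ω, cidx δ x ∈ F := by
  obtain ⟨R, hR⟩ := hΩ.subset_closedBall (0 : E N)
  refine ⟨Fintype.piFinset fun _ => Finset.Icc ⌊-R / δ⌋ ⌊R / δ⌋, fun x hx => ?_⟩
  rw [Fintype.mem_piFinset]
  intro j
  have h1 := hR hx
  rw [mem_closedBall_zero_iff] at h1
  have h2 : ‖x j‖ ≤ R := (PiLp.norm_apply_le x j).trans h1
  rw [Real.norm_eq_abs, abs_le] at h2
  rw [Finset.mem_Icc]
  exact ⟨Int.floor_le_floor (div_le_div_of_nonneg_right h2.1 hδ.le),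
    Int.floor_le_floor (div_le_div_of_nonneg_right h2.2 hδ.le)⟩

theorem isCompactOperator_sum {ι H L : Type*} [NormedAddCommGroup H] [NormedSpace ℝ H]
    [NormedAddCommGroup L] [NormedSpace ℝ L] (F : Finset ι) (T : ι → H →L[ℝ] L)
    (h : ∀ k ∈ F, IsCompactOperator (T k)) : IsCompactOperator (∑ k ∈ F, T k : H →L[ℝ] L) := by
  classical
  induction F using Finset.induction_on with
  | empty => simpa using isCompactOperator_zero
  | insert a s ha ih =>
    rw [Finset.sum_insert ha]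
    have h1 := h a (Finset.mem_insert_self a s)
    have h2 := ih fun k hk => h k (Finset.mem_insert_of_mem hk)
    exact h1.add h2

theorem isCompactOperator_rank_one {H L : Type*} [NormedAddCommGroup H] [NormedSpace ℝ H]
    [NormedAddCommGroup L] [NormedSpace ℝ L] (f : H →L[ℝ] ℝ) (e : L) :
    IsCompactOperator (f.smulRight e : H →L[ℝ] L) := by
  have h1 : IsCompactOperator f := isCompactOperator_of_locallyCompactSpace_dom f
  have h2 := h1.clm_comp ((ContinuousLinearMap.id ℝ ℝ).smulRight e)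
  exact h2

theorem exists_P (hΩo : MeasurableSet Ω) (hΩ : Bornology.IsBounded Ω) {δ : ℝ} (hδ : 0 < δ) :
    ∃ P : L2 Ω →L[ℝ] L2 Ω, IsCompactOperator P ∧ ∀ (φ : E N → ℝ) (h : IsTest Ω φ),
      P ((h.memLp 2).toLp φ) =ᵐ[volume.restrict Ω] avg δ φ := by
  obtain ⟨F, hF⟩ := finite_cells hδ hΩ
  have hk : ∀ k : Fin N → ℤ, (volume.restrict Ω) (cell δ k) ≠ ∞ := by
    intro k
    refine ne_top_of_le_ne_top ?_ (Measure.restrict_apply_le Ω (cell δ k))
    rw [volume_cell hδ]
    exact ENNReal.ofReal_ne_top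
  set e : (Fin N → ℤ) → L2 Ω := fun k =>
    indicatorConstLp 2 (measurableSet_cell δ k) (hk k) (1 : ℝ) with he
  refine ⟨∑ k ∈ F, (innerSL ℝ (e k)).smulRight ((δ ^ N)⁻¹ • e k),
    isCompactOperator_sum F _ fun k _ => isCompactOperator_rank_one _ _, fun φ h => ?_⟩
  have hin : ∀ k, ⟪e k, (h.memLp 2).toLp φ⟫_ℝ = ∫ y in cell δ k, φ y := by
    intro k
    rw [he, L2.inner_indicatorConstLp_one]
    rw [Measure.restrict_restrict (measurableSet_cell δ k)]
    have h1 : ∫ x in cell δ k ∩ Ω, ((h.memLp 2).toLp φ) x = ∫ x in cell δ k ∩ Ω, φ x := by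
      apply integral_congr_ae
      have := (h.memLp 2).coeFn_toLp
      exact ae_mono (Measure.restrict_mono_set _ inter_subset_right) this
    rw [h1]
    refine (setIntegral_eq_of_subset_of_forall_sdiff_eq_zero (measurableSet_cell δ k)
      inter_subset_left fun x hx => ?_).symm
    by_contra hne
    apply hx.2
    exact ⟨hx.1, h.2.2 (subset_tsupport _ hne)⟩
  have hsum : ((∑ k ∈ F, (innerSL ℝ (e k)).smulRight ((δ ^ N)⁻¹ • e k) : L2 Ω →L[ℝ] L2 Ω))
      ((h.memLp 2).toLp φ) = ∑ k ∈ F, ((δ ^ N)⁻¹ * ∫ y in cell δ k, φ y) • e k := by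
    rw [sum_apply]
    refine Finset.sum_congr rfl fun k _ => ?_
    rw [ContinuousLinearMap.smulRight_apply, innerSL_apply_apply, hin, smul_smul, mul_comm]
  rw [hsum]
  have hall : ∀ᵐ x ∂(volume.restrict Ω), ∀ k ∈ F,
      (((δ ^ N)⁻¹ * ∫ y in cell δ k, φ y) • e k : L2 Ω) x =
        ((δ ^ N)⁻¹ * ∫ y in cell δ k, φ y) * (cell δ k).indicator (fun _ => (1 : ℝ)) x := by
    rw [Filter.eventually_all_finset]
    intro k _
    filter_upwards [Lp.coeFn_smul ((δ ^ N)⁻¹ * ∫ y in cell δ k, φ y) (e k),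
      indicatorConstLp_coeFn (p := 2) (hs := measurableSet_cell δ k) (hμs := hk k)
        (c := (1 : ℝ))] with x h1 h2
    rw [h1, Pi.smul_apply, smul_eq_mul, he, h2]
  filter_upwards [hall, Lp.coeFn_finsetSum F
    (fun k => (((δ ^ N)⁻¹ * ∫ y in cell δ k, φ y) • e k : L2 Ω)),
    ae_restrict_mem hΩo] with x h1 h2 h3
  rw [h2, Finset.sum_apply, Finset.sum_congr rfl fun k hk => h1 k hk,
    Finset.sum_eq_single (cidx δ x)]
  · have : x ∈ cell δ (cidx δ x) := rfl
    rw [indicator_of_mem this, mul_one, avg]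
  · intro k _ hne
    have : x ∉ cell δ k := fun hx => hne hx.symm
    rw [indicator_of_notMem this, mul_zero]
  · intro hx
    exact absurd (hF x h3) hx

end Pool.Agent.Helper566.Kir
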