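import Pool.Agent.Helper566.KRel3

namespace Pool.Agent.Helper566.Kir

open MeasureTheory Filter Set
open scoped InnerProductSpace Topology ENNReal NNReal

variable {N : ℕ} {Ω : Set (E N)}

theorem lintegral_grad_test {φ : E N → ℝ} (h : IsTest Ω φ) :
    ∫⁻ x, ‖fderiv ℝ φ x‖ₑ ^ 2 = ‖(h.memLp_grad 2).toLp (gradient φ)‖ₑ ^ 2 := by
  have e1 : ‖(h.memLp_grad 2).toLp (gradient φ)‖ₑ =
      eLpNorm (gradient φ) 2 (volume.restrict Ω) := by
    rw [Lp.enorm_def]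
    exact eLpNorm_congr_ae (h.memLp_grad 2).coeFn_toLp
  have hsupp2 : Function.support (gradient φ) ⊆ Ω := by
    refine Subset.trans ?_ h.2.2
    intro x hx
    have : fderiv ℝ φ x ≠ 0 := by
      intro h0
      apply hx
      rw [← norm_eq_zero, norm_gradient, h0, norm_zero]
    exact tsupport_fderiv_subset ℝ (subset_tsupport _ this)
  have e2 : eLpNorm (gradient φ) 2 (volume.restrict Ω) = eLpNorm (gradient φ) 2 volume :=
    eLpNorm_restrict_eq_of_support_subset hsupp2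
  rw [e1, e2, eLpNorm_two_sq]
  refine lintegral_congr fun x => ?_
  rw [← ofReal_norm, ← ofReal_norm, norm_gradient]

/-- approximation by a compact operator -/
theorem exists_P' (hΩo : MeasurableSet Ω) (hΩ : Bornology.IsBounded Ω) {δ : ℝ} (hδ : 0 < δ) :
    ∃ P : L2 Ω →L[ℝ] L2 Ω, IsCompactOperator P ∧ ∀ p ∈ H01 Ω,
      ‖p.1 - P p.1‖ ≤ √(KK N).toReal * δ * ‖p.2‖ := by
  obtain ⟨P, hP, hPφ⟩ := exists_P hΩo hΩ hδ
  refine ⟨P, hP, ?_⟩
  have hclosed : IsClosed {p : L2 Ω × L2v Ω | ‖p.1 - P p.1‖ ≤ √(KK N).toReal * δ * ‖p.2‖} := by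
    apply isClosed_le <;> fun_prop
  have hsub : TestPairs Ω ⊆ {p : L2 Ω × L2v Ω | ‖p.1 - P p.1‖ ≤ √(KK N).toReal * δ * ‖p.2‖} := by
    rintro p ⟨φ, h, h1, h2⟩
    have q1 : p.1 = (h.memLp 2).toLp φ :=
      Lp.ext (h1.trans (h.memLp 2).coeFn_toLp.symm)
    have q2 : p.2 = (h.memLp_grad 2).toLp (gradient φ) :=
      Lp.ext (h2.trans (h.memLp_grad 2).coeFn_toLp.symm)
    rw [Set.mem_ofPred_eq]
    have key : ‖p.1 - P p.1‖ₑ ^ 2 ≤ (ENNReal.ofReal (√(KK N).toReal * δ) * ‖p.2‖ₑ) ^ 2 := by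
      have e1 : ‖p.1 - P p.1‖ₑ ^ 2 = ∫⁻ x in Ω, ‖φ x - avg δ φ x‖ₑ ^ 2 := by
        rw [Lp.enorm_def, eLpNorm_two_sq]
        apply lintegral_congr_ae
        filter_upwards [Lp.coeFn_sub p.1 (P p.1), h1, hPφ φ h] with x s1 s2 s3
        rw [s1, Pi.sub_apply, s2, q1, s3]
      have e2 : ∫⁻ x in Ω, ‖φ x - avg δ φ x‖ₑ ^ 2 ≤ ∫⁻ x, ‖φ x - avg δ φ x‖ₑ ^ 2 :=
        setLIntegral_le_lintegral _ _
      have e3 := avg_est hδ h.contDiff_one h.2.1
      rw [lintegral_grad_test h, ← q2] at e3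
      have e4 : KK N = ENNReal.ofReal (√(KK N).toReal) ^ 2 := by
        rw [← ENNReal.ofReal_pow (Real.sqrt_nonneg _), Real.sq_sqrt ENNReal.toReal_nonneg,
          ENNReal.ofReal_toReal (KK_ne_top N)]
      rw [e1]
      refine e2.trans (e3.trans (le_of_eq ?_))
      rw [ENNReal.ofReal_mul (Real.sqrt_nonneg _), mul_pow, mul_pow, ← e4,
        ENNReal.ofReal_pow hδ.le]
    have key2 : ‖p.1 - P p.1‖ₑ ≤ ENNReal.ofReal (√(KK N).toReal * δ) * ‖p.2‖ₑ :=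
      (ENNReal.pow_le_pow_left_iff two_ne_zero).1 key
    rw [← ofReal_norm, ← ofReal_norm, ← ENNReal.ofReal_mul (by positivity)] at key2
    exact (ENNReal.ofReal_le_ofReal_iff (by positivity)).1 key2
  exact closure_minimal hsub hclosed

end Pool.Agent.Helper566.Kir
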