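import Pool.Agent.Helper566.KDef

namespace Pool.Agent.Helper566.Kir

open MeasureTheory Filter Set
open scoped ContDiff InnerProductSpace Topology ENNReal NNReal

variable {N : ℕ} {Ω : Set (E N)}

theorem norm_gradient (φ : E N → ℝ) (x : E N) : ‖gradient φ x‖ = ‖fderiv ℝ φ x‖ := by
  rw [← toDual_gradient (𝕜 := ℝ), LinearIsometryEquiv.norm_map]

theorem IsTest.contDiff_one {φ : E N → ℝ} (h : IsTest Ω φ) : ContDiff ℝ 1 φ :=
  h.1.of_le (by exact_mod_cast le_top)

theorem gradient_cont {φ : E N → ℝ} (h : ContDiff ℝ 1 φ) : Continuous (gradient φ) := by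
  have : gradient φ = fun x => (InnerProductSpace.toDual ℝ (E N)).symm (fderiv ℝ φ x) := rfl
  rw [this]
  exact (LinearIsometryEquiv.continuous _).comp (h.continuous_fderiv (by norm_num))

theorem gradient_supp {φ : E N → ℝ} (h : HasCompactSupport φ) :
    HasCompactSupport (gradient φ) := by
  have : gradient φ = fun x => (InnerProductSpace.toDual ℝ (E N)).symm (fderiv ℝ φ x) := rfl
  rw [this]
  exact (h.fderiv (𝕜 := ℝ)).comp_left (g := (InnerProductSpace.toDual ℝ (E N)).symm) (map_zero _)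

theorem IsTest.memLp {φ : E N → ℝ} (h : IsTest Ω φ) (p : ℝ≥0∞) :
    MemLp φ p (volume.restrict Ω) :=
  (h.1.continuous.memLp_of_hasCompactSupport h.2.1 (μ := volume)).restrict Ω

theorem IsTest.memLp_grad {φ : E N → ℝ} (h : IsTest Ω φ) (p : ℝ≥0∞) :
    MemLp (gradient φ) p (volume.restrict Ω) :=
  ((gradient_cont h.contDiff_one).memLp_of_hasCompactSupport (gradient_supp h.2.1)
    (μ := volume)).restrict Ω

theorem gradient_add' {φ ψ : E N → ℝ} (h : IsTest Ω φ) (h' : IsTest Ω ψ) :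
    gradient (φ + ψ) = gradient φ + gradient ψ := by
  funext x
  have h1 := (h.contDiff_one.differentiable (by norm_num)) x
  have h2 := (h'.contDiff_one.differentiable (by norm_num)) x
  simp only [gradient, Pi.add_apply]
  rw [fderiv_add h1 h2, map_add]

theorem gradient_smul' {φ : E N → ℝ} (c : ℝ) (h : IsTest Ω φ) :
    gradient (c • φ) = c • gradient φ := by
  funext x
  have h1 := (h.contDiff_one.differentiable (by norm_num)) x
  simp only [gradient, Pi.smul_apply]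
  rw [fderiv_const_smul h1, map_smul]

theorem IsTest.add {φ ψ : E N → ℝ} (h : IsTest Ω φ) (h' : IsTest Ω ψ) : IsTest Ω (φ + ψ) :=
  ⟨h.1.add h'.1, h.2.1.add h'.2.1, (tsupport_add φ ψ).trans (union_subset h.2.2 h'.2.2)⟩

theorem IsTest.smul {φ : E N → ℝ} (c : ℝ) (h : IsTest Ω φ) : IsTest Ω (c • φ) := by
  refine ⟨h.1.const_smul c, h.2.1.mono ?_, (closure_mono ?_).trans h.2.2⟩
  · intro x hx hx'; exact hx (by simp [hx'])
  · intro x hx hx'; exact hx (by simp [hx'])

theorem isTest_zero : IsTest Ω (0 : E N → ℝ) := by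
  refine ⟨contDiff_const, HasCompactSupport.zero, ?_⟩
  simp [tsupport]

/-- test pairs as a subspace -/
def TP (Ω : Set (E N)) : Submodule ℝ (L2 Ω × L2v Ω) where
  carrier := TestPairs Ω
  add_mem' := by
    rintro p q ⟨φ, h, h1, h2⟩ ⟨ψ, h', h1', h2'⟩
    refine ⟨φ + ψ, h.add h', ?_, ?_⟩
    · filter_upwards [Lp.coeFn_add p.1 q.1, h1, h1'] with x e e1 e2
      simp only [Prod.fst_add, e, Pi.add_apply, e1, e2]
    · rw [gradient_add' h h']
      filter_upwards [Lp.coeFn_add p.2 q.2, h2, h2'] with x e e1 e2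
      simp only [Prod.snd_add, e, Pi.add_apply, e1, e2]
  zero_mem' := by
    refine ⟨0, isTest_zero, ?_, ?_⟩
    · filter_upwards [Lp.coeFn_zero ℝ 2 (volume.restrict Ω)] with x e
      simpa using e
    · have : gradient (0 : E N → ℝ) = 0 := by
        funext x; simp [gradient]
      rw [this]
      filter_upwards [Lp.coeFn_zero (E N) 2 (volume.restrict Ω)] with x e
      simpa using e
  smul_mem' := by
    rintro c p ⟨φ, h, h1, h2⟩
    refine ⟨c • φ, h.smul c, ?_, ?_⟩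
    · filter_upwards [Lp.coeFn_smul c p.1, h1] with x e e1
      simp only [Prod.smul_fst, e, Pi.smul_apply, e1]
    · rw [gradient_smul' c h]
      filter_upwards [Lp.coeFn_smul c p.2, h2] with x e e1
      simp only [Prod.smul_snd, e, Pi.smul_apply, e1]

theorem H01_eq : H01 Ω = ((TP Ω).topologicalClosure : Set (L2 Ω × L2v Ω)) := rfl

/-- the pair of a test function -/
noncomputable def tpair (φ : E N → ℝ) (h : IsTest Ω φ) : L2 Ω × L2v Ω :=
  ((h.memLp 2).toLp φ, (h.memLp_grad 2).toLp (gradient φ))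

theorem tpair_mem (φ : E N → ℝ) (h : IsTest Ω φ) : tpair φ h ∈ TestPairs Ω :=
  ⟨φ, h, (h.memLp 2).coeFn_toLp, (h.memLp_grad 2).coeFn_toLp⟩

/-- Sobolev and Poincare constants: for test functions -/
theorem test_sobolev (hN : 2 < N) {s : Set (E N)} (hs : Bornology.IsBounded s) {q : ℝ≥0}
    (hq : (2 : ℝ)⁻¹ - (N : ℝ)⁻¹ ≤ (q : ℝ)⁻¹) :
    ∃ S : ℝ≥0, ∀ φ : E N → ℝ, IsTest s φ →
      eLpNorm φ q (volume.restrict s) ≤ S * eLpNorm (gradient φ) 2 (volume.restrict s) := by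
  refine ⟨eLpNormLESNormFDerivOfLeConst ℝ (volume : Measure (E N)) s 2 q, fun φ h => ?_⟩
  have hsupp : Function.support φ ⊆ s := (subset_tsupport φ).trans h.2.2
  have h1 := eLpNorm_le_eLpNorm_fderiv_of_le (volume : Measure (E N)) h.contDiff_one hsupp
    (p := 2) (q := q) (by norm_num) (by simp [hN]) (by simpa using hq) hs
  have e1 : eLpNorm φ q (volume.restrict s) = eLpNorm φ q volume :=
    eLpNorm_restrict_eq_of_support_subset hsupp
  have hsupp2 : Function.support (gradient φ) ⊆ s := by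
    refine Subset.trans ?_ h.2.2
    intro x hx
    have : fderiv ℝ φ x ≠ 0 := by
      intro h0
      apply hx
      rw [← norm_eq_zero, norm_gradient, h0, norm_zero]
    exact tsupport_fderiv_subset ℝ (subset_tsupport _ this)
  have e2 : eLpNorm (gradient φ) 2 (volume.restrict s) = eLpNorm (gradient φ) 2 volume :=
    eLpNorm_restrict_eq_of_support_subset hsupp2
  have e3 : eLpNorm (gradient φ) 2 (volume : Measure (E N)) = eLpNorm (fderiv ℝ φ) 2 volume :=
    eLpNorm_congr_norm_ae (Eventually.of_forall fun x => norm_gradient φ x)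
  rw [e1, e2, e3]
  exact_mod_cast h1

/-- an L^q bound passes to the closure -/
theorem H01_bound {q : ℝ≥0∞} {S : ℝ≥0} (hS : ∀ φ : E N → ℝ, IsTest Ω φ →
      eLpNorm φ q (volume.restrict Ω) ≤ S * eLpNorm (gradient φ) 2 (volume.restrict Ω))
    {p : L2 Ω × L2v Ω} (hp : p ∈ H01 Ω) :
    eLpNorm p.1 q (volume.restrict Ω) ≤ S * eLpNorm p.2 2 (volume.restrict Ω) := by
  obtain ⟨x, hx, hlim⟩ := mem_closure_iff_seq_limit.1 hp
  have hx2 : ∀ n, eLpNorm (x n).1 q (volume.restrict Ω) ≤ S * ‖(x n).2‖ₑ := by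
    intro n
    obtain ⟨φ, h, h1, h2⟩ := hx n
    rw [eLpNorm_congr_ae h1, Lp.enorm_def, eLpNorm_congr_ae h2]
    exact hS φ h
  have hl1 : Tendsto (fun n => (x n).1) atTop (𝓝 p.1) := (continuous_fst.tendsto p).comp hlim
  have hl2 : Tendsto (fun n => (x n).2) atTop (𝓝 p.2) := (continuous_snd.tendsto p).comp hlim
  have hl3 : Tendsto (fun n => (S : ℝ≥0∞) * ‖(x n).2‖ₑ) atTop (𝓝 (S * ‖p.2‖ₑ)) :=
    ENNReal.Tendsto.const_mul hl2.enorm (Or.inr ENNReal.coe_ne_top)
  rw [← Lp.enorm_def]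
  refine le_of_forall_gt_imp_ge_of_dense fun c hc => ?_
  exact eLpNorm_le_of_tendstoInMeasure
    ((hl3.eventually_lt_const hc).mono fun n hn => (hx2 n).trans hn.le)
    (tendstoInMeasure_of_tendsto_Lp hl1) (fun n => (Lp.memLp _).1)

/-- Sobolev and Poincare on H^1_0 -/
theorem H01_sobolev (hN : 2 < N) (hs : Bornology.IsBounded Ω) {q : ℝ≥0}
    (hq : (2 : ℝ)⁻¹ - (N : ℝ)⁻¹ ≤ (q : ℝ)⁻¹) :
    ∃ S : ℝ≥0, ∀ p ∈ H01 Ω,
      eLpNorm p.1 q (volume.restrict Ω) ≤ S * eLpNorm p.2 2 (volume.restrict Ω) := by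
  obtain ⟨S, hS⟩ := test_sobolev hN hs hq
  exact ⟨S, fun p hp => H01_bound hS hp⟩

theorem H01_poincare (hN : 2 < N) (hs : Bornology.IsBounded Ω) :
    ∃ S : ℝ, 0 ≤ S ∧ ∀ p ∈ H01 Ω, ‖p.1‖ ≤ S * ‖p.2‖ := by
  obtain ⟨S, hS⟩ := H01_sobolev hN hs (q := 2) (by
    have : (0 : ℝ) ≤ (N : ℝ)⁻¹ := by positivity
    simp)
  refine ⟨S, S.2, fun p hp => ?_⟩
  have h := hS p hp
  rw [Lp.norm_def, Lp.norm_def, ← ENNReal.coe_toReal S, ← ENNReal.toReal_mul]
  refine ENNReal.toReal_mono ?_ (by exact_mod_cast h)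
  exact ENNReal.mul_ne_top ENNReal.coe_ne_top (Lp.eLpNorm_ne_top _)

end Pool.Agent.Helper566.Kir
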