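import Pool.Agent.Helper566.Integ

open MeasureTheory Set Filter Topology Metric
open scoped RealInnerProductSpace ContDiff

namespace Pool.Agent.Helper566.Lorentz
open Pool.Agent.Helper566.Profile Pool.Agent.Helper566.Map

variable {n : ℕ}

/-- radial weight -/
noncomputable def W (r : ℝ) : ℝ := r⁻¹ * s (1 - Real.log r)

lemma W_anti {r₁ r₂ : ℝ} (h1 : 0 < r₁) (h12 : r₁ ≤ r₂) (h2 : r₂ ≤ 1) : W r₂ ≤ W r₁ := by
  have h2' : 0 < r₂ := h1.trans_le h12
  have l1 : Real.log r₁ ≤ 0 := Real.log_nonpos h1.le (h12.trans h2)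
  have l2 : Real.log r₂ ≤ 0 := Real.log_nonpos h2'.le h2
  have t1 : 0 < 1 - Real.log r₁ := by linarith
  have t2 : 0 < 1 - Real.log r₂ := by linarith
  have key : r₁ * Real.sqrt (1 - Real.log r₁) ≤ r₂ * Real.sqrt (1 - Real.log r₂) := by
    have e : ∀ {r t : ℝ}, 0 ≤ r → r * Real.sqrt t = Real.sqrt (r ^ 2 * t) := by
      intro r t hr
      rw [Real.sqrt_mul (sq_nonneg r), Real.sqrt_sq hr]
    rw [e h1.le, e h2'.le]
    apply Real.sqrt_le_sqrt
    have hl : Real.log (r₂ / r₁) ≤ r₂ / r₁ - 1 := Real.log_le_sub_one_of_pos (div_pos h2' h1)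
    rw [Real.log_div h2'.ne' h1.ne'] at hl
    have hq : 1 ≤ r₂ / r₁ := (one_le_div h1).2 h12
    have h3 : r₂ / r₁ - 1 ≤ ((r₂ / r₁) ^ 2 - 1) * (1 - Real.log r₂) := by
      have hT : 1 ≤ 1 - Real.log r₂ := by linarith
      have hL : r₂ / r₁ ≤ (r₂ / r₁) ^ 2 := by nlinarith
      have hL2 : 0 ≤ (r₂ / r₁) ^ 2 - 1 := by nlinarith
      calc r₂ / r₁ - 1 ≤ ((r₂ / r₁) ^ 2 - 1) * 1 := by linarith
        _ ≤ ((r₂ / r₁) ^ 2 - 1) * (1 - Real.log r₂) := mul_le_mul_of_nonneg_left hT hL2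
    have h4 : 1 - Real.log r₁ ≤ (r₂ / r₁) ^ 2 * (1 - Real.log r₂) := by linarith
    calc r₁ ^ 2 * (1 - Real.log r₁) ≤ r₁ ^ 2 * ((r₂ / r₁) ^ 2 * (1 - Real.log r₂)) := by gcongr
      _ = r₂ ^ 2 * (1 - Real.log r₂) := by field_simp
  have hW : ∀ r, W r = (r * Real.sqrt (1 - Real.log r))⁻¹ := by
    intro r; rw [W, s, mul_inv]
  rw [hW, hW]
  exact inv_anti₀ (mul_pos h1 (Real.sqrt_pos.2 t1)) key

lemma W_nonneg {r : ℝ} (hr : 0 ≤ r) : 0 ≤ W r := by
  unfold W s; positivity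

/-- Lebesgue measure on the open unit ball -/
noncomputable def bm (n : ℕ) : Measure (E n) := volume.restrict (ball 0 1)

/-- decreasing rearrangement -/
noncomputable def rearr (f : E n → ℝ) (t : ℝ) : ℝ :=
  sInf {l : ℝ | 0 ≤ l ∧ bm n {x | l < |f x|} ≤ ENNReal.ofReal t}

/-- volume of the unit ball -/
noncomputable def kap (n : ℕ) : ℝ := (volume (ball (0 : E n) 1)).toReal

lemma kap_pos : 0 < kap n :=
  ENNReal.toReal_pos (measure_ball_pos _ _ one_pos).ne' measure_ball_lt_top.ne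

lemma rearr_nonneg (f : E n → ℝ) (t : ℝ) : 0 ≤ rearr f t :=
  Real.sInf_nonneg fun _ h => h.1

lemma rearr_le {f : E n → ℝ} {t l : ℝ} (hl : 0 ≤ l)
    (h : bm n {x | l < |f x|} ≤ ENNReal.ofReal t) : rearr f t ≤ l :=
  csInf_le ⟨0, fun _ h => h.1⟩ ⟨hl, h⟩

lemma rearr_large {f : E n → ℝ} {t : ℝ} (ht : kap n ≤ t) : rearr f t = 0 := by
  refine le_antisymm (rearr_le le_rfl ?_) (rearr_nonneg f t)
  calc bm n {x | 0 < |f x|} ≤ bm n univ := measure_mono (subset_univ _)
    _ = volume (ball (0 : E n) 1) := by rw [bm, Measure.restrict_apply_univ]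
    _ = ENNReal.ofReal (kap n) := (ENNReal.ofReal_toReal measure_ball_lt_top.ne).symm
    _ ≤ ENNReal.ofReal t := ENNReal.ofReal_le_ofReal ht

lemma rearr_small (hn : 3 ≤ n) {f : E n → ℝ} {C : ℝ} (hC : 0 ≤ C)
    (hf : ∀ x ∈ PB n, |f x| ≤ C * w x) {t : ℝ} (ht0 : 0 < t) (ht : t < kap n) :
    rearr f t ≤ C * W ((t / kap n) ^ (1 / (n : ℝ))) := by
  have hk := kap_pos (n := n)
  have hn0 : (n : ℝ) ≠ 0 := by
    have : (3:ℝ) ≤ n := by exact_mod_cast hn
    linarith
  set ρ := (t / kap n) ^ (1 / (n : ℝ)) with hρ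
  have hq0 : 0 < t / kap n := div_pos ht0 hk
  have hρ0 : 0 < ρ := Real.rpow_pos_of_pos hq0 _
  have hρn : ρ ^ n = t / kap n := by
    rw [hρ, ← Real.rpow_natCast, ← Real.rpow_mul hq0.le]
    have : 1 / (n : ℝ) * n = 1 := by field_simp
    rw [this, Real.rpow_one]
  have hρ1 : ρ ≤ 1 := by
    apply Real.rpow_le_one hq0.le ((div_le_one hk).2 ht.le)
    positivity
  apply rearr_le (mul_nonneg hC (W_nonneg hρ0.le))
  have hsub : bm n {x | C * W ρ < |f x|} ≤ volume (ball (0 : E n) ρ) := by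
    have h1 : {x | C * W ρ < |f x|} ≤ᵐ[bm n] ball (0 : E n) ρ := by
      filter_upwards [ae_PB hn] with x hx hlt
      change x ∈ ball (0 : E n) ρ
      rw [mem_ball_zero_iff]
      by_contra hcon
      rw [not_lt] at hcon
      have h2 : W ‖x‖ ≤ W ρ := W_anti hρ0 hcon (norm_lt_of_PB hx).le
      have h3 := hf x hx
      have h4 : C * w x ≤ C * W ρ := mul_le_mul_of_nonneg_left h2 hC
      exact absurd (lt_of_lt_of_le hlt (h3.trans h4)) (lt_irrefl _)
    refine (measure_mono_ae h1).trans ?_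
    exact Measure.restrict_apply_le _ _
  refine hsub.trans ?_
  rw [Measure.addHaar_ball_of_pos volume (0 : E n) hρ0, finrank_euclideanSpace_fin, hρn]
  have : volume (ball (0 : E n) 1) = ENNReal.ofReal (kap n) :=
    (ENNReal.ofReal_toReal measure_ball_lt_top.ne).symm
  rw [this, ← ENNReal.ofReal_mul hq0.le, div_mul_cancel₀ _ hk.ne']

lemma integrableOn_aux (hn : 3 ≤ n) {p : ℝ} (hp : 2 < p) :
    IntegrableOn (fun t : ℝ => (1 - 1 / (n : ℝ) * Real.log (t / kap n)) ^ (-(p / 2)) / t)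
      (Ioo 0 (kap n)) := by
  have hk := kap_pos (n := n)
  have hn0 : (0 : ℝ) < n := by
    have : (3:ℝ) ≤ n := by exact_mod_cast hn
    linarith
  have hc : 0 < (n : ℝ) / (p / 2 - 1) := by
    have : 0 < p / 2 - 1 := by linarith
    positivity
  set τ : ℝ → ℝ := fun t => 1 - 1 / (n : ℝ) * Real.log (t / kap n) with hτ
  set g : ℝ → ℝ := fun t => if t ≤ 0 then 0 else (n : ℝ) / (p / 2 - 1) * τ t ^ (1 - p / 2) with hg
  have hτpos : ∀ t, 0 < t → t ≤ kap n → 1 ≤ τ t := by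
    intro t ht0 ht1
    have h1 : Real.log (t / kap n) ≤ 0 :=
      Real.log_nonpos (div_pos ht0 hk).le ((div_le_one hk).2 ht1)
    have h2 : 1 / (n : ℝ) * Real.log (t / kap n) ≤ 0 :=
      mul_nonpos_of_nonneg_of_nonpos (by positivity) h1
    simp only [hτ]; linarith
  have hder : ∀ t, 0 < t → t ≤ kap n →
      HasDerivAt (fun t => (n : ℝ) / (p / 2 - 1) * τ t ^ (1 - p / 2)) (τ t ^ (-(p / 2)) / t) t := by
    intro t ht0 ht1
    have hτ0 : 0 < τ t := one_pos.trans_le (hτpos t ht0 ht1)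
    have h1 : HasDerivAt (fun t => t / kap n) (1 / kap n) t := (hasDerivAt_id t).div_const _
    have h2 := h1.log (div_pos ht0 hk).ne'
    have h3 : HasDerivAt τ (-(1 / (n : ℝ) * (1 / kap n / (t / kap n)))) t :=
      (h2.const_mul (1 / (n : ℝ))).const_sub 1
    have h4 := (h3.rpow_const (p := 1 - p / 2) (Or.inl hτ0.ne')).const_mul ((n : ℝ) / (p / 2 - 1))
    refine h4.congr_deriv ?_
    have e1 : (1 : ℝ) - p / 2 - 1 = -(p / 2) := by ring
    rw [e1]
    have e2 : p / 2 - 1 ≠ 0 := by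
      have : 0 < p / 2 - 1 := by linarith
      exact this.ne'
    have e3 : p - 2 ≠ 0 := by linarith
    field_simp
    ring
  have hgeq : ∀ t, 0 < t → g =ᶠ[𝓝 t] fun t => (n : ℝ) / (p / 2 - 1) * τ t ^ (1 - p / 2) := by
    intro t ht
    filter_upwards [Ioi_mem_nhds ht] with z hz
    simp only [hg, if_neg (not_le.2 (mem_Ioi.1 hz))]
  have hlim : Tendsto (fun t => (n : ℝ) / (p / 2 - 1) * τ t ^ (1 - p / 2)) (𝓝[>] 0) (𝓝 0) := by
    have h1 : Tendsto (fun t : ℝ => t / kap n) (𝓝[>] 0) (𝓝[>] 0) := by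
      apply tendsto_nhdsWithin_iff.2
      constructor
      · have : Tendsto (fun t : ℝ => t / kap n) (𝓝 0) (𝓝 (0 / kap n)) :=
          (continuous_id.div_const _).tendsto 0
        rw [zero_div] at this
        exact this.mono_left nhdsWithin_le_nhds
      · filter_upwards [self_mem_nhdsWithin] with t ht
        exact div_pos (mem_Ioi.1 ht) hk
    have h2 : Tendsto (fun t : ℝ => Real.log (t / kap n)) (𝓝[>] 0) atBot :=
      Real.tendsto_log_nhdsGT_zero.comp h1
    have h3 : Tendsto τ (𝓝[>] 0) atTop := by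
      have h4 : Tendsto (fun t : ℝ => 1 / (n : ℝ) * Real.log (t / kap n)) (𝓝[>] 0) atBot :=
        h2.const_mul_atBot (by positivity)
      exact tendsto_atTop_add_const_left _ 1 (tendsto_neg_atBot_atTop.comp h4)
    have h5 : Tendsto (fun t : ℝ => τ t ^ (1 - p / 2)) (𝓝[>] 0) (𝓝 0) := by
      have : Tendsto (fun y : ℝ => y ^ (-(p / 2 - 1))) atTop (𝓝 0) :=
        tendsto_rpow_neg_atTop (by linarith)
      have h6 := this.comp h3
      have e : (1 - p / 2 : ℝ) = -(p / 2 - 1) := by ring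
      rw [e]
      exact h6
    simpa using h5.const_mul ((n : ℝ) / (p / 2 - 1))
  have hcont : ContinuousOn g (Icc 0 (kap n)) := by
    intro t ht
    rcases eq_or_lt_of_le ht.1 with h0 | h0
    · subst h0
      have h1 : ContinuousWithinAt g (Ioi 0) 0 := by
        have h2 : Tendsto g (𝓝[>] 0) (𝓝 0) := by
          refine hlim.congr' ?_
          filter_upwards [self_mem_nhdsWithin] with z hz
          simp only [hg, if_neg (not_le.2 (mem_Ioi.1 hz))]
        have h3 : g 0 = 0 := by simp [hg]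
        rw [ContinuousWithinAt, h3]
        exact h2
      rw [continuousWithinAt_Ioi_iff_Ici] at h1
      exact h1.mono Icc_subset_Ici_self
    · exact ((hder t h0 ht.2).congr_of_eventuallyEq (hgeq t h0)).continuousAt.continuousWithinAt
  refine (intervalIntegral.integrableOn_deriv_of_nonneg hcont
    (fun t ht => (hder t ht.1 ht.2.le).congr_of_eventuallyEq (hgeq t ht.1)) ?_).mono_set
    Ioo_subset_Ioc_self
  intro t ht
  have h1 : 0 < τ t := one_pos.trans_le (hτpos t ht.1 ht.2.le)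
  have := ht.1
  positivity

lemma lorentz_lt_top (hn : 3 ≤ n) {f : E n → ℝ} {C : ℝ} (hC : 0 ≤ C)
    (hf : ∀ x ∈ PB n, |f x| ≤ C * w x) {p : ℝ} (hp : 2 < p) :
    ∫⁻ t in Ioi (0 : ℝ), ENNReal.ofReal ((t ^ (1 / (n : ℝ)) * rearr f t) ^ p / t) < ⊤ := by
  have hk := kap_pos (n := n)
  have hn0 : (0 : ℝ) < n := by
    have : (3:ℝ) ≤ n := by exact_mod_cast hn
    linarith
  have hint := (integrableOn_aux hn hp).const_mul ((C * kap n ^ (1 / (n : ℝ))) ^ p)
  have hfin := hint.lintegral_lt_top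
  refine lt_of_le_of_lt ?_ hfin
  rw [← lintegral_indicator measurableSet_Ioi, ← lintegral_indicator measurableSet_Ioo]
  apply lintegral_mono
  intro t
  by_cases ht0 : 0 < t
  · rw [indicator_of_mem (mem_Ioi.2 ht0)]
    by_cases ht1 : t < kap n
    · have hmem : t ∈ Ioo 0 (kap n) := ⟨ht0, ht1⟩
      rw [indicator_of_mem hmem]
      apply ENNReal.ofReal_le_ofReal
      have h1 := rearr_small hn hC hf ht0 ht1
      have h0 := rearr_nonneg f t
      have hq0 : 0 < t / kap n := div_pos ht0 hk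
      have e1 : t ^ (1 / (n : ℝ)) = kap n ^ (1 / (n : ℝ)) * (t / kap n) ^ (1 / (n : ℝ)) := by
        rw [← Real.mul_rpow hk.le hq0.le, mul_div_cancel₀ _ hk.ne']
      set ρ := (t / kap n) ^ (1 / (n : ℝ)) with hρ
      have hρ0 : 0 < ρ := Real.rpow_pos_of_pos hq0 _
      have hlogρ : Real.log ρ = 1 / (n : ℝ) * Real.log (t / kap n) := by
        rw [hρ, Real.log_rpow hq0]
      have hτ1 : 0 < 1 - 1 / (n : ℝ) * Real.log (t / kap n) := by
        have h1 : Real.log (t / kap n) ≤ 0 :=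
          Real.log_nonpos hq0.le ((div_le_one hk).2 ht1.le)
        have h2 : 1 / (n : ℝ) * Real.log (t / kap n) ≤ 0 :=
          mul_nonpos_of_nonneg_of_nonpos (by positivity) h1
        linarith
      have e2 : t ^ (1 / (n : ℝ)) * (C * W ρ)
          = C * kap n ^ (1 / (n : ℝ)) * s (1 - 1 / (n : ℝ) * Real.log (t / kap n)) := by
        rw [e1, W, hlogρ]
        field_simp
      have e3 : (s (1 - 1 / (n : ℝ) * Real.log (t / kap n))) ^ p
          = (1 - 1 / (n : ℝ) * Real.log (t / kap n)) ^ (-(p / 2)) := by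
        rw [s, Real.sqrt_eq_rpow, ← Real.rpow_neg hτ1.le, ← Real.rpow_mul hτ1.le]
        congr 1; ring
      calc (t ^ (1 / (n : ℝ)) * rearr f t) ^ p / t
          ≤ (t ^ (1 / (n : ℝ)) * (C * W ρ)) ^ p / t := by
            gcongr
        _ = (C * kap n ^ (1 / (n : ℝ))) ^ p *
            ((1 - 1 / (n : ℝ) * Real.log (t / kap n)) ^ (-(p / 2)) / t) := by
            rw [e2, Real.mul_rpow (by positivity) (s_pos hτ1).le, e3]
            ring
    · rw [not_lt] at ht1
      rw [rearr_large ht1, mul_zero, Real.zero_rpow (by linarith), zero_div, ENNReal.ofReal_zero]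
      exact zero_le
  · have : t ∉ Ioi (0:ℝ) := fun h => ht0 (mem_Ioi.1 h)
    rw [indicator_of_notMem this]
    exact zero_le

end Pool.Agent.Helper566.Lorentz
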