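import Pool.Agent.Helper566.Profile

open MeasureTheory Set Filter Topology Metric
open scoped RealInnerProductSpace ContDiff

namespace Pool.Agent.Helper566.Map
open Pool.Agent.Helper566.Profile

abbrev E (n : ℕ) := EuclideanSpace ℝ (Fin n)

variable {n : ℕ}

/-- basis vectors -/
noncomputable def e (α : Fin n) : E n := EuclideanSpace.single α 1

/-- `t = 1 - log |x|` -/
noncomputable def tt (x : E n) : ℝ := 1 - Real.log ‖x‖

/-- the punctured unit ball -/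
def PB (n : ℕ) : Set (E n) := ball 0 1 \ {0}

lemma isOpen_PB : IsOpen (PB n) := isOpen_ball.sdiff isClosed_singleton

lemma norm_pos_of_PB {x : E n} (hx : x ∈ PB n) : 0 < ‖x‖ := norm_pos_iff.2 hx.2

lemma norm_lt_of_PB {x : E n} (hx : x ∈ PB n) : ‖x‖ < 1 := mem_ball_zero_iff.1 hx.1

lemma one_le_tt {x : E n} (hx : x ∈ PB n) : 1 ≤ tt x := by
  have := Real.log_nonpos (norm_nonneg x) (norm_lt_of_PB hx).le
  unfold tt; linarith

lemma tt_pos {x : E n} (hx : x ∈ PB n) : 0 < tt x := lt_of_lt_of_le one_pos (one_le_tt hx)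

/-- `t |x| ≤ 1` -/
lemma tt_mul_norm_le {x : E n} (hx : x ∈ PB n) : tt x ≤ ‖x‖⁻¹ := by
  have h := Real.log_le_sub_one_of_pos (inv_pos.2 (norm_pos_of_PB hx))
  rw [Real.log_inv] at h
  unfold tt; linarith

lemma hasFDerivAt_norm {x : E n} (hx : x ≠ 0) :
    HasFDerivAt (fun y : E n => ‖y‖) (‖x‖⁻¹ • innerSL ℝ x) x := by
  have h1 : HasFDerivAt (fun x : E n => ‖x‖ ^ 2) (2 • (innerSL ℝ x)) x :=
    (hasStrictFDerivAt_norm_sq x).hasFDerivAt
  have hx2 : ‖x‖ ^ 2 ≠ 0 := pow_ne_zero _ (norm_ne_zero_iff.2 hx)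
  have h2 := h1.sqrt hx2
  have h3 : (fun y : E n => Real.sqrt (‖y‖ ^ 2)) = fun y => ‖y‖ := by
    ext y; exact Real.sqrt_sq (norm_nonneg y)
  rw [h3] at h2
  refine h2.congr_fderiv ?_
  rw [Real.sqrt_sq (norm_nonneg x)]
  ext v
  simp
  field_simp

lemma radial {a a' : ℝ → ℝ} (k : ℕ) {x : E n} (hx : x ≠ 0) (ha : HasDerivAt a (a' (tt x)) (tt x)) :
    HasFDerivAt (fun y : E n => a (tt y) * (‖y‖⁻¹) ^ k)
      ((-(a' (tt x) + k * a (tt x)) * (‖x‖⁻¹) ^ (k + 2)) • innerSL ℝ x) x := by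
  have hn : ‖x‖ ≠ 0 := norm_ne_zero_iff.2 hx
  have h1 : HasDerivAt (fun ρ : ℝ => 1 - Real.log ρ) (-‖x‖⁻¹) ‖x‖ := by
    simpa using (Real.hasDerivAt_log hn).const_sub 1
  have h2 : HasDerivAt (fun ρ : ℝ => a (1 - Real.log ρ)) (a' (tt x) * (-‖x‖⁻¹)) ‖x‖ :=
    HasDerivAt.comp (h₂ := a) (h := fun ρ : ℝ => 1 - Real.log ρ) ‖x‖ ha h1
  have h3 : HasDerivAt (fun ρ : ℝ => (ρ⁻¹) ^ k) (-(k : ℝ) * (‖x‖⁻¹) ^ (k + 1)) ‖x‖ := by
    have h := (hasDerivAt_inv hn).pow k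
    refine h.congr_deriv ?_
    rcases k with _ | k
    · simp
    · rw [Nat.add_sub_cancel, ← inv_pow]
      push_cast
      ring
  have h4 := h2.mul h3
  have h5 := h4.comp_hasFDerivAt x (hasFDerivAt_norm hx)
  refine h5.congr_fderiv ?_
  rw [smul_smul]
  congr 1
  simp only [tt]
  ring

lemma hasFDerivAt_tt_comp {a a' : ℝ → ℝ} {x : E n} (hx : x ≠ 0)
    (ha : HasDerivAt a (a' (tt x)) (tt x)) :
    HasFDerivAt (fun y : E n => a (tt y)) ((-(a' (tt x)) * (‖x‖⁻¹) ^ 2) • innerSL ℝ x) x := by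
  have := radial 0 hx ha
  simpa using this

lemma innerSL_e (x : E n) (α : Fin n) : innerSL ℝ x (e α) = x α := by
  simp [e, EuclideanSpace.inner_single_right]

lemma hasFDerivAt_coord (j : Fin n) (x : E n) :
    HasFDerivAt (fun y : E n => y j) (innerSL ℝ (e j)) x := by
  have h : (fun y : E n => y j) = fun y => innerSL ℝ (e j) y := by
    ext y; simp [e, EuclideanSpace.inner_single_left]
  rw [h]
  exact (innerSL ℝ (e j)).hasFDerivAt

lemma e_apply (α β : Fin n) : e α β = if β = α then (1 : ℝ) else 0 := by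
  simp [e, Pi.single_apply]

lemma sum_sq (x : E n) : ∑ α, x α * x α = ‖x‖ ^ 2 := by
  rw [EuclideanSpace.real_norm_sq_eq]
  exact Finset.sum_congr rfl fun i _ => (sq (x i)).symm

/-! ### The map, its gradient, the potential and the flux -/

/-- the map `u = (log t, t^{-3/2} x_1/|x|, …, t^{-3/2} x_n/|x|)` -/
noncomputable def u (x : E n) (i : Fin (n + 1)) : ℝ :=
  Fin.cases (Real.log (tt x)) (fun j => s (tt x) ^ 3 * ‖x‖⁻¹ * x j) i

/-- its gradient -/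
noncomputable def Du (x : E n) (i : Fin (n + 1)) (α : Fin n) : ℝ :=
  Fin.cases (-(s (tt x) ^ 2 * (‖x‖⁻¹) ^ 2 * x α))
    (fun j => (3 / 2 * s (tt x) ^ 5 - s (tt x) ^ 3) * (‖x‖⁻¹) ^ 3 * (x j * x α)
      + s (tt x) ^ 3 * ‖x‖⁻¹ * e j α) i

/-- the vector fields `ω_k` -/
noncomputable def om (k α : Fin n) (x : E n) : ℝ :=
  (p n (tt x) - q n (tt x)) * (‖x‖⁻¹) ^ 3 * (x k * x α) + q n (tt x) * ‖x‖⁻¹ * e k α

/-- the antisymmetric potential -/
noncomputable def Om (i j : Fin (n + 1)) (α : Fin n) (x : E n) : ℝ :=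
  Fin.cases (Fin.cases 0 (fun k => om k α x) j) (fun k => Fin.cases (-(om k α x)) (fun _ => 0) j) i

/-- `|∇u|` -/
noncomputable def gradNorm (x : E n) : ℝ := Real.sqrt (∑ i, ∑ α, Du x i α ^ 2)

/-- the flux `|∇u|^{n-2} ∂_α u^i` -/
noncomputable def Fl (i : Fin (n + 1)) (α : Fin n) (x : E n) : ℝ :=
  gradNorm x ^ (n - 2) * Du x i α

/-- closed form of the flux -/
noncomputable def Fc (i : Fin (n + 1)) (α : Fin n) (x : E n) : ℝ :=
  Fin.cases (-(Phi n (tt x) * (‖x‖⁻¹) ^ n * x α))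
    (fun j => A n (tt x) * (‖x‖⁻¹) ^ (n + 1) * (x j * x α)
      + B n (tt x) * (‖x‖⁻¹) ^ (n - 1) * e j α) i

lemma Om_antisymm (i j : Fin (n + 1)) (α : Fin n) (x : E n) : Om i j α x = - Om j i α x := by
  refine Fin.cases ?_ (fun k => ?_) i <;> refine Fin.cases ?_ (fun l => ?_) j <;> simp [Om]

lemma sum_sq_aux (c d : ℝ) (x : E n) :
    ∑ j : Fin n, ∑ α : Fin n, (c * (x j * x α) + d * e j α) ^ 2
      = c ^ 2 * ‖x‖ ^ 4 + 2 * c * d * ‖x‖ ^ 2 + n * d ^ 2 := by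
  have h1 : ∀ j α : Fin n, (c * (x j * x α) + d * e j α) ^ 2
      = c ^ 2 * ((x j * x j) * (x α * x α)) + 2 * c * d * ((x j * x α) * e j α)
        + d ^ 2 * e j α := by
    intro j α
    rw [e_apply]
    split_ifs with h
    · ring
    · ring
  simp only [h1, Finset.sum_add_distrib, ← Finset.mul_sum]
  have h2 : ∀ j : Fin n, ∑ α : Fin n, (x j * x α) * e j α = x j * x j := by
    intro j; simp [e_apply]
  have h3 : ∀ j : Fin n, ∑ α : Fin n, (e j α : ℝ) = 1 := by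
    intro j; simp [e_apply]
  simp only [h2, h3, sum_sq, ← Finset.sum_mul]
  simp
  ring

lemma sum_Du_sq {x : E n} (hx : x ∈ PB n) :
    ∑ i, ∑ α, Du x i α ^ 2 = G n (tt x) * (‖x‖⁻¹) ^ 2 := by
  have hp := (norm_pos_of_PB hx).ne'
  rw [Fin.sum_univ_succ]
  simp only [Du, Fin.cases_zero, Fin.cases_succ]
  rw [sum_sq_aux]
  have h1 : ∑ α : Fin n, (-(s (tt x) ^ 2 * (‖x‖⁻¹) ^ 2 * x α)) ^ 2
      = s (tt x) ^ 4 * (‖x‖⁻¹) ^ 4 * ‖x‖ ^ 2 := by
    rw [← sum_sq, Finset.mul_sum]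
    refine Finset.sum_congr rfl fun α _ => ?_
    ring
  rw [h1, G]
  field_simp
  ring

lemma gradNorm_eq (hn : 3 ≤ n) {x : E n} (hx : x ∈ PB n) :
    gradNorm x = Real.sqrt (G n (tt x)) * ‖x‖⁻¹ := by
  rw [gradNorm, sum_Du_sq hx, Real.sqrt_mul (G_pos hn (tt_pos hx)).le,
    Real.sqrt_sq (inv_nonneg.2 (norm_nonneg x))]

lemma Fl_eq (hn : 3 ≤ n) {x : E n} (hx : x ∈ PB n) (i : Fin (n + 1)) (α : Fin n) :
    Fl i α x = Fc i α x := by
  rw [Fl, gradNorm_eq hn hx, mul_pow]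
  obtain ⟨m, rfl⟩ : ∃ m, n = m + 3 := ⟨n - 3, by omega⟩
  have e1 : m + 3 - 2 = m + 1 := by omega
  have e2 : m + 3 - 1 = m + 2 := by omega
  rw [e1]
  refine Fin.cases ?_ (fun j => ?_) i
  · simp only [Du, Fc, Fin.cases_zero, Phi, g, e1]
    ring
  · simp only [Du, Fc, Fin.cases_succ, A, B, g, e1, e2]
    ring

end Pool.Agent.Helper566.Map
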