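import Pool.Agent.Helper566.Map

open MeasureTheory Set Filter Topology Metric
open scoped RealInnerProductSpace ContDiff

namespace Pool.Agent.Helper566.Map
open Pool.Agent.Helper566.Profile

variable {n : ℕ}

/-! ### Smoothness off the origin -/

lemma contDiffAt_s {t : ℝ} (ht : 0 < t) : ContDiffAt ℝ ∞ s t := by
  unfold s
  exact (Real.contDiffAt_sqrt ht.ne').inv (Real.sqrt_pos.2 ht).ne'

lemma contDiffAt_tt {x : E n} (hx : x ∈ PB n) : ContDiffAt ℝ ∞ (tt : E n → ℝ) x := by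
  unfold tt
  exact contDiffAt_const.sub ((contDiffAt_norm ℝ hx.2).log (norm_pos_of_PB hx).ne')

lemma contDiffAt_s_tt {x : E n} (hx : x ∈ PB n) : ContDiffAt ℝ ∞ (fun y : E n => s (tt y)) x :=
  (contDiffAt_s (tt_pos hx)).comp x (contDiffAt_tt hx)

lemma contDiffAt_invnorm {x : E n} (hx : x ∈ PB n) : ContDiffAt ℝ ∞ (fun y : E n => ‖y‖⁻¹) x :=
  (contDiffAt_norm ℝ hx.2).inv (norm_pos_of_PB hx).ne'

lemma contDiffAt_coord (j : Fin n) (x : E n) : ContDiffAt ℝ ∞ (fun y : E n => y j) x := by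
  have h : (fun y : E n => y j) = fun y => innerSL ℝ (e j) y := by
    ext y; simp [e, EuclideanSpace.inner_single_left]
  rw [h]
  exact (innerSL ℝ (e j)).contDiff.contDiffAt

lemma contDiffAt_G_tt (n' : ℕ) {x : E n} (hx : x ∈ PB n) :
    ContDiffAt ℝ ∞ (fun y : E n => G n' (tt y)) x := by
  unfold G
  have h := contDiffAt_s_tt hx
  exact ((h.pow 4).add (contDiffAt_const.mul (h.pow 10))).add (contDiffAt_const.mul (h.pow 6))

lemma contDiffAt_g_tt (hn : 3 ≤ n) {x : E n} (hx : x ∈ PB n) :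
    ContDiffAt ℝ ∞ (fun y : E n => g n (tt y)) x := by
  unfold g
  exact ((contDiffAt_G_tt n hx).sqrt (G_pos hn (tt_pos hx)).ne').pow _

lemma contDiffAt_Fc (hn : 3 ≤ n) {x : E n} (hx : x ∈ PB n) (i : Fin (n + 1)) (α : Fin n) :
    ContDiffAt ℝ ∞ (Fc i α : E n → ℝ) x := by
  have h := contDiffAt_s_tt hx
  have hg := contDiffAt_g_tt hn hx
  have hr := contDiffAt_invnorm hx
  refine Fin.cases ?_ (fun j => ?_) i
  · change ContDiffAt ℝ ∞ (fun x : E n => -(g n (tt x) * s (tt x) ^ 2 * (‖x‖⁻¹) ^ n * x α)) x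
    exact (((hg.mul (h.pow 2)).mul (hr.pow n)).mul (contDiffAt_coord α x)).neg
  · change ContDiffAt ℝ ∞ (fun x : E n =>
      g n (tt x) * (3 / 2 * s (tt x) ^ 5 - s (tt x) ^ 3) * (‖x‖⁻¹) ^ (n + 1) * (x j * x α)
      + g n (tt x) * s (tt x) ^ 3 * (‖x‖⁻¹) ^ (n - 1) * e j α) x
    exact (((hg.mul ((contDiffAt_const.mul (h.pow 5)).sub (h.pow 3))).mul (hr.pow _)).mul
      ((contDiffAt_coord j x).mul (contDiffAt_coord α x))).add
      (((hg.mul (h.pow 3)).mul (hr.pow _)).mul contDiffAt_const)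

lemma contDiffAt_u {x : E n} (hx : x ∈ PB n) (i : Fin (n + 1)) :
    ContDiffAt ℝ ∞ (fun y : E n => u y i) x := by
  have h := contDiffAt_s_tt hx
  have hr := contDiffAt_invnorm hx
  refine Fin.cases ?_ (fun j => ?_) i
  · simp only [u, Fin.cases_zero]
    exact (contDiffAt_tt hx).log (tt_pos hx).ne'
  · simp only [u, Fin.cases_succ]
    exact ((h.pow 3).mul hr).mul (contDiffAt_coord j x)

/-! ### Derivatives -/

lemma fderiv_u {x : E n} (hx : x ∈ PB n) (i : Fin (n + 1)) (α : Fin n) :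
    fderiv ℝ (fun y : E n => u y i) x (e α) = Du x i α := by
  have hx0 : x ≠ 0 := hx.2
  have ht := tt_pos hx
  refine Fin.cases ?_ (fun j => ?_) i
  · simp only [u, Du, Fin.cases_zero]
    have h := hasFDerivAt_tt_comp (a := Real.log) (a' := fun t => t⁻¹) hx0
      (Real.hasDerivAt_log ht.ne')
    rw [h.fderiv]
    simp only [smul_apply, innerSL_e, smul_eq_mul]
    rw [s_sq ht]; ring
  · simp only [u, Du, Fin.cases_succ]
    have h := (radial (a := fun t => s t ^ 3) (a' := fun t => -(3 / 2) * s t ^ 5) 1 hx0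
      (by simpa using hasDerivAt_s_pow ht 3)).mul (hasFDerivAt_coord j x)
    have hfun : (fun y : E n => s (tt y) ^ 3 * ‖y‖⁻¹ * y j)
        = (fun y : E n => s (tt y) ^ 3 * (‖y‖⁻¹) ^ 1) * (fun y : E n => y j) := by
      ext y; simp
    rw [hfun, h.fderiv]
    simp only [add_apply, smul_apply, innerSL_e, smul_eq_mul]
    push_cast
    ring

lemma fderiv_Fc_zero (hn : 3 ≤ n) {x : E n} (hx : x ∈ PB n) (α : Fin n) :
    fderiv ℝ (Fc 0 α : E n → ℝ) x (e α)
      = (dPhi n (tt x) + n * Phi n (tt x)) * (‖x‖⁻¹) ^ (n + 2) * (x α * x α)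
        - Phi n (tt x) * (‖x‖⁻¹) ^ n := by
  have hx0 : x ≠ 0 := hx.2
  have ht := tt_pos hx
  have h := ((radial (a := Phi n) (a' := dPhi n) n hx0 (hasDerivAt_Phi hn ht)).mul
    (hasFDerivAt_coord α x)).neg
  have h' : HasFDerivAt (Fc 0 α : E n → ℝ) _ x := h
  rw [h'.fderiv]
  simp only [add_apply, smul_apply, innerSL_e, smul_eq_mul, neg_apply]
  rw [e_apply]
  simp
  ring

lemma fderiv_Fc_succ (hn : 3 ≤ n) {x : E n} (hx : x ∈ PB n) (j α : Fin n) :
    fderiv ℝ (Fc j.succ α : E n → ℝ) x (e α)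
      = -(dA n (tt x) + (n + 1) * A n (tt x)) * (‖x‖⁻¹) ^ (n + 3) * x j * (x α * x α)
        + A n (tt x) * (‖x‖⁻¹) ^ (n + 1) * (x j + x α * e j α)
        - (dB n (tt x) + ((n : ℝ) - 1) * B n (tt x)) * (‖x‖⁻¹) ^ (n + 1) * (x α * e j α) := by
  have hx0 : x ≠ 0 := hx.2
  have ht := tt_pos hx
  have h := ((radial (a := A n) (a' := dA n) (n + 1) hx0 (hasDerivAt_A hn ht)).mul
    ((hasFDerivAt_coord j x).mul (hasFDerivAt_coord α x))).add
    ((radial (a := B n) (a' := dB n) (n - 1) hx0 (hasDerivAt_B hn ht)).mul_const (e j α))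
  have h' : HasFDerivAt (Fc j.succ α : E n → ℝ) _ x := h
  rw [h'.fderiv]
  simp only [add_apply, smul_apply, innerSL_e, smul_eq_mul, Pi.mul_apply]
  have e1 : n - 1 + 2 = n + 1 := by omega
  have e2 : ((n - 1 : ℕ) : ℝ) = (n : ℝ) - 1 := by
    rw [Nat.cast_sub (by omega)]; simp
  rw [e1, e2]
  have e3 : (e α α : ℝ) = 1 := by simp [e_apply]
  rw [e3]
  push_cast
  ring

/-- the divergence of the flux -/
noncomputable def ff (i : Fin (n + 1)) (x : E n) : ℝ :=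
  Fin.cases (dPhi n (tt x) * (‖x‖⁻¹) ^ n)
    (fun j => -((dA n (tt x) + dB n (tt x) + ((n : ℝ) - 1) * B n (tt x)) * (‖x‖⁻¹) ^ (n + 1) * x j)) i

lemma div_Fc (hn : 3 ≤ n) {x : E n} (hx : x ∈ PB n) (i : Fin (n + 1)) :
    ∑ α, fderiv ℝ (Fc i α : E n → ℝ) x (e α) = ff i x := by
  have hp := (norm_pos_of_PB hx).ne'
  refine Fin.cases ?_ (fun j => ?_) i
  · simp only [fderiv_Fc_zero hn hx, ff, Fin.cases_zero]
    rw [Finset.sum_sub_distrib, ← Finset.mul_sum, sum_sq]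
    simp
    field_simp
    ring
  · simp only [fderiv_Fc_succ hn hx, ff, Fin.cases_succ]
    have h2 : ∑ α : Fin n, x α * e j α = x j := by simp [e_apply]
    rw [Finset.sum_sub_distrib, Finset.sum_add_distrib, ← Finset.mul_sum, ← Finset.mul_sum,
      ← Finset.mul_sum, sum_sq, Finset.sum_add_distrib, h2]
    simp
    field_simp
    ring

/-! ### The algebraic identity for the potential -/

lemma sum_Om_Fl (hn : 3 ≤ n) {x : E n} (hx : x ∈ PB n) (i : Fin (n + 1)) :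
    ∑ j, ∑ α, Om i j α x * Fl j α x = - ff i x := by
  have hp := (norm_pos_of_PB hx).ne'
  have ht := tt_pos hx
  simp only [Fl_eq hn hx]
  rw [Fin.sum_univ_succ]
  refine Fin.cases ?_ (fun k => ?_) i
  · simp only [Om, Fc, ff, Fin.cases_zero, Fin.cases_succ, zero_mul, Finset.sum_const_zero, zero_add,
      om]
    have h1 : ∀ k α : Fin n, ((p n (tt x) - q n (tt x)) * (‖x‖⁻¹) ^ 3 * (x k * x α)
        + q n (tt x) * ‖x‖⁻¹ * e k α) * (A n (tt x) * (‖x‖⁻¹) ^ (n + 1) * (x k * x α)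
        + B n (tt x) * (‖x‖⁻¹) ^ (n - 1) * e k α)
        = (p n (tt x) - q n (tt x)) * A n (tt x) * (‖x‖⁻¹) ^ (n + 4) * ((x k * x k) * (x α * x α))
          + ((p n (tt x) - q n (tt x)) * B n (tt x) * (‖x‖⁻¹) ^ 3 * (‖x‖⁻¹) ^ (n - 1)
            + q n (tt x) * A n (tt x) * (‖x‖⁻¹) ^ (n + 2)) * ((x k * x α) * e k α)
          + q n (tt x) * B n (tt x) * (‖x‖⁻¹) * (‖x‖⁻¹) ^ (n - 1) * e k α := by
      intro k α
      rw [e_apply]
      split_ifs with h
      · ring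
      · ring
    simp only [h1, Finset.sum_add_distrib, ← Finset.mul_sum]
    have h2 : ∀ j : Fin n, ∑ α : Fin n, (x j * x α) * e j α = x j * x j := by
      intro j; simp [e_apply]
    have h3 : ∀ j : Fin n, ∑ α : Fin n, (e j α : ℝ) = 1 := by
      intro j; simp [e_apply]
    simp only [h2, h3, sum_sq, ← Finset.sum_mul]
    have h4 := ident_q hn ht
    obtain ⟨m, rfl⟩ : ∃ m, n = m + 3 := ⟨n - 3, by omega⟩
    have e2 : m + 3 - 1 = m + 2 := by omega
    rw [e2]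
    simp only [Finset.sum_const, Finset.card_univ, Fintype.card_fin, nsmul_eq_mul, mul_one]
    rw [← neg_mul, ← h4]
    have hN : ‖x‖ * ‖x‖⁻¹ = 1 := mul_inv_cancel₀ hp
    generalize ‖x‖⁻¹ = ρ at hN ⊢
    generalize ‖x‖ = N at hN ⊢
    have hN2 : N ^ 2 * ρ ^ 2 = 1 := by rw [← mul_pow, hN, one_pow]
    have hN4 : N ^ 4 * ρ ^ 4 = 1 := by rw [← mul_pow, hN, one_pow]
    linear_combination
      ((p (m + 3) (tt x) - q (m + 3) (tt x)) * A (m + 3) (tt x) * ρ ^ (m + 3)) * hN4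
      + ((p (m + 3) (tt x) - q (m + 3) (tt x)) * B (m + 3) (tt x) * ρ ^ (m + 3)
        + q (m + 3) (tt x) * A (m + 3) (tt x) * ρ ^ (m + 3)) * hN2
  · simp only [Om, Fc, ff, Fin.cases_zero, Fin.cases_succ, zero_mul, Finset.sum_const_zero, add_zero,
      om]
    have h1 : ∀ α : Fin n, -((p n (tt x) - q n (tt x)) * (‖x‖⁻¹) ^ 3 * (x k * x α)
        + q n (tt x) * ‖x‖⁻¹ * e k α) * -(Phi n (tt x) * (‖x‖⁻¹) ^ n * x α)
        = (p n (tt x) - q n (tt x)) * Phi n (tt x) * (‖x‖⁻¹) ^ (n + 3) * x k * (x α * x α)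
          + q n (tt x) * Phi n (tt x) * (‖x‖⁻¹) ^ (n + 1) * (x α * e k α) := by
      intro α; ring
    simp only [h1, Finset.sum_add_distrib, ← Finset.mul_sum, sum_sq]
    have h2 : ∑ α : Fin n, x α * e k α = x k := by simp [e_apply]
    rw [h2]
    have h4 := ident_p n (tt x)
    rw [← h4]
    have hN : ‖x‖ * ‖x‖⁻¹ = 1 := mul_inv_cancel₀ hp
    generalize ‖x‖⁻¹ = ρ at hN ⊢
    generalize ‖x‖ = N at hN ⊢
    have hN2 : N ^ 2 * ρ ^ 2 = 1 := by rw [← mul_pow, hN, one_pow]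
    linear_combination
      ((p n (tt x) - q n (tt x)) * Phi n (tt x) * ρ ^ (n + 1) * x k) * hN2

end Pool.Agent.Helper566.Map
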