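import Pool.Agent.Helper566.Removable

open MeasureTheory Set Filter Topology Metric
open scoped RealInnerProductSpace ContDiff

namespace Pool.Agent.Helper566.Profile

/-! ### One-variable profiles -/

/-- `s t = t^{-1/2}` -/
noncomputable def s (t : ℝ) : ℝ := (Real.sqrt t)⁻¹

lemma s_pos {t : ℝ} (ht : 0 < t) : 0 < s t := inv_pos.2 (Real.sqrt_pos.2 ht)

lemma s_sq {t : ℝ} (ht : 0 < t) : s t ^ 2 = t⁻¹ := by
  rw [s, inv_pow, Real.sq_sqrt ht.le]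

lemma s_le_one {t : ℝ} (ht : 1 ≤ t) : s t ≤ 1 := by
  rw [s]
  apply inv_le_one_of_one_le₀
  exact Real.one_le_sqrt.2 ht

lemma hasDerivAt_s {t : ℝ} (ht : 0 < t) : HasDerivAt s (-(1 / 2) * s t ^ 3) t := by
  have h1 := (Real.hasDerivAt_sqrt ht.ne').inv (Real.sqrt_pos.2 ht).ne'
  have h2 : Real.sqrt t ≠ 0 := (Real.sqrt_pos.2 ht).ne'
  refine h1.congr_deriv ?_
  rw [s]
  field_simp

lemma hasDerivAt_s_pow {t : ℝ} (ht : 0 < t) (k : ℕ) :
    HasDerivAt (fun t => s t ^ k) (-(k / 2) * s t ^ (k + 2)) t := by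
  have h := (hasDerivAt_s ht).pow k
  refine h.congr_deriv ?_
  rcases k with _ | k
  · simp
  · rw [Nat.add_sub_cancel]
    push_cast
    ring

/-- `G = s^4 + (9/4) s^10 + (n-1) s^6` -/
noncomputable def G (n : ℕ) (t : ℝ) : ℝ := s t ^ 4 + 9 / 4 * s t ^ 10 + ((n : ℝ) - 1) * s t ^ 6

/-- derivative of `G` -/
noncomputable def dG (n : ℕ) (t : ℝ) : ℝ :=
  -(2 * s t ^ 6 + 45 / 4 * s t ^ 12 + 3 * ((n : ℝ) - 1) * s t ^ 8)

lemma hasDerivAt_G (n : ℕ) {t : ℝ} (ht : 0 < t) : HasDerivAt (G n) (dG n t) t := by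
  have h := ((hasDerivAt_s_pow ht 4).add ((hasDerivAt_s_pow ht 10).const_mul (9 / 4))).add
    ((hasDerivAt_s_pow ht 6).const_mul ((n : ℝ) - 1))
  refine h.congr_deriv ?_
  rw [dG]
  push_cast
  ring

variable {n : ℕ}

lemma one_le_n (hn : 3 ≤ n) : (3 : ℝ) ≤ n := by exact_mod_cast hn

lemma G_pos (hn : 3 ≤ n) {t : ℝ} (ht : 0 < t) : 0 < G n t := by
  have h1 := s_pos ht
  have h2 := one_le_n hn
  have h3 : (0:ℝ) < (n : ℝ) - 1 := by linarith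
  unfold G
  positivity

/-- logarithmic derivative of `G` -/
noncomputable def L (n : ℕ) (t : ℝ) : ℝ := dG n t / G n t

lemma abs_L_le (hn : 3 ≤ n) {t : ℝ} (ht : 0 < t) : |L n t| ≤ 5 * s t ^ 2 := by
  have h1 := s_pos ht
  have h2 := one_le_n hn
  have h3 : (0:ℝ) < (n : ℝ) - 1 := by linarith
  have hG := G_pos hn ht
  rw [L, abs_div, abs_of_pos hG, div_le_iff₀ hG]
  have h4 : |dG n t| = 2 * s t ^ 6 + 45 / 4 * s t ^ 12 + 3 * ((n : ℝ) - 1) * s t ^ 8 := by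
    rw [dG, abs_neg, abs_of_pos (by positivity)]
  rw [h4, G]
  have h5 : 0 < s t ^ 6 := by positivity
  have h6 : 0 < ((n : ℝ) - 1) * s t ^ 8 := by positivity
  nlinarith

/-- `g = (√G)^(n-2)` -/
noncomputable def g (n : ℕ) (t : ℝ) : ℝ := Real.sqrt (G n t) ^ (n - 2)

lemma g_pos (hn : 3 ≤ n) {t : ℝ} (ht : 0 < t) : 0 < g n t :=
  pow_pos (Real.sqrt_pos.2 (G_pos hn ht)) _

lemma hasDerivAt_g (hn : 3 ≤ n) {t : ℝ} (ht : 0 < t) :
    HasDerivAt (g n) (((n : ℝ) - 2) / 2 * L n t * g n t) t := by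
  have hG := G_pos hn ht
  have h1 := ((hasDerivAt_G n ht).sqrt hG.ne').pow (n - 2)
  refine h1.congr_deriv ?_
  have hs : Real.sqrt (G n t) ≠ 0 := (Real.sqrt_pos.2 hG).ne'
  obtain ⟨m, rfl⟩ : ∃ m, n = m + 3 := ⟨n - 3, by omega⟩
  have e1 : m + 3 - 2 = m + 1 := by omega
  have e3 : m + 1 - 1 = m := by omega
  rw [L, g, e1, e3]
  push_cast
  have e2 : G (m + 3) t = Real.sqrt (G (m + 3) t) * Real.sqrt (G (m + 3) t) :=
    (Real.mul_self_sqrt hG.le).symm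
  conv_rhs => rw [e2]
  rw [Real.sqrt_mul_self (Real.sqrt_nonneg _)]
  field_simp
  ring

/-- `p` -/
noncomputable def p (n : ℕ) (t : ℝ) : ℝ :=
  ((n : ℝ) - 1) * s t + 3 * ((n : ℝ) - 2) / 4 * L n t * s t ^ 3 - 15 / 4 * s t ^ 5

/-- `q` -/
noncomputable def q (n : ℕ) (t : ℝ) : ℝ :=
  (s t - ((n : ℝ) - 2) / 2 * L n t / s t - 3 / 2 * p n t * s t ^ 2) / ((n : ℝ) - 1)

lemma abs_p_le (hn : 3 ≤ n) {t : ℝ} (ht : 1 ≤ t) : |p n t| ≤ 5 * n * s t := by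
  have ht0 : 0 < t := by linarith
  have h1 := s_pos ht0
  have h2 := one_le_n hn
  have h3 := s_le_one ht
  have h4 := abs_L_le hn ht0
  rw [p]
  have e1 : |((n : ℝ) - 1) * s t| = ((n : ℝ) - 1) * s t := abs_of_pos (by
    have : (0:ℝ) < (n : ℝ) - 1 := by linarith
    positivity)
  have e2 : |3 * ((n : ℝ) - 2) / 4 * L n t * s t ^ 3| ≤ 15 / 4 * ((n : ℝ) - 2) * s t := by
    have : (0:ℝ) < (n : ℝ) - 2 := by linarith
    rw [abs_mul, abs_mul, abs_of_pos (by positivity : 0 < 3 * ((n : ℝ) - 2) / 4),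
      abs_of_pos (by positivity : 0 < s t ^ 3)]
    calc 3 * ((n : ℝ) - 2) / 4 * |L n t| * s t ^ 3
        ≤ 3 * ((n : ℝ) - 2) / 4 * (5 * s t ^ 2) * s t ^ 3 := by gcongr
      _ = 15 / 4 * ((n : ℝ) - 2) * s t * s t ^ 4 := by ring
      _ ≤ 15 / 4 * ((n : ℝ) - 2) * s t * 1 := by
          gcongr
          exact pow_le_one₀ h1.le h3
      _ = 15 / 4 * ((n : ℝ) - 2) * s t := by ring
  have e3 : |15 / 4 * s t ^ 5| ≤ 15 / 4 * s t := by
    rw [abs_of_pos (by positivity)]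
    have : s t ^ 5 ≤ s t := by
      calc s t ^ 5 = s t ^ 4 * s t := by ring
        _ ≤ 1 * s t := by gcongr; exact pow_le_one₀ h1.le h3
        _ = s t := one_mul _
    linarith
  calc |((n : ℝ) - 1) * s t + 3 * ((n : ℝ) - 2) / 4 * L n t * s t ^ 3 - 15 / 4 * s t ^ 5|
      ≤ |((n : ℝ) - 1) * s t| + |3 * ((n : ℝ) - 2) / 4 * L n t * s t ^ 3| + |15 / 4 * s t ^ 5| := by
        refine (abs_sub _ _).trans (add_le_add_left (abs_add_le _ _) _)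
    _ ≤ ((n : ℝ) - 1) * s t + 15 / 4 * ((n : ℝ) - 2) * s t + 15 / 4 * s t := by
        rw [e1]; linarith
    _ ≤ 5 * n * s t := by nlinarith

lemma abs_q_le (hn : 3 ≤ n) {t : ℝ} (ht : 1 ≤ t) : |q n t| ≤ 11 * n * s t := by
  have ht0 : 0 < t := by linarith
  have h1 := s_pos ht0
  have h2 := one_le_n hn
  have h3 := s_le_one ht
  have h4 := abs_L_le hn ht0
  have h5 := abs_p_le hn ht
  have hn1 : (1:ℝ) ≤ (n : ℝ) - 1 := by linarith
  have hn2 : (0:ℝ) < (n : ℝ) - 2 := by linarith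
  rw [q, abs_div, abs_of_pos (by linarith : (0:ℝ) < (n : ℝ) - 1)]
  have e2 : |((n : ℝ) - 2) / 2 * L n t / s t| ≤ 5 / 2 * ((n : ℝ) - 2) * s t := by
    rw [abs_div, abs_mul, abs_of_pos (by positivity : 0 < ((n : ℝ) - 2) / 2), abs_of_pos h1,
      div_le_iff₀ h1]
    calc ((n : ℝ) - 2) / 2 * |L n t| ≤ ((n : ℝ) - 2) / 2 * (5 * s t ^ 2) := by gcongr
      _ = 5 / 2 * ((n : ℝ) - 2) * s t * s t := by ring
  have e3 : |3 / 2 * p n t * s t ^ 2| ≤ 15 / 2 * n * s t := by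
    rw [abs_mul, abs_mul, abs_of_pos (by norm_num : (0:ℝ) < 3 / 2),
      abs_of_pos (by positivity : 0 < s t ^ 2)]
    calc 3 / 2 * |p n t| * s t ^ 2 ≤ 3 / 2 * (5 * n * s t) * 1 := by
          gcongr
          exact pow_le_one₀ h1.le h3
      _ = 15 / 2 * n * s t := by ring
  have e4 : |s t - ((n : ℝ) - 2) / 2 * L n t / s t - 3 / 2 * p n t * s t ^ 2|
      ≤ 11 * n * s t := by
    calc |s t - ((n : ℝ) - 2) / 2 * L n t / s t - 3 / 2 * p n t * s t ^ 2|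
        ≤ |s t| + |((n : ℝ) - 2) / 2 * L n t / s t| + |3 / 2 * p n t * s t ^ 2| :=
          (abs_sub _ _).trans (add_le_add_left (abs_sub _ _) _)
      _ ≤ s t + 5 / 2 * ((n : ℝ) - 2) * s t + 15 / 2 * n * s t := by
          rw [abs_of_pos h1]; linarith
      _ ≤ 11 * n * s t := by nlinarith
  calc |s t - ((n : ℝ) - 2) / 2 * L n t / s t - 3 / 2 * p n t * s t ^ 2| / ((n : ℝ) - 1)
      ≤ |s t - ((n : ℝ) - 2) / 2 * L n t / s t - 3 / 2 * p n t * s t ^ 2| / 1 := by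
        gcongr
    _ ≤ 11 * n * s t := by rw [div_one]; exact e4

lemma sqrt_G_le (hn : 3 ≤ n) {t : ℝ} (ht : 1 ≤ t) : Real.sqrt (G n t) ≤ (n + 2) * s t ^ 2 := by
  have ht0 : 0 < t := by linarith
  have h1 := s_pos ht0
  have h2 := one_le_n hn
  have h3 := s_le_one ht
  apply Real.sqrt_le_iff.2
  refine ⟨by positivity, ?_⟩
  rw [G]
  have e1 : s t ^ 10 ≤ s t ^ 4 := pow_le_pow_of_le_one h1.le h3 (by norm_num)
  have e2 : s t ^ 6 ≤ s t ^ 4 := pow_le_pow_of_le_one h1.le h3 (by norm_num)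
  have e3 : ((n : ℝ) - 1) * s t ^ 6 ≤ ((n : ℝ) - 1) * s t ^ 4 :=
    mul_le_mul_of_nonneg_left e2 (by linarith)
  have e4 : 0 < s t ^ 4 := by positivity
  calc s t ^ 4 + 9 / 4 * s t ^ 10 + ((n : ℝ) - 1) * s t ^ 6
      ≤ (1 + 9 / 4 + ((n : ℝ) - 1)) * s t ^ 4 := by linarith
    _ ≤ (n + 2) ^ 2 * s t ^ 4 := by
        apply mul_le_mul_of_nonneg_right _ e4.le
        nlinarith
    _ = ((n + 2) * s t ^ 2) ^ 2 := by ring

/-! ### The profiles of the fluxes -/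

/-- `Φ = g s²` -/
noncomputable def Phi (n : ℕ) (t : ℝ) : ℝ := g n t * s t ^ 2
/-- `Φ'` -/
noncomputable def dPhi (n : ℕ) (t : ℝ) : ℝ := g n t * (((n : ℝ) - 2) / 2 * L n t * s t ^ 2 - s t ^ 4)
/-- `A` -/
noncomputable def A (n : ℕ) (t : ℝ) : ℝ := g n t * (3 / 2 * s t ^ 5 - s t ^ 3)
/-- `A'` -/
noncomputable def dA (n : ℕ) (t : ℝ) : ℝ :=
  g n t * (((n : ℝ) - 2) / 2 * L n t * (3 / 2 * s t ^ 5 - s t ^ 3)
    + (-(15 / 4) * s t ^ 7 + 3 / 2 * s t ^ 5))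
/-- `B` -/
noncomputable def B (n : ℕ) (t : ℝ) : ℝ := g n t * s t ^ 3
/-- `B'` -/
noncomputable def dB (n : ℕ) (t : ℝ) : ℝ :=
  g n t * (((n : ℝ) - 2) / 2 * L n t * s t ^ 3 - 3 / 2 * s t ^ 5)

lemma hasDerivAt_Phi (hn : 3 ≤ n) {t : ℝ} (ht : 0 < t) : HasDerivAt (Phi n) (dPhi n t) t := by
  have h := (hasDerivAt_g hn ht).mul (hasDerivAt_s_pow ht 2)
  refine h.congr_deriv ?_
  rw [dPhi]; push_cast; ring

lemma hasDerivAt_A (hn : 3 ≤ n) {t : ℝ} (ht : 0 < t) : HasDerivAt (A n) (dA n t) t := by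
  have h := (hasDerivAt_g hn ht).mul (((hasDerivAt_s_pow ht 5).const_mul (3 / 2)).sub
    (hasDerivAt_s_pow ht 3))
  refine h.congr_deriv ?_
  rw [dA]; simp only [Pi.sub_apply]; push_cast; ring

lemma hasDerivAt_B (hn : 3 ≤ n) {t : ℝ} (ht : 0 < t) : HasDerivAt (B n) (dB n t) t := by
  have h := (hasDerivAt_g hn ht).mul (hasDerivAt_s_pow ht 3)
  refine h.congr_deriv ?_
  rw [dB]; push_cast; ring

/-- first algebraic identity -/
lemma ident_p (n : ℕ) (t : ℝ) :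
    p n t * Phi n t = dA n t + dB n t + ((n : ℝ) - 1) * B n t := by
  rw [p, Phi, dA, dB, B]
  ring

/-- second algebraic identity -/
lemma ident_q (hn : 3 ≤ n) {t : ℝ} (ht : 0 < t) :
    p n t * (A n t + B n t) + ((n : ℝ) - 1) * q n t * B n t = - dPhi n t := by
  have h2 := one_le_n hn
  have h3 : (n : ℝ) - 1 ≠ 0 := by
    have : (0:ℝ) < (n : ℝ) - 1 := by linarith
    exact this.ne'
  have h1 := (s_pos ht).ne'
  have e : ((n : ℝ) - 1) * q n t = s t - ((n : ℝ) - 2) / 2 * L n t / s t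
      - 3 / 2 * p n t * s t ^ 2 := by
    rw [q]; field_simp
  rw [e, A, B, dPhi]
  field_simp
  ring

end Pool.Agent.Helper566.Profile
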