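import Pool.Agent.Helper566.Cutoff

open MeasureTheory Set Filter Topology Metric
open scoped RealInnerProductSpace ContDiff

namespace Pool.Agent.Helper566.Removable
open Pool.Agent.Helper566.Cutoff

variable {E : Type*} [NormedAddCommGroup E] [InnerProductSpace ℝ E] [FiniteDimensional ℝ E]
  [MeasurableSpace E] [BorelSpace E] [Nontrivial E]

lemma tsupport_mul_eta {φ : E → ℝ} (hs : tsupport φ ⊆ ball 0 1) (k : ℕ) :
    tsupport (fun x => φ x * eta k x) ⊆ ball 0 1 \ {0} := by
  intro x hx
  refine ⟨hs (tsupport_mul_subset_left hx), ?_⟩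
  intro h0
  rw [mem_singleton_iff] at h0
  subst h0
  revert hx
  rw [imp_false, notMem_tsupport_iff_eventuallyEq]
  have : ball (0 : E) (((k : ℝ) + 1)⁻¹) ∈ 𝓝 (0 : E) := ball_mem_nhds _ (by positivity)
  filter_upwards [this] with y hy
  rw [mem_ball_zero_iff] at hy
  simp [eta_eq_zero_near k y hy]

/-- Removable singularity at the origin for divergence identities. -/
theorem removable {ι : Type*} [Fintype ι] (e : ι → E) {F : ι → E → ℝ} {f : E → ℝ}
    (hF : ∀ α, ContDiffOn ℝ 1 (F α) (ball 0 1 \ {0}))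
    (hFi : ∀ α, IntegrableOn (fun x => ‖x‖⁻¹ * F α x) (ball 0 1))
    (hf : IntegrableOn f (ball 0 1))
    (hdiv : ∀ x ∈ (ball (0 : E) 1 \ {0}), ∑ α, fderiv ℝ (F α) x (e α) = f x)
    {φ : E → ℝ} (hφ : ContDiff ℝ ∞ φ) (hc : HasCompactSupport φ) (hs : tsupport φ ⊆ ball 0 1) :
    ∫ x in ball 0 1, ∑ α, F α x * fderiv ℝ φ x (e α) = - ∫ x in ball 0 1, f x * φ x := by
  obtain ⟨C, hC0, hC⟩ := exists_bound_deriv_smoothTransition
  have hU : IsOpen (ball (0 : E) 1 \ {0}) := isOpen_ball.sdiff isClosed_singleton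
  have hφ1 : ContDiff ℝ 1 φ := hφ.of_le (by simp)
  have hae0 : ∀ᵐ x ∂(volume.restrict (ball (0 : E) 1)), x ≠ 0 := by
    apply ae_restrict_of_ae
    have h0 : volume ({(0 : E)} : Set E) = 0 := measure_singleton 0
    filter_upwards [compl_mem_ae_iff.2 h0] with x hx
    exact hx
  have hIn : ∀ᵐ x ∂(volume.restrict (ball (0 : E) 1)), x ∈ ball (0 : E) 1 :=
    ae_restrict_mem measurableSet_ball
  -- integrability of F
  have hFi' : ∀ α, IntegrableOn (F α) (ball 0 1) := by
    intro α
    have h1 : IntegrableOn (fun x => ‖x‖ * (‖x‖⁻¹ * F α x)) (ball 0 1) := by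
      refine Integrable.bdd_mul (c := 1) (hFi α) continuous_norm.aestronglyMeasurable ?_
      filter_upwards [hIn] with x hx
      rw [norm_norm]
      exact (mem_ball_zero_iff.1 hx).le
    refine h1.congr ?_
    filter_upwards [hae0] with x hx
    rw [← mul_assoc, mul_inv_cancel₀ (norm_ne_zero_iff.2 hx), one_mul]
  -- bounds on φ and its derivatives
  obtain ⟨M, hM⟩ : ∃ M : ℝ, ∀ x, ‖φ x‖ ≤ M :=
    hc.exists_bound_of_continuous hφ.continuous
  have hM0 : 0 ≤ M := (norm_nonneg _).trans (hM 0)
  have hcd : ∀ α, Continuous (fun x => fderiv ℝ φ x (e α)) := fun α =>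
    (hφ1.continuous_fderiv one_ne_zero).clm_apply continuous_const
  have hcc : ∀ α, HasCompactSupport (fun x => fderiv ℝ φ x (e α)) := fun α =>
    hc.of_isClosed_subset (isClosed_tsupport _) (tsupport_fderiv_apply_subset' _)
  have hMd : ∀ α, ∃ M : ℝ, ∀ x, ‖fderiv ℝ φ x (e α)‖ ≤ M := fun α =>
    (hcc α).exists_bound_of_continuous (hcd α)
  choose Md hMd using hMd
  -- the identity for φ η_k
  have key : ∀ k : ℕ, ∫ x in ball 0 1, ((∑ α, F α x * (fderiv ℝ φ x (e α) * eta k x))
      + ∑ α, F α x * (φ x * fderiv ℝ (eta k) x (e α)))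
      = - ∫ x in ball 0 1, f x * (φ x * eta k x) := by
    intro k
    set ψ : E → ℝ := fun x => φ x * eta k x with hψ
    have hψ1 : ContDiff ℝ 1 ψ := hφ1.mul ((contDiff_eta k).of_le (by simp))
    have hψc : HasCompactSupport ψ := hc.mul_right
    have hψs : tsupport ψ ⊆ ball 0 1 \ {0} := tsupport_mul_eta hs k
    have h1 : ∀ α, ∫ x, F α x * fderiv ℝ ψ x (e α) = - ∫ x, fderiv ℝ (F α) x (e α) * ψ x :=
      fun α => ibp_const (μ := volume) (e α) hU (hF α) hψ1 hψc hψs
    have hi1 : ∀ α, Integrable (fun x => F α x * fderiv ℝ ψ x (e α)) := fun α =>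
      integrable_mul_aux hU (hF α).continuousOn
        ((hψ1.continuous_fderiv one_ne_zero).clm_apply continuous_const)
        (hψc.of_isClosed_subset (isClosed_tsupport _) (tsupport_fderiv_apply_subset' _))
        ((tsupport_fderiv_apply_subset' _).trans hψs)
    have hi2 : ∀ α, Integrable (fun x => fderiv ℝ (F α) x (e α) * ψ x) := fun α =>
      integrable_mul_aux hU
        (((hF α).continuousOn_fderiv_of_isOpen hU le_rfl).clm_apply continuousOn_const)
        hψ1.continuous hψc hψs
    have h2 : ∫ x, ∑ α, F α x * fderiv ℝ ψ x (e α) = - ∫ x, (∑ α, fderiv ℝ (F α) x (e α)) * ψ x := by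
      rw [integral_finsetSum _ (fun α _ => hi1 α), Finset.sum_congr rfl (fun α _ => h1 α),
        Finset.sum_neg_distrib, ← integral_finsetSum _ (fun α _ => hi2 α)]
      simp only [Finset.sum_mul]
    have h3 : ∫ x in ball 0 1, ∑ α, F α x * fderiv ℝ ψ x (e α)
        = ∫ x, ∑ α, F α x * fderiv ℝ ψ x (e α) := by
      apply setIntegral_eq_integral_of_forall_compl_eq_zero
      intro x hx
      have hx' : x ∉ tsupport ψ := fun h => hx (hψs h).1
      have : ∀ α, fderiv ℝ ψ x (e α) = 0 := fun α =>
        image_eq_zero_of_notMem_tsupport (f := fun x => fderiv ℝ ψ x (e α))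
          (fun h => hx' (tsupport_fderiv_apply_subset' _ h))
      simp [this]
    have h4 : ∫ x in ball 0 1, f x * ψ x = ∫ x, (∑ α, fderiv ℝ (F α) x (e α)) * ψ x := by
      rw [← setIntegral_eq_integral_of_forall_compl_eq_zero (s := ball (0 : E) 1)
        (f := fun x => (∑ α, fderiv ℝ (F α) x (e α)) * ψ x)]
      · apply integral_congr_ae
        filter_upwards [hIn, hae0] with x hx hx0
        rw [hdiv x ⟨hx, hx0⟩]
      · intro x hx
        have hx' : x ∉ tsupport ψ := fun h => hx (hψs h).1
        simp [image_eq_zero_of_notMem_tsupport hx']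
    rw [h4, ← h2, ← h3]
    apply integral_congr_ae
    filter_upwards with x
    rw [← Finset.sum_add_distrib]
    refine Finset.sum_congr rfl fun α _ => ?_
    have hd1 : DifferentiableAt ℝ φ x := hφ1.differentiable one_ne_zero x
    have hd2 : DifferentiableAt ℝ (eta k : E → ℝ) x :=
      (contDiff_eta k).differentiable (by simp) x
    rw [hψ, fderiv_fun_mul hd1 hd2]
    simp
    ring
  -- limits
  have hFm : ∀ α, AEStronglyMeasurable (F α) (volume.restrict (ball (0 : E) 1)) := fun α =>
    (hFi' α).aestronglyMeasurable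
  have hetac : ∀ k, Continuous (eta k : E → ℝ) := fun k => (contDiff_eta k).continuous
  have hdetac : ∀ k α, Continuous (fun x => fderiv ℝ (eta k : E → ℝ) x (e α)) := fun k α =>
    ((contDiff_eta k).continuous_fderiv (by simp)).clm_apply continuous_const
  have lim1 : Tendsto (fun k : ℕ => ∫ x in ball 0 1, ((∑ α, F α x * (fderiv ℝ φ x (e α) * eta k x))
      + ∑ α, F α x * (φ x * fderiv ℝ (eta k) x (e α)))) atTop
      (𝓝 (∫ x in ball 0 1, ∑ α, F α x * fderiv ℝ φ x (e α))) := by
    apply tendsto_integral_of_dominated_convergence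
      (fun x => (∑ α, |F α x| * Md α) + ∑ α, M * (4 * C * ‖e α‖) * |‖x‖⁻¹ * F α x|)
    · intro k
      apply AEStronglyMeasurable.add
      · refine Finset.aestronglyMeasurable_fun_sum _ fun α _ => ?_
        exact (hFm α).mul ((hcd α).mul (hetac k)).aestronglyMeasurable
      · refine Finset.aestronglyMeasurable_fun_sum _ fun α _ => ?_
        exact (hFm α).mul (hφ.continuous.mul (hdetac k α)).aestronglyMeasurable
    · apply Integrable.add
      · exact integrable_finsetSum _ fun α _ => (hFi' α).abs.mul_const _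
      · exact integrable_finsetSum _ fun α _ => (hFi α).abs.const_mul _
    · intro k
      filter_upwards with x
      rw [Real.norm_eq_abs]
      refine (abs_add_le _ _).trans (add_le_add ?_ ?_)
      · refine (Finset.abs_sum_le_sum_abs _ _).trans (Finset.sum_le_sum fun α _ => ?_)
        rw [abs_mul, abs_mul, abs_of_nonneg (eta_nonneg k x)]
        refine mul_le_mul_of_nonneg_left ?_ (abs_nonneg _)
        calc |fderiv ℝ φ x (e α)| * eta k x ≤ |fderiv ℝ φ x (e α)| * 1 :=
              mul_le_mul_of_nonneg_left (eta_le_one k x) (abs_nonneg _)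
          _ ≤ Md α := by rw [mul_one]; exact hMd α x
      · refine (Finset.abs_sum_le_sum_abs _ _).trans (Finset.sum_le_sum fun α _ => ?_)
        rw [abs_mul, abs_mul, abs_mul, abs_of_nonneg (inv_nonneg.2 (norm_nonneg x))]
        have h1 := abs_fderiv_eta_le hC0 hC k x (e α)
        calc |F α x| * (|φ x| * |fderiv ℝ (eta k) x (e α)|)
            ≤ |F α x| * (M * (4 * C * ‖e α‖ * ‖x‖⁻¹)) := by
              apply mul_le_mul_of_nonneg_left _ (abs_nonneg _)
              exact mul_le_mul (hM x) h1 (abs_nonneg _) hM0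
          _ = M * (4 * C * ‖e α‖) * (‖x‖⁻¹ * |F α x|) := by ring
    · filter_upwards [hae0] with x hx
      have e1 : Tendsto (fun k : ℕ => ∑ α, F α x * (fderiv ℝ φ x (e α) * eta k x)) atTop
          (𝓝 (∑ α, F α x * (fderiv ℝ φ x (e α) * 1))) :=
        tendsto_finsetSum _ fun α _ => (tendsto_const_nhds.mul ((tendsto_eta hx))).const_mul _
      have e2 : Tendsto (fun k : ℕ => ∑ α, F α x * (φ x * fderiv ℝ (eta k) x (e α))) atTop
          (𝓝 (∑ α : ι, F α x * (φ x * 0))) :=
        tendsto_finsetSum _ fun α _ =>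
          (tendsto_const_nhds.mul (tendsto_fderiv_eta hx (e α))).const_mul _
      simpa using e1.add e2
  have lim2 : Tendsto (fun k : ℕ => - ∫ x in ball 0 1, f x * (φ x * eta k x)) atTop
      (𝓝 (- ∫ x in ball 0 1, f x * φ x)) := by
    apply Tendsto.neg
    apply tendsto_integral_of_dominated_convergence (fun x => |f x| * M)
    · intro k
      exact hf.aestronglyMeasurable.mul (hφ.continuous.mul (hetac k)).aestronglyMeasurable
    · exact hf.abs.mul_const _
    · intro k
      filter_upwards with x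
      rw [Real.norm_eq_abs, abs_mul, abs_mul, abs_of_nonneg (eta_nonneg k x)]
      refine mul_le_mul_of_nonneg_left ?_ (abs_nonneg _)
      calc |φ x| * eta k x ≤ |φ x| * 1 :=
            mul_le_mul_of_nonneg_left (eta_le_one k x) (abs_nonneg _)
        _ ≤ M := by rw [mul_one]; exact hM x
    · filter_upwards [hae0] with x hx
      have := ((tendsto_eta hx).const_mul (φ x)).const_mul (f x)
      simpa using this
  have : (fun k : ℕ => ∫ x in ball 0 1, ((∑ α, F α x * (fderiv ℝ φ x (e α) * eta k x))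
      + ∑ α, F α x * (φ x * fderiv ℝ (eta k) x (e α))))
      = fun k : ℕ => - ∫ x in ball 0 1, f x * (φ x * eta k x) := funext key
  rw [this] at lim1
  exact tendsto_nhds_unique lim1 lim2

end Pool.Agent.Helper566.Removable
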